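import Pool.Agent.H53.ATPR.Spec

set_option autoImplicit false

open Filter
open scoped Topology

namespace Pool.Agent.H53.ATPR

namespace BasAux

/-- Third cumulant type sum. -/
noncomputable def ws (y : ℕ → ℕ → ℝ) (n : ℕ) (x : ℝ) : ℝ :=
  ∑ i ∈ Finset.range n, y n i * x * (1 - y n i * x) / (1 + y n i * x) ^ 3

theorem hd1 {a x : ℝ} (ha : 0 < a) (hx : 0 < x) :
    HasDerivAt (fun t : ℝ => a * t / (1 + a * t)) (a * x / (1 + a * x) ^ 2 / x) x := by
  have h1 : HasDerivAt (fun t : ℝ => a * t) a x := by simpa using (hasDerivAt_id x).const_mul a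
  have h2 : HasDerivAt (fun t : ℝ => 1 + a * t) a x := by simpa using h1.const_add 1
  have h0 : (1 + a * x) ≠ 0 := by positivity
  refine (h1.fun_div h2 h0).congr_deriv ?_
  field_simp
  ring

theorem hd2 {a x : ℝ} (ha : 0 < a) (hx : 0 < x) :
    HasDerivAt (fun t : ℝ => a * t / (1 + a * t) ^ 2)
      (a * x * (1 - a * x) / (1 + a * x) ^ 3 / x) x := by
  have h1 : HasDerivAt (fun t : ℝ => a * t) a x := by simpa using (hasDerivAt_id x).const_mul a
  have h2 : HasDerivAt (fun t : ℝ => 1 + a * t) a x := by simpa using h1.const_add 1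
  have h0 : (1 + a * x) ≠ 0 := by positivity
  have h3 : HasDerivAt (fun t : ℝ => (1 + a * t) ^ 2) (2 * (1 + a * x) * a) x := by
    have := h2.fun_pow 2
    simpa using this
  refine (h1.fun_div h3 (pow_ne_zero 2 h0)).congr_deriv ?_
  field_simp
  ring

variable {y : ℕ → ℕ → ℝ}

theorem hms (hy : ∀ n i, 0 < y n i) (n : ℕ) {x : ℝ} (hx : 0 < x) :
    HasDerivAt (fun t => ms y n t) (vs y n x / x) x := by
  unfold ms vs
  rw [Finset.sum_div]
  exact HasDerivAt.fun_sum fun i _ => hd1 (hy n i) hx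

theorem hvs (hy : ∀ n i, 0 < y n i) (n : ℕ) {x : ℝ} (hx : 0 < x) :
    HasDerivAt (fun t => vs y n t) (ws y n x / x) x := by
  unfold vs ws
  rw [Finset.sum_div]
  exact HasDerivAt.fun_sum fun i _ => hd2 (hy n i) hx

theorem vs_nonneg (hy : ∀ n i, 0 < y n i) (n : ℕ) {x : ℝ} (hx : 0 < x) : 0 ≤ vs y n x :=
  Finset.sum_nonneg fun i _ => by
    have := hy n i
    positivity

theorem vs_pos (hy : ∀ n i, 0 < y n i) (n : ℕ) (hn : 1 ≤ n) {x : ℝ} (hx : 0 < x) :
    0 < vs y n x :=
  Finset.sum_pos (fun i _ => by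
    have := hy n i
    positivity) ⟨0, Finset.mem_range.2 hn⟩

theorem vs_le_ms (hy : ∀ n i, 0 < y n i) (n : ℕ) {x : ℝ} (hx : 0 < x) :
    vs y n x ≤ ms y n x := by
  refine Finset.sum_le_sum fun i _ => ?_
  have h := hy n i
  have h1 : 0 < y n i * x := by positivity
  have h2 : (1 : ℝ) + y n i * x ≤ (1 + y n i * x) ^ 2 := by nlinarith
  exact div_le_div_of_nonneg_left h1.le (by positivity) h2

theorem vs_le_sub (hy : ∀ n i, 0 < y n i) (n : ℕ) {x : ℝ} (hx : 0 < x) :
    vs y n x + ms y n x ≤ n := by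
  unfold vs ms
  rw [← Finset.sum_add_distrib]
  calc _ ≤ ∑ _i ∈ Finset.range n, (1 : ℝ) := by
        refine Finset.sum_le_sum fun i _ => ?_
        have h := hy n i
        have h1 : 0 < y n i * x := by positivity
        have h0 : (0 : ℝ) < 1 + y n i * x := by positivity
        rw [div_add_div _ _ (by positivity) (by positivity), div_le_one (by positivity)]
        nlinarith [mul_pos h1 h0, pow_pos h0 2, pow_pos h0 3]
    _ = n := by simp

theorem four_vs (hy : ∀ n i, 0 < y n i) (n : ℕ) {x : ℝ} (hx : 0 < x) :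
    4 * vs y n x ≤ n := by
  unfold vs
  rw [Finset.mul_sum]
  calc _ ≤ ∑ _i ∈ Finset.range n, (1 : ℝ) := by
        refine Finset.sum_le_sum fun i _ => ?_
        have h := hy n i
        have h1 : 0 < y n i * x := by positivity
        have h0 : (0 : ℝ) < 1 + y n i * x := by positivity
        rw [← mul_div_assoc, div_le_one (by positivity)]
        nlinarith [sq_nonneg (1 - y n i * x)]
    _ = n := by simp

theorem ws_abs (hy : ∀ n i, 0 < y n i) (n : ℕ) {x : ℝ} (hx : 0 < x) :
    |ws y n x| ≤ vs y n x := by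
  unfold ws vs
  refine (Finset.abs_sum_le_sum_abs _ _).trans (Finset.sum_le_sum fun i _ => ?_)
  have h := hy n i
  have h1 : 0 < y n i * x := by positivity
  have h0 : (0 : ℝ) < 1 + y n i * x := by positivity
  have h2 : |1 - y n i * x| ≤ 1 + y n i * x := abs_le.2 ⟨by linarith, by linarith⟩
  rw [abs_div, abs_mul, abs_of_pos h1, abs_of_pos (pow_pos h0 3),
    div_le_div_iff₀ (pow_pos h0 3) (pow_pos h0 2)]
  have h3 := mul_le_mul_of_nonneg_left h2 (mul_nonneg h1.le (pow_pos h0 2).le)
  nlinarith [h3]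

end BasAux

open BasAux

theorem bas : MeanSt → BasSt := by
  intro hM r hr y hy n x hx
  obtain ⟨-, hstep, -⟩ := hM r (by omega) y hy
  have hy' := hy.1
  have hr' : (2 : ℝ) ≤ r := by exact_mod_cast hr
  have hn : (0 : ℝ) ≤ n := Nat.cast_nonneg n
  have hV0 := vs_nonneg hy' n hx
  have hVm := vs_le_ms hy' n hx
  have hVn := vs_le_sub hy' n hx
  have h4V := four_vs hy' n hx
  have hc : 2 * ((n : ℝ) + 1) ≤ (r : ℝ) * (n + 1) := by nlinarith
  have hB6 : ((n : ℝ) + 1) * x ≤ B0 r y n x := by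
    unfold B0
    nlinarith [mul_nonneg hx.le hV0, mul_nonneg hx.le (sub_nonneg.2 hVn),
      mul_nonneg hx.le (sub_nonneg.2 hc)]
  have hB7 : |1 - x| * vs y n x ≤ B0 r y n x := by
    unfold B0
    rcases le_total x 1 with h | h
    · rw [abs_of_nonneg (by linarith)]
      nlinarith [mul_nonneg hx.le (sub_nonneg.2 hVn), mul_nonneg hx.le hV0,
        mul_nonneg hx.le (sub_nonneg.2 hc), mul_nonneg hx.le hn]
    · rw [abs_of_nonpos (by linarith)]
      nlinarith [mul_nonneg hx.le (sub_nonneg.2 hVn), mul_nonneg hx.le hV0,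
        mul_nonneg hx.le (sub_nonneg.2 hc), mul_nonneg hx.le hn,
        mul_nonneg hx.le (sub_nonneg.2 h4V)]
  have hB8 : B0 r y n x ≤ R0 r y n x := by
    unfold B0 R0
    nlinarith [mul_nonneg hx.le hV0]
  have hR9 : 1 + x ≤ R0 r y n x := by
    unfold R0
    nlinarith [mul_nonneg hx.le (sub_nonneg.2 hVn), mul_nonneg hx.le hV0,
        mul_nonneg hx.le (sub_nonneg.2 hc), mul_nonneg hx.le hn]
  have hR10 : R0 r y n x ≤ (r : ℝ) * (n + 1) * (1 + x) := by
    unfold R0
    nlinarith [mul_nonneg hx.le (hV0.trans hVm)]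
  have hR0 : 0 < R0 r y n x := by linarith
  have hB0 : 0 ≤ B0 r y n x := le_trans (by positivity) hB6
  have hmu0 : 0 ≤ mu r y n x := div_nonneg hB0 hR0.le
  have hmu1 : mu r y n x ≤ 1 := (div_le_one hR0).2 hB8
  refine ⟨hV0, hVm, by linarith, h4V, fun h => vs_pos hy' n h hx, hB6, hB7, hB8, hR9, hR10, ?_, ?_⟩
  · have h := hstep n x hx
    unfold R0
    rw [h]
    push_cast
    nlinarith [mul_nonneg hx.le (sub_nonneg.2 hmu1), mul_nonneg hx.le hmu0,
      mul_nonneg hx.le (sub_nonneg.2 hr')]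
  · -- derivative
    have hdR : HasDerivAt (fun t => R0 r y n t) (B0 r y n x / x) x := by
      have h1 := (hms hy' n hx).const_add 1
      have h2 := ((hms hy' n hx).const_sub ((r : ℝ) * (n + 1))).fun_mul (hasDerivAt_id' x)
      have h3 := h1.fun_add h2
      unfold R0 B0
      refine h3.congr_deriv ?_
      field_simp
      ring
    have hdB : HasDerivAt (fun t => B0 r y n t)
        ((((r : ℝ) * (n + 1) - ms y n x) * x - 2 * x * vs y n x + (1 - x) * ws y n x) / x) x := by
      have h2 := ((hms hy' n hx).const_sub ((r : ℝ) * (n + 1))).fun_mul (hasDerivAt_id' x)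
      have h3 := ((hasDerivAt_id' x).const_sub 1).fun_mul (hvs hy' n hx)
      have h4 := h2.fun_add h3
      unfold B0
      refine h4.congr_deriv ?_
      field_simp
      ring
    have hdm : HasDerivAt (fun t => ms y n t + B0 r y n t / R0 r y n t)
        (vs y n x / x + ((((r : ℝ) * (n + 1) - ms y n x) * x - 2 * x * vs y n x
          + (1 - x) * ws y n x) / x * R0 r y n x - B0 r y n x * (B0 r y n x / x))
            / R0 r y n x ^ 2) x :=
      (hms hy' n hx).add (hdB.div hdR hR0.ne')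
    have hev : (fun t => ms y (n + 1) t) =ᶠ[𝓝 x]
        (fun t => ms y n t + B0 r y n t / R0 r y n t) := by
      filter_upwards [lt_mem_nhds hx] with t ht
      exact hstep n t ht
    have hd2 := (hms hy' (n + 1) hx)
    have huniq := hd2.unique (hdm.congr_of_eventuallyEq hev)
    have hW := abs_le.1 (ws_abs hy' n hx)
    set N := ((r : ℝ) * (n + 1) - ms y n x) * x - 2 * x * vs y n x + (1 - x) * ws y n x with hN
    have hNb : -(3 * R0 r y n x) ≤ N := by
      rw [hN]
      unfold R0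
      have hx1 : -(vs y n x * (1 + x)) ≤ (1 - x) * ws y n x := by
        nlinarith [mul_nonneg hx.le (sub_nonneg.2 hW.1), mul_nonneg hx.le (sub_nonneg.2 hW.2)]
      nlinarith [mul_nonneg hx.le (sub_nonneg.2 hVn), mul_nonneg hx.le hV0,
        mul_nonneg hx.le (sub_nonneg.2 hc), mul_nonneg hx.le hn]
    have hval : vs y (n + 1) x = vs y n x + N / R0 r y n x - mu r y n x ^ 2 := by
      have h5 : vs y (n + 1) x = x * (vs y (n + 1) x / x) := by field_simp
      rw [h5, huniq]
      unfold mu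
      field_simp
      ring
    have h6 : -3 ≤ N / R0 r y n x := by
      rw [le_div_iff₀ hR0]
      linarith
    have h7 : mu r y n x ^ 2 ≤ 1 := pow_le_one₀ hmu0 hmu1
    rw [hval]
    linarith

end Pool.Agent.H53.ATPR
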