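import Pool.Agent.H53.ATPR.Spec

/-!
# Parts CHI and GP

The quotient `F(x exp(i t)) / F(x)` is the characteristic function of a sum of independent
Bernoulli variables with parameters `y x / (1 + y x)`.
-/

set_option autoImplicit false

open MeasureTheory Filter Complex
open scoped Topology Real

namespace Pool.Agent.H53.ATPR

/-- Second order Taylor bound for `exp (i u)`. -/
private theorem chi_taylor1 (u s : ℝ) (hs0 : 0 ≤ s) (hs1 : s ≤ 1) :
    ‖cexp ((u * s : ℝ) * I) - 1 - (u * s : ℝ) * I‖ ≤ u ^ 2 * s ^ 2 / 2 := by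
  have key := image_norm_le_of_norm_deriv_right_le_deriv_boundary
    (f := fun s : ℝ => cexp ((u * s : ℝ) * I) - 1 - (u * s : ℝ) * I)
    (f' := fun s : ℝ => cexp ((u * s : ℝ) * I) * (u * I) - u * I)
    (a := 0) (b := 1) (B := fun s => u ^ 2 * s ^ 2 / 2) (B' := fun s => u ^ 2 * s)
    ?_ ?_ ?_ ?_ ?_
  · exact key ⟨hs0, hs1⟩
  · apply Continuous.continuousOn
    fun_prop
  · intro z hz
    apply HasDerivAt.hasDerivWithinAt
    have h1 : HasDerivAt (fun s : ℝ => ((u * s : ℝ) : ℂ) * I) (u * I) z := by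
      have h2 : HasDerivAt (fun s : ℝ => u * s) u z := by
        simpa using (hasDerivAt_id z).const_mul u
      exact (h2.ofReal_comp).mul_const I
    have h3 := ((h1.cexp).sub_const 1).sub h1
    exact h3
  · simp
  · intro z
    have h2 : HasDerivAt (fun s : ℝ => s ^ 2) (2 * z) z := by
      simpa using hasDerivAt_pow 2 z
    exact ((h2.const_mul (u ^ 2)).div_const 2).congr_deriv (by ring)
  · intro z hz
    have h1 : cexp ((u * z : ℝ) * I) * (u * I) - u * I = (u * I) * (cexp ((u * z : ℝ) * I) - 1) := by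
      ring
    rw [h1, norm_mul]
    have h2 : ‖cexp ((u * z : ℝ) * I) - 1‖ ≤ |u * z| := by
      have := Real.norm_exp_I_mul_ofReal_sub_one_le (x := u * z)
      rw [mul_comm I] at this
      simpa using this
    have h3 : ‖(u : ℂ) * I‖ = |u| := by simp
    rw [h3]
    calc |u| * ‖cexp ((u * z : ℝ) * I) - 1‖ ≤ |u| * |u * z| :=
          mul_le_mul_of_nonneg_left h2 (abs_nonneg _)
      _ = u ^ 2 * z := by
          rw [abs_mul, abs_of_nonneg hz.1, ← mul_assoc, ← sq, sq_abs]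

/-- Third order Taylor bound for `exp (i u)`. -/
private theorem chi_taylor2 (u : ℝ) :
    ‖cexp ((u : ℝ) * I) - 1 - (u : ℝ) * I + (u ^ 2 / 2 : ℝ)‖ ≤ |u| ^ 3 / 6 := by
  have key := image_norm_le_of_norm_deriv_right_le_deriv_boundary
    (f := fun s : ℝ => cexp ((u * s : ℝ) * I) - 1 - (u * s : ℝ) * I + (u ^ 2 * s ^ 2 / 2 : ℝ))
    (f' := fun s : ℝ => cexp ((u * s : ℝ) * I) * (u * I) - u * I + (u ^ 2 * s : ℝ))
    (a := 0) (b := 1) (B := fun s => |u| ^ 3 * s ^ 3 / 6) (B' := fun s => |u| ^ 3 * s ^ 2 / 2)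
    ?_ ?_ ?_ ?_ ?_
  · have := key (x := 1) ⟨zero_le_one, le_refl _⟩
    simpa using this
  · apply Continuous.continuousOn
    fun_prop
  · intro z hz
    apply HasDerivAt.hasDerivWithinAt
    have h1 : HasDerivAt (fun s : ℝ => ((u * s : ℝ) : ℂ) * I) (u * I) z := by
      have h2 : HasDerivAt (fun s : ℝ => u * s) u z := by
        simpa using (hasDerivAt_id z).const_mul u
      exact (h2.ofReal_comp).mul_const I
    have h4 : HasDerivAt (fun s : ℝ => u ^ 2 * s ^ 2 / 2) (u ^ 2 * z) z := by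
      have h2 : HasDerivAt (fun s : ℝ => s ^ 2) (2 * z) z := by
        simpa using hasDerivAt_pow 2 z
      exact ((h2.const_mul (u ^ 2)).div_const 2).congr_deriv (by ring)
    have h3 := (((h1.cexp).sub_const 1).sub h1).add h4.ofReal_comp
    exact h3
  · simp
  · intro z
    have h2 : HasDerivAt (fun s : ℝ => s ^ 3) (3 * z ^ 2) z := by
      simpa using hasDerivAt_pow 3 z
    exact ((h2.const_mul (|u| ^ 3)).div_const 6).congr_deriv (by ring)
  · intro z hz
    have h1 : cexp ((u * z : ℝ) * I) * (u * I) - u * I + (u ^ 2 * z : ℝ) =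
        (u * I) * (cexp ((u * z : ℝ) * I) - 1 - (u * z : ℝ) * I) := by
      push_cast
      linear_combination ((u : ℂ) ^ 2 * z) * I_sq
    rw [h1, norm_mul]
    have h2 := chi_taylor1 u z hz.1 hz.2.le
    have h3 : ‖(u : ℂ) * I‖ = |u| := by simp
    rw [h3]
    calc |u| * ‖cexp ((u * z : ℝ) * I) - 1 - (u * z : ℝ) * I‖ ≤ |u| * (u ^ 2 * z ^ 2 / 2) :=
          mul_le_mul_of_nonneg_left h2 (abs_nonneg _)
      _ = |u| ^ 3 * z ^ 2 / 2 := by
          rw [← sq_abs u]; ring

/-- Norm of one Bernoulli factor. -/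
private theorem chi_norm (p t : ℝ) :
    ‖1 + (p : ℂ) * (cexp (t * I) - 1)‖ ≤ Real.exp (-(p * (1 - p) * (1 - Real.cos t))) := by
  have h1 : ‖1 + (p : ℂ) * (cexp (t * I) - 1)‖ ^ 2 = 1 - 2 * (p * (1 - p) * (1 - Real.cos t)) := by
    rw [← Complex.normSq_eq_norm_sq, Complex.normSq_apply]
    have hre : (1 + (p : ℂ) * (cexp (t * I) - 1)).re = 1 + p * (Real.cos t - 1) := by
      simp [Complex.exp_ofReal_mul_I_re]
    have him : (1 + (p : ℂ) * (cexp (t * I) - 1)).im = p * Real.sin t := by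
      simp [Complex.exp_ofReal_mul_I_im]
    rw [hre, him]
    have := Real.sin_sq_add_cos_sq t
    linear_combination p ^ 2 * this
  have h2 : ‖1 + (p : ℂ) * (cexp (t * I) - 1)‖ ^ 2 ≤
      (Real.exp (-(p * (1 - p) * (1 - Real.cos t)))) ^ 2 := by
    rw [h1, ← Real.exp_nat_mul]
    have := Real.add_one_le_exp (-(2 * (p * (1 - p) * (1 - Real.cos t))))
    have h3 : ((2 : ℕ) : ℝ) * -(p * (1 - p) * (1 - Real.cos t)) =
      -(2 * (p * (1 - p) * (1 - Real.cos t))) := by push_cast; ring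
    rw [h3]
    linarith
  exact le_of_sq_le_sq h2 (Real.exp_pos _).le

private theorem chi_exp_bd (w : ℝ) (hw : 0 ≤ w) : |1 - w - Real.exp (-w)| ≤ w ^ 2 / 2 := by
  have h1 : 1 - w ≤ Real.exp (-w) := by
    have := Real.add_one_le_exp (-w); linarith
  have h2 : Real.exp (-w) ≤ 1 - w + w ^ 2 / 2 := by
    have h3 : 1 + w + w ^ 2 / 2 ≤ Real.exp w := Real.quadratic_le_exp_of_nonneg hw
    have h4 : Real.exp (-w) * Real.exp w = 1 := by
      rw [← Real.exp_add]; simp
    have h5 : 0 < Real.exp (-w) := Real.exp_pos _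
    have h6 : (1 - w + w ^ 2 / 2) * (1 + w + w ^ 2 / 2) = 1 + w ^ 4 / 4 := by ring
    have h7 : 0 < 1 + w + w ^ 2 / 2 := by positivity
    have h8 : Real.exp (-w) * (1 + w + w ^ 2 / 2) ≤ 1 :=
      (mul_le_mul_of_nonneg_left h3 h5.le).trans h4.le
    have h9 : Real.exp (-w) * (1 + w + w ^ 2 / 2) ≤
        (1 - w + w ^ 2 / 2) * (1 + w + w ^ 2 / 2) := by
      rw [h6]; nlinarith [sq_nonneg (w ^ 2)]
    exact le_of_mul_le_mul_right h9 h7
  rw [abs_le]
  constructor <;> nlinarith [sq_nonneg w]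

/-- One factor: comparison with the Gaussian factor. -/
private theorem chi_factor (p t : ℝ) (hp0 : 0 ≤ p) (hp1 : p ≤ 1) :
    ‖(1 + (p : ℂ) * (cexp (t * I) - 1)) * cexp (-(p * t * I)) -
      (Real.exp (-(p * (1 - p) * t ^ 2 / 2)) : ℂ)‖ ≤ p * (1 - p) * (|t| ^ 3 + t ^ 4) := by
  have hq0 : 0 ≤ 1 - p := by linarith
  set w : ℝ := p * (1 - p) * t ^ 2 / 2 with hw
  have hw0 : 0 ≤ w := by positivity
  have hA := chi_taylor2 (-(p * t))
  have hB := chi_taylor2 ((1 - p) * t)
  have hC := chi_exp_bd w hw0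
  have e1 : cexp (t * I) * cexp (-(p * t * I)) = cexp (((1 - p) * t : ℝ) * I) := by
    rw [← Complex.exp_add]; congr 1; push_cast; ring
  have e2 : cexp (-(p * t * I)) = cexp ((-(p * t) : ℝ) * I) := by
    congr 1; push_cast; ring
  have e3 : (1 + (p : ℂ) * (cexp (t * I) - 1)) * cexp (-(p * t * I)) -
      (Real.exp (-w) : ℂ) =
      (1 - p : ℝ) * (cexp ((-(p * t) : ℝ) * I) - 1 - (-(p * t) : ℝ) * I + ((-(p * t)) ^ 2 / 2 : ℝ))
      + (p : ℝ) * (cexp (((1 - p) * t : ℝ) * I) - 1 - ((1 - p) * t : ℝ) * I +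
        (((1 - p) * t) ^ 2 / 2 : ℝ))
      + ((1 - w - Real.exp (-w) : ℝ) : ℂ) := by
    rw [← e1, ← e2]
    have : (w : ℂ) = p * (1 - p) * t ^ 2 / 2 := by rw [hw]; push_cast; ring
    push_cast
    rw [this]
    ring
  rw [e3]
  have n1 : ‖((1 - p : ℝ) : ℂ) * (cexp ((-(p * t) : ℝ) * I) - 1 - (-(p * t) : ℝ) * I +
      ((-(p * t)) ^ 2 / 2 : ℝ))‖ ≤ (1 - p) * ((p * |t|) ^ 3 / 6) := by
    rw [norm_mul, Complex.norm_real, Real.norm_of_nonneg hq0]
    apply mul_le_mul_of_nonneg_left _ hq0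
    have : |-(p * t)| = p * |t| := by rw [abs_neg, abs_mul, abs_of_nonneg hp0]
    rw [this] at hA
    exact hA
  have n2 : ‖((p : ℝ) : ℂ) * (cexp (((1 - p) * t : ℝ) * I) - 1 - ((1 - p) * t : ℝ) * I +
        (((1 - p) * t) ^ 2 / 2 : ℝ))‖ ≤ p * (((1 - p) * |t|) ^ 3 / 6) := by
    rw [norm_mul, Complex.norm_real, Real.norm_of_nonneg hp0]
    apply mul_le_mul_of_nonneg_left _ hp0
    have : |(1 - p) * t| = (1 - p) * |t| := by rw [abs_mul, abs_of_nonneg hq0]
    rw [this] at hB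
    exact hB
  have n3 : ‖((1 - w - Real.exp (-w) : ℝ) : ℂ)‖ ≤ w ^ 2 / 2 := by
    rw [Complex.norm_real, Real.norm_eq_abs]; exact hC
  refine (norm_add_le _ _).trans ((add_le_add ((norm_add_le _ _).trans (add_le_add n1 n2)) n3).trans ?_)
  have hT : 0 ≤ |t| ^ 3 := by positivity
  have hT4 : 0 ≤ t ^ 4 := by positivity
  have hpq : 0 ≤ p * (1 - p) := by positivity
  have b1 : (1 - p) * ((p * |t|) ^ 3 / 6) + p * (((1 - p) * |t|) ^ 3 / 6) =
      p * (1 - p) * |t| ^ 3 * ((p ^ 2 + (1 - p) ^ 2) / 6) := by ring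
  have b2 : (p ^ 2 + (1 - p) ^ 2) / 6 ≤ 1 := by nlinarith
  have b3 : w ^ 2 / 2 = p * (1 - p) * t ^ 4 * (p * (1 - p) / 8) := by rw [hw]; ring
  have b4 : p * (1 - p) / 8 ≤ 1 := by nlinarith
  rw [b1, b3]
  have c1 : p * (1 - p) * |t| ^ 3 * ((p ^ 2 + (1 - p) ^ 2) / 6) ≤ p * (1 - p) * |t| ^ 3 * 1 :=
    mul_le_mul_of_nonneg_left b2 (by positivity)
  have c2 : p * (1 - p) * t ^ 4 * (p * (1 - p) / 8) ≤ p * (1 - p) * t ^ 4 * 1 :=
    mul_le_mul_of_nonneg_left b4 (by positivity)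
  linarith

private theorem chi_prod (a b : ℕ → ℂ) (e : ℕ → ℝ) (n : ℕ) (ha : ∀ i, ‖a i‖ ≤ 1)
    (hb : ∀ i, ‖b i‖ ≤ 1) (h : ∀ i, ‖a i - b i‖ ≤ e i) :
    ‖∏ i ∈ Finset.range n, a i - ∏ i ∈ Finset.range n, b i‖ ≤ ∑ i ∈ Finset.range n, e i := by
  induction n with
  | zero => simp
  | succ n ih =>
    rw [Finset.prod_range_succ, Finset.prod_range_succ, Finset.sum_range_succ]
    have h1 : (∏ i ∈ Finset.range n, a i) * a n - (∏ i ∈ Finset.range n, b i) * b n =
        (∏ i ∈ Finset.range n, a i - ∏ i ∈ Finset.range n, b i) * b n +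
        (∏ i ∈ Finset.range n, a i) * (a n - b n) := by ring
    rw [h1]
    refine (norm_add_le _ _).trans ?_
    rw [norm_mul, norm_mul]
    have h2 : ‖∏ i ∈ Finset.range n, a i‖ ≤ 1 := by
      rw [norm_prod]
      exact Finset.prod_le_one (fun i _ => norm_nonneg _) (fun i _ => ha i)
    have h3 : ‖∏ i ∈ Finset.range n, a i - ∏ i ∈ Finset.range n, b i‖ * ‖b n‖ ≤
        (∑ i ∈ Finset.range n, e i) * 1 :=
      mul_le_mul ih (hb n) (norm_nonneg _) ((norm_nonneg _).trans ih)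
    have h4 : ‖∏ i ∈ Finset.range n, a i‖ * ‖a n - b n‖ ≤ 1 * e n :=
      mul_le_mul h2 (h n) (norm_nonneg _) zero_le_one
    linarith

/-- The quotient as a product. -/
private theorem chi_quot (r : ℕ) (y : ℕ → ℕ → ℝ) (hy : IsY r y) (n : ℕ) (x t : ℝ) (hx : 0 < x) :
    Fr r n (x * cexp (t * I)) / Fr r n x =
      ∏ i ∈ Finset.range n, (1 + ((y n i * x / (1 + y n i * x) : ℝ) : ℂ) * (cexp (t * I) - 1)) := by
  rw [hy.2, hy.2, ← Finset.prod_div_distrib]
  apply Finset.prod_congr rfl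
  intro i _
  have h1 : (0 : ℝ) < 1 + y n i * x := by have := mul_pos (hy.1 n i) hx; linarith
  have h2 : (1 + (y n i : ℂ) * x) ≠ 0 := by exact_mod_cast h1.ne'
  push_cast
  field_simp
  ring

private theorem chi_ne (r : ℕ) (y : ℕ → ℕ → ℝ) (hy : IsY r y) (n : ℕ) (x : ℝ) (hx : 0 < x) :
    Fr r n x ≠ 0 := by
  rw [hy.2, Finset.prod_ne_zero_iff]
  intro i _
  have h1 : (0 : ℝ) < 1 + y n i * x := by have := mul_pos (hy.1 n i) hx; linarith
  exact_mod_cast h1.ne'

private theorem chi_ne' (r : ℕ) (y : ℕ → ℕ → ℝ) (hy : IsY r y) (n : ℕ) (x t : ℝ) (hx : 0 < x)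
    (ht : |t| < π) : Fr r n (x * cexp (t * I)) ≠ 0 := by
  rw [hy.2, Finset.prod_ne_zero_iff]
  intro i _ h0
  have hp : 0 < y n i * x := mul_pos (hy.1 n i) hx
  have him := congrArg Complex.im h0
  have hre := congrArg Complex.re h0
  have e : (1 : ℂ) + (y n i : ℂ) * (x * cexp (t * I)) = 1 + ((y n i * x : ℝ) : ℂ) * cexp (t * I) := by
    push_cast; ring
  rw [e] at him hre
  simp only [Complex.add_im, Complex.one_im, Complex.im_ofReal_mul, Complex.exp_ofReal_mul_I_im,
    Complex.zero_im, Complex.add_re, Complex.one_re, Complex.re_ofReal_mul,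
    Complex.exp_ofReal_mul_I_re, Complex.zero_re] at him hre
  have hs : Real.sin t = 0 := by
    have : y n i * x * Real.sin t = 0 := by linarith
    exact (mul_eq_zero.mp this).resolve_left hp.ne'
  have ht0 : t = 0 := by
    rw [abs_lt] at ht
    exact (Real.sin_eq_zero_iff_of_lt_of_lt ht.1 ht.2).mp hs
  rw [ht0, Real.cos_zero] at hre
  linarith

theorem chi : ChiSt := by
  intro r _ y hy n x hx
  have hp0 : ∀ i, 0 ≤ y n i * x / (1 + y n i * x) := by
    intro i
    have := mul_pos (hy.1 n i) hx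
    positivity
  have hp1 : ∀ i, y n i * x / (1 + y n i * x) ≤ 1 := by
    intro i
    have := mul_pos (hy.1 n i) hx
    rw [div_le_one (by linarith)]
    linarith
  have hv : vs y n x = ∑ i ∈ Finset.range n,
      (y n i * x / (1 + y n i * x)) * (1 - y n i * x / (1 + y n i * x)) := by
    unfold vs
    apply Finset.sum_congr rfl
    intro i _
    have h1 : (0 : ℝ) < 1 + y n i * x := by have := mul_pos (hy.1 n i) hx; linarith
    field_simp
    ring
  refine ⟨chi_ne r y hy n x hx, ?_, ?_⟩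
  · intro t
    rw [chi_quot r y hy n x t hx, norm_prod, hv, Finset.sum_mul, ← Finset.sum_neg_distrib,
      Real.exp_sum]
    exact Finset.prod_le_prod (fun i _ => norm_nonneg _)
      (fun i _ => chi_norm _ t)
  · intro t
    have e1 : Fr r n (x * cexp (t * I)) / Fr r n x * cexp (-(ms y n x * t * I)) =
        ∏ i ∈ Finset.range n,
          ((1 + ((y n i * x / (1 + y n i * x) : ℝ) : ℂ) * (cexp (t * I) - 1)) *
          cexp (-(((y n i * x / (1 + y n i * x) : ℝ) : ℂ) * t * I))) := by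
      rw [chi_quot r y hy n x t hx, Finset.prod_mul_distrib, ← Complex.exp_sum]
      congr 2
      unfold ms
      rw [Finset.sum_neg_distrib, ← Finset.sum_mul, ← Finset.sum_mul]
      push_cast
      rfl
    have e2 : (Real.exp (-(vs y n x * t ^ 2 / 2)) : ℂ) = ∏ i ∈ Finset.range n,
        (Real.exp (-((y n i * x / (1 + y n i * x)) * (1 - y n i * x / (1 + y n i * x)) *
          t ^ 2 / 2)) : ℂ) := by
      rw [← Complex.ofReal_prod, ← Real.exp_sum, Finset.sum_neg_distrib, ← Finset.sum_div,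
        ← Finset.sum_mul, ← hv]
    rw [e1, e2, hv, Finset.sum_mul]
    apply chi_prod
    · intro i
      rw [norm_mul]
      have h1 : ‖cexp (-(((y n i * x / (1 + y n i * x) : ℝ) : ℂ) * t * I))‖ = 1 := by
        have : -(((y n i * x / (1 + y n i * x) : ℝ) : ℂ) * t * I) =
          ((-(y n i * x / (1 + y n i * x) * t) : ℝ) : ℂ) * I := by push_cast; ring
        rw [this, Complex.norm_exp_ofReal_mul_I]
      rw [h1, mul_one]
      refine (chi_norm _ t).trans ?_
      rw [Real.exp_le_one_iff]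
      have h2 : 0 ≤ 1 - Real.cos t := by linarith [Real.cos_le_one t]
      have h3 : 0 ≤ 1 - y n i * x / (1 + y n i * x) := by linarith [hp1 i]
      have := mul_nonneg (mul_nonneg (hp0 i) h3) h2
      linarith
    · intro i
      rw [Complex.norm_real, Real.norm_of_nonneg (Real.exp_pos _).le, Real.exp_le_one_iff]
      have h3 : 0 ≤ 1 - y n i * x / (1 + y n i * x) := by linarith [hp1 i]
      have := mul_nonneg (mul_nonneg (hp0 i) h3) (sq_nonneg t)
      linarith
    · intro i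
      exact chi_factor _ t (hp0 i) (hp1 i)

theorem gp : PilSt → ChiSt → GpSt := by
  intro hpil _ r _ y hy n k i x t hx ht
  rw [hpil.1]
  unfold Gi
  rw [Finset.mul_sum]
  apply Finset.sum_congr rfl
  intro a _
  have key : ∀ a : ℕ, Fr r (n + a) (x * cexp (t * I)) / Fr r (n + a) x =
      Fr r n (x * cexp (t * I)) / Fr r n x *
        ∏ c ∈ Finset.range a, (1 + eta r n x t (0 + c)) := by
    intro a
    induction a with
    | zero => simp
    | succ a ih =>
      rw [Finset.prod_range_succ, ← mul_assoc, ← ih, zero_add]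
      have h1 := chi_ne r y hy (n + a) x hx
      have h2 := chi_ne' r y hy (n + a) x t hx ht
      have h3 := chi_ne r y hy (n + a + 1) x hx
      have h4 := chi_ne' r y hy (n + a + 1) x t hx ht
      unfold eta Rz
      rw [Complex.exp_zero, mul_one, ← add_assoc]
      field_simp
      ring
  rw [key a]
  ring

end Pool.Agent.H53.ATPR
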