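import Pool.Agent.H53.ATPR.Spec
import Pool.Agent.H53.ATP.Spec

/-!
# CORE: the local limit argument assembled
-/

set_option autoImplicit false

open MeasureTheory Filter Complex
open scoped Topology Real

namespace Pool.Agent.H53.ATPR

private theorem core_det_scale (m : ℕ) (r c : Fin m → ℝ) (X : Fin m → Fin m → ℂ) :
    Matrix.det (Matrix.of fun i j : Fin m => ((r i * c j : ℝ) : ℂ) * X i j) =
      ((∏ i, (r i * c i) : ℝ) : ℂ) * Matrix.det (Matrix.of fun i j : Fin m => X i j) := by
  have h1 : (Matrix.of fun i j : Fin m => ((r i * c j : ℝ) : ℂ) * X i j) =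
      Matrix.of fun i j : Fin m => (r i : ℂ) * (Matrix.of fun i j : Fin m => (c j : ℂ) *
        (Matrix.of fun i j : Fin m => X i j) i j) i j := by
    ext i j
    simp only [Matrix.of_apply]
    push_cast
    ring
  rw [h1, Matrix.det_mul_column, Matrix.det_mul_row]
  push_cast
  rw [Finset.prod_mul_distrib]
  ring

private theorem core_mu_pos (r : ℕ) (hr : 2 ≤ r) (y : ℕ → ℕ → ℝ) (hy : IsY r y) (n : ℕ) (x : ℝ)
    (hx : 0 < x) : 0 < mu r y n x := by
  have h0 : ∀ i, 0 < y n i * x := fun i => mul_pos (hy.1 n i) hx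
  have hms0 : 0 ≤ ms y n x := by
    unfold ms
    refine Finset.sum_nonneg fun i _ => ?_
    have := h0 i
    positivity
  have hvs0 : 0 ≤ vs y n x := by
    unfold vs
    refine Finset.sum_nonneg fun i _ => ?_
    have := h0 i
    positivity
  have hsum : ms y n x + vs y n x ≤ n := by
    unfold ms vs
    rw [← Finset.sum_add_distrib]
    calc ∑ i ∈ Finset.range n, (y n i * x / (1 + y n i * x) + y n i * x / (1 + y n i * x) ^ 2)
        ≤ ∑ _i ∈ Finset.range n, (1 : ℝ) := by
          refine Finset.sum_le_sum fun i _ => ?_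
          have h1 := h0 i
          have h2 : (0 : ℝ) < 1 + y n i * x := by linarith
          rw [div_add_div _ _ h2.ne' (pow_ne_zero 2 h2.ne'), div_le_one (by positivity)]
          nlinarith [mul_pos h2 h2, mul_pos h1 h2]
      _ = n := by simp
  have hr' : (2 : ℝ) ≤ r := by exact_mod_cast hr
  have hn0 : (0 : ℝ) ≤ n := Nat.cast_nonneg n
  have hA : (n : ℝ) + 1 ≤ (r : ℝ) * (n + 1) - n := by nlinarith
  have hB : 0 < B0 r y n x := by
    unfold B0
    rcases le_total x 1 with h | h
    · have h1 : 0 ≤ (1 - x) * vs y n x := mul_nonneg (by linarith) hvs0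
      have h2 : 0 < ((r : ℝ) * (n + 1) - ms y n x) * x := mul_pos (by linarith) hx
      linarith
    · have h1 : (x - 1) * vs y n x ≤ x * ((n : ℝ) - ms y n x) := by
        have h3 : vs y n x ≤ n - ms y n x := by linarith
        calc (x - 1) * vs y n x ≤ x * vs y n x := by
              apply mul_le_mul_of_nonneg_right (by linarith) hvs0
          _ ≤ x * ((n : ℝ) - ms y n x) := mul_le_mul_of_nonneg_left h3 hx.le
      have h2 : 0 < x * ((r : ℝ) * (n + 1) - n) := mul_pos hx (by linarith)
      nlinarith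
  have hR : 0 < R0 r y n x := by
    unfold R0
    have h2 : 0 < ((r : ℝ) * (n + 1) - ms y n x) * x := mul_pos (by linarith) hx
    linarith
  exact div_pos hB hR

private theorem core_cont (r n : ℕ) (x : ℝ) (k i j : ℕ) :
    Continuous fun t : ℝ => Gi r n x k i t * (cexp (-(t * I)) - 1) ^ j := by
  unfold Gi Fr
  fun_prop

private theorem core_split (r n : ℕ) (x : ℝ) (k i j : ℕ) (t0 : ℝ) :
    HR r n x k i j = (∫ t in (-t0)..t0, Gi r n x k i t * (cexp (-(t * I)) - 1) ^ j) +
      ((∫ t in (-π)..(-t0), Gi r n x k i t * (cexp (-(t * I)) - 1) ^ j) +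
        ∫ t in t0..π, Gi r n x k i t * (cexp (-(t * I)) - 1) ^ j) := by
  have hc := core_cont r n x k i j
  have hint : ∀ a b : ℝ, IntervalIntegrable
      (fun t : ℝ => Gi r n x k i t * (cexp (-(t * I)) - 1) ^ j) volume a b :=
    fun a b => hc.intervalIntegrable a b
  unfold HR
  rw [← intervalIntegral.integral_add_adjacent_intervals (hint (-π) (-t0)) (hint (-t0) π),
    ← intervalIntegral.integral_add_adjacent_intervals (hint (-t0) t0) (hint t0 π)]
  ring

theorem core : DetRSt → LimMSt → LimTSt → Pool.Agent.H53.ATP.HanSt → CoreSt := by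
  intro hd hlm hlt hh r hr y hy m
  by_contra hcon
  push Not at hcon
  have hcon' : ∀ l : ℕ, ∃ n : ℕ, l ≤ n ∧ ∃ (k : ℕ) (x : ℝ), 0 < x ∧ ms y n x = k ∧
      (l : ℝ) ≤ vs y n x ∧ (1 / 2 ≤ x ∨ (n : ℝ) ≤ vs y n x ^ 4) ∧ solr r m n k ≤ 0 := by
    intro l
    obtain ⟨n, hn, k, x, h1, h2, h3, h4, h5⟩ := hcon (l : ℝ) l
    exact ⟨n, hn, k, x, h1, h2, h3, h4, h5⟩
  choose n hn k x hx hk hV hor hsol using hcon'
  have hseq : SeqR y n k x := by
    refine ⟨hx, hk, tendsto_atTop_mono hn tendsto_id, ?_, hor⟩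
    exact tendsto_atTop_mono hV tendsto_natCast_atTop_atTop
  -- limits of the entries
  set X : ℕ → Fin m → Fin m → ℂ := fun l i j =>
    (scl r y (n l) (x l) i j : ℂ) * HR r (n l) (x l) (k l) i j with hX
  set h : Fin m → Fin m → ℝ := fun i j =>
    (∫ v : ℝ, v ^ ((i : ℕ) + (j : ℕ)) * Real.exp (-(v ^ 2 / 2)) : ℝ) with hhdef
  have hent : ∀ i j : Fin m, Tendsto (fun l => X l i j) atTop
      (𝓝 (I ^ (i : ℕ) * (-I) ^ (j : ℕ) * (h i j : ℂ))) := by
    intro i j
    obtain ⟨t0, ht0, ht1, hM⟩ := hlm r hr y hy i j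
    have hA := hM n k x hseq
    have hB := hlt r hr y hy i j t0 ht0 ht1 n k x hseq
    have hAB := hA.add hB
    rw [add_zero] at hAB
    refine hAB.congr (fun l => ?_)
    simp only [hX]
    rw [core_split r (n l) (x l) (k l) i j t0]
    ring
  have hlim : Tendsto (fun l => Matrix.det (Matrix.of fun i j : Fin m => X l i j)) atTop
      (𝓝 (Matrix.det (Matrix.of fun i j : Fin m => I ^ (i : ℕ) * (-I) ^ (j : ℕ) * (h i j : ℂ)))) := by
    have hcont : Continuous fun A : Matrix (Fin m) (Fin m) ℂ => A.det := continuous_id.matrix_det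
    refine (hcont.tendsto _).comp ?_
    refine tendsto_pi_nhds.mpr (fun i => ?_)
    refine tendsto_pi_nhds.mpr (fun j => ?_)
    exact hent i j
  have hdlim : Matrix.det (Matrix.of fun i j : Fin m =>
      I ^ (i : ℕ) * (-I) ^ (j : ℕ) * (h i j : ℂ)) =
      ((Matrix.det (Matrix.of fun i j : Fin m => h i j) : ℝ) : ℂ) := by
    have e1 : (Matrix.of fun i j : Fin m => I ^ (i : ℕ) * (-I) ^ (j : ℕ) * (h i j : ℂ)) =
        Matrix.of fun i j : Fin m => I ^ (i : ℕ) *
          (Matrix.of fun i j : Fin m => (-I) ^ (j : ℕ) *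
            (Matrix.of fun i j : Fin m => (h i j : ℂ)) i j) i j := by
      ext i j
      simp only [Matrix.of_apply]
      ring
    rw [e1, Matrix.det_mul_column, Matrix.det_mul_row, ← mul_assoc, ← Finset.prod_mul_distrib]
    have e2 : ∀ i : Fin m, I ^ (i : ℕ) * (-I) ^ (i : ℕ) = 1 := by
      intro i
      rw [← mul_pow]
      simp
    simp only [e2, Finset.prod_const_one, one_mul]
    have e3 := RingHom.map_det Complex.ofRealHom (Matrix.of fun i j : Fin m => h i j)
    rw [show ((Matrix.det (Matrix.of fun i j : Fin m => h i j) : ℝ) : ℂ) =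
      Complex.ofRealHom (Matrix.det (Matrix.of fun i j : Fin m => h i j)) from rfl, e3]
    congr 1
  rw [hdlim] at hlim
  have hre : Tendsto (fun l => (Matrix.det (Matrix.of fun i j : Fin m => X l i j)).re) atTop
      (𝓝 (Matrix.det (Matrix.of fun i j : Fin m => h i j))) := by
    have := (Complex.continuous_re.tendsto _).comp hlim
    rw [Complex.ofReal_re] at this
    exact this
  -- each term is a positive multiple of the solid minor
  have hneg : ∀ l, 1 ≤ l → (Matrix.det (Matrix.of fun i j : Fin m => X l i j)).re ≤ 0 := by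
    intro l hl1
    have hmu : 0 < mu r y (n l) (x l) := core_mu_pos r hr y hy (n l) (x l) (hx l)
    have hv : 0 < vs y (n l) (x l) := by
      have h5 := hV l
      have : (1 : ℝ) ≤ l := by exact_mod_cast hl1
      linarith
    set τ : ℝ := √(vs y (n l) (x l)) with hτ
    have hτ0 : 0 < τ := Real.sqrt_pos.mpr hv
    have e1 : Matrix.det (Matrix.of fun i j : Fin m => X l i j) =
        ((∏ i : Fin m, ((τ / mu r y (n l) (x l)) ^ (i : ℕ) * τ ^ ((i : ℕ) + 1)) : ℝ) : ℂ) *
          Matrix.det (Matrix.of fun i j : Fin m => HR r (n l) (x l) (k l) i j) := by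
      rw [← core_det_scale m (fun i => (τ / mu r y (n l) (x l)) ^ (i : ℕ))
        (fun j => τ ^ ((j : ℕ) + 1)) (fun i j => HR r (n l) (x l) (k l) i j)]
      rfl
    obtain ⟨c, hc, e4⟩ := hd r (by omega) m (n l) (k l) (x l) (hx l)
    set R : ℝ := ∏ i : Fin m, ((τ / mu r y (n l) (x l)) ^ (i : ℕ) * τ ^ ((i : ℕ) + 1)) with hR
    have hRpos : 0 < R := Finset.prod_pos (fun i _ => by positivity)
    set D : ℂ := Matrix.det (Matrix.of fun i j : Fin m => HR r (n l) (x l) (k l) i j) with hD
    have e5 : D.re = solr r m (n l) (k l) / c := by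
      have h7 : (((solr r m (n l) (k l) : ℝ) : ℂ)).re = c * D.re := by
        rw [e4, Complex.re_ofReal_mul]
      rw [Complex.ofReal_re] at h7
      rw [h7]
      field_simp
    rw [e1, Complex.re_ofReal_mul, e5]
    exact mul_nonpos_of_nonneg_of_nonpos hRpos.le (div_nonpos_of_nonpos_of_nonneg (hsol l) hc.le)
  have hfin : Matrix.det (Matrix.of fun i j : Fin m => h i j) ≤ 0 := by
    refine le_of_tendsto hre ?_
    filter_upwards [eventually_ge_atTop 1] with l hl1
    exact hneg l hl1
  exact absurd (hh m) (not_lt.mpr hfin)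

end Pool.Agent.H53.ATPR
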