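import Pool.Agent.H53.ATPR.Spec

/-!
# Part DETR: binomial row and column operations, orthogonality on the circle
-/

set_option autoImplicit false

open MeasureTheory Filter Complex
open scoped Topology Real

namespace Pool.Agent.H53.ATPR

theorem detr_exp_integral (d : ℤ) :
    ∫ t in (-π)..π, cexp ((d : ℂ) * I * (t : ℂ)) = if d = 0 then (2 * π : ℂ) else 0 := by
  split_ifs with h
  · subst h
    simp
    ring
  · have hc : (d : ℂ) * I ≠ 0 := by
      apply mul_ne_zero _ I_ne_zero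
      exact_mod_cast h
    rw [integral_exp_mul_complex hc]
    have h1 : cexp ((d : ℂ) * I * (π : ℂ)) = cexp ((d : ℂ) * I * ((-π : ℝ) : ℂ)) := by
      rw [Complex.exp_eq_exp_iff_exists_int]
      refine ⟨d, ?_⟩
      push_cast
      ring
    rw [h1, sub_self, zero_div]

/-- The real value of the row polynomial at a positive point. -/
noncomputable def detr_F (r n : ℕ) (x : ℝ) : ℝ := ∑ k ∈ Finset.range (n + 1), ev r n k * x ^ k

theorem detr_F_pos (he : EvSt) (r : ℕ) (hr : 1 ≤ r) (n : ℕ) (x : ℝ) (hx : 0 < x) :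
    0 < detr_F r n x := by
  obtain ⟨h0, -, h1, -, -⟩ := he r hr
  unfold detr_F
  apply Finset.sum_pos
  · intro k hk
    rw [Finset.mem_range] at hk
    have := h1 n k (by omega)
    have h2 : 0 < ev r n k := by linarith
    positivity
  · exact ⟨0, by simp⟩

theorem detr_Fr_eq (r n : ℕ) (x : ℝ) : Fr r n (x : ℂ) = ((detr_F r n x : ℝ) : ℂ) := by
  unfold Fr detr_F
  push_cast
  rfl

theorem detr_coeff (he : EvSt) (r : ℕ) (hr : 1 ≤ r) (n κ : ℕ) (x : ℝ) :
    ∫ t in (-π)..π, Fr r n (x * cexp (t * I)) * cexp (-((κ : ℂ) * t * I)) =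
      2 * π * ((ev r n κ : ℂ) * (x : ℂ) ^ κ) := by
  obtain ⟨-, hz, -, -, -⟩ := he r hr
  have h1 : ∀ t : ℝ, Fr r n (x * cexp (t * I)) * cexp (-((κ : ℂ) * t * I)) =
      ∑ c ∈ Finset.range (n + 1), ((ev r n c : ℂ) * (x : ℂ) ^ c) *
        cexp ((((c : ℤ) - (κ : ℤ) : ℤ) : ℂ) * I * (t : ℂ)) := by
    intro t
    unfold Fr
    rw [Finset.sum_mul]
    refine Finset.sum_congr rfl fun c _ => ?_
    rw [mul_pow, ← Complex.exp_nat_mul]
    have h2 : cexp ((((c : ℤ) - (κ : ℤ) : ℤ) : ℂ) * I * (t : ℂ)) =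
        cexp ((c : ℂ) * (t * I)) * cexp (-((κ : ℂ) * t * I)) := by
      rw [← Complex.exp_add]
      congr 1
      push_cast
      ring
    rw [h2]
    ring
  simp_rw [h1]
  rw [intervalIntegral.integral_finsetSum]
  · simp_rw [intervalIntegral.integral_const_mul, detr_exp_integral]
    by_cases hκ : κ ≤ n
    · rw [Finset.sum_eq_single κ]
      · simp
        ring
      · intro b _ hb
        have : ((b : ℤ) - (κ : ℤ)) ≠ 0 := by
          omega
        rw [if_neg this, mul_zero]
      · intro h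
        exact absurd (Finset.mem_range.mpr (by omega)) h
    · rw [hz n κ (by omega)]
      rw [Finset.sum_eq_zero]
      · simp
      · intro c hc
        rw [Finset.mem_range] at hc
        have : ((c : ℤ) - (κ : ℤ)) ≠ 0 := by
          omega
        rw [if_neg this, mul_zero]
  · intro c _
    apply Continuous.intervalIntegrable
    fun_prop

/-- The signed binomial matrix. -/
noncomputable def detr_P (m : ℕ) : Matrix (Fin m) (Fin m) ℂ :=
  Matrix.of fun i a => (-1 : ℂ) ^ ((i : ℕ) - (a : ℕ)) * (((i : ℕ).choose (a : ℕ) : ℕ) : ℂ)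

theorem detr_det_P (m : ℕ) : (detr_P m).det = 1 := by
  rw [Matrix.det_of_isLowerTriangular]
  · simp [detr_P]
  · intro i j hij
    have hij' : (i : ℕ) < (j : ℕ) := by
      have : OrderDual.toDual j < OrderDual.toDual i := hij
      exact_mod_cast (OrderDual.toDual_lt_toDual.mp this)
    simp [detr_P, Nat.choose_eq_zero_of_lt hij']

theorem detr_sum_fin (m : ℕ) (i : Fin m) (f : ℕ → ℂ) :
    ∑ a ∈ Finset.range ((i : ℕ) + 1), (-1 : ℂ) ^ ((i : ℕ) - a) * (((i : ℕ).choose a : ℕ) : ℂ) * f a =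
      ∑ a : Fin m, (-1 : ℂ) ^ ((i : ℕ) - (a : ℕ)) * (((i : ℕ).choose (a : ℕ) : ℕ) : ℂ) * f a := by
  rw [Fin.sum_univ_eq_sum_range
    (fun a => (-1 : ℂ) ^ ((i : ℕ) - a) * (((i : ℕ).choose a : ℕ) : ℂ) * f a) m]
  apply Finset.sum_subset
  · intro a ha
    rw [Finset.mem_range] at ha ⊢
    have := i.2
    omega
  · intro a _ ha
    rw [Finset.mem_range] at ha
    rw [Nat.choose_eq_zero_of_lt (by omega)]
    simp

/-- The integrals without the row and column operations. -/
noncomputable def detr_A (r n : ℕ) (x : ℝ) (k a b : ℕ) : ℂ :=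
  ∫ t in (-π)..π, Fr r (n + a) (x * cexp (t * I)) / Fr r (n + a) x * cexp (-(k * t * I)) *
    cexp (-(t * I)) ^ b

theorem detr_A_eq (he : EvSt) (r : ℕ) (hr : 1 ≤ r) (n : ℕ) (x : ℝ) (k a b : ℕ) :
    detr_A r n x k a b = (((2 * π / detr_F r (n + a) x : ℝ)) : ℂ) *
      (ev r (n + a) (k + b) : ℂ) * (((x ^ (k + b) : ℝ)) : ℂ) := by
  unfold detr_A
  have h1 : ∀ t : ℝ, Fr r (n + a) (x * cexp (t * I)) / Fr r (n + a) x * cexp (-(k * t * I)) *
      cexp (-(t * I)) ^ b = (1 / Fr r (n + a) x) *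
        (Fr r (n + a) (x * cexp (t * I)) * cexp (-(((k + b : ℕ) : ℂ) * t * I))) := by
    intro t
    rw [← Complex.exp_nat_mul]
    have h2 : cexp (-(((k + b : ℕ) : ℂ) * t * I)) =
        cexp (-(k * t * I)) * cexp ((b : ℂ) * (-(t * I))) := by
      rw [← Complex.exp_add]
      congr 1
      push_cast
      ring
    rw [h2]
    ring
  simp_rw [h1]
  rw [intervalIntegral.integral_const_mul, detr_coeff he r hr, detr_Fr_eq]
  push_cast
  ring

theorem detr_HR_eq (r n : ℕ) (x : ℝ) (k i j : ℕ) :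
    HR r n x k i j = ∑ a ∈ Finset.range (i + 1), (-1 : ℂ) ^ (i - a) * (i.choose a : ℂ) *
      ∑ b ∈ Finset.range (j + 1), (-1 : ℂ) ^ (j - b) * (j.choose b : ℂ) * detr_A r n x k a b := by
  have hFc : ∀ N : ℕ, Continuous fun t : ℝ => Fr r N (x * cexp (t * I)) := by
    intro N
    unfold Fr
    fun_prop
  have hcont : ∀ a b : ℕ, Continuous fun t : ℝ =>
      Fr r (n + a) (x * cexp (t * I)) / Fr r (n + a) x * cexp (-(k * t * I)) *
        cexp (-(t * I)) ^ b := by
    intro a b
    have := hFc (n + a)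
    refine Continuous.mul (Continuous.mul (this.div_const _) ?_) ?_
    · fun_prop
    · fun_prop
  unfold HR
  have h1 : ∀ t : ℝ, Gi r n x k i t * (cexp (-(t * I)) - 1) ^ j =
      ∑ a ∈ Finset.range (i + 1), ∑ b ∈ Finset.range (j + 1),
        ((-1 : ℂ) ^ (i - a) * (i.choose a : ℂ) * ((-1 : ℂ) ^ (j - b) * (j.choose b : ℂ))) *
        (Fr r (n + a) (x * cexp (t * I)) / Fr r (n + a) x * cexp (-(k * t * I)) *
          cexp (-(t * I)) ^ b) := by
    intro t
    have h2 : (cexp (-(t * I)) - 1) ^ j = ∑ b ∈ Finset.range (j + 1),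
        cexp (-(t * I)) ^ b * (-1 : ℂ) ^ (j - b) * (j.choose b : ℂ) := by
      rw [sub_eq_add_neg, add_pow]
    unfold Gi
    rw [h2, Finset.sum_mul_sum]
    refine Finset.sum_congr rfl fun a _ => Finset.sum_congr rfl fun b _ => ?_
    ring
  simp_rw [h1]
  rw [intervalIntegral.integral_finsetSum]
  · refine Finset.sum_congr rfl fun a _ => ?_
    rw [intervalIntegral.integral_finsetSum]
    · rw [Finset.mul_sum]
      refine Finset.sum_congr rfl fun b _ => ?_
      rw [intervalIntegral.integral_const_mul]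
      unfold detr_A
      ring
    · intro b _
      exact ((hcont a b).const_mul _ ).intervalIntegrable _ _
  · intro a _
    exact (continuous_finsetSum _ fun b _ => (hcont a b).const_mul _).intervalIntegrable _ _

theorem detr (he : EvSt) (_hc : ChiSt) : DetRSt := by
  intro r hr m n k x hx
  have h1 : (Matrix.of fun i j : Fin m => HR r n x k i j) =
      detr_P m * (Matrix.diagonal (fun a : Fin m =>
          (((2 * π / detr_F r (n + (a : ℕ)) x : ℝ)) : ℂ)) *
        (Matrix.of fun i j : Fin m => ev r (n + i) (k + j)).map (algebraMap ℝ ℂ) *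
        Matrix.diagonal (fun b : Fin m => (((x ^ (k + (b : ℕ)) : ℝ)) : ℂ))) *
        (detr_P m).transpose := by
    ext i j
    rw [Matrix.of_apply, detr_HR_eq, Matrix.mul_assoc, Matrix.mul_apply]
    rw [detr_sum_fin m i (fun a => ∑ b ∈ Finset.range ((j : ℕ) + 1),
      (-1 : ℂ) ^ ((j : ℕ) - b) * (((j : ℕ).choose b : ℕ) : ℂ) * detr_A r n x k a b)]
    refine Finset.sum_congr rfl fun a _ => ?_
    rw [detr_sum_fin m j (fun b => detr_A r n x k a b), Matrix.mul_apply]
    simp only [detr_P, Matrix.of_apply, Matrix.transpose_apply]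
    congr 1
    refine Finset.sum_congr rfl fun b _ => ?_
    rw [Matrix.mul_diagonal, Matrix.diagonal_mul, Matrix.map_apply, Matrix.of_apply,
      detr_A_eq he r hr]
    simp only [Complex.coe_algebraMap]
    ring
  have hF : ∀ a : ℕ, 0 < 2 * π / detr_F r (n + a) x := fun a =>
    div_pos (by positivity) (detr_F_pos he r hr _ x hx)
  have hdet : (Matrix.of fun i j : Fin m => HR r n x k i j).det =
      (((∏ a : Fin m, 2 * π / detr_F r (n + (a : ℕ)) x) *
        ∏ b : Fin m, x ^ (k + (b : ℕ)) : ℝ) : ℂ) * ((solr r m n k : ℝ) : ℂ) := by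
    rw [h1, Matrix.det_mul, Matrix.det_mul, Matrix.det_mul, Matrix.det_mul,
      Matrix.det_transpose, detr_det_P, Matrix.det_diagonal, Matrix.det_diagonal]
    have h2 : ((Matrix.of fun i j : Fin m => ev r (n + i) (k + j)).map (algebraMap ℝ ℂ)).det =
        ((solr r m n k : ℝ) : ℂ) := by
      unfold solr
      exact ((algebraMap ℝ ℂ).map_det _).symm
    rw [h2]
    push_cast
    ring
  have hpos : 0 < (∏ a : Fin m, 2 * π / detr_F r (n + (a : ℕ)) x) *
      ∏ b : Fin m, x ^ (k + (b : ℕ)) := by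
    apply mul_pos
    · exact Finset.prod_pos fun a _ => hF a
    · exact Finset.prod_pos fun b _ => by positivity
  refine ⟨((∏ a : Fin m, 2 * π / detr_F r (n + (a : ℕ)) x) *
      ∏ b : Fin m, x ^ (k + (b : ℕ)))⁻¹, inv_pos.mpr hpos, ?_⟩
  rw [hdet, ← mul_assoc, ← Complex.ofReal_mul, inv_mul_cancel₀ hpos.ne', Complex.ofReal_one,
    one_mul]

end Pool.Agent.H53.ATPR
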