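import Mathlib

/-!
# Asymptotic total positivity of the r-th order Eulerian triangles: definitions and parts

Row index `n` here is the degree of the row polynomial (row `n + 1` of the triangle).
-/

set_option autoImplicit false

open MeasureTheory Filter Complex
open scoped Topology Real

namespace Pool.Agent.H53.ATPR

/-- The `r`-th order Eulerian triangle, in the form of the frozen statement. -/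
def er (r : ℕ) : ℕ → ℕ → ℤ
  | 0, 0 => 1
  | 0, _ + 1 => 0
  | n + 1, 0 => er r n 0
  | n + 1, k + 1 => ((k : ℤ) + 2) * er r n (k + 1) + ((r : ℤ) * (n : ℤ) - (k : ℤ)) * er r n k

/-- Row `n + 1` as real numbers (`0 ≤ k ≤ n`). -/
noncomputable def ev (r n k : ℕ) : ℝ := ((er r (n + 1) k : ℤ) : ℝ)

/-- Solid minor of order `m`: rows `n+1, ..., n+m`, columns `k, ..., k+m-1` of the triangle. -/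
noncomputable def solr (r m n k : ℕ) : ℝ :=
  Matrix.det (Matrix.of fun i j : Fin m => ev r (n + i) (k + j))

/-- The row polynomial of degree `n`, as a function. -/
noncomputable def Fr (r n : ℕ) (t : ℂ) : ℂ := ∑ k ∈ Finset.range (n + 1), (ev r n k : ℂ) * t ^ k

/-- `y n i`, `i < n`, are the parameters of the row polynomial of degree `n`. -/
def IsY (r : ℕ) (y : ℕ → ℕ → ℝ) : Prop :=
  (∀ n i, 0 < y n i) ∧ ∀ n, ∀ t : ℂ, Fr r n t = ∏ i ∈ Finset.range n, (1 + (y n i : ℂ) * t)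

/-- Mean at the point `x > 0`. -/
noncomputable def ms (y : ℕ → ℕ → ℝ) (n : ℕ) (x : ℝ) : ℝ :=
  ∑ i ∈ Finset.range n, y n i * x / (1 + y n i * x)

/-- Variance at the point `x > 0`. -/
noncomputable def vs (y : ℕ → ℕ → ℝ) (n : ℕ) (x : ℝ) : ℝ :=
  ∑ i ∈ Finset.range n, y n i * x / (1 + y n i * x) ^ 2

/-- `R0 = F_(n+1)(x) / F_n(x)`. -/
noncomputable def R0 (r : ℕ) (y : ℕ → ℕ → ℝ) (n : ℕ) (x : ℝ) : ℝ :=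
  1 + ms y n x + ((r : ℝ) * (n + 1) - ms y n x) * x

/-- `B0 = x d/dx R0`. -/
noncomputable def B0 (r : ℕ) (y : ℕ → ℕ → ℝ) (n : ℕ) (x : ℝ) : ℝ :=
  ((r : ℝ) * (n + 1) - ms y n x) * x + (1 - x) * vs y n x

/-- `mu = B0 / R0`, the increment of the mean. -/
noncomputable def mu (r : ℕ) (y : ℕ → ℕ → ℝ) (n : ℕ) (x : ℝ) : ℝ := B0 r y n x / R0 r y n x

/-- Ratio of consecutive rows at `x exp z`. -/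
noncomputable def Rz (r n : ℕ) (x : ℝ) (z : ℂ) : ℂ :=
  Fr r (n + 1) (x * cexp z) / Fr r n (x * cexp z)

/-! ### Elementary parts -/

/-- EV -/
def EvSt : Prop := ∀ r : ℕ, 1 ≤ r →
  (∀ n, ev r n 0 = 1) ∧
  (∀ n k, n < k → ev r n k = 0) ∧
  (∀ n k, k ≤ n → 1 ≤ ev r n k) ∧
  (∀ n k : ℕ, ev r (n + 1) (k + 1) =
    ((k : ℝ) + 2) * ev r n (k + 1) + ((r : ℝ) * (n + 1) - k) * ev r n k) ∧
  (∀ n k : ℕ, ev r n k * ev r n (k + 2) ≤ ev r n (k + 1) ^ 2)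

/-- ROOT -/
def RootSt : Prop := ∀ r : ℕ, 1 ≤ r → ∃ y : ℕ → ℕ → ℝ, IsY r y

/-- MEAN -/
def MeanSt : Prop := ∀ r : ℕ, 1 ≤ r → ∀ y : ℕ → ℕ → ℝ, IsY r y →
  (∀ n : ℕ, ms y n 1 = (r : ℝ) * n / (r + 1)) ∧
  (∀ (n : ℕ) (x : ℝ), 0 < x → ms y (n + 1) x = ms y n x + mu r y n x) ∧
  (∀ (n : ℕ) (x x' : ℝ), 0 < x → x ≤ x' → ms y n x ≤ ms y n x') ∧
  (∀ n k : ℕ, 0 < k → k < n → ∃ x : ℝ, 0 < x ∧ ms y n x = k) ∧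
  (∀ (n : ℕ) (x : ℝ), 0 < x → ms y n x * (∑ k ∈ Finset.range (n + 1), ev r n k * x ^ k) =
    ∑ k ∈ Finset.range (n + 1), (k : ℝ) * ev r n k * x ^ k)

/-- LOGC -/
def LogcSt : Prop := ∀ r : ℕ, 1 ≤ r → ∀ y : ℕ → ℕ → ℝ, IsY r y →
  ∀ (n K : ℕ) (x : ℝ), 0 < x → K < n →
    (2 * (ev r n (K + 1) * x) ≤ ev r n K → ms y n x ≤ (K : ℝ) + 2) ∧
    (2 * ev r n K ≤ ev r n (K + 1) * x → (K : ℝ) - 1 ≤ ms y n x)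

/-- LOW -/
def LowSt : Prop := ∀ r : ℕ, 1 ≤ r → ∃ c : ℝ, 0 < c ∧ ∀ n k : ℕ, (r + 1) * (k + 3) ≤ r * n →
  c * (ev r n k * ((k : ℝ) + 2) ^ (n + 1)) ≤ ev r n (k + 1) * ((k : ℝ) + 1) ^ (n + 1)

/-- UPP -/
def UppSt : Prop := ∀ r : ℕ, 1 ≤ r → ∀ n k : ℕ,
  ev r n (k + 1) * ((k : ℝ) + 1) ^ (n + 1) ≤
    (r : ℝ) * (k + 1) * (ev r n k * ((k : ℝ) + 2) ^ (n + 1))

/-- LEFT -/
def LeftRSt : Prop := ∀ r : ℕ, 1 ≤ r → ∀ m : ℕ, ∃ C : ℝ, ∃ N : ℕ, 0 < C ∧ ∀ n : ℕ, N ≤ n →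
  ∀ k : ℕ, C * ((k : ℝ) + m) * Real.log n ≤ n → 0 < solr r m n k

/-! ### The right edge -/

/-- Entries counted from the right edge. -/
noncomputable def gr (r n c : ℕ) : ℝ := if c ≤ n then ev r n (n - c) else 0

/-- The first ratio at the right edge. -/
noncomputable def sg (r n : ℕ) : ℝ := gr r n 1 / gr r n 0

/-- GR -/
def GrSt : Prop := ∀ r : ℕ, 1 ≤ r →
  (∀ n c : ℕ, c ≤ n → 0 < gr r n c) ∧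
  (∀ n c : ℕ, n < c → gr r n c = 0) ∧
  (∀ n : ℕ, gr r (n + 1) 0 = (((r : ℝ) - 1) * (n + 1) + 1) * gr r n 0) ∧
  (∀ n c : ℕ, gr r (n + 1) (c + 1) =
    ((n : ℝ) + 1 - c) * gr r n c + (((r : ℝ) - 1) * (n + 1) + c + 2) * gr r n (c + 1))

/-- EDGE1 -/
def Edge1St : Prop := ∀ r : ℕ, 2 ≤ r →
  (∃ κ : ℝ, 0 < κ ∧ ∀ n c : ℕ, (r + 1) * (c + 2) < n →
    κ * ((n : ℝ) + 1) * gr r n c ≤ ((c : ℝ) + 1) * gr r n (c + 1)) ∧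
  (∀ n c : ℕ, ((c : ℝ) + 1) * gr r n (c + 1) ≤ sg r n * gr r n c) ∧
  (∀ n : ℕ, sg r n ≤ ((n : ℝ) + 1) * (1 + Real.log ((n : ℝ) + 1)))

/-- EDGE2 -/
def Edge2St : Prop := ∀ r : ℕ, 2 ≤ r → ∃ G : ℝ, ∃ n0 : ℕ, 0 < G ∧
  ∀ n : ℕ, n0 ≤ n → ∀ c : ℕ, (c + 1) ^ 2 ≤ n →
    sg r n * gr r n c ≤ G * ((c : ℝ) + 1) ^ 2 * gr r n (c + 1)

/-- GAM -/
def GamSt : Prop := ∀ r : ℕ, 2 ≤ r →
  (∀ n : ℕ, 1 ≤ n → 0 < sg r n) ∧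
  Tendsto (fun n => sg r (n + 1) / sg r n) atTop (𝓝 1) ∧
  ∀ c : ℕ, Tendsto (fun n => gr r n c / (gr r n 0 * sg r n ^ c)) atTop
    (𝓝 (1 / (c.factorial : ℝ)))

/-- FAC -/
def FacSt : Prop := ∀ m c : ℕ, 0 < Matrix.det (Matrix.of fun i j : Fin m =>
  if (j : ℕ) ≤ c + i then 1 / ((c + i - j).factorial : ℝ) else 0)

/-- RIGHT -/
def RightRSt : Prop := ∀ r : ℕ, 2 ≤ r → ∀ m c0 : ℕ, ∃ N : ℕ, ∀ n : ℕ, N ≤ n → ∀ k : ℕ, k ≤ n →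
  n - k ≤ c0 → 0 < solr r m n k

/-! ### Lower bounds for the variance -/

/-- WIN -/
def WinSt : Prop := ∀ r : ℕ, 1 ≤ r → ∀ y : ℕ → ℕ → ℝ, IsY r y →
  ∀ (n k J : ℕ) (x Q : ℝ), 0 < x → ms y n x = k → J + 3 ≤ k → k + J + 3 ≤ n →
    ev r n (k - J - 2) * ev r n (k + J + 2) ≤ Q * (ev r n (k - J - 3) * ev r n (k + J + 3)) →
    (J : ℝ) ≤ 2 * √Q * vs y n x

/-- VAR1 -/
def Var1St : Prop := ∀ r : ℕ, 2 ≤ r → ∀ y : ℕ → ℕ → ℝ, IsY r y →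
  ∀ (C : ℝ) (m : ℕ), ∃ N : ℕ, ∀ n : ℕ, N ≤ n → ∀ (k : ℕ) (x : ℝ), 0 < x → ms y n x = k →
    (n : ℝ) < C * ((k : ℝ) + m) * Real.log n → 2 * (r + 1) * k ≤ (2 * r + 1) * n →
    (n : ℝ) ≤ vs y n x ^ 4

/-- VAR2 -/
def Var2St : Prop := ∀ r : ℕ, 2 ≤ r → ∀ y : ℕ → ℕ → ℝ, IsY r y →
  ∀ W : ℝ, ∃ c0 N : ℕ, ∀ n : ℕ, N ≤ n → ∀ (k : ℕ) (x : ℝ), k ≤ n → 0 < x → ms y n x = k →
    (2 * r + 1) * n < 2 * (r + 1) * k → c0 ≤ n - k →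
    W ≤ vs y n x ∧ (1 / 2 ≤ x ∨ (n : ℝ) ≤ vs y n x ^ 4)

/-! ### The local limit argument -/

/-- BAS -/
def BasSt : Prop := ∀ r : ℕ, 2 ≤ r → ∀ y : ℕ → ℕ → ℝ, IsY r y → ∀ (n : ℕ) (x : ℝ), 0 < x →
  0 ≤ vs y n x ∧ vs y n x ≤ ms y n x ∧ vs y n x ≤ n - ms y n x ∧ 4 * vs y n x ≤ n ∧
  (1 ≤ n → 0 < vs y n x) ∧
  ((n : ℝ) + 1) * x ≤ B0 r y n x ∧ |1 - x| * vs y n x ≤ B0 r y n x ∧
  B0 r y n x ≤ R0 r y n x ∧ 1 + x ≤ R0 r y n x ∧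
  R0 r y n x ≤ (r : ℝ) * (n + 1) * (1 + x) ∧
  R0 r y n x ≤ R0 r y (n + 1) x ∧
  vs y n x - 5 ≤ vs y (n + 1) x

/-- DSK -/
def DskSt : Prop := ∀ r : ℕ, 2 ≤ r → ∃ C z0 : ℝ, 0 < C ∧ 0 < z0 ∧
  ∀ y : ℕ → ℕ → ℝ, IsY r y → ∀ (n : ℕ) (x : ℝ), 0 < x →
    DifferentiableOn ℂ (Rz r n x) (Metric.ball 0 z0) ∧
    Rz r n x 0 = (R0 r y n x : ℂ) ∧ deriv (Rz r n x) 0 = (B0 r y n x : ℂ) ∧
    ∀ z ∈ Metric.ball (0 : ℂ) z0, Rz r n x z ≠ 0 ∧ ‖deriv (Rz r n x) z‖ ≤ C * B0 r y n x ∧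
      Rz r (n + 1) x z = Rz r n x z + r * (x * cexp z) +
        (1 - x * cexp z) * (deriv (Rz r n x) z / Rz r n x z)

/-- Iterated forward differences. -/
def dl (f : ℕ → ℂ) : ℕ → ℕ → ℂ
  | 0, a => f a
  | j + 1, a => dl f j (a + 1) - dl f j a

/-- DIF -/
def DifSt : Prop := ∀ (r C₀ z0 : ℝ) (M : ℕ), 0 < r → 0 < C₀ → 0 < z0 →
  ∃ C z1 : ℝ, 0 < C ∧ 0 < z1 ∧ z1 ≤ z0 ∧
    ∀ (x B R₀ : ℝ) (R : ℕ → ℂ → ℂ), 0 < x → x ≤ B → B ≤ R₀ → 1 + x ≤ R₀ →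
      (∀ a, DifferentiableOn ℂ (R a) (Metric.ball 0 z0)) →
      (∀ a, ∀ z ∈ Metric.ball (0 : ℂ) z0, R a z ≠ 0) →
      (∀ z ∈ Metric.ball (0 : ℂ) z0, ‖deriv (R 0) z‖ ≤ C₀ * B) →
      ‖R 0 0‖ = R₀ → (∀ a, R₀ ≤ ‖R a 0‖) →
      (∀ a, ∀ z ∈ Metric.ball (0 : ℂ) z0, R (a + 1) z = R a z + r * (x * cexp z) +
        (1 - x * cexp z) * (deriv (R a) z / R a z)) →
      ∀ a j : ℕ, a + j ≤ M → ∀ z : ℂ, ‖z‖ ≤ z1 →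
        ‖dl (fun b => R b z / R b 0 - 1) j a‖ ≤
          C * (B / R₀) * ‖z‖ * ((x + B / R₀) / B + (1 + x) / R₀) ^ j

/-- `eta a = R_(n+a)(x e^(i t)) / R_(n+a)(x) - 1`. -/
noncomputable def eta (r n : ℕ) (x t : ℝ) (a : ℕ) : ℂ :=
  Rz r (n + a) x (t * I) / Rz r (n + a) x 0 - 1

/-- ETA -/
def EtaSt : Prop := ∀ r : ℕ, 2 ≤ r → ∀ M : ℕ, ∃ C t0 : ℝ, 0 < C ∧ 0 < t0 ∧ t0 ≤ 1 ∧
  ∀ y : ℕ → ℕ → ℝ, IsY r y → ∀ (n : ℕ) (x : ℝ), 1 ≤ n → 0 < x → ∀ t : ℝ, |t| ≤ t0 →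
    (∀ a j : ℕ, a + j ≤ M →
      ‖dl (eta r n x t) j a‖ ≤ C * mu r y n x * |t| * (C * mu r y n x / vs y n x) ^ j) ∧
    ‖eta r n x t 0 - I * t * mu r y n x‖ ≤ C * mu r y n x * t ^ 2

/-- The row operations. -/
def pl (η : ℕ → ℂ) : ℕ → ℕ → ℂ
  | 0, _ => 1
  | i + 1, s => (1 + η s) * pl η i (s + 1) - pl η i s

/-- PIL -/
def PilSt : Prop :=
  (∀ (η : ℕ → ℂ) (i s : ℕ), pl η i s = ∑ a ∈ Finset.range (i + 1),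
    (-1 : ℂ) ^ (i - a) * (i.choose a : ℂ) * ∏ c ∈ Finset.range a, (1 + η (s + c))) ∧
  (∀ (i : ℕ) (D : ℝ), ∃ C : ℝ, 0 < C ∧ ∀ (X Y : ℝ) (η : ℕ → ℂ), 0 ≤ X → X ≤ D → 0 ≤ Y → Y ≤ D →
    (∀ a j : ℕ, a + j ≤ i → ‖dl η j a‖ ≤ X * Y ^ j) →
    ‖pl η i 0‖ ≤ C * (X + Y) ^ i ∧
    ‖pl η i 0 - η 0 ^ i‖ * (X + Y) ≤ C * (X + Y) ^ i * Y)

/-- CHI -/
def ChiSt : Prop := ∀ r : ℕ, 1 ≤ r → ∀ y : ℕ → ℕ → ℝ, IsY r y → ∀ (n : ℕ) (x : ℝ), 0 < x →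
  Fr r n x ≠ 0 ∧
  (∀ t : ℝ, ‖Fr r n (x * cexp (t * I)) / Fr r n x‖ ≤ Real.exp (-(vs y n x * (1 - Real.cos t)))) ∧
  (∀ t : ℝ, ‖Fr r n (x * cexp (t * I)) / Fr r n x * cexp (-(ms y n x * t * I)) -
    (Real.exp (-(vs y n x * t ^ 2 / 2)) : ℂ)‖ ≤ vs y n x * (|t| ^ 3 + t ^ 4))

/-- The rows after the row operations. -/
noncomputable def Gi (r n : ℕ) (x : ℝ) (k i : ℕ) (t : ℝ) : ℂ :=
  ∑ a ∈ Finset.range (i + 1), (-1 : ℂ) ^ (i - a) * (i.choose a : ℂ) *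
    (Fr r (n + a) (x * cexp (t * I)) / Fr r (n + a) x * cexp (-(k * t * I)))

/-- GP -/
def GpSt : Prop := ∀ r : ℕ, 1 ≤ r → ∀ y : ℕ → ℕ → ℝ, IsY r y →
  ∀ (n k i : ℕ) (x t : ℝ), 0 < x → |t| < π →
    Gi r n x k i t = Fr r n (x * cexp (t * I)) / Fr r n x * cexp (-(k * t * I)) *
      pl (eta r n x t) i 0

/-- The reduced integrals. -/
noncomputable def HR (r n : ℕ) (x : ℝ) (k i j : ℕ) : ℂ :=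
  ∫ t in (-π)..π, Gi r n x k i t * (cexp (-(t * I)) - 1) ^ j

/-- DETR -/
def DetRSt : Prop := ∀ r : ℕ, 1 ≤ r → ∀ (m n k : ℕ) (x : ℝ), 0 < x →
  ∃ c : ℝ, 0 < c ∧ (solr r m n k : ℂ) =
    (c : ℂ) * Matrix.det (Matrix.of fun i j : Fin m => HR r n x k i j)

/-- The sequences considered. -/
def SeqR (y : ℕ → ℕ → ℝ) (n k : ℕ → ℕ) (x : ℕ → ℝ) : Prop :=
  (∀ l, 0 < x l) ∧ (∀ l, ms y (n l) (x l) = k l) ∧ Tendsto n atTop atTop ∧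
  Tendsto (fun l => vs y (n l) (x l)) atTop atTop ∧
  ∀ l, 1 / 2 ≤ x l ∨ (n l : ℝ) ≤ vs y (n l) (x l) ^ 4

/-- The scaling factor. -/
noncomputable def scl (r : ℕ) (y : ℕ → ℕ → ℝ) (n : ℕ) (x : ℝ) (i j : ℕ) : ℝ :=
  (√(vs y n x) / mu r y n x) ^ i * √(vs y n x) ^ (j + 1)

/-- LIMM -/
def LimMSt : Prop := ∀ r : ℕ, 2 ≤ r → ∀ y : ℕ → ℕ → ℝ, IsY r y → ∀ i j : ℕ,
  ∃ t0 : ℝ, 0 < t0 ∧ t0 ≤ 1 ∧ ∀ (n k : ℕ → ℕ) (x : ℕ → ℝ), SeqR y n k x →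
    Tendsto (fun l => (scl r y (n l) (x l) i j : ℂ) *
      ∫ t in (-t0)..t0, Gi r (n l) (x l) (k l) i t * (cexp (-(t * I)) - 1) ^ j) atTop
      (𝓝 (I ^ i * (-I) ^ j * ((∫ v : ℝ, v ^ (i + j) * Real.exp (-(v ^ 2 / 2)) : ℝ) : ℂ)))

/-- LIMT -/
def LimTSt : Prop := ∀ r : ℕ, 2 ≤ r → ∀ y : ℕ → ℕ → ℝ, IsY r y → ∀ (i j : ℕ) (t0 : ℝ),
  0 < t0 → t0 ≤ 1 → ∀ (n k : ℕ → ℕ) (x : ℕ → ℝ), SeqR y n k x →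
    Tendsto (fun l => (scl r y (n l) (x l) i j : ℂ) *
      ((∫ t in (-π)..(-t0), Gi r (n l) (x l) (k l) i t * (cexp (-(t * I)) - 1) ^ j) +
        ∫ t in t0..π, Gi r (n l) (x l) (k l) i t * (cexp (-(t * I)) - 1) ^ j)) atTop (𝓝 0)

/-- CORE -/
def CoreSt : Prop := ∀ r : ℕ, 2 ≤ r → ∀ y : ℕ → ℕ → ℝ, IsY r y → ∀ m : ℕ,
  ∃ W : ℝ, ∃ N : ℕ, ∀ n : ℕ, N ≤ n → ∀ (k : ℕ) (x : ℝ), 0 < x → ms y n x = k →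
    W ≤ vs y n x → (1 / 2 ≤ x ∨ (n : ℝ) ≤ vs y n x ^ 4) → 0 < solr r m n k

end Pool.Agent.H53.ATPR
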