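import Mathlib
import Pool.Agent.H53.ATPR.Spec

/-!
# The abstract difference estimate (part DIF)
-/

set_option autoImplicit false

open MeasureTheory Filter Complex
open scoped Topology Real

namespace Pool.Agent.H53.ATPR

/-! ### Forward differences -/

private theorem dl_sub (f g : ℕ → ℂ) : ∀ (j a : ℕ),
    dl (fun b => f b - g b) j a = dl f j a - dl g j a
  | 0, a => rfl
  | j + 1, a => by
    simp only [dl, dl_sub f g j]
    ring

private theorem dl_mul (f g : ℕ → ℂ) : ∀ (j a : ℕ),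
    dl (fun b => f b * g b) j a =
      ∑ l ∈ Finset.range (j + 1), (j.choose l : ℂ) * dl f l a * dl g (j - l) (a + l) := by
  intro j
  induction j with
  | zero => intro a; simp [dl]
  | succ j ih =>
    intro a
    have hF : ∀ l, dl g (j + 1 - (l + 1)) (a + (l + 1)) = dl g (j - l) (a + l + 1) := by
      intro l
      have h1 : j + 1 - (l + 1) = j - l := by omega
      rw [h1, add_assoc]
    have e1 : ∑ l ∈ Finset.range (j + 1 + 1), ((j + 1).choose l : ℂ) * dl f l a *
          dl g (j + 1 - l) (a + l) =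
        ∑ l ∈ Finset.range (j + 1), (j.choose l : ℂ) * (dl f (l + 1) a * dl g (j - l) (a + l + 1)) +
        ∑ l ∈ Finset.range (j + 1), (j.choose l : ℂ) * (dl f l a * dl g (j + 1 - l) (a + l)) := by
      have e2 : ∑ l ∈ Finset.range (j + 1), (j.choose l : ℂ) *
            (dl f l a * dl g (j + 1 - l) (a + l)) =
          ∑ l ∈ Finset.range (j + 1 + 1), (j.choose l : ℂ) *
            (dl f l a * dl g (j + 1 - l) (a + l)) := by
        rw [Finset.sum_range_succ _ (j + 1)]
        simp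
      rw [e2, Finset.sum_range_succ' _ (j + 1), Finset.sum_range_succ' _ (j + 1)]
      have e3 : ∀ l ∈ Finset.range (j + 1), ((j + 1).choose (l + 1) : ℂ) * dl f (l + 1) a *
            dl g (j + 1 - (l + 1)) (a + (l + 1)) =
          (j.choose l : ℂ) * (dl f (l + 1) a * dl g (j - l) (a + l + 1)) +
            (j.choose (l + 1) : ℂ) * (dl f (l + 1) a *
              dl g (j + 1 - (l + 1)) (a + (l + 1))) := by
        intro l _
        rw [hF l, Nat.choose_succ_succ]
        push_cast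
        ring
      rw [Finset.sum_congr rfl e3, Finset.sum_add_distrib]
      simp
      ring
    rw [e1]
    show dl (fun b => f b * g b) j (a + 1) - dl (fun b => f b * g b) j a = _
    rw [ih (a + 1), ih a, ← Finset.sum_sub_distrib, ← Finset.sum_add_distrib]
    apply Finset.sum_congr rfl
    intro l hl
    have hl' : l ≤ j := by
      have := Finset.mem_range.1 hl
      omega
    have h2 : j + 1 - l = (j - l) + 1 := by omega
    have h3 : dl g (j + 1 - l) (a + l) = dl g (j - l) (a + l + 1) - dl g (j - l) (a + l) := by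
      rw [h2]; rfl
    have h4 : dl f (l + 1) a = dl f l (a + 1) - dl f l a := rfl
    have h5 : a + 1 + l = a + l + 1 := by omega
    rw [h3, h4, h5]
    ring

private theorem dl_rec (f g : ℕ → ℂ) (c d : ℂ) (h : ∀ b, f (b + 1) = f b + c + d * g b) :
    ∀ (j a : ℕ), dl f (j + 2) a = d * dl g (j + 1) a := by
  intro j
  induction j with
  | zero =>
    intro a
    simp only [dl, h]
    ring
  | succ j ih =>
    intro a
    show dl f (j + 2) (a + 1) - dl f (j + 2) a = d * (dl g (j + 1) (a + 1) - dl g (j + 1) a)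
    rw [ih, ih]
    ring

private theorem dl_diff (R : ℕ → ℂ → ℂ) (s : Set ℂ) (h : ∀ a, DifferentiableOn ℂ (R a) s) :
    ∀ j a, DifferentiableOn ℂ (fun z => dl (fun b => R b z) j a) s
  | 0, a => h a
  | j + 1, a => (dl_diff R s h j (a + 1)).sub (dl_diff R s h j a)

private theorem dl_deriv (R : ℕ → ℂ → ℂ) (s : Set ℂ) (hs : IsOpen s)
    (h : ∀ a, DifferentiableOn ℂ (R a) s) {z : ℂ} (hz : z ∈ s) :
    ∀ j a, deriv (fun w => dl (fun b => R b w) j a) z = dl (fun b => deriv (R b) z) j a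
  | 0, a => rfl
  | j + 1, a => by
    have h1 : deriv (fun w => dl (fun b => R b w) (j + 1) a) z =
        deriv (fun w => dl (fun b => R b w) j (a + 1)) z -
          deriv (fun w => dl (fun b => R b w) j a) z := by
      have ha := (dl_diff R s h j (a + 1)).differentiableAt (hs.mem_nhds hz)
      have hb := (dl_diff R s h j a).differentiableAt (hs.mem_nhds hz)
      exact deriv_sub ha hb
    rw [h1, dl_deriv R s hs h hz j (a + 1), dl_deriv R s hs h hz j a]
    rfl

/-! ### Complex analysis -/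

private theorem cauchy_half {f : ℂ → ℂ} {ρ K : ℝ} (hρ : 0 < ρ)
    (hf : DifferentiableOn ℂ f (Metric.ball 0 ρ)) (hK : ∀ z ∈ Metric.ball (0 : ℂ) ρ, ‖f z‖ ≤ K) :
    ∀ z ∈ Metric.ball (0 : ℂ) (ρ / 2), ‖deriv f z‖ ≤ K * (4 / ρ) := by
  intro z hz
  have hz' : ‖z‖ < ρ / 2 := by simpa using hz
  have hsub : Metric.closedBall z (ρ / 4) ⊆ Metric.ball (0 : ℂ) ρ := by
    intro w hw
    have h1 : ‖w - z‖ ≤ ρ / 4 := by simpa [dist_eq_norm] using hw
    have h2 : ‖w‖ ≤ ‖w - z‖ + ‖z‖ := by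
      calc ‖w‖ = ‖(w - z) + z‖ := by ring_nf
        _ ≤ _ := norm_add_le _ _
    have : ‖w‖ < ρ := by linarith
    simpa using this
  have h := Complex.norm_deriv_le_of_forall_mem_sphere_norm_le (c := z) (R := ρ / 4) (C := K)
    (by positivity) (hf.diffContOnCl_ball hsub)
    (fun w hw => hK w (hsub (Metric.sphere_subset_closedBall hw)))
  calc ‖deriv f z‖ ≤ K / (ρ / 4) := h
    _ = K * (4 / ρ) := by field_simp

private theorem mvt_ball {f : ℂ → ℂ} {ρ K : ℝ}
    (hf : DifferentiableOn ℂ f (Metric.ball 0 ρ)) (hK : ∀ z ∈ Metric.ball (0 : ℂ) ρ, ‖deriv f z‖ ≤ K)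
    {z : ℂ} (hz : z ∈ Metric.ball (0 : ℂ) ρ) : ‖f z - f 0‖ ≤ K * ‖z‖ := by
  have hρ : 0 < ρ := lt_of_le_of_lt (norm_nonneg z) (by simpa using hz)
  have h := Convex.norm_image_sub_le_of_norm_deriv_le (𝕜 := ℂ) (f := f) (C := K)
    (s := Metric.ball (0 : ℂ) ρ) (x := 0) (y := z)
    (fun w hw => hf.differentiableAt (Metric.isOpen_ball.mem_nhds hw)) hK
    (convex_ball 0 ρ) (by simpa using hρ) hz
  simpa using h

/-! ### Solving for a difference of a factor -/

private theorem mul_solve (f g : ℕ → ℂ) (j a : ℕ) :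
    f a * dl g (j + 1) a = dl (fun b => f b * g b) (j + 1) a -
      ∑ l ∈ Finset.range (j + 1), ((j + 1).choose (l + 1) : ℂ) *
        (dl f (l + 1) a * dl g (j - l) (a + l + 1)) := by
  rw [dl_mul f g (j + 1) a, Finset.sum_range_succ' _ (j + 1)]
  have h : ∀ l ∈ Finset.range (j + 1), ((j + 1).choose (l + 1) : ℂ) * dl f (l + 1) a *
      dl g (j + 1 - (l + 1)) (a + (l + 1)) = ((j + 1).choose (l + 1) : ℂ) *
        (dl f (l + 1) a * dl g (j - l) (a + l + 1)) := by
    intro l _
    have h1 : j + 1 - (l + 1) = j - l := by omega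
    rw [h1, add_assoc]
    ring
  rw [Finset.sum_congr rfl h]
  simp [dl]

private theorem choose_sum_le (j : ℕ) (F : ℕ → ℂ) (K : ℝ) (hK : 0 ≤ K)
    (hF : ∀ l ≤ j, ‖F l‖ ≤ K) :
    ‖∑ l ∈ Finset.range (j + 1), ((j + 1).choose (l + 1) : ℂ) * F l‖ ≤ 2 ^ (j + 1) * K := by
  have h1 : ‖∑ l ∈ Finset.range (j + 1), ((j + 1).choose (l + 1) : ℂ) * F l‖ ≤
      ∑ l ∈ Finset.range (j + 1), ((j + 1).choose (l + 1) : ℝ) * K := by
    refine (norm_sum_le _ _).trans (Finset.sum_le_sum fun l hl => ?_)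
    rw [norm_mul, Complex.norm_natCast]
    exact mul_le_mul_of_nonneg_left (hF l (by have := Finset.mem_range.1 hl; omega))
      (Nat.cast_nonneg _)
  refine h1.trans ?_
  rw [← Finset.sum_mul]
  apply mul_le_mul_of_nonneg_right _ hK
  have h2 : (∑ l ∈ Finset.range (j + 1 + 1), ((j + 1).choose l : ℝ)) = 2 ^ (j + 1) := by
    have := Nat.sum_range_choose (j + 1)
    exact_mod_cast this
  rw [Finset.sum_range_succ' _ (j + 1)] at h2
  have h3 : (0 : ℝ) ≤ ((j + 1).choose 0 : ℝ) := Nat.cast_nonneg _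
  linarith

private theorem solve_bound (f g : ℕ → ℂ) (j a : ℕ) (m H K : ℝ) (hm : 0 < m) (hK : 0 ≤ K)
    (hf : m ≤ ‖f a‖) (hH : ‖dl (fun b => f b * g b) (j + 1) a‖ ≤ H)
    (hl : ∀ l ≤ j, ‖dl f (l + 1) a‖ * ‖dl g (j - l) (a + l + 1)‖ ≤ K) :
    ‖dl g (j + 1) a‖ ≤ (H + 2 ^ (j + 1) * K) / m := by
  rw [le_div_iff₀ hm]
  have h1 : ‖f a * dl g (j + 1) a‖ ≤ H + 2 ^ (j + 1) * K := by
    rw [mul_solve]
    refine (norm_sub_le _ _).trans (add_le_add hH ?_)
    apply choose_sum_le j _ K hK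
    intro l hlj
    rw [norm_mul]
    exact hl l hlj
  rw [norm_mul] at h1
  have h2 : ‖dl g (j + 1) a‖ * m ≤ ‖f a‖ * ‖dl g (j + 1) a‖ := by
    rw [mul_comm]
    exact mul_le_mul_of_nonneg_right hf (norm_nonneg _)
  linarith

/-! ### The data -/

/-- The hypotheses of the estimate. -/
private structure Dat (r C₀ z0 x B R₀ : ℝ) (R : ℕ → ℂ → ℂ) : Prop where
  x_pos : 0 < x
  x_le : x ≤ B
  B_le : B ≤ R₀
  x1_le : 1 + x ≤ R₀
  dif : ∀ a, DifferentiableOn ℂ (R a) (Metric.ball 0 z0)
  ne : ∀ a, ∀ z ∈ Metric.ball (0 : ℂ) z0, R a z ≠ 0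
  d0 : ∀ z ∈ Metric.ball (0 : ℂ) z0, ‖deriv (R 0) z‖ ≤ C₀ * B
  low : ∀ a, R₀ ≤ ‖R a 0‖
  rcr : ∀ a, ∀ z ∈ Metric.ball (0 : ℂ) z0, R (a + 1) z = R a z + r * (x * cexp z) +
        (1 - x * cexp z) * (deriv (R a) z / R a z)

private theorem norm_exp_le {z0 : ℝ} {z : ℂ} (hz : z ∈ Metric.ball (0 : ℂ) z0) :
    ‖cexp z‖ ≤ Real.exp z0 := by
  have hz' : ‖z‖ < z0 := by simpa using hz
  rw [Complex.norm_exp]
  exact Real.exp_le_exp.2 ((Complex.re_le_norm z).trans hz'.le)

private theorem norm_t_le {z0 x : ℝ} (hx : 0 < x) {z : ℂ} (hz : z ∈ Metric.ball (0 : ℂ) z0) :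
    ‖(x : ℂ) * cexp z‖ ≤ x * Real.exp z0 := by
  rw [norm_mul, Complex.norm_real, Real.norm_of_nonneg hx.le]
  exact mul_le_mul_of_nonneg_left (norm_exp_le hz) hx.le

private theorem norm_one_sub_t_le {z0 x : ℝ} (hz0 : 0 < z0) (hx : 0 < x) {z : ℂ}
    (hz : z ∈ Metric.ball (0 : ℂ) z0) :
    ‖1 - (x : ℂ) * cexp z‖ ≤ Real.exp z0 * (1 + x) := by
  have h1 : ‖1 - (x : ℂ) * cexp z‖ ≤ 1 + x * Real.exp z0 := by
    refine (norm_sub_le _ _).trans ?_
    rw [norm_one]
    exact add_le_add le_rfl (norm_t_le hx hz)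
  have h2 : 1 ≤ Real.exp z0 := Real.one_le_exp hz0.le
  nlinarith

namespace Dat

variable {r C₀ z0 x B R₀ : ℝ} {R : ℕ → ℂ → ℂ}

private theorem B_pos (h : Dat r C₀ z0 x B R₀ R) : 0 < B := lt_of_lt_of_le h.x_pos h.x_le

private theorem R_pos (h : Dat r C₀ z0 x B R₀ R) : 0 < R₀ := lt_of_lt_of_le h.B_pos h.B_le

private theorem dq (h : Dat r C₀ z0 x B R₀ R) (a : ℕ) :
    DifferentiableOn ℂ (fun z => deriv (R a) z / R a z) (Metric.ball 0 z0) :=
  ((h.dif a).deriv Metric.isOpen_ball).div (h.dif a) (h.ne a)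

private theorem drec (h : Dat r C₀ z0 x B R₀ R) (a : ℕ) {z : ℂ}
    (hz : z ∈ Metric.ball (0 : ℂ) z0) :
    deriv (R (a + 1)) z = deriv (R a) z + r * (x * cexp z) +
      (-(x * cexp z) * (deriv (R a) z / R a z) +
        (1 - x * cexp z) * deriv (fun w => deriv (R a) w / R a w) z) := by
  have hnh : Metric.ball (0 : ℂ) z0 ∈ 𝓝 z := Metric.isOpen_ball.mem_nhds hz
  have e1 : R (a + 1) =ᶠ[𝓝 z] fun w => R a w + r * (x * cexp w) +
      (1 - x * cexp w) * (deriv (R a) w / R a w) := by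
    filter_upwards [hnh] with w hw using h.rcr a w hw
  rw [e1.deriv_eq]
  have d1 : HasDerivAt (R a) (deriv (R a) z) z := ((h.dif a).differentiableAt hnh).hasDerivAt
  have d2 : HasDerivAt (fun w : ℂ => (x : ℂ) * cexp w) (x * cexp z) z :=
    (Complex.hasDerivAt_exp z).const_mul _
  have d3 : HasDerivAt (fun w : ℂ => (r : ℂ) * ((x : ℂ) * cexp w)) (r * (x * cexp z)) z :=
    d2.const_mul _
  have d4 : HasDerivAt (fun w : ℂ => 1 - (x : ℂ) * cexp w) (-(x * cexp z)) z := by
    simpa using d2.const_sub 1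
  have d5 : HasDerivAt (fun w => deriv (R a) w / R a w)
      (deriv (fun w => deriv (R a) w / R a w) z) z :=
    ((h.dq a).differentiableAt hnh).hasDerivAt
  exact ((d1.add d3).add (d4.mul d5)).deriv

private theorem low_of (h : Dat r C₀ z0 x B R₀ R) (a : ℕ) {A ρ : ℝ} (hA : 0 < A)
    (hρ0 : ρ ≤ z0) (hd : ∀ z ∈ Metric.ball (0 : ℂ) ρ, ‖deriv (R a) z‖ ≤ A * B)
    {z : ℂ} (hz : z ∈ Metric.ball (0 : ℂ) (min ρ (1 / (2 * A)))) : R₀ / 2 ≤ ‖R a z‖ := by
  have hz' : ‖z‖ < min ρ (1 / (2 * A)) := by simpa using hz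
  have hz1 : z ∈ Metric.ball (0 : ℂ) ρ := by
    have := lt_of_lt_of_le hz' (min_le_left _ _)
    simpa using this
  have hz2 : ‖z‖ ≤ 1 / (2 * A) := (lt_of_lt_of_le hz' (min_le_right _ _)).le
  have h1 : ‖R a z - R a 0‖ ≤ A * B * ‖z‖ :=
    mvt_ball ((h.dif a).mono (Metric.ball_subset_ball hρ0)) hd hz1
  have hB := h.B_pos
  have h2 : A * B * ‖z‖ ≤ R₀ / 2 := by
    calc A * B * ‖z‖ ≤ A * B * (1 / (2 * A)) := by
          apply mul_le_mul_of_nonneg_left hz2; positivity
      _ = B / 2 := by field_simp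
      _ ≤ R₀ / 2 := by have := h.B_le; linarith
  have h3 := h.low a
  have h4 : ‖R a 0‖ ≤ ‖R a z‖ + ‖R a z - R a 0‖ := by
    calc ‖R a 0‖ = ‖R a z - (R a z - R a 0)‖ := by ring_nf
      _ ≤ _ := norm_sub_le _ _
  linarith

end Dat

/-! ### First induction -/

private theorem LA (r C₀ z0 : ℝ) (hr : 0 < r) (hC₀ : 0 < C₀) (hz0 : 0 < z0) : ∀ N : ℕ,
    ∃ A ρ : ℝ, 0 < A ∧ 0 < ρ ∧ ρ ≤ z0 ∧ ∀ (x B R₀ : ℝ) (R : ℕ → ℂ → ℂ),
      Dat r C₀ z0 x B R₀ R → ∀ a ≤ N, ∀ z ∈ Metric.ball (0 : ℂ) ρ,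
        ‖deriv (R a) z‖ ≤ A * B ∧ R₀ / 2 ≤ ‖R a z‖ := by
  intro N
  induction N with
  | zero =>
    refine ⟨C₀, min z0 (1 / (2 * C₀)), hC₀, by positivity, min_le_left _ _, ?_⟩
    intro x B R₀ R h a ha z hz
    obtain rfl : a = 0 := by omega
    refine ⟨h.d0 z (Metric.ball_subset_ball (min_le_left _ _) hz), ?_⟩
    exact h.low_of 0 hC₀ le_rfl h.d0 hz
  | succ N ih =>
    obtain ⟨A, ρ, hA, hρ, hρ0, ih⟩ := ih
    set E := Real.exp z0 with hE
    have hE0 : 0 < E := Real.exp_pos _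
    set A' := A + r * E + 2 * A * E + 8 * A * E / ρ with hA'
    have hA'0 : 0 < A' := by positivity
    have hAA' : A ≤ A' := by
      have : 0 ≤ r * E + 2 * A * E + 8 * A * E / ρ := by positivity
      rw [hA']; linarith
    refine ⟨A', min (ρ / 2) (1 / (2 * A')), hA'0, by positivity,
      (min_le_left _ _).trans (by linarith), ?_⟩
    intro x B R₀ R h a ha z hz
    have hB := h.B_pos
    have hR := h.R_pos
    have hx := h.x_pos
    rcases Nat.lt_or_ge a (N + 1) with hlt | hge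
    · have hz1 : z ∈ Metric.ball (0 : ℂ) ρ :=
        Metric.ball_subset_ball ((min_le_left _ _).trans (by linarith)) hz
      obtain ⟨h1, h2⟩ := ih x B R₀ R h a (by omega) z hz1
      exact ⟨h1.trans (mul_le_mul_of_nonneg_right hAA' hB.le), h2⟩
    · obtain rfl : a = N + 1 := by omega
      have key : ∀ w ∈ Metric.ball (0 : ℂ) (ρ / 2), ‖deriv (R (N + 1)) w‖ ≤ A' * B := by
        intro w hw
        have hw1 : w ∈ Metric.ball (0 : ℂ) ρ := Metric.ball_subset_ball (by linarith) hw
        have hw0 : w ∈ Metric.ball (0 : ℂ) z0 := Metric.ball_subset_ball hρ0 hw1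
        have hq : ∀ v ∈ Metric.ball (0 : ℂ) ρ, ‖deriv (R N) v / R N v‖ ≤ 2 * A * B / R₀ := by
          intro v hv
          obtain ⟨h1, h2⟩ := ih x B R₀ R h N le_rfl v hv
          rw [norm_div]
          calc ‖deriv (R N) v‖ / ‖R N v‖ ≤ (A * B) / (R₀ / 2) := by
                apply div_le_div₀ (by positivity) h1 (by positivity) h2
            _ = 2 * A * B / R₀ := by field_simp
        have hq' := cauchy_half hρ ((h.dq N).mono (Metric.ball_subset_ball hρ0)) hq w hw
        have ht := norm_t_le hx hw0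
        have ht1 := norm_one_sub_t_le hz0 hx hw0
        rw [← hE] at ht ht1
        rw [h.drec N hw0]
        have e1 : ‖(r : ℂ) * (x * cexp w)‖ ≤ r * E * B := by
          rw [norm_mul, Complex.norm_real, Real.norm_of_nonneg hr.le]
          calc r * ‖(x : ℂ) * cexp w‖ ≤ r * (x * E) := mul_le_mul_of_nonneg_left ht hr.le
            _ ≤ r * (B * E) := by
              apply mul_le_mul_of_nonneg_left _ hr.le
              exact mul_le_mul_of_nonneg_right h.x_le hE0.le
            _ = r * E * B := by ring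
        have e2 : ‖-(x * cexp w) * (deriv (R N) w / R N w)‖ ≤ 2 * A * E * B := by
          rw [norm_mul, norm_neg]
          calc ‖(x : ℂ) * cexp w‖ * ‖deriv (R N) w / R N w‖ ≤ (x * E) * (2 * A * B / R₀) := by
                apply mul_le_mul ht (hq w hw1) (norm_nonneg _) (by positivity)
            _ = 2 * A * E * B * (x / R₀) := by ring
            _ ≤ 2 * A * E * B * 1 := by
              apply mul_le_mul_of_nonneg_left _ (by positivity)
              rw [div_le_one hR]
              exact h.x_le.trans h.B_le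
            _ = 2 * A * E * B := by ring
        have e3 : ‖(1 - x * cexp w) * deriv (fun v => deriv (R N) v / R N v) w‖ ≤
            8 * A * E / ρ * B := by
          rw [norm_mul]
          calc ‖1 - (x : ℂ) * cexp w‖ * ‖deriv (fun v => deriv (R N) v / R N v) w‖
              ≤ (E * (1 + x)) * (2 * A * B / R₀ * (4 / ρ)) := by
                apply mul_le_mul ht1 hq' (norm_nonneg _) (by positivity)
            _ = 8 * A * E / ρ * B * ((1 + x) / R₀) := by ring
            _ ≤ 8 * A * E / ρ * B * 1 := by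
              apply mul_le_mul_of_nonneg_left _ (by positivity)
              rw [div_le_one hR]
              exact h.x1_le
            _ = 8 * A * E / ρ * B := by ring
        have e0 := (ih x B R₀ R h N le_rfl w hw1).1
        calc _ ≤ ‖deriv (R N) w + r * (x * cexp w)‖ + ‖-(x * cexp w) * (deriv (R N) w / R N w) +
              (1 - x * cexp w) * deriv (fun v => deriv (R N) v / R N v) w‖ := norm_add_le _ _
          _ ≤ (A * B + r * E * B) + (2 * A * E * B + 8 * A * E / ρ * B) := by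
            apply add_le_add
            · exact (norm_add_le _ _).trans (add_le_add e0 e1)
            · exact (norm_add_le _ _).trans (add_le_add e2 e3)
          _ = A' * B := by rw [hA']; ring
      refine ⟨key z (Metric.ball_subset_ball (min_le_left _ _) hz), ?_⟩
      exact h.low_of (N + 1) hA'0 (by linarith) key hz

/-! ### Second induction -/

namespace Dat

variable {r C₀ z0 x B R₀ : ℝ} {R : ℕ → ℂ → ℂ}

private theorem mu_pos (h : Dat r C₀ z0 x B R₀ R) : 0 < B / R₀ := div_pos h.B_pos h.R_pos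

private theorem mu_le (h : Dat r C₀ z0 x B R₀ R) : B / R₀ ≤ 1 := by
  rw [div_le_one h.R_pos]
  exact h.B_le

private theorem T_pos (h : Dat r C₀ z0 x B R₀ R) : 0 < x + B / R₀ :=
  add_pos h.x_pos h.mu_pos

private theorem T_le (h : Dat r C₀ z0 x B R₀ R) : x + B / R₀ ≤ 1 + x := by
  have := h.mu_le
  linarith

private theorem k_pos (h : Dat r C₀ z0 x B R₀ R) : 0 < (1 + x) / R₀ :=
  div_pos (by have := h.x_pos; linarith) h.R_pos

private theorem k_le (h : Dat r C₀ z0 x B R₀ R) : (1 + x) / R₀ ≤ 1 := by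
  rw [div_le_one h.R_pos]
  exact h.x1_le

private theorem TR_le (h : Dat r C₀ z0 x B R₀ R) : (x + B / R₀) / R₀ ≤ (1 + x) / R₀ :=
  div_le_div_of_nonneg_right h.T_le h.R_pos.le

private theorem kmu_le (h : Dat r C₀ z0 x B R₀ R) : (1 + x) * (B / R₀) ≤ x + B / R₀ := by
  have h1 := h.mu_le
  have h2 := h.x_pos
  nlinarith

end Dat

private theorem SR (r C₀ z0 : ℝ) (hr : 0 < r) (hC₀ : 0 < C₀) (hz0 : 0 < z0) : ∀ j N : ℕ,
    ∃ C ρ : ℝ, 0 < C ∧ 0 < ρ ∧ ρ ≤ z0 ∧ ∀ (x B R₀ : ℝ) (R : ℕ → ℂ → ℂ),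
      Dat r C₀ z0 x B R₀ R → ∀ a ≤ N, ∀ i < j, ∀ z ∈ Metric.ball (0 : ℂ) ρ,
        ‖dl (fun b => R b z) (i + 1) a‖ ≤ C * ((x + B / R₀) * ((1 + x) / R₀) ^ i) ∧
        ‖dl (fun b => deriv (R b) z / R b z) (i + 1) a‖ ≤
          C * ((x + B / R₀) / R₀ * ((1 + x) / R₀) ^ i) := by
  intro j
  induction j with
  | zero =>
    intro N
    exact ⟨1, z0, one_pos, hz0, le_rfl, fun x B R₀ R h a ha i hi => absurd hi (Nat.not_lt_zero i)⟩
  | succ j ih =>
    intro N
    obtain ⟨C, ρ, hC, hρ, hρ0, ih⟩ := ih (N + j + 2)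
    obtain ⟨A, ρA, hA, hρA, hρA0, la⟩ := LA r C₀ z0 hr hC₀ hz0 (N + j + 2)
    set E := Real.exp z0 with hE
    have hE0 : 0 < E := Real.exp_pos _
    obtain ⟨ρ1, hρ1e⟩ : ∃ ρ1, ρ1 = min ρ ρA := ⟨_, rfl⟩
    have hρ1 : 0 < ρ1 := by rw [hρ1e]; exact lt_min hρ hρA
    have hρ1a : ρ1 ≤ ρ := by rw [hρ1e]; exact min_le_left _ _
    have hρ1b : ρ1 ≤ ρA := by rw [hρ1e]; exact min_le_right _ _
    obtain ⟨C1, hC1e⟩ : ∃ C1, C1 = C + r * E + 2 * A * E + E * C := ⟨_, rfl⟩
    have hC1 : 0 < C1 := by rw [hC1e]; positivity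
    obtain ⟨C2, hC2e⟩ : ∃ C2, C2 = 2 * A + C := ⟨_, rfl⟩
    have hC2 : 0 < C2 := by rw [hC2e]; positivity
    obtain ⟨Cq, hCqe⟩ : ∃ Cq, Cq = 2 * (4 * C1 / ρ1 + 2 ^ (j + 1) * (C1 * C2)) := ⟨_, rfl⟩
    have hCq : 0 < Cq := by rw [hCqe]; positivity
    refine ⟨C + C1 + Cq, ρ1 / 2, by positivity, by positivity, by linarith, ?_⟩
    intro x B R₀ R h a ha i hi z hz
    have hB := h.B_pos
    have hR := h.R_pos
    have hx := h.x_pos
    have hT := h.T_pos
    have hk := h.k_pos
    have hmu := h.mu_pos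
    have hz1 : z ∈ Metric.ball (0 : ℂ) ρ1 := Metric.ball_subset_ball (by linarith) hz
    have hqA : ∀ b ≤ N + j + 1, ∀ w ∈ Metric.ball (0 : ℂ) ρ1,
        ‖deriv (R b) w / R b w‖ ≤ 2 * A * (B / R₀) := by
      intro b hb w hw
      obtain ⟨h1, h2⟩ := la x B R₀ R h b (by omega) w (Metric.ball_subset_ball hρ1b hw)
      rw [norm_div]
      calc ‖deriv (R b) w‖ / ‖R b w‖ ≤ (A * B) / (R₀ / 2) := by
            apply div_le_div₀ (by positivity) h1 (by positivity) h2
        _ = 2 * A * (B / R₀) := by field_simp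
    have hRj : ∀ b ≤ N + j + 1, ∀ w ∈ Metric.ball (0 : ℂ) ρ1, ∀ i ≤ j,
        ‖dl (fun b => R b w) (i + 1) b‖ ≤ C1 * ((x + B / R₀) * ((1 + x) / R₀) ^ i) := by
      intro b hb w hw i hi
      have hw0 : w ∈ Metric.ball (0 : ℂ) z0 := Metric.ball_subset_ball (by linarith) hw
      have ht := norm_t_le hx hw0
      have ht1 := norm_one_sub_t_le hz0 hx hw0
      rw [← hE] at ht ht1
      rcases Nat.lt_or_ge i j with hlt | hge
      · refine (ih x B R₀ R h b (by omega) i hlt w (Metric.ball_subset_ball hρ1a hw)).1.trans ?_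
        apply mul_le_mul_of_nonneg_right _ (by positivity)
        have : 0 < r * E + 2 * A * E + E * C := by positivity
        rw [hC1e]; linarith
      · obtain rfl : i = j := by omega
        cases i with
        | zero =>
          have e1 : dl (fun b => R b w) (0 + 1) b =
              r * (x * cexp w) + (1 - x * cexp w) * (deriv (R b) w / R b w) := by
            simp only [dl]
            rw [h.rcr b w hw0]
            ring
          rw [e1]
          have e2 : ‖(r : ℂ) * (x * cexp w)‖ ≤ r * E * x := by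
            rw [norm_mul, Complex.norm_real, Real.norm_of_nonneg hr.le]
            calc r * ‖(x : ℂ) * cexp w‖ ≤ r * (x * E) := mul_le_mul_of_nonneg_left ht hr.le
              _ = r * E * x := by ring
          have e3 : ‖(1 - x * cexp w) * (deriv (R b) w / R b w)‖ ≤
              2 * A * E * (x + B / R₀) := by
            rw [norm_mul]
            calc ‖1 - (x : ℂ) * cexp w‖ * ‖deriv (R b) w / R b w‖
                ≤ (E * (1 + x)) * (2 * A * (B / R₀)) :=
                  mul_le_mul ht1 (hqA b hb w hw) (norm_nonneg _) (by positivity)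
              _ = 2 * A * E * ((1 + x) * (B / R₀)) := by ring
              _ ≤ 2 * A * E * (x + B / R₀) :=
                  mul_le_mul_of_nonneg_left h.kmu_le (by positivity)
          have e4 : r * E * x ≤ r * E * (x + B / R₀) :=
            mul_le_mul_of_nonneg_left (by linarith) (by positivity)
          calc _ ≤ r * E * x + 2 * A * E * (x + B / R₀) :=
                (norm_add_le _ _).trans (add_le_add e2 e3)
            _ ≤ (r * E + 2 * A * E) * (x + B / R₀) := by linarith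
            _ ≤ C1 * (x + B / R₀) := by
              apply mul_le_mul_of_nonneg_right _ hT.le
              have : 0 < E * C := by positivity
              rw [hC1e]; linarith
            _ = C1 * ((x + B / R₀) * ((1 + x) / R₀) ^ 0) := by simp
        | succ i =>
          have e1 := dl_rec (fun b => R b w) (fun b => deriv (R b) w / R b w)
            (r * (x * cexp w)) (1 - x * cexp w) (fun b => h.rcr b w hw0) i b
          have e2 : dl (fun b => R b w) (i + 1 + 1) b =
              (1 - x * cexp w) * dl (fun b => deriv (R b) w / R b w) (i + 1) b := e1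
          rw [e2, norm_mul]
          have e3 := (ih x B R₀ R h b (by omega) i (by omega) w
            (Metric.ball_subset_ball hρ1a hw)).2
          calc ‖1 - (x : ℂ) * cexp w‖ * ‖dl (fun b => deriv (R b) w / R b w) (i + 1) b‖
              ≤ (E * (1 + x)) * (C * ((x + B / R₀) / R₀ * ((1 + x) / R₀) ^ i)) :=
                mul_le_mul ht1 e3 (norm_nonneg _) (by positivity)
            _ = (E * C) * ((x + B / R₀) * ((1 + x) / R₀) ^ (i + 1)) := by
                rw [pow_succ]; ring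
            _ ≤ C1 * ((x + B / R₀) * ((1 + x) / R₀) ^ (i + 1)) := by
              apply mul_le_mul_of_nonneg_right _ (by positivity)
              have : 0 < C + r * E + 2 * A * E := by positivity
              rw [hC1e]; linarith
    have hqj : ∀ b ≤ N + j + 1, ∀ w ∈ Metric.ball (0 : ℂ) ρ1, ∀ i ≤ j,
        ‖dl (fun b => deriv (R b) w / R b w) i b‖ ≤ C2 * ((1 + x) / R₀) ^ i := by
      intro b hb w hw i hi
      cases i with
      | zero =>
        calc ‖deriv (R b) w / R b w‖ ≤ 2 * A * (B / R₀) := hqA b hb w hw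
          _ ≤ 2 * A * 1 := mul_le_mul_of_nonneg_left h.mu_le (by positivity)
          _ ≤ C2 * ((1 + x) / R₀) ^ 0 := by rw [hC2e]; simp; linarith
      | succ i =>
        have e3 := (ih x B R₀ R h b (by omega) i (by omega) w
            (Metric.ball_subset_ball hρ1a hw)).2
        calc _ ≤ C * ((x + B / R₀) / R₀ * ((1 + x) / R₀) ^ i) := e3
          _ ≤ C * ((1 + x) / R₀ * ((1 + x) / R₀) ^ i) := by
              apply mul_le_mul_of_nonneg_left _ hC.le
              exact mul_le_mul_of_nonneg_right h.TR_le (by positivity)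
          _ = C * ((1 + x) / R₀) ^ (i + 1) := by rw [pow_succ]; ring
          _ ≤ C2 * ((1 + x) / R₀) ^ (i + 1) := by
              apply mul_le_mul_of_nonneg_right _ (by positivity)
              rw [hC2e]; linarith
    rcases Nat.lt_or_ge i j with hlt | hge
    · obtain ⟨h1, h2⟩ := ih x B R₀ R h a (by omega) i hlt z (Metric.ball_subset_ball hρ1a hz1)
      refine ⟨h1.trans ?_, h2.trans ?_⟩
      · exact mul_le_mul_of_nonneg_right (by linarith) (by positivity)
      · exact mul_le_mul_of_nonneg_right (by linarith) (by positivity)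
    · obtain rfl : i = j := by omega
      refine ⟨(hRj a (by omega) z hz1 i le_rfl).trans ?_, ?_⟩
      · exact mul_le_mul_of_nonneg_right (by linarith) (by positivity)
      · have hz0' : z ∈ Metric.ball (0 : ℂ) z0 := Metric.ball_subset_ball (by linarith) hz1
        have hfg : (fun b => R b z * (deriv (R b) z / R b z)) = fun b => deriv (R b) z := by
          funext b
          have := h.ne b z hz0'
          field_simp
        have hH : ‖dl (fun b => R b z * (deriv (R b) z / R b z)) (i + 1) a‖ ≤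
            C1 * ((x + B / R₀) * ((1 + x) / R₀) ^ i) * (4 / ρ1) := by
          rw [hfg, ← dl_deriv R (Metric.ball 0 z0) Metric.isOpen_ball h.dif hz0' (i + 1) a]
          exact cauchy_half hρ1 ((dl_diff R _ h.dif (i + 1) a).mono
            (Metric.ball_subset_ball (by linarith)))
            (fun w hw => hRj a (by omega) w hw i le_rfl) z hz
        have hs := solve_bound (fun b => R b z) (fun b => deriv (R b) z / R b z) i a (R₀ / 2)
          (C1 * ((x + B / R₀) * ((1 + x) / R₀) ^ i) * (4 / ρ1))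
          (C1 * C2 * ((x + B / R₀) * ((1 + x) / R₀) ^ i)) (by positivity) (by positivity)
          (la x B R₀ R h a (by omega) z (Metric.ball_subset_ball hρ1b hz1)).2 hH (by
            intro l hl
            have e1 := hRj a (by omega) z hz1 l hl
            have e2 := hqj (a + l + 1) (by omega) z hz1 (i - l) (by omega)
            calc _ ≤ (C1 * ((x + B / R₀) * ((1 + x) / R₀) ^ l)) *
                  (C2 * ((1 + x) / R₀) ^ (i - l)) :=
                  mul_le_mul e1 e2 (norm_nonneg _) (by positivity)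
              _ = C1 * C2 * ((x + B / R₀) *
                  (((1 + x) / R₀) ^ l * ((1 + x) / R₀) ^ (i - l))) := by ring
              _ = C1 * C2 * ((x + B / R₀) * ((1 + x) / R₀) ^ i) := by
                  rw [← pow_add, Nat.add_sub_cancel' hl])
        refine hs.trans ?_
        calc _ = Cq * ((x + B / R₀) / R₀ * ((1 + x) / R₀) ^ i) := by
              rw [hCqe]; field_simp
          _ ≤ (C + C1 + Cq) * ((x + B / R₀) / R₀ * ((1 + x) / R₀) ^ i) :=
              mul_le_mul_of_nonneg_right (by linarith) (by positivity)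

/-! ### Third induction and conclusion -/

private theorem ET (r C₀ z0 : ℝ) (hr : 0 < r) (hC₀ : 0 < C₀) (hz0 : 0 < z0) : ∀ j N : ℕ,
    ∃ C ρ : ℝ, 0 < C ∧ 0 < ρ ∧ ρ ≤ z0 ∧ ∀ (x B R₀ : ℝ) (R : ℕ → ℂ → ℂ),
      Dat r C₀ z0 x B R₀ R → ∀ a ≤ N, ∀ i ≤ j, ∀ z ∈ Metric.ball (0 : ℂ) ρ,
        ‖dl (fun b => R b z / R b 0 - 1) i a‖ ≤
          C * (B / R₀ * ‖z‖ * ((x + B / R₀) / B + (1 + x) / R₀) ^ i) := by
  intro j
  induction j with
  | zero =>
    intro N
    obtain ⟨A, ρ, hA, hρ, hρ0, la⟩ := LA r C₀ z0 hr hC₀ hz0 N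
    refine ⟨A, ρ, hA, hρ, hρ0, ?_⟩
    intro x B R₀ R h a ha i hi z hz
    obtain rfl : i = 0 := by omega
    have hB := h.B_pos
    have hR := h.R_pos
    have hne : R a 0 ≠ 0 := h.ne a 0 (by simpa using hz0)
    have e1 : dl (fun b => R b z / R b 0 - 1) 0 a = (R a z - R a 0) / R a 0 := by
      simp only [dl]
      field_simp
    rw [e1, norm_div]
    have h1 : ‖R a z - R a 0‖ ≤ A * B * ‖z‖ :=
      mvt_ball ((h.dif a).mono (Metric.ball_subset_ball hρ0))
        (fun w hw => (la x B R₀ R h a ha w hw).1) hz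
    calc ‖R a z - R a 0‖ / ‖R a 0‖ ≤ (A * B * ‖z‖) / R₀ :=
          div_le_div₀ (by positivity) h1 hR (h.low a)
      _ = A * (B / R₀ * ‖z‖ * ((x + B / R₀) / B + (1 + x) / R₀) ^ 0) := by
          rw [pow_zero]; ring
  | succ j ih =>
    intro N
    obtain ⟨Cp, ρ, hCp, hρ, hρ0, ih⟩ := ih (N + j + 1)
    obtain ⟨C1, ρA, hC1, hρA, hρA0, sr⟩ := SR r C₀ z0 hr hC₀ hz0 (j + 1) (N + j + 1)
    obtain ⟨ρ1, hρ1e⟩ : ∃ ρ1, ρ1 = min ρ ρA := ⟨_, rfl⟩
    have hρ1 : 0 < ρ1 := by rw [hρ1e]; exact lt_min hρ hρA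
    have hρ1a : ρ1 ≤ ρ := by rw [hρ1e]; exact min_le_left _ _
    have hρ1b : ρ1 ≤ ρA := by rw [hρ1e]; exact min_le_right _ _
    obtain ⟨Cn, hCne⟩ : ∃ Cn, Cn = 4 * C1 / ρ1 + 2 ^ (j + 1) * (C1 * Cp) := ⟨_, rfl⟩
    have hCn : 0 < Cn := by rw [hCne]; positivity
    refine ⟨Cp + Cn, ρ1 / 2, by positivity, by positivity, by linarith, ?_⟩
    intro x B R₀ R h a ha i hi z hz
    have hB := h.B_pos
    have hR := h.R_pos
    have hx := h.x_pos
    have hT := h.T_pos
    have hk := h.k_pos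
    have hmu := h.mu_pos
    have hz1 : z ∈ Metric.ball (0 : ℂ) ρ1 := Metric.ball_subset_ball (by linarith) hz
    have hz0' : z ∈ Metric.ball (0 : ℂ) z0 := Metric.ball_subset_ball (by linarith) hz1
    obtain ⟨Y, hY⟩ : ∃ Y, Y = (x + B / R₀) / B + (1 + x) / R₀ := ⟨_, rfl⟩
    have hY0 : 0 < Y := by rw [hY]; positivity
    have hkY : (1 + x) / R₀ ≤ Y := by
      have : 0 < (x + B / R₀) / B := by positivity
      rw [hY]; linarith
    have hTY : (x + B / R₀) / R₀ ≤ B / R₀ * Y := by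
      calc (x + B / R₀) / R₀ = B / R₀ * ((x + B / R₀) / B) := by field_simp
        _ ≤ B / R₀ * Y := by
          apply mul_le_mul_of_nonneg_left _ hmu.le
          rw [hY]; linarith
    have hTR : x + B / R₀ ≤ R₀ * Y := by
      have h1 : x + B / R₀ ≤ 1 + x := h.T_le
      have h2 : (1 + x) = R₀ * ((1 + x) / R₀) := by field_simp
      calc x + B / R₀ ≤ 1 + x := h1
        _ = R₀ * ((1 + x) / R₀) := h2
        _ ≤ R₀ * Y := mul_le_mul_of_nonneg_left hkY hR.le
    rw [← hY]
    rcases Nat.lt_or_ge i (j + 1) with hlt | hge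
    · have h1 := ih x B R₀ R h a (by omega) i (by omega) z (Metric.ball_subset_ball hρ1a hz1)
      rw [← hY] at h1
      exact h1.trans (mul_le_mul_of_nonneg_right (by linarith) (by positivity))
    · obtain rfl : i = j + 1 := by omega
      have hfg : (fun b => R b 0 * (R b z / R b 0 - 1)) = fun b => R b z - R b 0 := by
        funext b
        have := h.ne b 0 (by simpa using hz0)
        field_simp
      have hH : ‖dl (fun b => R b 0 * (R b z / R b 0 - 1)) (j + 1) a‖ ≤
          C1 * ((x + B / R₀) * ((1 + x) / R₀) ^ j) * (4 / ρ1) * ‖z‖ := by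
        rw [hfg, dl_sub (fun b => R b z) (fun b => R b 0) (j + 1) a]
        have hd : DifferentiableOn ℂ (fun w => dl (fun b => R b w) (j + 1) a)
            (Metric.ball 0 ρ1) :=
          (dl_diff R _ h.dif (j + 1) a).mono (Metric.ball_subset_ball (by linarith))
        exact mvt_ball (f := fun w => dl (fun b => R b w) (j + 1) a)
          (hd.mono (Metric.ball_subset_ball (by linarith)))
          (cauchy_half hρ1 hd (fun w hw => (sr x B R₀ R h a (by omega) j (Nat.lt_succ_self j) w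
            (Metric.ball_subset_ball hρ1b hw)).1)) hz
      have hs := solve_bound (fun b => R b 0) (fun b => R b z / R b 0 - 1) j a R₀
        (C1 * ((x + B / R₀) * ((1 + x) / R₀) ^ j) * (4 / ρ1) * ‖z‖)
        (C1 * Cp * (B / R₀ * ‖z‖) * (R₀ * Y ^ (j + 1))) hR (by positivity) (h.low a) hH (by
          intro l hl
          have e1 := (sr x B R₀ R h a (by omega) l (by omega) 0 (by simpa using hρA)).1
          have e2 := ih x B R₀ R h (a + l + 1) (by omega) (j - l) (by omega) z
            (Metric.ball_subset_ball hρ1a hz1)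
          rw [← hY] at e2
          calc _ ≤ (C1 * ((x + B / R₀) * ((1 + x) / R₀) ^ l)) *
                (Cp * (B / R₀ * ‖z‖ * Y ^ (j - l))) :=
                mul_le_mul e1 e2 (norm_nonneg _) (by positivity)
            _ = C1 * Cp * (B / R₀ * ‖z‖) *
                ((x + B / R₀) * (((1 + x) / R₀) ^ l * Y ^ (j - l))) := by ring
            _ ≤ C1 * Cp * (B / R₀ * ‖z‖) * ((R₀ * Y) * (Y ^ l * Y ^ (j - l))) := by
                apply mul_le_mul_of_nonneg_left _ (by positivity)
                apply mul_le_mul hTR _ (by positivity) (by positivity)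
                apply mul_le_mul_of_nonneg_right _ (by positivity)
                exact pow_le_pow_left₀ hk.le hkY l
            _ = C1 * Cp * (B / R₀ * ‖z‖) * (R₀ * Y ^ (j + 1)) := by
                rw [← pow_add, Nat.add_sub_cancel' hl, pow_succ]; ring)
      refine hs.trans ?_
      calc _ = 4 * C1 / ρ1 * ‖z‖ * ((x + B / R₀) / R₀ * ((1 + x) / R₀) ^ j) +
            2 ^ (j + 1) * (C1 * Cp) * (B / R₀ * ‖z‖ * Y ^ (j + 1)) := by
            field_simp
        _ ≤ 4 * C1 / ρ1 * ‖z‖ * ((B / R₀ * Y) * Y ^ j) +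
            2 ^ (j + 1) * (C1 * Cp) * (B / R₀ * ‖z‖ * Y ^ (j + 1)) := by
            apply add_le_add _ le_rfl
            apply mul_le_mul_of_nonneg_left _ (by positivity)
            exact mul_le_mul hTY (pow_le_pow_left₀ hk.le hkY j) (by positivity) (by positivity)
        _ = Cn * (B / R₀ * ‖z‖ * Y ^ (j + 1)) := by
            rw [hCne, pow_succ]; ring
        _ ≤ (Cp + Cn) * (B / R₀ * ‖z‖ * Y ^ (j + 1)) :=
            mul_le_mul_of_nonneg_right (by linarith) (by positivity)

/-- DIF -/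
theorem dif : DifSt := by
  intro r C₀ z0 M hr hC₀ hz0
  obtain ⟨C, ρ, hC, hρ, hρ0, et⟩ := ET r C₀ z0 hr hC₀ hz0 M M
  refine ⟨C, ρ / 2, hC, by positivity, by linarith, ?_⟩
  intro x B R₀ R hx hxB hBR hxR hdif hne hd0 hR00 hlow hrec a j haj z hz
  have h : Dat r C₀ z0 x B R₀ R := ⟨hx, hxB, hBR, hxR, hdif, hne, hd0, hlow, hrec⟩
  have hz' : z ∈ Metric.ball (0 : ℂ) ρ := by
    have : ‖z‖ < ρ := by linarith
    simpa using this
  have h1 := et x B R₀ R h a (by omega) j (by omega) z hz'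
  calc _ ≤ C * (B / R₀ * ‖z‖ * ((x + B / R₀) / B + (1 + x) / R₀) ^ j) := h1
    _ = C * (B / R₀) * ‖z‖ * ((x + B / R₀) / B + (1 + x) / R₀) ^ j := by ring

end Pool.Agent.H53.ATPR
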