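import Pool.Agent.H53.ATPR.Spec

/-!
# ATPR, piece DSK: the ratio of consecutive rows on a disc
-/

set_option autoImplicit false

open MeasureTheory Filter Complex
open scoped Topology Real

namespace Pool.Agent.H53.ATPR

/-- complex mean -/
noncomputable def dskM (y : ℕ → ℕ → ℝ) (n : ℕ) (t : ℂ) : ℂ :=
  ∑ i ∈ Finset.range n, (y n i : ℂ) * t / (1 + (y n i : ℂ) * t)

/-- complex variance -/
noncomputable def dskV (y : ℕ → ℕ → ℝ) (n : ℕ) (t : ℂ) : ℂ :=
  ∑ i ∈ Finset.range n, (y n i : ℂ) * t / (1 + (y n i : ℂ) * t) ^ 2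

theorem dsk_exp {z : ℂ} (hz : z ∈ Metric.ball (0 : ℂ) (1 / 4)) : ‖cexp z - 1‖ ≤ 1 / 2 := by
  rw [mem_ball_zero_iff] at hz
  have h := Complex.norm_exp_sub_one_le (x := z) (by linarith)
  linarith

theorem dsk_low {y x : ℝ} (hy : 0 < y) (hx : 0 < x) {w : ℂ} (hw : ‖w - 1‖ ≤ 1 / 2) :
    (1 + y * x) / 2 ≤ ‖1 + (y : ℂ) * (x * w)‖ := by
  have h1 : (1 : ℝ) / 2 ≤ w.re := by
    have h2 := Complex.abs_re_le_norm (w - 1)
    have h3 : (w - 1).re = w.re - 1 := by simp
    rw [h3] at h2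
    have h4 := abs_le.1 (h2.trans hw)
    linarith [h4.1]
  have h2 : (1 + (y : ℂ) * (x * w)).re = 1 + y * (x * w.re) := by simp
  refine le_trans ?_ (Complex.abs_re_le_norm _)
  rw [h2]
  refine le_trans ?_ (le_abs_self _)
  have h3 : y * (x * (1 / 2)) ≤ y * (x * w.re) := by
    apply mul_le_mul_of_nonneg_left _ hy.le
    exact mul_le_mul_of_nonneg_left h1 hx.le
  linarith

theorem dsk_ne {y x : ℝ} (hy : 0 < y) (hx : 0 < x) {w : ℂ} (hw : ‖w - 1‖ ≤ 1 / 2) :
    1 + (y : ℂ) * (x * w) ≠ 0 := by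
  intro h
  have h1 := dsk_low hy hx hw
  rw [h, norm_zero] at h1
  have : 0 < y * x := mul_pos hy hx
  linarith

theorem dsk_wn {w : ℂ} (hw : ‖w - 1‖ ≤ 1 / 2) : ‖w‖ ≤ 3 / 2 := by
  have h : ‖w‖ ≤ ‖w - 1‖ + ‖(1 : ℂ)‖ := by
    have := norm_add_le (w - 1) 1
    simpa using this
  rw [norm_one] at h
  linarith

/-- theta F -/
noncomputable def dskS (r n : ℕ) (t : ℂ) : ℂ :=
  ∑ k ∈ Finset.range (n + 1), (k : ℂ) * (ev r n k : ℂ) * t ^ k

theorem dsk_rec (hE : EvSt) {r : ℕ} (hr : 1 ≤ r) (n : ℕ) (t : ℂ) :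
    Fr r (n + 1) t = (1 + (r : ℂ) * (n + 1) * t) * Fr r n t + (1 - t) * dskS r n t := by
  obtain ⟨h0, hz, -, hrec, -⟩ := hE r hr
  have h1 : Fr r (n + 1) t = 1 + ∑ k ∈ Finset.range (n + 1),
      ((((k : ℂ) + 2) * (ev r n (k + 1) : ℂ) + ((r : ℂ) * (n + 1) - k) * (ev r n k : ℂ))
        * t ^ (k + 1)) := by
    unfold Fr
    rw [Finset.sum_range_succ' _ (n + 1), h0, add_comm]
    simp only [pow_zero, mul_one, ofReal_one]
    congr 1
    apply Finset.sum_congr rfl
    intro k _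
    rw [hrec n k]
    push_cast
    ring
  have h2 : ∑ k ∈ Finset.range (n + 1), ((k : ℂ) + 1) * (ev r n k : ℂ) * t ^ k =
      1 + ∑ k ∈ Finset.range (n + 1), ((k : ℂ) + 2) * (ev r n (k + 1) : ℂ) * t ^ (k + 1) := by
    rw [Finset.sum_range_succ' _ n, Finset.sum_range_succ _ n, h0, hz n (n + 1) (Nat.lt_succ_self n)]
    simp only [Nat.cast_zero, zero_add, pow_zero, mul_one, ofReal_one, ofReal_zero, mul_zero,
      zero_mul, add_zero]
    rw [add_comm]
    congr 1
    apply Finset.sum_congr rfl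
    intro k _
    push_cast
    ring
  have h3 : ∑ k ∈ Finset.range (n + 1), ((k : ℂ) + 2) * (ev r n (k + 1) : ℂ) * t ^ (k + 1) =
      dskS r n t + Fr r n t - 1 := by
    have h4 : ∑ k ∈ Finset.range (n + 1), ((k : ℂ) + 1) * (ev r n k : ℂ) * t ^ k =
        dskS r n t + Fr r n t := by
      unfold dskS Fr
      rw [← Finset.sum_add_distrib]
      apply Finset.sum_congr rfl
      intro k _
      ring
    rw [h4] at h2
    linear_combination -h2
  have h5 : ∑ k ∈ Finset.range (n + 1), (((r : ℂ) * (n + 1) - k) * (ev r n k : ℂ)) * t ^ (k + 1) =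
      (r : ℂ) * (n + 1) * t * Fr r n t - t * dskS r n t := by
    unfold dskS Fr
    rw [Finset.mul_sum, Finset.mul_sum, ← Finset.sum_sub_distrib]
    apply Finset.sum_congr rfl
    intro k _
    ring
  rw [h1]
  simp only [add_mul]
  rw [Finset.sum_add_distrib]
  have h6 : ∑ k ∈ Finset.range (n + 1), ((k : ℂ) * (ev r n (k + 1) : ℂ) + 2 * (ev r n (k + 1) : ℂ)) *
      t ^ (k + 1) = ∑ k ∈ Finset.range (n + 1), ((k : ℂ) + 2) * (ev r n (k + 1) : ℂ) * t ^ (k + 1) := by
    apply Finset.sum_congr rfl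
    intro k _
    ring
  rw [← Finset.sum_add_distrib]
  have h7 : ∑ k ∈ Finset.range (n + 1), (((k : ℂ) * (ev r n (k + 1) : ℂ) * t ^ (k + 1) +
      2 * (ev r n (k + 1) : ℂ) * t ^ (k + 1)) +
      ((r : ℂ) * (n + 1) - k) * (ev r n k : ℂ) * t ^ (k + 1)) = 
      (∑ k ∈ Finset.range (n + 1), ((k : ℂ) + 2) * (ev r n (k + 1) : ℂ) * t ^ (k + 1)) +
      ∑ k ∈ Finset.range (n + 1), (((r : ℂ) * (n + 1) - k) * (ev r n k : ℂ)) * t ^ (k + 1) := by
    rw [← Finset.sum_add_distrib]
    apply Finset.sum_congr rfl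
    intro k _
    ring
  rw [h7, h3, h5]
  ring

theorem dsk_mean {r : ℕ} {y : ℕ → ℕ → ℝ} (hy : IsY r y) (n : ℕ) {t : ℂ}
    (ht : ∀ i, 1 + (y n i : ℂ) * t ≠ 0) : dskS r n t = Fr r n t * dskM y n t := by
  have h1 : HasDerivAt (Fr r n) (∑ k ∈ Finset.range (n + 1),
      (ev r n k : ℂ) * ((k : ℂ) * t ^ (k - 1))) t := by
    have h : HasDerivAt (fun t : ℂ => ∑ k ∈ Finset.range (n + 1), (ev r n k : ℂ) * t ^ k)
        (∑ k ∈ Finset.range (n + 1), (ev r n k : ℂ) * ((k : ℂ) * t ^ (k - 1))) t := by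
      apply HasDerivAt.fun_sum
      intro k _
      exact (hasDerivAt_pow k t).const_mul _
    exact h
  have h2 : HasDerivAt (Fr r n) (∑ i ∈ Finset.range n,
      (∏ j ∈ (Finset.range n).erase i, (1 + (y n j : ℂ) * t)) • (y n i : ℂ)) t := by
    have h : HasDerivAt (fun t : ℂ => ∏ i ∈ Finset.range n, (1 + (y n i : ℂ) * t))
        (∑ i ∈ Finset.range n,
      (∏ j ∈ (Finset.range n).erase i, (1 + (y n j : ℂ) * t)) • (y n i : ℂ)) t := by
      apply HasDerivAt.fun_finsetProd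
      intro i _
      simpa using ((hasDerivAt_id t).const_mul (y n i : ℂ)).const_add 1
    have e : Fr r n = fun t : ℂ => ∏ i ∈ Finset.range n, (1 + (y n i : ℂ) * t) :=
      funext (hy.2 n)
    rw [e]
    exact h
  have h3 := h1.unique h2
  have h4 : dskS r n t = t * ∑ k ∈ Finset.range (n + 1),
      (ev r n k : ℂ) * ((k : ℂ) * t ^ (k - 1)) := by
    unfold dskS
    rw [Finset.mul_sum]
    apply Finset.sum_congr rfl
    intro k _
    rcases Nat.eq_zero_or_pos k with h | h
    · subst h; simp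
    · obtain ⟨k', rfl⟩ : ∃ k', k = k' + 1 := ⟨k - 1, by omega⟩
      simp only [Nat.add_sub_cancel]
      ring
  rw [h4, h3]
  unfold dskM
  rw [Finset.mul_sum, Finset.mul_sum]
  apply Finset.sum_congr rfl
  intro i hi
  rw [hy.2 n, ← Finset.mul_prod_erase _ _ hi]
  have := ht i
  rw [smul_eq_mul, mul_div_assoc', eq_div_iff this]
  ring

theorem dsk_Fne {r : ℕ} {y : ℕ → ℕ → ℝ} (hy : IsY r y) (n : ℕ) {t : ℂ}
    (ht : ∀ i, 1 + (y n i : ℂ) * t ≠ 0) : Fr r n t ≠ 0 := by
  rw [hy.2 n]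
  exact Finset.prod_ne_zero_iff.2 fun i _ => ht i

theorem dsk_Fd (r n : ℕ) : Differentiable ℂ (Fr r n) := by
  unfold Fr
  fun_prop

/-- explicit form of the ratio -/
noncomputable def dskG (r n : ℕ) (y : ℕ → ℕ → ℝ) (x : ℝ) (z : ℂ) : ℂ :=
  1 + (r : ℂ) * (n + 1) * (x * cexp z) + (1 - x * cexp z) * dskM y n (x * cexp z)

theorem dsk_Rz (hE : EvSt) {r : ℕ} (hr : 1 ≤ r) {y : ℕ → ℕ → ℝ} (hy : IsY r y) (n : ℕ) {x : ℝ}
    (hx : 0 < x) {z : ℂ} (hz : z ∈ Metric.ball (0 : ℂ) (1 / 4)) :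
    Rz r n x z = dskG r n y x z ∧ Fr r n (x * cexp z) ≠ 0 := by
  have hne : ∀ i, 1 + (y n i : ℂ) * (x * cexp z) ≠ 0 := fun i => dsk_ne (hy.1 n i) hx (dsk_exp hz)
  have h0 := dsk_Fne hy n hne
  refine ⟨?_, h0⟩
  unfold Rz dskG
  rw [dsk_rec hE hr, dsk_mean hy n hne, div_eq_iff h0]
  ring

theorem dsk_Md {r : ℕ} {y : ℕ → ℕ → ℝ} (hy : IsY r y) (n : ℕ) {x : ℝ}
    (hx : 0 < x) {z : ℂ} (hz : z ∈ Metric.ball (0 : ℂ) (1 / 4)) :
    HasDerivAt (fun z => dskM y n (x * cexp z)) (dskV y n (x * cexp z)) z := by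
  have hw : HasDerivAt (fun z => (x : ℂ) * cexp z) ((x : ℂ) * cexp z) z :=
    (Complex.hasDerivAt_exp z).const_mul _
  have h : HasDerivAt (fun z => ∑ i ∈ Finset.range n,
      (y n i : ℂ) * ((x : ℂ) * cexp z) / (1 + (y n i : ℂ) * ((x : ℂ) * cexp z)))
      (∑ i ∈ Finset.range n, (y n i : ℂ) * ((x : ℂ) * cexp z) /
        (1 + (y n i : ℂ) * ((x : ℂ) * cexp z)) ^ 2) z := by
    apply HasDerivAt.fun_sum
    intro i _
    have hne := dsk_ne (hy.1 n i) hx (dsk_exp hz)
    have h1 := (hw.const_mul (y n i : ℂ))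
    have h2 := h1.div (h1.const_add 1) hne
    refine h2.congr_deriv ?_
    field_simp
    ring
  exact h

theorem dsk_Gd {r : ℕ} {y : ℕ → ℕ → ℝ} (hy : IsY r y) (n : ℕ) {x : ℝ}
    (hx : 0 < x) {z : ℂ} (hz : z ∈ Metric.ball (0 : ℂ) (1 / 4)) :
    HasDerivAt (dskG r n y x) ((r : ℂ) * (n + 1) * (x * cexp z) -
      x * cexp z * dskM y n (x * cexp z) + (1 - x * cexp z) * dskV y n (x * cexp z)) z := by
  have hw : HasDerivAt (fun z => (x : ℂ) * cexp z) ((x : ℂ) * cexp z) z :=
    (Complex.hasDerivAt_exp z).const_mul _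
  have h1 := ((hw.const_mul ((r : ℂ) * (n + 1))).const_add 1).add
    ((hw.const_sub 1).mul (dsk_Md hy n hx hz))
  refine (h1.congr_deriv ?_)
  ring

theorem dsk : EvSt → MeanSt → BasSt → DskSt := by
  intro hE _ hB r hr
  refine ⟨3 / 2 * (r + 3) + 9, 1 / 4, by positivity, by norm_num, ?_⟩
  intro y hy n x hx
  have hr1 : 1 ≤ r := by omega
  have h0mem : (0 : ℂ) ∈ Metric.ball (0 : ℂ) (1 / 4) := Metric.mem_ball_self (by norm_num)
  have hex : Differentiable ℂ fun z : ℂ => (x : ℂ) * cexp z := by fun_prop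
  have hRz : ∀ m, ∀ z ∈ Metric.ball (0 : ℂ) (1 / 4), Rz r m x z = dskG r m y x z :=
    fun m z hz => (dsk_Rz hE hr1 hy m hx hz).1
  have hF : ∀ m, ∀ z ∈ Metric.ball (0 : ℂ) (1 / 4), Fr r m (x * cexp z) ≠ 0 :=
    fun m z hz => (dsk_Rz hE hr1 hy m hx hz).2
  have hdd : ∀ m, ∀ z ∈ Metric.ball (0 : ℂ) (1 / 4), HasDerivAt (Rz r m x)
      ((r : ℂ) * (m + 1) * (x * cexp z) -
      x * cexp z * dskM y m (x * cexp z) + (1 - x * cexp z) * dskV y m (x * cexp z)) z := by
    intro m z hz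
    refine (dsk_Gd hy m hx hz).congr_of_eventuallyEq ?_
    filter_upwards [Metric.isOpen_ball.mem_nhds hz] with w hw
    exact hRz m w hw
  have hM0 : dskM y n (x * cexp 0) = (ms y n x : ℂ) := by
    unfold dskM ms
    rw [Complex.exp_zero, mul_one]
    push_cast
    rfl
  have hV0 : dskV y n (x * cexp 0) = (vs y n x : ℂ) := by
    unfold dskV vs
    rw [Complex.exp_zero, mul_one]
    push_cast
    rfl
  refine ⟨?_, ?_, ?_, ?_⟩
  · intro z hz
    exact (hdd n z hz).differentiableAt.differentiableWithinAt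
  · rw [hRz n 0 h0mem]
    unfold dskG
    rw [hM0]
    unfold R0
    rw [Complex.exp_zero]
    push_cast
    ring
  · rw [(hdd n 0 h0mem).deriv, hM0, hV0]
    unfold B0
    rw [Complex.exp_zero]
    push_cast
    ring
  · intro z hz
    have hw := dsk_exp hz
    have hwn := dsk_wn hw
    set w := cexp z with hwdef
    have hRne : Rz r n x z ≠ 0 := by
      unfold Rz
      exact div_ne_zero (hF (n + 1) z hz) (hF n z hz)
    refine ⟨hRne, ?_, ?_⟩
    · rw [(hdd n z hz).deriv, ← hwdef]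
      obtain ⟨hv0, hvm, hvn, hv4, -, hBx, hBv, -⟩ := hB r hr y hy n x hx
      have hMn : ‖dskM y n (x * w)‖ ≤ 3 * n := by
        unfold dskM
        refine (norm_sum_le _ _).trans ?_
        have h : ∀ i ∈ Finset.range n, ‖(y n i : ℂ) * (x * w) / (1 + (y n i : ℂ) * (x * w))‖ ≤ 3 := by
          intro i _
          have hyi := hy.1 n i
          have hl := dsk_low hyi hx hw
          rw [norm_div]
          have hp : 0 < y n i * x := mul_pos hyi hx
          rw [div_le_iff₀ (by linarith)]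
          have h1 : ‖(y n i : ℂ) * (x * w)‖ ≤ y n i * x * (3 / 2) := by
            rw [norm_mul, norm_mul, Complex.norm_real, Complex.norm_real, Real.norm_eq_abs,
              Real.norm_eq_abs, abs_of_pos hyi, abs_of_pos hx, ← mul_assoc]
            exact mul_le_mul_of_nonneg_left hwn hp.le
          linarith
        refine (Finset.sum_le_sum h).trans ?_
        simp [mul_comm]
      have hVn : ‖dskV y n (x * w)‖ ≤ 6 * vs y n x := by
        unfold dskV vs
        rw [Finset.mul_sum]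
        refine (norm_sum_le _ _).trans (Finset.sum_le_sum ?_)
        intro i _
        have hyi := hy.1 n i
        have hl := dsk_low hyi hx hw
        have hp : 0 < y n i * x := mul_pos hyi hx
        have hnp : 0 < ‖1 + (y n i : ℂ) * (x * w)‖ := by linarith
        rw [norm_div, norm_pow, ← mul_div_assoc, div_le_div_iff₀ (pow_pos hnp 2) (by positivity)]
        have h1 : ‖(y n i : ℂ) * (x * w)‖ ≤ y n i * x * (3 / 2) := by
          rw [norm_mul, norm_mul, Complex.norm_real, Complex.norm_real, Real.norm_eq_abs,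
            Real.norm_eq_abs, abs_of_pos hyi, abs_of_pos hx, ← mul_assoc]
          exact mul_le_mul_of_nonneg_left hwn hp.le
        have h2 : ((1 + y n i * x) / 2) ^ 2 ≤ ‖1 + (y n i : ℂ) * (x * w)‖ ^ 2 :=
          pow_le_pow_left₀ (by positivity) hl 2
        calc ‖(y n i : ℂ) * (x * w)‖ * (1 + y n i * x) ^ 2
            ≤ y n i * x * (3 / 2) * (1 + y n i * x) ^ 2 :=
              mul_le_mul_of_nonneg_right h1 (by positivity)
          _ = 6 * (y n i * x) * ((1 + y n i * x) / 2) ^ 2 := by ring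
          _ ≤ 6 * (y n i * x) * ‖1 + (y n i : ℂ) * (x * w)‖ ^ 2 :=
              mul_le_mul_of_nonneg_left h2 (by positivity)
      have hxw : ‖(x : ℂ) * w‖ ≤ 3 / 2 * x := by
        rw [norm_mul, Complex.norm_real, Real.norm_eq_abs, abs_of_pos hx]
        nlinarith
      have h1w : ‖1 - (x : ℂ) * w‖ ≤ |1 - x| + x / 2 := by
        have e : 1 - (x : ℂ) * w = ((1 - x : ℝ) : ℂ) - x * (w - 1) := by push_cast; ring
        rw [e]
        refine (norm_sub_le _ _).trans ?_
        rw [Complex.norm_real, Real.norm_eq_abs, norm_mul, Complex.norm_real, Real.norm_eq_abs,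
          abs_of_pos hx]
        nlinarith
      have hBpos : 0 ≤ B0 r y n x := by
        have : 0 ≤ ((n : ℝ) + 1) * x := by positivity
        linarith
      have hnx : (n : ℝ) * x ≤ B0 r y n x := by nlinarith
      have hxV : x * vs y n x ≤ B0 r y n x := by nlinarith
      have t1 : ‖(r : ℂ) * (n + 1) * (x * w)‖ ≤ 3 / 2 * r * B0 r y n x := by
        rw [norm_mul]
        have e : ‖(r : ℂ) * ((n : ℂ) + 1)‖ = (r : ℝ) * (n + 1) := by
          have : (r : ℂ) * ((n : ℂ) + 1) = (((r : ℝ) * (n + 1) : ℝ) : ℂ) := by push_cast; ring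
          rw [this, Complex.norm_real, Real.norm_eq_abs, abs_of_nonneg (by positivity)]
        rw [e]
        calc (r : ℝ) * (n + 1) * ‖(x : ℂ) * w‖ ≤ (r : ℝ) * (n + 1) * (3 / 2 * x) :=
              mul_le_mul_of_nonneg_left hxw (by positivity)
          _ = 3 / 2 * r * (((n : ℝ) + 1) * x) := by ring
          _ ≤ _ := mul_le_mul_of_nonneg_left hBx (by positivity)
      have t2 : ‖(x : ℂ) * w * dskM y n (x * w)‖ ≤ 9 / 2 * B0 r y n x := by
        rw [norm_mul]
        calc ‖(x : ℂ) * w‖ * ‖dskM y n (x * w)‖ ≤ (3 / 2 * x) * (3 * n) :=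
              mul_le_mul hxw hMn (norm_nonneg _) (by positivity)
          _ = 9 / 2 * (n * x) := by ring
          _ ≤ _ := by linarith
      have t3 : ‖(1 - (x : ℂ) * w) * dskV y n (x * w)‖ ≤ 9 * B0 r y n x := by
        rw [norm_mul]
        calc ‖1 - (x : ℂ) * w‖ * ‖dskV y n (x * w)‖ ≤ (|1 - x| + x / 2) * (6 * vs y n x) :=
              mul_le_mul h1w hVn (norm_nonneg _) (by positivity)
          _ = 6 * (|1 - x| * vs y n x) + 3 * (x * vs y n x) := by ring
          _ ≤ _ := by linarith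
      calc ‖(r : ℂ) * (n + 1) * (x * w) - x * w * dskM y n (x * w)
            + (1 - x * w) * dskV y n (x * w)‖
          ≤ ‖(r : ℂ) * (n + 1) * (x * w)‖ + ‖(x : ℂ) * w * dskM y n (x * w)‖
            + ‖(1 - (x : ℂ) * w) * dskV y n (x * w)‖ :=
            (norm_add_le _ _).trans (add_le_add (norm_sub_le _ _) le_rfl)
        _ ≤ 3 / 2 * r * B0 r y n x + 9 / 2 * B0 r y n x + 9 * B0 r y n x := by linarith
        _ = (3 / 2 * (r + 3) + 9) * B0 r y n x := by ring
    · -- recurrence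
      have hne : ∀ i, 1 + (y n i : ℂ) * (x * cexp z) ≠ 0 :=
        fun i => dsk_ne (hy.1 n i) hx (dsk_exp hz)
      have hne1 : ∀ i, 1 + (y (n + 1) i : ℂ) * (x * cexp z) ≠ 0 :=
        fun i => dsk_ne (hy.1 (n + 1) i) hx (dsk_exp hz)
      -- derivative of `z ↦ F_m (x e^z)`
      have hder : ∀ m, (∀ i, 1 + (y m i : ℂ) * (x * cexp z) ≠ 0) →
          HasDerivAt (fun z => Fr r m (x * cexp z))
            (Fr r m (x * cexp z) * dskM y m (x * cexp z)) z := by
        intro m hm
        have hw' : HasDerivAt (fun z => (x : ℂ) * cexp z) ((x : ℂ) * cexp z) z :=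
          (Complex.hasDerivAt_exp z).const_mul _
        have h1 := ((dsk_Fd r m) (x * cexp z)).hasDerivAt.comp z hw'
        have h2 : deriv (Fr r m) (x * cexp z) * (x * cexp z) = dskS r m (x * cexp z) := by
          have h3 : HasDerivAt (Fr r m) (∑ k ∈ Finset.range (m + 1),
              (ev r m k : ℂ) * ((k : ℂ) * (x * cexp z) ^ (k - 1))) (x * cexp z) := by
            have h : HasDerivAt (fun t : ℂ => ∑ k ∈ Finset.range (m + 1), (ev r m k : ℂ) * t ^ k)
                (∑ k ∈ Finset.range (m + 1),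
                  (ev r m k : ℂ) * ((k : ℂ) * (x * cexp z) ^ (k - 1))) (x * cexp z) := by
              apply HasDerivAt.fun_sum
              intro k _
              exact (hasDerivAt_pow k _).const_mul _
            exact h
          rw [h3.deriv, Finset.sum_mul]
          unfold dskS
          apply Finset.sum_congr rfl
          intro k _
          rcases Nat.eq_zero_or_pos k with h | h
          · subst h; simp
          · obtain ⟨k', rfl⟩ : ∃ k', k = k' + 1 := ⟨k - 1, by omega⟩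
            simp only [Nat.add_sub_cancel]
            ring
        rw [h2, dsk_mean hy m hm] at h1
        exact h1
      have e1 := hder (n + 1) hne1
      have e2 := (hder n hne).mul (hdd n z hz)
      have e3 : (fun z => Fr r (n + 1) (x * cexp z)) =ᶠ[𝓝 z]
          (fun z => Fr r n (x * cexp z)) * Rz r n x := by
        filter_upwards [Metric.isOpen_ball.mem_nhds hz] with v hv
        simp only [Pi.mul_apply, Rz]
        rw [mul_div_cancel₀ _ (hF n v hv)]
      have e4 := (e1.congr_of_eventuallyEq e3.symm).unique e2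
      have e5 : Fr r (n + 1) (x * cexp z) = Fr r n (x * cexp z) * Rz r n x z := by
        simp only [Rz]
        rw [mul_div_cancel₀ _ (hF n z hz)]
      rw [e5] at e4
      have hd := (hdd n z hz).deriv
      rw [← hd] at e4
      have hFn := hF n z hz
      have e6 : dskM y (n + 1) (x * cexp z) = dskM y n (x * cexp z) +
          deriv (Rz r n x) z / Rz r n x z := by
        have e7 : Fr r n (x * cexp z) * (Rz r n x z * dskM y (n + 1) (x * cexp z)) =
            Fr r n (x * cexp z) * (dskM y n (x * cexp z) * Rz r n x z + deriv (Rz r n x) z) := by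
          linear_combination e4
        have e8 := mul_left_cancel₀ hFn e7
        field_simp
        linear_combination e8
      rw [hRz (n + 1) z hz]
      unfold dskG
      rw [← hwdef] at e6
      rw [← hwdef, e6, hRz n z hz]
      unfold dskG
      rw [← hwdef]
      push_cast
      ring

end Pool.Agent.H53.ATPR
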