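import Mathlib
import Pool.Agent.H53.ATPR.Spec

set_option autoImplicit false

namespace Pool.Agent.H53.ATPR

private lemma e1_step (κ p M c g gm gp : ℝ) (hp : 0 < p) (hM : 0 ≤ M) (hc : 0 ≤ c)
    (hg : 0 ≤ g) (hq : 0 ≤ p - c + 1)
    (h1 : κ * p * g ≤ (c + 1) * gp) (h2 : κ * p * gm ≤ c * g)
    (hmain : κ * p * (M + c + 1 - p) ≤ p ^ 2 - 3 * c * p + c ^ 2 - c) :
    κ * (p + 1) * ((p - c + 1) * gm + (M + c + 1) * g) ≤
      (c + 1) * ((p - c) * g + (M + c + 2) * gp) := by
  have s1 : (p + 1) * (p - c + 1) * (κ * p * gm) ≤ (p + 1) * (p - c + 1) * (c * g) :=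
    mul_le_mul_of_nonneg_left h2 (by positivity)
  have s2 : p * (M + c + 2) * (κ * p * g) ≤ p * (M + c + 2) * ((c + 1) * gp) :=
    mul_le_mul_of_nonneg_left h1 (by positivity)
  have s3 : κ * p * (M + c + 1 - p) * g ≤ (p ^ 2 - 3 * c * p + c ^ 2 - c) * g :=
    mul_le_mul_of_nonneg_right hmain hg
  have s4 : p * (κ * (p + 1) * ((p - c + 1) * gm + (M + c + 1) * g)) ≤
      p * ((c + 1) * ((p - c) * g + (M + c + 2) * gp)) := by
    nlinarith
  exact le_of_mul_le_mul_left s4 hp

private lemma e1_up (p M d σ g0 g1 g2 : ℝ) (hp : 0 ≤ p) (hM : 0 ≤ M) (hd : 0 ≤ d) (hσ : 0 < σ)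
    (hg1 : 0 ≤ g1) (hq : 0 ≤ p - d)
    (h1 : (d + 1) * g1 ≤ σ * g0) (h2 : (d + 2) * g2 ≤ σ * g1) :
    (M + 1) * ((d + 2) * ((p - d - 1) * g1 + (M + d + 3) * g2)) ≤
      (p + (M + 2) * σ) * ((p - d) * g0 + (M + d + 2) * g1) := by
  have s1 : (M + 1) * (M + d + 3) * σ * ((d + 2) * g2) ≤ (M + 1) * (M + d + 3) * σ * (σ * g1) :=
    mul_le_mul_of_nonneg_left h2 (by positivity)
  have s2 : (p + (M + 2) * σ) * (p - d) * ((d + 1) * g1) ≤
      (p + (M + 2) * σ) * (p - d) * (σ * g0) :=
    mul_le_mul_of_nonneg_left h1 (by positivity)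
  have s3 : 0 ≤ g1 * ((d + 1) * σ ^ 2 +
      (p * (d + 2) + (p - d) * d + (M + 1) * (d + 2) + M * d) * σ + p * (p - d) * (d + 1)) := by
    positivity
  have s4 : σ * ((M + 1) * ((d + 2) * ((p - d - 1) * g1 + (M + d + 3) * g2))) ≤
      σ * ((p + (M + 2) * σ) * ((p - d) * g0 + (M + d + 2) * g1)) := by
    nlinarith
  exact le_of_mul_le_mul_left s4 hσ

theorem edge1 (h0 : RootSt) (_h1 : EvSt) (h2 : GrSt) (h3 : MeanSt) (h4 : LogcSt) : Edge1St := by
  intro r hr
  obtain ⟨y, hy⟩ := h0 r (by omega)
  obtain ⟨m1, -⟩ := h3 r (by omega) y hy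
  have hl := h4 r (by omega) y hy
  obtain ⟨gpos, gzero, grec0, grec⟩ := h2 r (by omega)
  have hr2 : (2 : ℝ) ≤ r := by exact_mod_cast hr
  have gnn : ∀ n c, 0 ≤ gr r n c := by
    intro n c
    by_cases h : c ≤ n
    · exact (gpos n c h).le
    · rw [gzero n c (by omega)]
  have g0pos : ∀ n, 0 < gr r n 0 := fun n => gpos n 0 (Nat.zero_le _)
  have hsg : ∀ n, gr r n 1 = sg r n * gr r n 0 := by
    intro n
    unfold sg
    field_simp [(g0pos n).ne']
  have hsgnn : ∀ n, 0 ≤ sg r n := fun n => div_nonneg (gnn _ _) (gnn _ _)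
  have hsgrec : ∀ n : ℕ, (((r : ℝ) - 1) * (n + 1) + 1) * sg r (n + 1) =
      ((n : ℝ) + 1) + (((r : ℝ) - 1) * (n + 1) + 2) * sg r n := by
    intro n
    have e1 := grec n 0
    have e0 := grec0 n
    have hpos : (0 : ℝ) < ((r : ℝ) - 1) * (n + 1) + 1 := by
      have : (0 : ℝ) ≤ ((r : ℝ) - 1) * (n + 1) := mul_nonneg (by linarith) (by positivity)
      linarith
    have e2 := hsg (n + 1)
    rw [e0] at e2
    rw [zero_add] at e1
    rw [e1, hsg n] at e2
    push_cast at e2
    have hg := (g0pos n).ne'
    apply mul_right_cancel₀ hg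
    linarith
  refine ⟨⟨1 / (20 * ((r : ℝ) + 1)), by positivity, ?_⟩, ?_, ?_⟩
  · intro n
    induction n with
    | zero => intro c hc; omega
    | succ n ih =>
      intro c hc
      have hκ : (0 : ℝ) < 1 / (20 * ((r : ℝ) + 1)) := by positivity
      by_cases hA : (r + 1) * (c + 2) < n
      · have ihc := ih c hA
        have hA1 : 3 * (c + 2) < n := lt_of_le_of_lt (Nat.mul_le_mul_right _ (by omega)) hA
        have hA2 : (3 : ℝ) * (c + 2) < n := by exact_mod_cast hA1
        have hc0 : (0 : ℝ) ≤ c := Nat.cast_nonneg c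
        have hM : (0 : ℝ) ≤ ((r : ℝ) - 1) * (n + 1) := mul_nonneg (by linarith) (by positivity)
        have hmain : 1 / (20 * ((r : ℝ) + 1)) * ((n : ℝ) + 1) *
            (((r : ℝ) - 1) * (n + 1) + c + 1 - ((n : ℝ) + 1)) ≤
            ((n : ℝ) + 1) ^ 2 - 3 * c * ((n : ℝ) + 1) + (c : ℝ) ^ 2 - c := by
          obtain ⟨p, hp⟩ : ∃ p : ℝ, p = (n : ℝ) + 1 := ⟨_, rfl⟩
          rw [← hp]
          have hp8 : 3 * (c : ℝ) + 7 ≤ p := by rw [hp]; linarith
          have hp0 : 0 < p := by linarith
          have k1 : ((r : ℝ) - 1) * p + c + 1 - p ≤ ((r : ℝ) + 1) * p := by nlinarith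
          have k2 : 1 / (20 * ((r : ℝ) + 1)) * p * (((r : ℝ) - 1) * p + c + 1 - p) ≤
              1 / (20 * ((r : ℝ) + 1)) * p * (((r : ℝ) + 1) * p) :=
            mul_le_mul_of_nonneg_left k1 (by positivity)
          have k3 : 1 / (20 * ((r : ℝ) + 1)) * p * (((r : ℝ) + 1) * p) = p ^ 2 / 20 := by
            field_simp
          have k4 : 0 ≤ (p / 3 - c) * (8 * p / 3 - c) :=
            mul_nonneg (by linarith) (by linarith)
          nlinarith
        rcases c with _ | c
        · have e0 := grec0 n
          have e1 := grec n 0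
          rw [zero_add] at e1
          have hs := e1_step (1 / (20 * ((r : ℝ) + 1))) ((n : ℝ) + 1) (((r : ℝ) - 1) * (n + 1)) 0
            (gr r n 0) 0 (gr r n 1) (Nat.cast_add_one_pos n) hM le_rfl (gnn _ _)
            (by have := Nat.cast_nonneg (α := ℝ) n; linarith)
            (by simpa using ihc) (by simp) (by simpa using hmain)
          rw [e0, zero_add, e1]
          push_cast
          push_cast at hs
          nlinarith
        · have ihc' := ih c (lt_of_le_of_lt (Nat.mul_le_mul_left _ (by omega)) hA)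
          have e0 := grec n c
          have e1 := grec n (c + 1)
          have hs := e1_step (1 / (20 * ((r : ℝ) + 1))) ((n : ℝ) + 1) (((r : ℝ) - 1) * (n + 1))
            ((c + 1 : ℕ) : ℝ) (gr r n (c + 1)) (gr r n c) (gr r n (c + 1 + 1))
            (Nat.cast_add_one_pos n) hM
            (Nat.cast_nonneg _) (gnn _ _) (by linarith) ihc (by push_cast; exact ihc') hmain
          rw [e0, e1]
          push_cast
          push_cast at hs
          nlinarith
      · have hn : n = (r + 1) * (c + 2) := by omega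
        have hN : c + 2 ≤ n + 1 := by nlinarith
        have hg1 : gr r (n + 1) (c + 1) = ev r (n + 1) (n - c) := by
          unfold gr
          rw [if_pos (by omega)]
          congr 1
          omega
        have hg0 : gr r (n + 1) c = ev r (n + 1) (n - c + 1) := by
          unfold gr
          rw [if_pos (by omega)]
          congr 1
          omega
        have hhalf : gr r (n + 1) c ≤ 2 * gr r (n + 1) (c + 1) := by
          by_contra hcon
          push Not at hcon
          rw [hg1, hg0] at hcon
          have hl2 := (hl (n + 1) (n - c) 1 one_pos (by omega)).2 (by linarith)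
          rw [m1 (n + 1)] at hl2
          have hsub : ((n - c : ℕ) : ℝ) = (n : ℝ) - c := by
            rw [Nat.cast_sub (by omega)]
          rw [hsub, le_div_iff₀ (by positivity)] at hl2
          have hnr : (n : ℝ) = ((r : ℝ) + 1) * (c + 2) := by
            rw [hn]; push_cast; ring
          push_cast at hl2
          nlinarith
        have hnr : (n : ℝ) = ((r : ℝ) + 1) * (c + 2) := by
          conv_lhs => rw [hn]
          push_cast; ring
        have hc0 : (0 : ℝ) ≤ c := Nat.cast_nonneg c
        have hk : 1 / (20 * ((r : ℝ) + 1)) * (((n + 1 : ℕ) : ℝ) + 1) ≤ ((c : ℝ) + 1) / 2 := by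
          rw [div_mul_eq_mul_div, div_le_div_iff₀ (by positivity) (by norm_num)]
          push_cast
          rw [hnr]
          nlinarith
        calc 1 / (20 * ((r : ℝ) + 1)) * (((n + 1 : ℕ) : ℝ) + 1) * gr r (n + 1) c
            ≤ ((c : ℝ) + 1) / 2 * gr r (n + 1) c := mul_le_mul_of_nonneg_right hk (gnn _ _)
          _ ≤ ((c : ℝ) + 1) / 2 * (2 * gr r (n + 1) (c + 1)) :=
              mul_le_mul_of_nonneg_left hhalf (by positivity)
          _ = ((c : ℝ) + 1) * gr r (n + 1) (c + 1) := by ring
  · intro n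
    induction n with
    | zero =>
      intro c
      rw [gzero 0 (c + 1) (by omega), mul_zero]
      exact mul_nonneg (hsgnn _) (gnn _ _)
    | succ n ih =>
      intro c
      rcases c with _ | d
      · rw [zero_add, hsg (n + 1)]
        push_cast
        linarith
      · by_cases hdn : n < d + 1
        · rw [gzero (n + 1) (d + 1 + 1) (by omega), mul_zero]
          exact mul_nonneg (hsgnn _) (gnn _ _)
        · have hdn' : d + 1 ≤ n := by omega
          have hdr : (d : ℝ) + 1 ≤ n := by exact_mod_cast hdn'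
          have hd0 : (0 : ℝ) ≤ d := Nat.cast_nonneg d
          have hσ : 0 < sg r n := div_pos (gpos n 1 (by omega)) (g0pos n)
          have hM : (0 : ℝ) ≤ ((r : ℝ) - 1) * (n + 1) := mul_nonneg (by linarith) (by positivity)
          have i1 := ih d
          have i2 := ih (d + 1)
          have hs := e1_up ((n : ℝ) + 1) (((r : ℝ) - 1) * (n + 1)) d (sg r n) (gr r n d)
            (gr r n (d + 1)) (gr r n (d + 1 + 1)) (by positivity) hM hd0 hσ (gnn _ _)
            (by linarith) i1 (by push_cast at i2; linarith)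
          have e0 := grec n d
          have e1 := grec n (d + 1)
          have es := hsgrec n
          have hpos : (0 : ℝ) < ((r : ℝ) - 1) * (n + 1) + 1 := by linarith
          apply le_of_mul_le_mul_left _ hpos
          rw [← mul_assoc (((r : ℝ) - 1) * (n + 1) + 1) (sg r (n + 1)), es, e0, e1]
          push_cast
          nlinarith
  · intro n
    have key : ∀ n : ℕ, sg r n ≤ ((n : ℝ) + 1) * Real.log ((n : ℝ) + 1) := by
      intro n
      induction n with
      | zero =>
        have : sg r 0 = 0 := by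
          unfold sg
          rw [gzero 0 1 (by omega), zero_div]
        rw [this]
        simp
      | succ n ih =>
        have es := hsgrec n
        obtain ⟨p, hp⟩ : ∃ p : ℝ, p = (n : ℝ) + 1 := ⟨_, rfl⟩
        have hp1 : 1 ≤ p := by rw [hp]; have := Nat.cast_nonneg (α := ℝ) n; linarith
        have hp' : ((n + 1 : ℕ) : ℝ) + 1 = p + 1 := by rw [hp]; push_cast; ring
        rw [hp']
        rw [← hp] at es ih
        have hL0 : 0 ≤ Real.log p := Real.log_nonneg hp1
        have hL : Real.log p + 1 / (p + 1) ≤ Real.log (p + 1) := by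
          have h := Real.one_sub_inv_le_log_of_pos (x := (p + 1) / p) (by positivity)
          rw [Real.log_div (by positivity) (by positivity)] at h
          have : 1 - ((p + 1) / p)⁻¹ = 1 / (p + 1) := by
            field_simp
            ring
          linarith
        have hs0 := hsgnn n
        have hs1 := hsgnn (n + 1)
        -- sg (n+1) (p+1) ≤ sg n (p + 2) + p
        have k1 : (p + 1) * sg r (n + 1) ≤ (p + 2) * sg r n + p := by
          have hMp : p ≤ ((r : ℝ) - 1) * p := by nlinarith
          have hinc : ((((r : ℝ) - 1) * p) + 1) * (sg r (n + 1) - sg r n) = p + sg r n := by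
            linarith
          have hnn : 0 ≤ sg r (n + 1) - sg r n := by
            by_contra hcon
            push Not at hcon
            have : ((((r : ℝ) - 1) * p) + 1) * (sg r (n + 1) - sg r n) < 0 :=
              mul_neg_of_pos_of_neg (by linarith) hcon
            linarith
          have : (p + 1) * (sg r (n + 1) - sg r n) ≤
              ((((r : ℝ) - 1) * p) + 1) * (sg r (n + 1) - sg r n) :=
            mul_le_mul_of_nonneg_right (by linarith) hnn
          linarith
        have k2 : (p + 1) * sg r (n + 1) ≤ (p + 1) * ((p + 1) * Real.log (p + 1)) := by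
          have k3 : (p + 2) * sg r n ≤ (p + 2) * (p * Real.log p) :=
            mul_le_mul_of_nonneg_left ih (by linarith)
          have k4 : (p + 1) * ((p + 1) * (Real.log p + 1 / (p + 1))) ≤
              (p + 1) * ((p + 1) * Real.log (p + 1)) :=
            mul_le_mul_of_nonneg_left (mul_le_mul_of_nonneg_left hL (by linarith)) (by linarith)
          have k5 : (p + 1) * ((p + 1) * (Real.log p + 1 / (p + 1))) =
              (p + 1) ^ 2 * Real.log p + (p + 1) := by
            field_simp
          nlinarith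
        exact le_of_mul_le_mul_left k2 (by linarith)
    have := key n
    have h1 : ((n : ℝ) + 1) * Real.log ((n : ℝ) + 1) ≤
        ((n : ℝ) + 1) * (1 + Real.log ((n : ℝ) + 1)) :=
      mul_le_mul_of_nonneg_left (by linarith) (by positivity)
    linarith

end Pool.Agent.H53.ATPR
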