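import Pool.Agent.H53.ATPR.Spec

/-!
# EDGE2: lower bounds for the ratios at the right edge, first columns
-/

set_option autoImplicit false
set_option maxHeartbeats 4000000

namespace Pool.Agent.H53.ATPR

/-- the numerical inequality of the step -/
theorem edge2_num (p M C G A A' σ κ : ℝ) (hκ : 0 < κ) (hG : 16 ≤ G) (hp : 256 ≤ p)
    (hp2 : 36 ≤ κ ^ 2 * p) (hM : p ≤ M) (hC : 2 ≤ C) (hCp : C ^ 2 ≤ p)
    (hA : A = 1 + G * (C ^ 2 - 1)) (hA' : A' = 1 + G * ((C - 1) ^ 2 - 1))
    (hσ : κ * p ≤ σ) (hσ2 : σ ≤ p * p) :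
    (p + (M + 2) * σ) * (p - C + 2) * A' + σ * ((p + (M + 2) * σ) * (M + C)) ≤
      σ * ((M + 1) * (A * (p + 1 - C) + (M + C + 1) * σ)) := by
  have hσ0 : 0 < σ := lt_of_lt_of_le (by positivity) hσ
  have hp0 : 0 < p := by linarith
  have hM0 : 0 < M := by linarith
  have hC0 : 0 < C := by linarith
  have hG0 : 0 < G := by linarith
  -- `16 C ≤ p`
  have h16 : 16 * C ≤ p := by
    by_contra h
    push Not at h
    nlinarith [mul_pos hC0 hC0]
  -- `6 C ≤ κ p`
  have h6 : 6 * C ≤ κ * p := by
    by_contra h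
    push Not at h
    have h1 : (κ * p) ^ 2 < (6 * C) ^ 2 := by
      have : 0 < κ * p := by positivity
      nlinarith
    have h2 : 36 * p ≤ (κ * p) ^ 2 := by nlinarith
    nlinarith
  have hA'le : A' ≤ G * C ^ 2 := by
    rw [hA']
    nlinarith
  have hA'0 : 0 < A' := by
    rw [hA']
    have : 0 ≤ (C - 1) ^ 2 - 1 := by nlinarith
    nlinarith [mul_nonneg hG0.le this]
  have hdiff : A - A' = G * (2 * C - 1) := by
    rw [hA, hA']
    ring
  -- the four terms
  have t1 : A' * (M + p - C + 3) ≤ 3 / 16 * (G * C * M * p) := by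
    have e1 : M + p - C + 3 ≤ 3 * M := by linarith
    have e2 : 0 ≤ M + p - C + 3 := by linarith
    calc A' * (M + p - C + 3) ≤ G * C ^ 2 * (3 * M) :=
          mul_le_mul hA'le e1 e2 (by positivity)
      _ = 3 / 16 * (G * C * M * (16 * C)) := by ring
      _ ≤ 3 / 16 * (G * C * M * p) := by
        have : G * C * M * (16 * C) ≤ G * C * M * p :=
          mul_le_mul_of_nonneg_left h16 (by positivity)
        linarith
  have t2 : A' * p * (p - C + 2) ≤ σ * (3 / 16 * (G * C * M * p)) := by
    have e1 : p - C + 2 ≤ p := by linarith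
    have e2 : 0 ≤ p - C + 2 := by linarith
    calc A' * p * (p - C + 2) ≤ G * C ^ 2 * p * p :=
          mul_le_mul (mul_le_mul_of_nonneg_right hA'le hp0.le) e1 e2 (by positivity)
      _ = 1 / 6 * (G * C * (p * p) * (6 * C)) := by ring
      _ ≤ 1 / 6 * (G * C * (p * p) * (κ * p)) := by
        have : G * C * (p * p) * (6 * C) ≤ G * C * (p * p) * (κ * p) :=
          mul_le_mul_of_nonneg_left h6 (by positivity)
        linarith
      _ ≤ 1 / 6 * (G * C * (M * p) * σ) := by
        have h1 : G * C * (p * p) ≤ G * C * (M * p) :=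
          mul_le_mul_of_nonneg_left (mul_le_mul_of_nonneg_right hM hp0.le) (by positivity)
        have h2 : G * C * (p * p) * (κ * p) ≤ G * C * (M * p) * σ :=
          mul_le_mul h1 hσ (by positivity) (by positivity)
        linarith
      _ ≤ σ * (3 / 16 * (G * C * M * p)) := by
        have : 0 ≤ G * C * (M * p) * σ := by positivity
        nlinarith
  have t3 : p * (M + C) ≤ 1 / 16 * (G * C * M * p) := by
    have e1 : M + C ≤ 2 * M := by linarith
    have e2 : (32 : ℝ) ≤ G * C := by nlinarith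
    have e3 : p * (2 * M) * 16 ≤ G * C * (M * p) := by
      have : 32 * (M * p) ≤ G * C * (M * p) := mul_le_mul_of_nonneg_right e2 (by positivity)
      linarith
    have e4 : p * (M + C) ≤ p * (2 * M) := mul_le_mul_of_nonneg_left e1 hp0.le
    linarith
  have t4 : σ * (C - 1) ≤ 1 / 16 * (G * C * M * p) := by
    have e1 : σ * (C - 1) ≤ (p * p) * C := mul_le_mul hσ2 (by linarith) (by linarith) (by positivity)
    have e2 : (p * p) * C ≤ M * p * C :=
      mul_le_mul_of_nonneg_right (mul_le_mul_of_nonneg_right hM hp0.le) hC0.le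
    have e3 : 16 * (M * p * C) ≤ G * (M * p * C) := mul_le_mul_of_nonneg_right hG (by positivity)
    linarith
  have t0 : 3 / 4 * (G * C * M * p) ≤ (A - A') * (M + 1) * (p + 1 - C) := by
    rw [hdiff]
    have e1 : 3 / 2 * C ≤ 2 * C - 1 := by linarith
    have e2 : 1 / 2 * p ≤ p + 1 - C := by linarith
    have e3 : G * (3 / 2 * C) * M ≤ G * (2 * C - 1) * (M + 1) :=
      mul_le_mul (mul_le_mul_of_nonneg_left e1 hG0.le) (by linarith) hM0.le (by nlinarith)
    have e4 : G * (3 / 2 * C) * M * (1 / 2 * p) ≤ G * (2 * C - 1) * (M + 1) * (p + 1 - C) :=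
      mul_le_mul e3 e2 (by positivity) (by nlinarith [mul_pos hG0 hM0])
    linarith
  have hZ : 0 ≤ G * C * M * p := by positivity
  -- sum
  have key : A' * p * (p - C + 2) + σ * (A' * (M + p - C + 3) + p * (M + C) + σ * (C - 1)) ≤
      σ * ((A - A') * (M + 1) * (p + 1 - C)) := by
    have h1 : σ * (A' * (M + p - C + 3) + p * (M + C) + σ * (C - 1)) ≤
        σ * (3 / 16 * (G * C * M * p) + 1 / 16 * (G * C * M * p) + 1 / 16 * (G * C * M * p)) :=
      mul_le_mul_of_nonneg_left (by linarith) hσ0.le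
    have h2 : σ * (3 / 4 * (G * C * M * p)) ≤ σ * ((A - A') * (M + 1) * (p + 1 - C)) :=
      mul_le_mul_of_nonneg_left t0 hσ0.le
    have h3 : 0 ≤ σ * (G * C * M * p) := mul_nonneg hσ0.le hZ
    have h4 : σ * (3 / 16 * (G * C * M * p) + 1 / 16 * (G * C * M * p) +
        1 / 16 * (G * C * M * p)) = 5 / 16 * (σ * (G * C * M * p)) := by ring
    have h5 : σ * (3 / 16 * (G * C * M * p)) = 3 / 16 * (σ * (G * C * M * p)) := by ring
    have h6 : σ * (3 / 4 * (G * C * M * p)) = 3 / 4 * (σ * (G * C * M * p)) := by ring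
    rw [h4] at h1
    rw [h5] at t2
    rw [h6] at h2
    linarith
  have hid : σ * ((M + 1) * (A * (p + 1 - C) + (M + C + 1) * σ)) -
      ((p + (M + 2) * σ) * (p - C + 2) * A' + σ * ((p + (M + 2) * σ) * (M + C))) =
      σ * ((A - A') * (M + 1) * (p + 1 - C)) -
        (A' * p * (p - C + 2) + σ * (A' * (M + p - C + 3) + p * (M + C) + σ * (C - 1))) := by
    ring
  linarith

theorem edge2_log (C : ℝ) (hC : 1 ≤ C) : 1 + Real.log (C ^ 2 + 1) ≤ 3 * C := by
  have h1 : Real.log (C ^ 2 + 1) ≤ Real.log ((1 + C) ^ 2) :=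
    Real.log_le_log (by positivity) (by nlinarith)
  rw [Real.log_pow] at h1
  have h2 := Real.log_le_sub_one_of_pos (show (0 : ℝ) < 1 + C by linarith)
  push_cast at h1
  linarith

theorem edge2 : GrSt → Edge1St → Edge2St := by
  intro hgr hed r hr
  obtain ⟨hpos, hzero, hrec0, hrec⟩ := hgr r (by omega)
  obtain ⟨⟨κ, hκ, hlow⟩, hup, hsg⟩ := hed r hr
  -- the constants
  obtain ⟨n0, hn0a, hn0b, hn0c⟩ : ∃ n0 : ℕ, 256 ≤ n0 ∧ 4 * (r + 1) ^ 2 ≤ n0 ∧
      36 ≤ κ ^ 2 * (n0 : ℝ) := by
    obtain ⟨n1, hn1⟩ := exists_nat_ge (36 / κ ^ 2)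
    refine ⟨max (max 256 (4 * (r + 1) ^ 2)) n1, ?_, ?_, ?_⟩
    · exact le_trans (le_max_left _ _) (le_max_left _ _)
    · exact le_trans (le_max_right _ _) (le_max_left _ _)
    · have h1 : 36 ≤ κ ^ 2 * (n1 : ℝ) := by
        rw [div_le_iff₀ (by positivity)] at hn1
        linarith
      have h2 : (n1 : ℝ) ≤ ((max (max 256 (4 * (r + 1) ^ 2)) n1 : ℕ) : ℝ) := by
        exact_mod_cast le_max_right _ _
      exact h1.trans (mul_le_mul_of_nonneg_left h2 (sq_nonneg κ))
  set G : ℝ := max 16 (max (4 / κ) ((1 + Real.log ((n0 : ℝ) + 1)) / κ)) with hGdef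
  have hG16 : 16 ≤ G := le_max_left _ _
  have hG1 : 4 / κ ≤ G := le_trans (le_max_left _ _) (le_max_right _ _)
  have hG2 : (1 + Real.log ((n0 : ℝ) + 1)) / κ ≤ G :=
    le_trans (le_max_right _ _) (le_max_right _ _)
  have hG0 : 0 < G := by linarith
  have hG1' : 4 ≤ κ * G := by
    rw [div_le_iff₀ hκ] at hG1
    linarith
  have hG2' : 1 + Real.log ((n0 : ℝ) + 1) ≤ κ * G := by
    rw [div_le_iff₀ hκ] at hG2
    linarith
  have hr1 : (2 : ℝ) ≤ r := by exact_mod_cast hr
  -- the first ratio
  have hsg0 : ∀ n, sg r n * gr r n 0 = gr r n 1 := by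
    intro n
    unfold sg
    exact div_mul_cancel₀ _ (hpos n 0 (Nat.zero_le _)).ne'
  -- indices in the range
  have hidx : ∀ n c : ℕ, n0 ≤ n → (c + 1) ^ 2 ≤ n → (r + 1) * (c + 2) < n := by
    intro n c hn hc
    have h1 : 2 * ((r + 1) * (c + 1)) ≤ (r + 1) ^ 2 + (c + 1) ^ 2 := by
      have := two_mul_le_add_sq (r + 1) (c + 1)
      linarith
    have h2 : 3 * (r + 1) ≤ (r + 1) ^ 2 := by
      rw [sq]
      exact Nat.mul_le_mul_right _ (by omega)
    have h3 : (r + 1) * (c + 2) = (r + 1) * (c + 1) + (r + 1) := by ring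
    rw [h3]
    omega
  -- the entry of a column
  have entry : ∀ n c : ℕ, n0 ≤ n → 1 ≤ c → (c + 1) ^ 2 ≤ n →
      ((c : ℝ) + 1) * (1 + Real.log ((n : ℝ) + 1)) ≤ κ * (1 + G * (((c : ℝ) + 1) ^ 2 - 1)) →
      sg r n * gr r n c ≤ (1 + G * (((c : ℝ) + 1) ^ 2 - 1)) * gr r n (c + 1) := by
    intro n c hn hc1 hc h
    have hl := hlow n c (hidx n c hn hc)
    have hcn : c + 1 ≤ n := le_trans (Nat.le_self_pow (by norm_num) (c + 1)) hc
    have hg1 := hpos n (c + 1) hcn
    have hg0 := hpos n c (by omega)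
    have hs := hsg n
    have hn1 : (0 : ℝ) < (n : ℝ) + 1 := by positivity
    have hlog : 0 ≤ Real.log ((n : ℝ) + 1) := Real.log_nonneg (by linarith [Nat.cast_nonneg (α := ℝ) n])
    have h1 : κ * (sg r n * gr r n c) ≤
        κ * (1 + G * (((c : ℝ) + 1) ^ 2 - 1)) * gr r n (c + 1) := by
      calc κ * (sg r n * gr r n c)
          ≤ κ * ((((n : ℝ) + 1) * (1 + Real.log ((n : ℝ) + 1))) * gr r n c) :=
            mul_le_mul_of_nonneg_left (mul_le_mul_of_nonneg_right hs hg0.le) hκ.le
        _ = (1 + Real.log ((n : ℝ) + 1)) * (κ * ((n : ℝ) + 1) * gr r n c) := by ring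
        _ ≤ (1 + Real.log ((n : ℝ) + 1)) * (((c : ℝ) + 1) * gr r n (c + 1)) :=
            mul_le_mul_of_nonneg_left hl (by linarith)
        _ = (((c : ℝ) + 1) * (1 + Real.log ((n : ℝ) + 1))) * gr r n (c + 1) := by ring
        _ ≤ κ * (1 + G * (((c : ℝ) + 1) ^ 2 - 1)) * gr r n (c + 1) :=
            mul_le_mul_of_nonneg_right h hg1.le
    have h2 : κ * (sg r n * gr r n c) ≤
        κ * ((1 + G * (((c : ℝ) + 1) ^ 2 - 1)) * gr r n (c + 1)) := by linarith
    exact le_of_mul_le_mul_left h2 hκ
  have hquad : ∀ c : ℕ, 1 ≤ c → 3 / 4 * ((c : ℝ) + 1) ^ 2 ≤ ((c : ℝ) + 1) ^ 2 - 1 := by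
    intro c hc
    have : (1 : ℝ) ≤ c := by exact_mod_cast hc
    nlinarith
  -- the induction
  have main : ∀ n : ℕ, n0 ≤ n → ∀ c : ℕ, (c + 1) ^ 2 ≤ n →
      sg r n * gr r n c ≤ (1 + G * (((c : ℝ) + 1) ^ 2 - 1)) * gr r n (c + 1) := by
    intro n hn
    induction n, hn using Nat.le_induction with
    | base =>
      intro c hc
      rcases Nat.eq_zero_or_pos c with rfl | hc1
      · rw [hsg0]
        simp
      · refine entry n0 c le_rfl hc1 hc ?_
        have h1 := hquad c hc1
        have h2 : (1 : ℝ) ≤ c := by exact_mod_cast hc1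
        have h3 : ((c : ℝ) + 1) * (1 + Real.log ((n0 : ℝ) + 1)) ≤ ((c : ℝ) + 1) * (κ * G) :=
          mul_le_mul_of_nonneg_left hG2' (by linarith)
        have h4 : ((c : ℝ) + 1) ≤ 3 / 4 * ((c : ℝ) + 1) ^ 2 := by nlinarith
        have h5 : ((c : ℝ) + 1) * (κ * G) ≤ (((c : ℝ) + 1) ^ 2 - 1) * (κ * G) :=
          mul_le_mul_of_nonneg_right (h4.trans h1) (by positivity)
        have h6 : κ * (1 + G * (((c : ℝ) + 1) ^ 2 - 1)) =
            κ + (((c : ℝ) + 1) ^ 2 - 1) * (κ * G) := by ring
        rw [h6]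
        linarith
    | succ n hn ih =>
      intro c hc
      rcases Nat.eq_zero_or_pos c with rfl | hc1
      · rw [hsg0]
        simp
      rcases Nat.lt_or_ge n ((c + 1) ^ 2) with hlt | hge
      · -- entry
        have heq : (c + 1) ^ 2 = n + 1 := by omega
        refine entry (n + 1) c (by omega) hc1 hc ?_
        have heq' : ((n + 1 : ℕ) : ℝ) = ((c : ℝ) + 1) ^ 2 := by
          rw [← heq]
          push_cast
          ring
        rw [heq']
        have h1 := hquad c hc1
        have h2 : (1 : ℝ) ≤ c := by exact_mod_cast hc1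
        have h3 := edge2_log ((c : ℝ) + 1) (by linarith)
        have h4 : ((c : ℝ) + 1) * (1 + Real.log (((c : ℝ) + 1) ^ 2 + 1)) ≤
            ((c : ℝ) + 1) * (3 * ((c : ℝ) + 1)) := mul_le_mul_of_nonneg_left h3 (by linarith)
        have h5 : (κ * G) * (3 / 4 * ((c : ℝ) + 1) ^ 2) ≤ (κ * G) * (((c : ℝ) + 1) ^ 2 - 1) :=
          mul_le_mul_of_nonneg_left h1 (by positivity)
        have h6 : 4 * (3 / 4 * ((c : ℝ) + 1) ^ 2) ≤ (κ * G) * (3 / 4 * ((c : ℝ) + 1) ^ 2) :=
          mul_le_mul_of_nonneg_right hG1' (by positivity)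
        have h7 : κ * (1 + G * (((c : ℝ) + 1) ^ 2 - 1)) =
            κ + (κ * G) * (((c : ℝ) + 1) ^ 2 - 1) := by ring
        have h8 : ((c : ℝ) + 1) * (3 * ((c : ℝ) + 1)) = 4 * (3 / 4 * ((c : ℝ) + 1) ^ 2) := by ring
        rw [h7]
        linarith
      · -- the step
        obtain ⟨b, rfl⟩ : ∃ b, c = b + 1 := ⟨c - 1, by omega⟩
        have ih1 := ih (b + 1) hge
        have ih0 := ih b (le_trans (Nat.pow_le_pow_left (by omega) 2) hge)
        have hcn : b + 2 ≤ n := le_trans (Nat.le_self_pow (by norm_num) (b + 2)) hge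
        have hg2 := hpos n (b + 1 + 1) (by omega)
        have hg1 := hpos n (b + 1) (by omega)
        have hg0 := hpos n b (by omega)
        have hz := hpos n 0 (Nat.zero_le _)
        have hrz := hrec0 n
        have hr0 := hrec n b
        have hr1' := hrec n (b + 1)
        have hr2 := hrec n 0
        have hs0 := hsg0 n
        have hs1 := hsg0 (n + 1)
        have hsn := hsg n
        have hl0 := hlow n 0 (hidx n 0 hn (by
          have : 1 ≤ n := by omega
          simpa using this))
        -- real variables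
        set p : ℝ := (n : ℝ) + 1 with hpdef
        set M : ℝ := ((r : ℝ) - 1) * p with hMdef
        set C : ℝ := ((b + 1 : ℕ) : ℝ) + 1 with hCdef
        have hn' : (n0 : ℝ) ≤ n := by exact_mod_cast hn
        have hn256 : (256 : ℝ) ≤ n0 := by exact_mod_cast hn0a
        have hp256 : 256 ≤ p := by rw [hpdef]; linarith
        have hp0 : 0 < p := by linarith
        have hM : p ≤ M := by
          have h1 := mul_le_mul_of_nonneg_right (show (1 : ℝ) ≤ (r : ℝ) - 1 by linarith) hp0.le
          rw [hMdef]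
          linarith
        have hM0 : 0 < M := lt_of_lt_of_le hp0 hM
        have hC2 : 2 ≤ C := by
          rw [hCdef]
          push_cast
          linarith [Nat.cast_nonneg (α := ℝ) b]
        have hCp : C ^ 2 ≤ p := by
          have : (((b + 1 + 1) ^ 2 : ℕ) : ℝ) ≤ (n : ℝ) := by exact_mod_cast hge
          push_cast at this
          rw [hCdef, hpdef]
          push_cast
          linarith
        have hκp : 36 ≤ κ ^ 2 * p := by
          have : κ ^ 2 * (n0 : ℝ) ≤ κ ^ 2 * p :=
            mul_le_mul_of_nonneg_left (by rw [hpdef]; linarith) (by positivity)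
          linarith
        have hσlow : κ * p ≤ sg r n := by
          have h1 : κ * p * gr r n 0 ≤ sg r n * gr r n 0 := by
            rw [hs0]
            simpa using hl0
          exact le_of_mul_le_mul_right h1 hz
        have hσ0 : 0 < sg r n := lt_of_lt_of_le (by positivity) hσlow
        have hσup : sg r n ≤ p * p := by
          have h1 := Real.log_le_sub_one_of_pos hp0
          have h2 : p * (1 + Real.log p) ≤ p * p := mul_le_mul_of_nonneg_left (by linarith) hp0.le
          linarith
        have num := edge2_num p M C G (1 + G * (C ^ 2 - 1)) (1 + G * ((C - 1) ^ 2 - 1)) (sg r n) κ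
          hκ hG16 hp256 hκp hM hC2 hCp rfl rfl hσlow hσup
        have hCb : C - 1 = (b : ℝ) + 1 := by
          rw [hCdef]
          push_cast
          ring
        rw [← hCb] at ih0
        -- the next first ratio
        have hsig : (M + 1) * sg r (n + 1) = p + (M + 2) * sg r n := by
          have h1 : (M + 1) * sg r (n + 1) * gr r n 0 = (p + (M + 2) * sg r n) * gr r n 0 := by
            have e1 : gr r (n + 1) 1 = ((n : ℝ) + 1 - ((0 : ℕ) : ℝ)) * gr r n 0 +
                (((r : ℝ) - 1) * ((n : ℝ) + 1) + ((0 : ℕ) : ℝ) + 2) * gr r n (0 + 1) := hr2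
            have e2 : gr r n (0 + 1) = sg r n * gr r n 0 := by rw [hs0]
            have e3 : gr r (n + 1) 0 = (M + 1) * gr r n 0 := by rw [hrz]
            calc (M + 1) * sg r (n + 1) * gr r n 0 = sg r (n + 1) * ((M + 1) * gr r n 0) := by ring
              _ = gr r (n + 1) 1 := by rw [← e3, hs1]
              _ = (p + (M + 2) * sg r n) * gr r n 0 := by
                rw [e1, e2, hMdef]
                push_cast
                ring
          exact mul_right_cancel₀ hz.ne' h1
        set A : ℝ := 1 + G * (C ^ 2 - 1) with hAdef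
        set A' : ℝ := 1 + G * ((C - 1) ^ 2 - 1) with hA'def
        set σ : ℝ := sg r n with hσdef
        have hA0 : 0 < A := by
          rw [hAdef]
          have h1 : 0 ≤ C ^ 2 - 1 := by
            have : 1 ≤ C ^ 2 := one_le_pow₀ (by linarith)
            linarith
          have h2 := mul_nonneg hG0.le h1
          linarith
        have e0 : gr r (n + 1) (b + 1) = (p - C + 2) * gr r n b + (M + C) * gr r n (b + 1) := by
          rw [hr0, hMdef, hpdef, hCdef]
          push_cast
          ring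
        have e1 : gr r (n + 1) (b + 1 + 1) =
            (p + 1 - C) * gr r n (b + 1) + (M + C + 1) * gr r n (b + 1 + 1) := by
          rw [hr1', hMdef, hpdef, hCdef]
          push_cast
          ring
        have hM1 : 0 < M + 1 := by linarith
        have hC16 : C ≤ p := (le_self_pow₀ (by linarith) (by norm_num)).trans hCp
        -- multiply by `σ (M + 1)`
        have goal' : (σ * (M + 1)) * (sg r (n + 1) * gr r (n + 1) (b + 1)) ≤
            (σ * (M + 1)) * (A * gr r (n + 1) (b + 1 + 1)) := by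
          have l1 : (σ * (M + 1)) * (sg r (n + 1) * gr r (n + 1) (b + 1)) =
              (p + (M + 2) * σ) * ((p - C + 2) * (σ * gr r n b) +
                σ * ((M + C) * gr r n (b + 1))) := by
            rw [e0, ← hsig]
            ring
          have l2 : (p + (M + 2) * σ) * ((p - C + 2) * (σ * gr r n b) +
                σ * ((M + C) * gr r n (b + 1))) ≤
              (p + (M + 2) * σ) * ((p - C + 2) * (A' * gr r n (b + 1)) +
                σ * ((M + C) * gr r n (b + 1))) := by
            apply mul_le_mul_of_nonneg_left _ (by positivity)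
            have : (p - C + 2) * (σ * gr r n b) ≤ (p - C + 2) * (A' * gr r n (b + 1)) :=
              mul_le_mul_of_nonneg_left ih0 (by linarith)
            linarith
          have l3 : (p + (M + 2) * σ) * ((p - C + 2) * (A' * gr r n (b + 1)) +
                σ * ((M + C) * gr r n (b + 1))) =
              ((p + (M + 2) * σ) * (p - C + 2) * A' + σ * ((p + (M + 2) * σ) * (M + C))) *
                gr r n (b + 1) := by ring
          have l4 : ((p + (M + 2) * σ) * (p - C + 2) * A' +
              σ * ((p + (M + 2) * σ) * (M + C))) * gr r n (b + 1) ≤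
              (σ * ((M + 1) * (A * (p + 1 - C) + (M + C + 1) * σ))) * gr r n (b + 1) :=
            mul_le_mul_of_nonneg_right num hg1.le
          have l5 : (σ * ((M + 1) * (A * (p + 1 - C) + (M + C + 1) * σ))) * gr r n (b + 1) =
              (σ * (M + 1)) * (A * (p + 1 - C) * gr r n (b + 1) +
                (M + C + 1) * (σ * gr r n (b + 1))) := by ring
          have l6 : (σ * (M + 1)) * (A * (p + 1 - C) * gr r n (b + 1) +
                (M + C + 1) * (σ * gr r n (b + 1))) ≤
              (σ * (M + 1)) * (A * (p + 1 - C) * gr r n (b + 1) +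
                (M + C + 1) * (A * gr r n (b + 1 + 1))) := by
            apply mul_le_mul_of_nonneg_left _ (by positivity)
            have : (M + C + 1) * (σ * gr r n (b + 1)) ≤ (M + C + 1) * (A * gr r n (b + 1 + 1)) :=
              mul_le_mul_of_nonneg_left ih1 (by linarith)
            linarith
          have l7 : (σ * (M + 1)) * (A * gr r (n + 1) (b + 1 + 1)) =
              (σ * (M + 1)) * (A * (p + 1 - C) * gr r n (b + 1) +
                (M + C + 1) * (A * gr r n (b + 1 + 1))) := by
            rw [e1]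
            ring
          rw [l1, l7]
          exact (l2.trans (l3.le.trans (l4.trans l5.le))).trans l6
        exact le_of_mul_le_mul_left goal' (by positivity)
  refine ⟨G, n0, hG0, fun n hn c hc => ?_⟩
  have h := main n hn c hc
  have hcn : c + 1 ≤ n := le_trans (Nat.le_self_pow (by norm_num) (c + 1)) hc
  have hg1 := hpos n (c + 1) hcn
  refine h.trans (mul_le_mul_of_nonneg_right ?_ hg1.le)
  rw [mul_sub, mul_one]
  linarith

end Pool.Agent.H53.ATPR
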