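import Mathlib
import Pool.Agent.H53.ATPR.Spec

/-!
# The quotients of consecutive row polynomials near the real axis
-/

set_option autoImplicit false

open MeasureTheory Filter Complex Metric Set
open scoped Topology Real

namespace Pool.Agent.H53.ATPR

/-- The ratios of consecutive rows grow. -/
private lemma eta_R0_le (hB : BasSt) (r : ℕ) (hr : 2 ≤ r) (y : ℕ → ℕ → ℝ) (hy : IsY r y)
    (n : ℕ) (x : ℝ) (hx : 0 < x) (a : ℕ) : R0 r y n x ≤ R0 r y (n + a) x := by
  induction a with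
  | zero => simp
  | succ a ih =>
    have h := (hB r hr y hy (n + a) x hx)
    obtain ⟨_, _, _, _, _, _, _, _, _, _, h11, _⟩ := h
    exact ih.trans h11

/-- The elementary inequality behind the bound for the differences. -/
private lemma eta_real (n r x V B R : ℝ) (_hn : 0 ≤ n) (hr : 0 ≤ r) (hx : 0 < x) (hV : 0 < V)
    (hB0 : 0 < B) (hR : 0 < R) (h1 : 4 * V ≤ n) (h2 : (n + 1) * x ≤ B) (h3 : |1 - x| * V ≤ B)
    (h4 : R ≤ r * (n + 1) * (1 + x)) :
    (x + B / R) / B + (1 + x) / R ≤ (3 * r + 6) * (B / R) / V := by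
  have key : V * (1 + x) ≤ 3 * B := by
    rcases le_or_gt (1 / 2 : ℝ) x with h | h
    · have : V * (1 + x) ≤ n / 4 * (3 * x) := by
        apply mul_le_mul (by linarith) (by linarith) (by linarith) (by linarith)
      nlinarith
    · have h5 : |1 - x| = 1 - x := abs_of_pos (by linarith)
      rw [h5] at h3
      nlinarith
  have e1 : (x + B / R) / B + (1 + x) / R = x / B + (2 + x) / R := by
    field_simp
    ring
  rw [e1]
  have a1 : x / B ≤ 3 * r * (B / R) / V := by
    rw [div_le_div_iff₀ hB0 hV]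
    have : x * V * R ≤ 3 * r * B * B := by
      calc x * V * R ≤ x * V * (r * (n + 1) * (1 + x)) :=
            mul_le_mul_of_nonneg_left h4 (by positivity)
        _ = r * ((n + 1) * x) * (V * (1 + x)) := by ring
        _ ≤ r * B * (3 * B) := by
            apply mul_le_mul (mul_le_mul_of_nonneg_left h2 hr) key (by positivity) (by positivity)
        _ = 3 * r * B * B := by ring
    have h6 : x * V ≤ 3 * r * B * B / R := by
      rw [le_div_iff₀ hR]; exact this
    calc x * V ≤ 3 * r * B * B / R := h6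
      _ = 3 * r * (B / R) * B := by ring
  have a2 : (2 + x) / R ≤ 6 * (B / R) / V := by
    rw [div_le_div_iff₀ hR hV]
    have : 6 * (B / R) * R = 6 * B := by field_simp
    rw [this]
    nlinarith
  calc x / B + (2 + x) / R ≤ 3 * r * (B / R) / V + 6 * (B / R) / V := add_le_add a1 a2
    _ = (3 * r + 6) * (B / R) / V := by ring

/-- Taylor's formula of order two with a bound for the derivative on a disc. -/
private lemma eta_taylor (f : ℂ → ℂ) (z0 D : ℝ) (hz0 : 0 < z0) (hD : 0 < D)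
    (hf : DifferentiableOn ℂ f (ball 0 z0)) (hb : ∀ z ∈ ball (0 : ℂ) z0, ‖deriv f z‖ ≤ D)
    (w : ℂ) (hw : ‖w‖ < z0) :
    ‖f w - f 0 - w * deriv f 0‖ ≤ 3 * D / z0 * ‖w‖ ^ 2 := by
  have h0 : (0 : ℂ) ∈ ball (0 : ℂ) z0 := mem_ball_self hz0
  have hg : DifferentiableOn ℂ (deriv f) (ball 0 z0) := hf.deriv isOpen_ball
  have hmaps : MapsTo (deriv f) (ball 0 z0) (ball (deriv f 0) (3 * D)) := by
    intro z hz
    rw [mem_ball, dist_eq_norm]
    have h1 := hb z hz
    have h2 := hb 0 h0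
    have := norm_sub_le (deriv f z) (deriv f 0)
    linarith
  have hs : ∀ z ∈ ball (0 : ℂ) z0, ‖deriv f z - deriv f 0‖ ≤ 3 * D / z0 * ‖z‖ := by
    intro z hz
    have := Complex.dist_le_div_mul_dist_of_mapsTo_ball hg (hmaps.mono_right ball_subset_closedBall) hz
    simpa [dist_eq_norm] using this
  have hsub : closedBall (0 : ℂ) ‖w‖ ⊆ ball 0 z0 := closedBall_subset_ball hw
  have hder : ∀ z ∈ closedBall (0 : ℂ) ‖w‖,
      HasDerivWithinAt (fun z => f z - z * deriv f 0) (deriv f z - deriv f 0)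
        (closedBall (0 : ℂ) ‖w‖) z := by
    intro z hz
    have h1 : HasDerivAt f (deriv f z) z :=
      (hf.differentiableAt (isOpen_ball.mem_nhds (hsub hz))).hasDerivAt
    have h2 : HasDerivAt (fun z : ℂ => z * deriv f 0) (1 * deriv f 0) z :=
      (hasDerivAt_id z).mul_const _
    have h3 := h1.sub h2
    rw [one_mul] at h3
    exact h3.hasDerivWithinAt
  have hbd : ∀ z ∈ closedBall (0 : ℂ) ‖w‖, ‖deriv f z - deriv f 0‖ ≤ 3 * D / z0 * ‖w‖ := by
    intro z hz
    have h1 := hs z (hsub hz)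
    have h2 : ‖z‖ ≤ ‖w‖ := by simpa using hz
    exact h1.trans (mul_le_mul_of_nonneg_left h2 (by positivity))
  have hmv := Convex.norm_image_sub_le_of_norm_hasDerivWithin_le hder hbd
    (convex_closedBall (0 : ℂ) ‖w‖) (mem_closedBall_self (norm_nonneg w))
    (show w ∈ closedBall (0 : ℂ) ‖w‖ by simp)
  have e1 : f w - w * deriv f 0 - (f 0 - 0 * deriv f 0) = f w - f 0 - w * deriv f 0 := by ring
  rw [e1, sub_zero] at hmv
  calc ‖f w - f 0 - w * deriv f 0‖ ≤ 3 * D / z0 * ‖w‖ * ‖w‖ := hmv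
    _ = 3 * D / z0 * ‖w‖ ^ 2 := by ring

/-- ETA -/
theorem eta0 : MeanSt → BasSt → DskSt → DifSt → EtaSt := by
  intro _ hB hK hF r hr M
  obtain ⟨C1, z0, hC1, hz0, hDsk⟩ := hK r hr
  have hr0 : (0 : ℝ) < (r : ℝ) := by
    have : 0 < r := by omega
    exact_mod_cast this
  obtain ⟨C2, z1, hC2, hz1, hz10, hDif⟩ := hF (r : ℝ) C1 z0 M hr0 hC1 hz0
  have hCs : 0 < C2 + (3 * (r : ℝ) + 6) + 3 * C1 / z0 := by positivity
  refine ⟨C2 + (3 * (r : ℝ) + 6) + 3 * C1 / z0, min 1 (min z1 (z0 / 2)), hCs, ?_, min_le_left _ _, ?_⟩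
  · exact lt_min one_pos (lt_min hz1 (by linarith))
  intro y hy n x hn hx t ht
  obtain ⟨b1, b2, b3, b4, b5, b6, b7, b8, b9, b10, b11, b12⟩ := hB r hr y hy n x hx
  have hV : 0 < vs y n x := b5 hn
  have hn0 : (0 : ℝ) ≤ (n : ℝ) := Nat.cast_nonneg n
  have hB0 : 0 < B0 r y n x := lt_of_lt_of_le (by positivity) b6
  have hR0 : 0 < R0 r y n x := by linarith
  have hmu : 0 ≤ mu r y n x := by unfold mu; positivity
  have ht1 : |t| ≤ z1 := ht.trans ((min_le_right _ _).trans (min_le_left _ _))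
  have ht2 : |t| ≤ z0 / 2 := ht.trans ((min_le_right _ _).trans (min_le_right _ _))
  have hnt : ‖(t : ℂ) * I‖ = |t| := by simp
  obtain ⟨d1, d2, d3, d4⟩ := hDsk y hy n x hx
  refine ⟨?_, ?_⟩
  · intro a j haj
    have hxB : x ≤ B0 r y n x := by nlinarith
    have hmain := hDif x (B0 r y n x) (R0 r y n x) (fun a z => Rz r (n + a) x z) hx hxB b8 b9
      (fun a => (hDsk y hy (n + a) x hx).1)
      (fun a z hz => ((hDsk y hy (n + a) x hx).2.2.2 z hz).1)
      (fun z hz => by simpa using (d4 z hz).2.1)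
      (by
        show ‖Rz r (n + 0) x 0‖ = R0 r y n x
        rw [add_zero, d2, Complex.norm_real, Real.norm_of_nonneg hR0.le])
      (fun a => by
        show R0 r y n x ≤ ‖Rz r (n + a) x 0‖
        have h1 := eta_R0_le hB r hr y hy n x hx a
        have h2 := (hDsk y hy (n + a) x hx).2.1
        rw [h2, Complex.norm_real, Real.norm_of_nonneg (hR0.le.trans h1)]
        exact h1)
      (fun a z hz => by
        have h1 := ((hDsk y hy (n + a) x hx).2.2.2 z hz).2.2
        have h2 : Rz r (n + (a + 1)) x z = Rz r (n + a + 1) x z := rfl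
        show Rz r (n + (a + 1)) x z = _
        rw [h2, h1]
        simp)
      a j haj ((t : ℂ) * I) (by rw [hnt]; exact ht1)
    rw [hnt] at hmain
    have he : (fun b => (fun a z => Rz r (n + a) x z) b ((t : ℂ) * I) /
        (fun a z => Rz r (n + a) x z) b 0 - 1) = eta r n x t := by
      funext b; rfl
    rw [he] at hmain
    have hY := eta_real (n : ℝ) (r : ℝ) x (vs y n x) (B0 r y n x) (R0 r y n x) hn0 hr0.le hx hV
      hB0 hR0 b4 b6 b7 b10
    have hY0 : 0 ≤ (x + B0 r y n x / R0 r y n x) / B0 r y n x + (1 + x) / R0 r y n x := by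
      positivity
    have hmd : mu r y n x = B0 r y n x / R0 r y n x := rfl
    have hY1 : (x + B0 r y n x / R0 r y n x) / B0 r y n x + (1 + x) / R0 r y n x ≤
        (C2 + (3 * (r : ℝ) + 6) + 3 * C1 / z0) * mu r y n x / vs y n x := by
      refine hY.trans ?_
      rw [← hmd]
      apply div_le_div_of_nonneg_right _ hV.le
      apply mul_le_mul_of_nonneg_right _ hmu
      have : 0 ≤ 3 * C1 / z0 := by positivity
      linarith
    refine hmain.trans ?_
    rw [← hmd] at hY0 hY1 ⊢
    apply mul_le_mul _ (pow_le_pow_left₀ hY0 hY1 j) (pow_nonneg hY0 j) (by positivity)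
    apply mul_le_mul_of_nonneg_right _ (abs_nonneg t)
    apply mul_le_mul_of_nonneg_right _ hmu
    have : 0 ≤ 3 * C1 / z0 := by positivity
    linarith
  · have hT := eta_taylor (Rz r n x) z0 (C1 * B0 r y n x) hz0 (by positivity) d1
      (fun z hz => (d4 z hz).2.1) ((t : ℂ) * I) (by rw [hnt]; linarith)
    rw [hnt, d2, d3] at hT
    have hRc : (R0 r y n x : ℂ) ≠ 0 := by exact_mod_cast hR0.ne'
    have he : eta r n x t 0 - I * t * mu r y n x =
        (Rz r n x ((t : ℂ) * I) - (R0 r y n x : ℂ) - (t : ℂ) * I * (B0 r y n x : ℂ)) /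
          (R0 r y n x : ℂ) := by
      show Rz r (n + 0) x ((t : ℂ) * I) / Rz r (n + 0) x 0 - 1 - I * t * mu r y n x = _
      rw [add_zero, d2]
      unfold mu
      push_cast
      field_simp
    rw [he, norm_div, Complex.norm_real, Real.norm_of_nonneg hR0.le, div_le_iff₀ hR0]
    refine hT.trans ?_
    have h1 : (C2 + (3 * (r : ℝ) + 6) + 3 * C1 / z0) * mu r y n x * t ^ 2 * R0 r y n x =
        (C2 + (3 * (r : ℝ) + 6) + 3 * C1 / z0) * B0 r y n x * t ^ 2 := by
      unfold mu
      field_simp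
    rw [h1, sq_abs]
    have h2 : 3 * (C1 * B0 r y n x) / z0 * t ^ 2 = 3 * C1 / z0 * B0 r y n x * t ^ 2 := by ring
    rw [h2]
    apply mul_le_mul_of_nonneg_right _ (sq_nonneg t)
    apply mul_le_mul_of_nonneg_right _ hB0.le
    linarith [mul_pos hr0 (show (0 : ℝ) < 3 by norm_num)]

end Pool.Agent.H53.ATPR
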