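import Pool.Agent.H53.ATPR.Spec
import Pool.Agent.H73.TP.Two

/-!
# The elementary parts EV, ROOT and GR
-/

set_option autoImplicit false

open Polynomial

namespace Pool.Agent.H53.ATPR

/-- The entries of the triangle are the coefficients of the row polynomials. -/
theorem ev_eq_rowP (r : ℕ) : ∀ n k, ev r n k = (H73.TP.rowP r n).coeff k := by
  intro n
  induction n with
  | zero =>
    intro k
    rcases k with _ | k
    · simp [ev, er, H73.TP.rowP]
    · rcases k with _ | k
      · simp [ev, er, H73.TP.rowP, coeff_one]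
      · simp [ev, er, H73.TP.rowP, coeff_one]
  | succ n ih =>
    intro k
    rcases k with _ | k
    · have h : ev r (n + 1) 0 = ev r n 0 := by simp [ev, er]
      rw [h, ih, H73.TP.rowP, H73.TP.opA_coeff_zero]
    · have h : ev r (n + 1) (k + 1)
          = ((k : ℝ) + 2) * ev r n (k + 1) + ((r : ℝ) * (n + 1) - k) * ev r n k := by
        have h1 : er r (n + 1 + 1) (k + 1) = ((k : ℤ) + 2) * er r (n + 1) (k + 1)
            + ((r : ℤ) * ((n + 1 : ℕ) : ℤ) - (k : ℤ)) * er r (n + 1) k := rfl
        unfold ev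
        rw [h1]
        push_cast
        ring
      rw [h, H73.TP.rowP, H73.TP.opA_coeff_succ, ← ih, ← ih]

private theorem ev_aux_rec (r n k : ℕ) : ev r (n + 1) (k + 1)
    = ((k : ℝ) + 2) * ev r n (k + 1) + ((r : ℝ) * (n + 1) - k) * ev r n k := by
  rw [ev_eq_rowP, ev_eq_rowP, ev_eq_rowP, H73.TP.rowP, H73.TP.opA_coeff_succ]

private theorem ev_aux_zero (r : ℕ) : ∀ n, ev r n 0 = 1 := by
  intro n
  induction n with
  | zero => simp [ev, er]
  | succ n ih =>
    rw [ev_eq_rowP, H73.TP.rowP, H73.TP.opA_coeff_zero, ← ev_eq_rowP, ih]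

private theorem ev_aux_one_le (r : ℕ) (hr : 1 ≤ r) (n k : ℕ) (hk : k ≤ n) : 1 ≤ ev r n k := by
  have h : 0 < ev r n k := by
    rw [ev_eq_rowP]; exact H73.TP.rowP_pos r hr n k hk
  unfold ev at h ⊢
  have h1 : 0 < er r (n + 1) k := by exact_mod_cast h
  have h2 : 1 ≤ er r (n + 1) k := h1
  exact_mod_cast h2

private theorem ev_aux_logc (r : ℕ) (hr : 1 ≤ r) (n k : ℕ) :
    ev r n k * ev r n (k + 2) ≤ ev r n (k + 1) ^ 2 := by
  obtain ⟨y, hy, hyp⟩ := H73.TP.rowP_prod r hr n
  have h := H73.TP.tz2_nonneg y Finset.univ (fun i _ => (hy i).le) (k + 1) 0 1 (by omega)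
  rw [← hyp] at h
  unfold H73.TP.tz2 H73.TP.w2 at h
  rw [pow_zero, one_mul, pow_one, coeff_X_mul, coeff_X_mul, ← ev_eq_rowP, ← ev_eq_rowP,
    ← ev_eq_rowP] at h
  nlinarith [h]

/-- **EV.** -/
theorem ev0 : EvSt := by
  intro r hr
  refine ⟨ev_aux_zero r, fun n k hk => ?_, fun n k hk => ev_aux_one_le r hr n k hk,
    fun n k => ev_aux_rec r n k, fun n k => ev_aux_logc r hr n k⟩
  rw [ev_eq_rowP]; exact H73.TP.rowP_zero r hr n k hk

/-- **ROOT.** -/
theorem root : RootSt := by
  intro r hr
  choose y hy hyp using fun n => H73.TP.rowP_prod r hr n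
  refine ⟨fun n i => if h : i < n then y n ⟨i, h⟩ else 1, fun n i => ?_, fun n t => ?_⟩
  · dsimp only
    split_ifs with h
    · exact hy n ⟨i, h⟩
    · exact one_pos
  · have hF : Fr r n t = ((H73.TP.rowP r n).map Complex.ofRealHom).eval t := by
      have hdeg : ((H73.TP.rowP r n).map Complex.ofRealHom).natDegree < n + 1 := by
        refine lt_of_le_of_lt natDegree_map_le ?_
        refine Nat.lt_succ_of_le ?_
        refine natDegree_le_iff_coeff_eq_zero.mpr fun k hk => ?_
        exact H73.TP.rowP_zero r hr n k hk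
      rw [eval_eq_sum_range' hdeg]
      unfold Fr
      refine Finset.sum_congr rfl fun k _ => ?_
      rw [coeff_map, ev_eq_rowP]
      rfl
    rw [hF, hyp n]
    unfold H73.TP.pr
    rw [Polynomial.map_prod, eval_prod, Finset.prod_range]
    refine Finset.prod_congr rfl fun i _ => ?_
    have hi : (i : ℕ) < n := i.2
    have hd : (if h : (i : ℕ) < n then y n ⟨i, h⟩ else 1) = y n i := by
      rw [dif_pos hi]
    change _ = 1 + (((if h : (i : ℕ) < n then y n ⟨i, h⟩ else 1 : ℝ)) : ℂ) * t
    rw [hd]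
    simp

/-- **GR.** -/
theorem gr0 : GrSt := by
  intro r hr
  refine ⟨fun n c hc => ?_, fun n c hc => ?_, fun n => ?_, fun n c => ?_⟩
  · unfold gr
    rw [if_pos hc]
    exact lt_of_lt_of_le one_pos (ev_aux_one_le r hr n (n - c) (by omega))
  · unfold gr
    rw [if_neg (by omega)]
  · unfold gr
    rw [if_pos (by omega), if_pos (by omega)]
    have e1 : n + 1 - 0 = n + 1 := by omega
    have e2 : n - 0 = n := by omega
    rw [e1, e2, ev_aux_rec, (ev0 r hr).2.1 n (n + 1) (by omega)]
    ring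
  · unfold gr
    by_cases hc : c ≤ n
    · rw [if_pos (by omega : c + 1 ≤ n + 1), if_pos hc]
      by_cases hcn : c + 1 ≤ n
      · rw [if_pos hcn]
        obtain ⟨k, rfl⟩ : ∃ k, n = c + 1 + k := ⟨n - (c + 1), by omega⟩
        have e1 : c + 1 + k + 1 - (c + 1) = k + 1 := by omega
        have e2 : c + 1 + k - c = k + 1 := by omega
        have e3 : c + 1 + k - (c + 1) = k := by omega
        rw [e1, e2, e3, ev_aux_rec]
        push_cast
        ring
      · rw [if_neg hcn]
        have hn : n = c := by omega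
        subst hn
        have e1 : n + 1 - (n + 1) = 0 := by omega
        have e2 : n - n = 0 := by omega
        rw [e1, e2, ev_aux_zero, ev_aux_zero]
        ring
    · rw [if_neg (by omega), if_neg hc, if_neg (by omega)]
      ring

end Pool.Agent.H53.ATPR
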