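import Pool.Agent.H53.ATPR.Spec

/-!
# The determinant of the inverse factorials
-/

set_option autoImplicit false

open Polynomial

namespace Pool.Agent.H53.ATPR

private lemma fac_entry (c i j : ℕ) :
    (if j ≤ c + i then 1 / ((c + i - j).factorial : ℝ) else 0) =
      ((c + i).factorial : ℝ)⁻¹ * ((descPochhammer ℝ j).eval (((c + i : ℕ) : ℝ))) := by
  rw [descPochhammer_eval_eq_descFactorial]
  by_cases h : j ≤ c + i
  · rw [if_pos h]
    have h1 := Nat.factorial_mul_descFactorial h
    have h2 : ((c + i - j).factorial : ℝ) ≠ 0 := by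
      exact_mod_cast Nat.factorial_ne_zero _
    have h3 : ((c + i).factorial : ℝ) ≠ 0 := by
      exact_mod_cast Nat.factorial_ne_zero _
    have h4 : ((c + i - j).factorial : ℝ) * ((c + i).descFactorial j : ℝ) =
        ((c + i).factorial : ℝ) := by exact_mod_cast h1
    field_simp
    linarith
  · rw [if_neg h, Nat.descFactorial_eq_zero_iff_lt.2 (by omega)]
    simp

/-- **FAC.** The determinant of the inverse factorials is positive. -/
theorem fac : FacSt := by
  intro m c
  have h1 : (Matrix.of fun i j : Fin m =>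
      if (j : ℕ) ≤ c + i then 1 / ((c + i - j).factorial : ℝ) else 0) =
      Matrix.of fun i j : Fin m => (fun i : Fin m => ((c + i : ℕ).factorial : ℝ)⁻¹) i *
        (Matrix.of fun i j : Fin m =>
          ((descPochhammer ℝ (j : ℕ)).eval (((c + i : ℕ) : ℝ)))) i j := by
    ext i j
    simp only [Matrix.of_apply]
    exact fac_entry c i j
  rw [h1, Matrix.det_mul_column]
  refine mul_pos (Finset.prod_pos fun i _ => ?_) ?_
  · have : (0 : ℝ) < ((c + (i : ℕ)).factorial : ℝ) := by exact_mod_cast Nat.factorial_pos _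
    exact inv_pos.2 this
  · have h2 := Matrix.det_eval_matrixOfPolynomials_eq_det_vandermonde
      (fun i : Fin m => (((c + i : ℕ) : ℝ))) (fun j : Fin m => descPochhammer ℝ (j : ℕ))
      (fun j => descPochhammer_natDegree ℝ j) (fun j => monic_descPochhammer ℝ j)
    rw [← h2, Matrix.det_vandermonde]
    refine Finset.prod_pos fun i _ => Finset.prod_pos fun j hj => ?_
    have h3 : i < j := Finset.mem_Ioi.1 hj
    have h4 : (i : ℕ) < (j : ℕ) := h3
    have h5 : ((c + (i : ℕ) : ℕ) : ℝ) < ((c + (j : ℕ) : ℕ) : ℝ) := by exact_mod_cast (by omega)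
    exact sub_pos.2 h5

end Pool.Agent.H53.ATPR
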