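import Pool.Agent.H53.ATPR.Spec
import Pool.Agent.H53.ATP.Spec

/-!
# Assembly of the theorem for all orders r ≥ 2 from its parts
-/

set_option autoImplicit false

open Filter
open scoped Topology Real

namespace Pool.Agent.H53.ATPR

/-- All solid minors of order `m` far down are positive. -/
theorem solr_pos (hRoot : RootSt) (hMean : MeanSt) (hLeft : LeftRSt) (hRight : RightRSt)
    (hV1 : Var1St) (hV2 : Var2St) (hCore : CoreSt) (r : ℕ) (hr : 2 ≤ r) (m : ℕ) :
    ∃ N : ℕ, ∀ n, N ≤ n → ∀ k : ℕ, k ≤ n → 0 < solr r m n k := by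
  have hr1 : 1 ≤ r := by omega
  obtain ⟨y, hy⟩ := hRoot r hr1
  obtain ⟨-, -, -, hex, -⟩ := hMean r hr1 y hy
  obtain ⟨C, N1, hC, hL⟩ := hLeft r hr1 m
  obtain ⟨W, N2, hCo⟩ := hCore r hr y hy m
  obtain ⟨c0, N3, hB⟩ := hV2 r hr y hy W
  obtain ⟨N4, hR⟩ := hRight r hr m c0
  obtain ⟨N5, hA⟩ := hV1 r hr y hy C m
  have h7 : ∀ᶠ n : ℕ in atTop, C * ((0 : ℝ) + m) * Real.log n ≤ n := by
    have h := (Real.isLittleO_log_id_atTop).def (c := 1 / (C * ((0 : ℝ) + m) + 1)) (by positivity)
    have h2 := (tendsto_natCast_atTop_atTop (R := ℝ)).eventually h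
    filter_upwards [h2, eventually_ge_atTop 1] with n hn h1
    have hn1 : (1 : ℝ) ≤ n := by exact_mod_cast h1
    have hlog : 0 ≤ Real.log n := Real.log_nonneg hn1
    rw [Real.norm_of_nonneg hlog] at hn
    simp only [id_eq, Real.norm_natCast] at hn
    have hpos : 0 < C * ((0 : ℝ) + m) + 1 := by positivity
    have h3 : (C * ((0 : ℝ) + m) + 1) * Real.log n ≤ n := by
      calc (C * ((0 : ℝ) + m) + 1) * Real.log n
          ≤ (C * ((0 : ℝ) + m) + 1) * (1 / (C * ((0 : ℝ) + m) + 1) * n) := by gcongr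
        _ = n := by field_simp
    nlinarith
  obtain ⟨N7, hN7⟩ := eventually_atTop.mp h7
  obtain ⟨N8, hN8⟩ := exists_nat_ge (|W| ^ 4)
  refine ⟨N1 + N2 + N3 + N4 + N5 + N7 + N8, fun n hn k hk => ?_⟩
  by_cases hA1 : C * ((k : ℝ) + m) * Real.log n ≤ n
  · exact hL n (by omega) k hA1
  by_cases hB1 : n - k ≤ c0
  · exact hR n (by omega) k hk hB1
  have hk0 : 0 < k := by
    rcases Nat.eq_zero_or_pos k with h | h
    · exfalso
      apply hA1
      have := hN7 n (by omega)
      rw [h]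
      simpa using this
    · exact h
  have hkn : k < n := by omega
  obtain ⟨x, hx, hmx⟩ := hex n k hk0 hkn
  have hv0 : 0 ≤ vs y n x := by
    unfold vs
    apply Finset.sum_nonneg
    intro i _
    have := hy.1 n i
    positivity
  by_cases hC1 : 2 * (r + 1) * k ≤ (2 * r + 1) * n
  · have hV := hA n (by omega) k x hx hmx (not_le.mp hA1) hC1
    have hW : W ≤ vs y n x := by
      by_contra hcon
      push Not at hcon
      have h1 : vs y n x < |W| := lt_of_lt_of_le hcon (le_abs_self W)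
      have h2 : vs y n x ^ 4 < |W| ^ 4 := by gcongr
      have h3 : (N8 : ℝ) ≤ n := by exact_mod_cast (by omega : N8 ≤ n)
      linarith
    exact hCo n (by omega) k x hx hmx hW (Or.inr hV)
  · obtain ⟨h1, h2⟩ := hB n (by omega) k x hk hx hmx (not_le.mp hC1) (by omega)
    exact hCo n (by omega) k x hx hmx h1 h2

/-- The recursion determines the triangle. -/
theorem eq_er (r : ℕ) (E : ℕ → ℕ → ℤ) (h00 : E 0 0 = 1) (h0 : ∀ k, E 0 (k + 1) = 0)
    (hc : ∀ n, E (n + 1) 0 = E n 0)
    (hs : ∀ n k : ℕ, E (n + 1) (k + 1) =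
      ((k : ℤ) + 2) * E n (k + 1) + ((r : ℤ) * (n : ℤ) - (k : ℤ)) * E n k) :
    ∀ n k, E n k = er r n k := by
  intro n
  induction n with
  | zero =>
    intro k
    cases k with
    | zero => rw [h00]; rfl
    | succ k => rw [h0]; rfl
  | succ n ih =>
    intro k
    cases k with
    | zero => rw [hc, ih]; rfl
    | succ k => rw [hs, ih, ih]; rfl

/-- The theorem for `er`. -/
theorem finalr (hF : Pool.Agent.H53.ATP.FekSt) (hEv : EvSt) (r : ℕ) (hr : 1 ≤ r)
    (hS : ∀ m : ℕ, ∃ N : ℕ, ∀ n, N ≤ n → ∀ k : ℕ, k ≤ n → 0 < solr r m n k) (K : ℕ) :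
    ∃ N : ℕ, ∀ m, m ≤ K → ∀ f g : Fin m → ℕ, StrictMono f → StrictMono g → (∀ i, N ≤ f i) →
      0 ≤ Matrix.det (Matrix.of fun i j => er r (f i) (g j)) ∧
      ((∀ i, g i < f i) → 0 < Matrix.det (Matrix.of fun i j => er r (f i) (g j))) := by
  choose N hN using hS
  set N' : ℕ := (Finset.range (K + 1)).sup N with hN'
  refine ⟨N' + 1, fun m hm f g hf hg hfN => ?_⟩
  have hkey := hF (fun n k => ev r n k) K N'
    (fun n k hnk => (hEv r hr).2.1 n k hnk)
    (fun m' hm' n hn k hk => by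
      have h1 : N m' ≤ n := le_trans (Finset.le_sup (f := N) (by simpa using by omega)) hn
      exact hN m' n h1 k hk)
    m hm (fun i => f i - 1) g
    (fun i j hij => by
      have h1 := hf hij
      have h2 := hfN i
      show f i - 1 < f j - 1
      omega)
    hg (fun i => by have := hfN i; show N' ≤ f i - 1; omega)
  have hrow : ∀ i, f i - 1 + 1 = f i := fun i => by have := hfN i; omega
  simp only [ev, hrow] at hkey
  have hcast : ((Matrix.det (Matrix.of fun i j => er r (f i) (g j)) : ℤ) : ℝ) =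
      Matrix.det (Matrix.of fun i j => ((er r (f i) (g j) : ℤ) : ℝ)) := by
    have h3 := RingHom.map_det (Int.castRingHom ℝ) (Matrix.of fun i j => er r (f i) (g j))
    rw [show ((Matrix.det (Matrix.of fun i j => er r (f i) (g j)) : ℤ) : ℝ) =
      (Int.castRingHom ℝ) (Matrix.det (Matrix.of fun i j => er r (f i) (g j))) from rfl, h3]
    congr 1
  rw [← hcast] at hkey
  refine ⟨by exact_mod_cast hkey.1, fun h => ?_⟩
  have h4 := hkey.2 (fun i => by have := h i; have := hfN i; show g i ≤ f i - 1; omega)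
  exact_mod_cast h4

end Pool.Agent.H53.ATPR
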