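import Pool.Agent.H53.ATPR.Spec

/-!
# GAM: the entries at the right edge have the Gamma shape
-/

set_option autoImplicit false

open Filter Asymptotics
open scoped Topology

namespace Pool.Agent.H53.ATPR

/-- Stolz and Cesaro. -/
private lemma gam_stolz {A B : ℕ → ℝ} {L : ℝ} (hB : ∀ n, B n ≤ B (n + 1))
    (hBt : Tendsto B atTop atTop) (hpos : ∀ᶠ n in atTop, B n < B (n + 1))
    (h : Tendsto (fun n => (A (n + 1) - A n) / (B (n + 1) - B n)) atTop (𝓝 L)) :
    Tendsto (fun n => A n / B n) atTop (𝓝 L) := by
  have h1 : (fun n => (A (n + 1) - A n) - L * (B (n + 1) - B n)) =o[atTop]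
      (fun n => B (n + 1) - B n) := by
    have h0 : ∀ᶠ n in atTop, B (n + 1) - B n = 0 →
        (A (n + 1) - A n) - L * (B (n + 1) - B n) = 0 := by
      filter_upwards [hpos] with n hn h0
      exact absurd h0 (by intro h; linarith)
    rw [isLittleO_iff_tendsto' h0]
    have h2 : Tendsto (fun n => (A (n + 1) - A n) / (B (n + 1) - B n) - L) atTop (𝓝 (L - L)) :=
      h.sub_const L
    rw [sub_self] at h2
    refine h2.congr' ?_
    filter_upwards [hpos] with n hn
    have : B (n + 1) - B n ≠ 0 := by intro h; linarith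
    field_simp
  have hBt' : Tendsto (fun n => B n - B 0) atTop atTop := tendsto_atTop_add_const_right _ _ hBt
  have h2 := h1.sum_range (fun n => sub_nonneg.2 (hB n)) (by
    simpa only [Finset.sum_range_sub] using hBt')
  have h3 : (fun n => (A n - A 0) - L * (B n - B 0)) =o[atTop] (fun n => B n - B 0) := by
    refine (h2.congr (fun n => ?_) (fun n => ?_))
    · rw [Finset.sum_sub_distrib, ← Finset.mul_sum, Finset.sum_range_sub, Finset.sum_range_sub]
    · rw [Finset.sum_range_sub]
  have h4 : (fun _ : ℕ => (1 : ℝ)) =o[atTop] B := by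
    rw [isLittleO_one_left_iff]
    exact tendsto_norm_atTop_atTop.comp hBt
  have h5 : (fun n => B n - B 0) =O[atTop] B := by
    refine (isBigO_refl B atTop).sub ?_
    have := h4.isBigO.const_mul_left (B 0)
    simpa using this
  have h6 : (fun n => A n - L * B n) =o[atTop] B := by
    have h7 := (h3.trans_isBigO h5).add (h4.const_mul_left (A 0 - L * B 0))
    refine h7.congr_left (fun n => ?_)
    ring
  have h8 := h6.tendsto_div_nhds_zero
  have h9 : Tendsto (fun n => (A n - L * B n) / B n + L) atTop (𝓝 (0 + L)) := h8.add_const L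
  rw [zero_add] at h9
  refine h9.congr' ?_
  filter_upwards [hBt.eventually_gt_atTop 0] with n hn
  field_simp
  ring


/-- The binomial remainder. -/
private lemma gam_bin (k : ℕ) {e : ℝ} (h0 : 0 ≤ e) (h1 : e ≤ 1) :
    (1 + e) ^ k ≤ 1 + k * e + 3 ^ k * e ^ 2 := by
  induction k with
  | zero => simp; positivity
  | succ k ih =>
    have hk : (k : ℝ) ≤ 3 ^ k := by
      have : k < 3 ^ k := Nat.lt_pow_self (by norm_num)
      exact_mod_cast this.le
    have h3 : (0 : ℝ) < 3 ^ k := by positivity
    have h4 : (k : ℝ) * e ^ 2 ≤ 3 ^ k * e ^ 2 := by gcongr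
    have h5 : 3 ^ k * e ^ 3 ≤ 3 ^ k * e ^ 2 := by
      have : e ^ 3 ≤ e ^ 2 := by nlinarith [sq_nonneg e]
      gcongr
    calc (1 + e) ^ (k + 1) = (1 + e) ^ k * (1 + e) := pow_succ _ _
      _ ≤ (1 + k * e + 3 ^ k * e ^ 2) * (1 + e) := by gcongr
      _ = 1 + (k + 1) * e + (3 ^ k * e ^ 2 + k * e ^ 2 + 3 ^ k * e ^ 3) := by ring
      _ ≤ 1 + (k + 1) * e + 3 * (3 ^ k * e ^ 2) := by linarith
      _ = _ := by push_cast; ring

/-- The iterated logarithm grows slowly. -/
private lemma gam_loglog (n : ℕ) :
    Real.log (1 + Real.log (((n + 1 : ℕ) : ℝ) + 1)) - Real.log (1 + Real.log ((n : ℝ) + 1)) ≤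
      1 / (((n : ℝ) + 1) * (1 + Real.log ((n : ℝ) + 1))) := by
  have hn : (0 : ℝ) < (n : ℝ) + 1 := by positivity
  have hl : 0 ≤ Real.log ((n : ℝ) + 1) := Real.log_nonneg (by linarith [Nat.cast_nonneg (α := ℝ) n])
  have hl' : 0 ≤ Real.log (((n + 1 : ℕ) : ℝ) + 1) :=
    Real.log_nonneg (by linarith [Nat.cast_nonneg (α := ℝ) (n + 1)])
  have h1 : (0 : ℝ) < 1 + Real.log ((n : ℝ) + 1) := by linarith
  have h2 : (0 : ℝ) < 1 + Real.log (((n + 1 : ℕ) : ℝ) + 1) := by linarith
  rw [← Real.log_div h2.ne' h1.ne']
  refine (Real.log_le_sub_one_of_pos (div_pos h2 h1)).trans ?_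
  have h3 : Real.log (((n + 1 : ℕ) : ℝ) + 1) - Real.log ((n : ℝ) + 1) ≤ 1 / ((n : ℝ) + 1) := by
    rw [← Real.log_div (by positivity) hn.ne']
    refine (Real.log_le_sub_one_of_pos (by positivity)).trans ?_
    push_cast
    rw [div_sub_one hn.ne']
    apply le_of_eq
    congr 1
    ring
  rw [div_sub_one h1.ne', mul_comm, ← div_div]
  have h4 : (1 + Real.log (((n + 1 : ℕ) : ℝ) + 1) - (1 + Real.log ((n : ℝ) + 1))) /
      (1 + Real.log ((n : ℝ) + 1)) = (Real.log (((n + 1 : ℕ) : ℝ) + 1) - Real.log ((n : ℝ) + 1)) /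
      (1 + Real.log ((n : ℝ) + 1)) := by congr 1; ring
  rw [h4, div_div, mul_comm, ← div_div]
  exact div_le_div_of_nonneg_right h3 h1.le

private lemma gam_main {g : ℕ → ℕ → ℝ} {d s : ℕ → ℝ} {κ R : ℝ} (hκ : 0 < κ) (hR : 0 < R)
    (h0 : ∀ n, 0 < g n 0)
    (hs : ∀ n, s n = g n 1 / g n 0) (hsn : ∀ n, 0 ≤ s n) (hsp : ∀ n, 1 ≤ n → 0 < s n)
    (hd : ∀ n : ℕ, (n : ℝ) + 1 ≤ d n) (hd' : ∀ n : ℕ, d n ≤ R * ((n : ℝ) + 1))
    (r0 : ∀ n, g (n + 1) 0 = d n * g n 0)
    (r1 : ∀ n c : ℕ, g (n + 1) (c + 1) = ((n : ℝ) + 1 - c) * g n c + (d n + c + 1) * g n (c + 1))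
    (lb : ∀ᶠ n : ℕ in atTop, κ * ((n : ℝ) + 1) ≤ s n)
    (ub : ∀ n : ℕ, s n ≤ ((n : ℝ) + 1) * (1 + Real.log ((n : ℝ) + 1))) :
    Tendsto (fun n => s (n + 1) / s n) atTop (𝓝 1) ∧
    ∀ c : ℕ, Tendsto (fun n => g n c / (g n 0 * s n ^ c)) atTop (𝓝 (1 / (c.factorial : ℝ))) := by
  have hn1 : ∀ n : ℕ, (0 : ℝ) < (n : ℝ) + 1 := fun n => by positivity
  have hdp : ∀ n, 0 < d n := fun n => (hn1 n).trans_le (hd n)
  have hd1 : ∀ n, 1 ≤ d n := fun n => le_trans (by linarith [Nat.cast_nonneg (α := ℝ) n]) (hd n)
  have hs1 : ∀ n : ℕ, s (n + 1) = s n + (((n : ℝ) + 1) + s n) / d n := by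
    intro n
    have e1 := r1 n 0
    have e2 := h0 n
    have e3 := hdp n
    rw [hs (n + 1), hs n, r0 n]
    simp only [zero_add] at e1
    rw [e1]
    push_cast
    field_simp
    ring
  set u : ℕ → ℝ := fun n => 1 / d n with hu
  set b : ℕ → ℝ := fun n => ((n : ℝ) + 1) / (d n * s n) with hb
  have hup : ∀ n, 0 < u n := fun n => by simp only [hu]; exact one_div_pos.2 (hdp n)
  have hbp : ∀ n, 1 ≤ n → 0 < b n := fun n hn => div_pos (hn1 n) (mul_pos (hdp n) (hsp n hn))
  have hse : ∀ n, 1 ≤ n → s (n + 1) = s n * (1 + (u n + b n)) := by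
    intro n hn
    have e3 := hdp n
    have e4 := hsp n hn
    rw [hs1 n]
    simp only [hu, hb]
    field_simp
    ring
  have tinv : Tendsto (fun n : ℕ => 1 / ((n : ℝ) + 1)) atTop (𝓝 0) :=
    tendsto_one_div_add_atTop_nhds_zero_nat
  have tu : Tendsto u atTop (𝓝 0) := by
    refine squeeze_zero (fun n => (hup n).le) (fun n => ?_) tinv
    exact one_div_le_one_div_of_le (hn1 n) (hd n)
  have tb : Tendsto b atTop (𝓝 0) := by
    have t1 : Tendsto (fun n : ℕ => 1 / κ * (1 / ((n : ℝ) + 1))) atTop (𝓝 (1 / κ * 0)) :=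
      tinv.const_mul _
    rw [mul_zero] at t1
    refine squeeze_zero' ?_ ?_ t1
    · filter_upwards [eventually_ge_atTop 1] with n hn using (hbp n hn).le
    · filter_upwards [lb, eventually_ge_atTop 1] with n hn hn'
      have e1 : ((n : ℝ) + 1) * (κ * ((n : ℝ) + 1)) ≤ d n * s n :=
        mul_le_mul (hd n) hn (by positivity) (hdp n).le
      have e2 : 1 / κ * (1 / ((n : ℝ) + 1)) = ((n : ℝ) + 1) / (((n : ℝ) + 1) * (κ * ((n : ℝ) + 1))) := by
        have := hn1 n
        field_simp
      rw [e2]
      exact div_le_div_of_nonneg_left (hn1 n).le (by have := hn1 n; positivity) e1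
  have tlog : Tendsto (fun n : ℕ => (1 + Real.log ((n : ℝ) + 1)) / ((n : ℝ) + 1)) atTop (𝓝 0) := by
    have t1 : Tendsto (fun x : ℝ => Real.log x / x) atTop (𝓝 0) := by
      have := Real.isLittleO_log_id_atTop.tendsto_div_nhds_zero
      simpa using this
    have t2 : Tendsto (fun n : ℕ => (n : ℝ) + 1) atTop atTop :=
      tendsto_atTop_add_const_right _ _ tendsto_natCast_atTop_atTop
    have t3 := tinv.add (t1.comp t2)
    rw [add_zero] at t3
    refine t3.congr (fun n => ?_)
    simp only [Function.comp]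
    rw [add_div]
  have tub : Tendsto (fun n => u n ^ 2 / b n) atTop (𝓝 0) := by
    refine squeeze_zero' ?_ ?_ tlog
    · filter_upwards [eventually_ge_atTop 1] with n hn
      have := hbp n hn
      positivity
    · filter_upwards [eventually_ge_atTop 1] with n hn
      have e3 := hdp n
      have e4 := hsp n hn
      have e5 := hn1 n
      have e1 : u n ^ 2 / b n = s n / (d n * ((n : ℝ) + 1)) := by
        simp only [hu, hb]
        field_simp
      rw [e1]
      calc s n / (d n * ((n : ℝ) + 1)) ≤
          (((n : ℝ) + 1) * (1 + Real.log ((n : ℝ) + 1))) / (((n : ℝ) + 1) * ((n : ℝ) + 1)) := by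
            apply div_le_div₀
            · have : 0 ≤ Real.log ((n : ℝ) + 1) := Real.log_nonneg (by linarith [Nat.cast_nonneg (α := ℝ) n])
              positivity
            · exact ub n
            · positivity
            · exact mul_le_mul_of_nonneg_right (hd n) e5.le
        _ = _ := by field_simp
  have te : Tendsto (fun n => u n + b n) atTop (𝓝 0) := by simpa using tu.add tb
  have teb : Tendsto (fun n => (u n + b n) ^ 2 / b n) atTop (𝓝 0) := by
    have t1 : Tendsto (fun n => u n ^ 2 / b n + 2 * u n + b n) atTop (𝓝 (0 + 2 * 0 + 0)) :=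
      (tub.add (tu.const_mul 2)).add tb
    simp only [mul_zero, add_zero] at t1
    refine t1.congr' ?_
    filter_upwards [eventually_ge_atTop 1] with n hn
    have := hbp n hn
    field_simp
    ring
  refine ⟨?_, ?_⟩
  · have t1 : Tendsto (fun n => 1 + (u n + b n)) atTop (𝓝 (1 + 0)) := te.const_add 1
    rw [add_zero] at t1
    refine t1.congr' ?_
    filter_upwards [eventually_ge_atTop 1] with n hn
    rw [hse n hn]
    have := hsp n hn
    field_simp
  intro c
  induction c with
  | zero =>
    have : (fun n => g n 0 / (g n 0 * s n ^ 0)) = fun _ => (1 : ℝ) := by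
      funext n
      have := h0 n
      field_simp
    rw [this]
    simp
  | succ c ih =>
    set W : ℕ → ℝ := fun n => ((1 + (u n + b n)) ^ (c + 1) - 1 - (c + 1) * u n) / b n with hW
    have hWl : ∀ n, 1 ≤ n → (c : ℝ) + 1 ≤ W n := by
      intro n hn
      have e1 := hbp n hn
      have e2 : 1 + ((c + 1 : ℕ) : ℝ) * (u n + b n) ≤ (1 + (u n + b n)) ^ (c + 1) :=
        one_add_mul_le_pow (by linarith [hup n]) _
      rw [hW]
      simp only
      rw [le_div_iff₀ e1]
      push_cast at e2
      linarith
    have tW : Tendsto W atTop (𝓝 ((c : ℝ) + 1)) := by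
      have t1 : Tendsto (fun n => (c : ℝ) + 1 + 3 ^ (c + 1) * ((u n + b n) ^ 2 / b n)) atTop
          (𝓝 ((c : ℝ) + 1 + 3 ^ (c + 1) * 0)) := (teb.const_mul _).const_add _
      rw [mul_zero, add_zero] at t1
      refine tendsto_of_tendsto_of_tendsto_of_le_of_le' tendsto_const_nhds t1 ?_ ?_
      · filter_upwards [eventually_ge_atTop 1] with n hn using hWl n hn
      · filter_upwards [eventually_ge_atTop 1, te.eventually (eventually_le_nhds zero_lt_one)] with n hn hn'
        have e1 := hbp n hn
        have e2 := gam_bin (c + 1) (by linarith [hup n] : 0 ≤ u n + b n) hn'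
        simp only [hW]
        rw [div_le_iff₀ e1]
        have e3 : ((c : ℝ) + 1 + 3 ^ (c + 1) * ((u n + b n) ^ 2 / b n)) * b n =
            ((c : ℝ) + 1) * b n + 3 ^ (c + 1) * (u n + b n) ^ 2 := by
          field_simp
        rw [e3]
        push_cast at e2
        linarith
    set D : ℕ → ℝ := fun n => ∏ i ∈ Finset.range n, (d i + (c + 1)) with hD
    have hDp : ∀ n, 0 < D n := fun n => Finset.prod_pos (fun i _ => by have := hdp i; positivity)
    have hD1 : ∀ n, D (n + 1) = D n * (d n + (c + 1)) := fun n => Finset.prod_range_succ _ _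
    have key : Tendsto (fun n => (g n (c + 1) / D n) / (g n 0 * s n ^ (c + 1) / D n)) atTop
        (𝓝 (1 / ((c + 1).factorial : ℝ))) := by
      have hA : ∀ n, g (n + 1) (c + 1) / D (n + 1) - g n (c + 1) / D n =
          ((n : ℝ) + 1 - c) * g n c / D (n + 1) := by
        intro n
        have e1 := hDp n
        have e2 := hdp n
        have e3 : (0 : ℝ) < d n + (c + 1) := by positivity
        rw [r1, hD1]
        field_simp
        ring
      have hBd : ∀ n, g (n + 1) 0 * s (n + 1) ^ (c + 1) / D (n + 1) -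
          g n 0 * s n ^ (c + 1) / D n =
          g n 0 * (d n * s (n + 1) ^ (c + 1) - (d n + (c + 1)) * s n ^ (c + 1)) / D (n + 1) := by
        intro n
        have e1 := hDp n
        have e2 := hdp n
        have e3 : (0 : ℝ) < d n + (c + 1) := by positivity
        rw [r0, hD1]
        field_simp
      have hBe : ∀ n, 1 ≤ n → g (n + 1) 0 * s (n + 1) ^ (c + 1) / D (n + 1) -
          g n 0 * s n ^ (c + 1) / D n =
          g n 0 * s n ^ c * ((n : ℝ) + 1) * W n / D (n + 1) := by
        intro n hn
        have e1 := hDp (n + 1)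
        have e2 := hdp n
        have e3 := hbp n hn
        have e4 := hsp n hn
        have e5 := hn1 n
        rw [hBd, hse n hn]
        congr 1
        have e6 : (1 + (u n + b n)) ^ (c + 1) = b n * W n + 1 + (c + 1) * u n := by
          simp only [hW]
          field_simp
          ring
        rw [mul_pow, e6]
        have e7 : d n * b n * s n = (n : ℝ) + 1 := by
          simp only [hb]; field_simp
        have e8 : d n * u n = 1 := by
          simp only [hu]; field_simp
        rw [← e7]
        linear_combination g n 0 * s n ^ (c + 1) * (c + 1) * e8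
      have hBpos : ∀ n, 1 ≤ n → g n 0 * s n ^ (c + 1) / D n <
          g (n + 1) 0 * s (n + 1) ^ (c + 1) / D (n + 1) := by
        intro n hn
        rw [← sub_pos, hBe n hn]
        have e1 := hDp (n + 1)
        have e4 := hsp n hn
        have e5 := hn1 n
        have e6 : 0 < W n := lt_of_lt_of_le (by positivity) (hWl n hn)
        have e7 := h0 n
        positivity
      have hBmono : ∀ n, g n 0 * s n ^ (c + 1) / D n ≤
          g (n + 1) 0 * s (n + 1) ^ (c + 1) / D (n + 1) := by
        intro n
        rcases Nat.eq_zero_or_pos n with hn | hn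
        · subst hn
          have e0 : s 0 = 0 ∨ 0 < s 0 := by
            rcases (hsn 0).eq_or_lt with h | h
            · left; exact h.symm
            · right; exact h
          rw [← sub_nonneg, hBd]
          have e2 := hdp 0
          have e1 := hDp 1
          have e7 := h0 0
          have e8 := hsn 0
          have e9 : s 0 * (1 + u 0) ≤ s (0 + 1) := by
            rw [hs1 0]
            simp only [hu]
            have : s 0 * (1 + 1 / d 0) = s 0 + s 0 / d 0 := by ring
            rw [this]
            push_cast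
            have : s 0 / d 0 ≤ (0 + 1 + s 0) / d 0 := div_le_div_of_nonneg_right (by linarith) e2.le
            linarith
          have e10 : (s 0 * (1 + u 0)) ^ (c + 1) ≤ s (0 + 1) ^ (c + 1) :=
            pow_le_pow_left₀ (by have := hup 0; positivity) e9 _
          have e11 : 1 + ((c + 1 : ℕ) : ℝ) * u 0 ≤ (1 + u 0) ^ (c + 1) :=
            one_add_mul_le_pow (by linarith [hup 0]) _
          have e12 : d 0 * u 0 = 1 := by
            simp only [hu]; field_simp
          have e13 : (d 0 + (c + 1)) * s 0 ^ (c + 1) ≤ d 0 * s (0 + 1) ^ (c + 1) := by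
            calc (d 0 + (c + 1)) * s 0 ^ (c + 1) = d 0 * (s 0 ^ (c + 1) * (1 + ((c + 1 : ℕ) : ℝ) * u 0)) := by
                  push_cast
                  linear_combination (-(s 0 ^ (c + 1) * (c + 1))) * e12
              _ ≤ d 0 * (s 0 ^ (c + 1) * (1 + u 0) ^ (c + 1)) := by gcongr
              _ = d 0 * (s 0 * (1 + u 0)) ^ (c + 1) := by rw [mul_pow]
              _ ≤ _ := by gcongr
          have e14 : 0 ≤ d 0 * s (0 + 1) ^ (c + 1) - (d 0 + (c + 1)) * s 0 ^ (c + 1) := by linarith
          exact div_nonneg (mul_nonneg e7.le e14) (hDp (0 + 1)).le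
        · exact (hBpos n hn).le
      have hB1 : 0 < g 1 0 * s 1 ^ (c + 1) / D 1 := by
        have e1 := hDp 1
        have e4 := hsp 1 le_rfl
        have e7 := h0 1
        positivity
      have hBge : ∀ n, 1 ≤ n → g 1 0 * s 1 ^ (c + 1) / D 1 ≤ g n 0 * s n ^ (c + 1) / D n := by
        intro n hn
        exact (monotone_nat_of_le_succ (f := fun n => g n 0 * s n ^ (c + 1) / D n) hBmono) hn
      have hgrow : ∀ n : ℕ, 1 ≤ n → g 1 0 * s 1 ^ (c + 1) / D 1 * (1 / (2 * R) *
          (Real.log (1 + Real.log ((n : ℝ) + 1)) - Real.log (1 + Real.log ((1 : ℕ) + 1)))) ≤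
          g n 0 * s n ^ (c + 1) / D n := by
        intro n hn
        induction n, hn using Nat.le_induction with
        | base => simp only [sub_self, mul_zero]; exact hB1.le
        | succ n hn ih2 =>
          have e1 := gam_loglog n
          have e2 := hBge n hn
          have e3 := hBe n hn
          have e4 := hsp n hn
          have e5 := hn1 n
          have e6 := hdp n
          have e7 := h0 n
          have e8 := hDp n
          have hl : 0 ≤ Real.log ((n : ℝ) + 1) :=
            Real.log_nonneg (by linarith [Nat.cast_nonneg (α := ℝ) n])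
          have e9 : g n 0 * s n ^ c * ((n : ℝ) + 1) * W n / D (n + 1) =
              (g n 0 * s n ^ (c + 1) / D n) * (((n : ℝ) + 1) * W n / (s n * (d n + (c + 1)))) := by
            rw [hD1]
            field_simp
            ring
          have e10 : 1 / (2 * R) * (1 / (((n : ℝ) + 1) * (1 + Real.log ((n : ℝ) + 1)))) ≤
              ((n : ℝ) + 1) * W n / (s n * (d n + (c + 1))) := by
            have f1 : d n + (c + 1) ≤ 2 * ((c : ℝ) + 1) * d n := by
              have := hd1 n
              have hc : (0 : ℝ) ≤ c := Nat.cast_nonneg c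
              nlinarith
            have f2 : s n * (d n + (c + 1)) ≤ (((n : ℝ) + 1) * (1 + Real.log ((n : ℝ) + 1))) *
                (2 * ((c : ℝ) + 1) * (R * ((n : ℝ) + 1))) := by
              refine mul_le_mul (ub n) (f1.trans ?_) (by positivity) (by positivity)
              have := hd' n
              gcongr
            have f3 : ((n : ℝ) + 1) * ((c : ℝ) + 1) / ((((n : ℝ) + 1) * (1 + Real.log ((n : ℝ) + 1))) *
                (2 * ((c : ℝ) + 1) * (R * ((n : ℝ) + 1)))) ≤
                ((n : ℝ) + 1) * W n / (s n * (d n + (c + 1))) := by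
              apply div_le_div₀
              · have := lt_of_lt_of_le (by positivity : (0 : ℝ) < (c : ℝ) + 1) (hWl n hn)
                positivity
              · have := hWl n hn
                gcongr
              · positivity
              · exact f2
            refine le_trans (le_of_eq ?_) f3
            have f4 : (0 : ℝ) < 1 + Real.log ((n : ℝ) + 1) := by linarith
            field_simp
          have e11 : g 1 0 * s 1 ^ (c + 1) / D 1 *
              (1 / (2 * R) * (1 / (((n : ℝ) + 1) * (1 + Real.log ((n : ℝ) + 1))))) ≤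
              (g n 0 * s n ^ (c + 1) / D n) * (((n : ℝ) + 1) * W n / (s n * (d n + (c + 1)))) := by
            refine mul_le_mul e2 e10 (by positivity) (by positivity)
          have e12 : g 1 0 * s 1 ^ (c + 1) / D 1 * (1 / (2 * R) *
              (Real.log (1 + Real.log (((n + 1 : ℕ) : ℝ) + 1)) -
                Real.log (1 + Real.log ((n : ℝ) + 1)))) ≤ g 1 0 * s 1 ^ (c + 1) / D 1 *
              (1 / (2 * R) * (1 / (((n : ℝ) + 1) * (1 + Real.log ((n : ℝ) + 1))))) := by
            gcongr
          have e13 : g (n + 1) 0 * s (n + 1) ^ (c + 1) / D (n + 1) =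
              g n 0 * s n ^ (c + 1) / D n +
              (g n 0 * s n ^ (c + 1) / D n) * (((n : ℝ) + 1) * W n / (s n * (d n + (c + 1)))) := by
            rw [← e9]; linarith
          rw [e13]
          refine le_trans (le_of_eq ?_) (add_le_add ih2 (e12.trans e11))
          ring
      have hBt : Tendsto (fun n => g n 0 * s n ^ (c + 1) / D n) atTop atTop := by
        have t2 : Tendsto (fun n : ℕ => (n : ℝ) + 1) atTop atTop :=
          tendsto_atTop_add_const_right _ _ tendsto_natCast_atTop_atTop
        have t3 : Tendsto (fun n : ℕ => Real.log (1 + Real.log ((n : ℝ) + 1))) atTop atTop :=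
          Real.tendsto_log_atTop.comp
            (tendsto_atTop_add_const_left _ _ (Real.tendsto_log_atTop.comp t2))
        have t4 : Tendsto (fun n : ℕ => g 1 0 * s 1 ^ (c + 1) / D 1 * (1 / (2 * R) *
          (Real.log (1 + Real.log ((n : ℝ) + 1)) - Real.log (1 + Real.log ((1 : ℕ) + 1))))) atTop
            atTop := by
          refine Tendsto.const_mul_atTop hB1 (Tendsto.const_mul_atTop (by positivity) ?_)
          exact tendsto_atTop_add_const_right _ _ t3
        refine tendsto_atTop_mono' _ ?_ t4
        filter_upwards [eventually_ge_atTop 1] with n hn using hgrow n hn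
      refine gam_stolz (A := fun n => g n (c + 1) / D n) (B := fun n => g n 0 * s n ^ (c + 1) / D n)
        hBmono hBt ?_ ?_
      · filter_upwards [eventually_ge_atTop 1] with n hn using hBpos n hn
      · have t1 : Tendsto (fun n : ℕ => (g n c / (g n 0 * s n ^ c)) *
            ((1 - c * (1 / ((n : ℝ) + 1))) / W n)) atTop
            (𝓝 (1 / (c.factorial : ℝ) * ((1 - c * 0) / ((c : ℝ) + 1)))) := by
          refine ih.mul (((tinv.const_mul (c : ℝ)).const_sub 1).div tW (by positivity))
        have e1 : 1 / (c.factorial : ℝ) * ((1 - c * 0) / ((c : ℝ) + 1)) =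
            1 / ((c + 1).factorial : ℝ) := by
          have hf : (0 : ℝ) < c.factorial := by positivity
          rw [Nat.factorial_succ]
          push_cast
          field_simp
          ring
        rw [e1] at t1
        refine t1.congr' ?_
        filter_upwards [eventually_ge_atTop 1] with n hn
        rw [hA, hBe n hn]
        have e1 := hDp (n + 1)
        have e4 := hsp n hn
        have e5 := hn1 n
        have e6 : 0 < W n := lt_of_lt_of_le (by positivity) (hWl n hn)
        have e7 := h0 n
        field_simp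
    refine key.congr (fun n => ?_)
    rw [div_div_div_cancel_right₀ (hDp n).ne']

/-- GAM -/
theorem gam : GrSt → Edge1St → GamSt := by
  intro hgr hed r hr
  obtain ⟨g1, g2, g3, g4⟩ := hgr r (by omega)
  obtain ⟨⟨κ, hκ, k1⟩, k2, k3⟩ := hed r hr
  have hr' : (2 : ℝ) ≤ r := by exact_mod_cast hr
  have hsp : ∀ n, 1 ≤ n → 0 < sg r n := fun n hn => div_pos (g1 n 1 hn) (g1 n 0 (Nat.zero_le _))
  have hsn : ∀ n, 0 ≤ sg r n := by
    intro n
    rcases Nat.eq_zero_or_pos n with h | h
    · subst h
      unfold sg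
      rw [g2 0 1 (by norm_num)]
      simp
    · exact (hsp n h).le
  have main := gam_main (g := fun n c => gr r n c) (d := fun n => ((r : ℝ) - 1) * ((n : ℝ) + 1) + 1)
    (s := fun n => sg r n) (κ := κ) (R := r) hκ (by linarith) (fun n => g1 n 0 (Nat.zero_le _))
    (fun n => rfl) hsn hsp (fun n => ?_) (fun n => ?_) (fun n => ?_) (fun n c => ?_) ?_ k3
  · exact ⟨hsp, main.1, main.2⟩
  · have : (0 : ℝ) ≤ (n : ℝ) := Nat.cast_nonneg n
    nlinarith
  · have : (0 : ℝ) ≤ (n : ℝ) := Nat.cast_nonneg n
    nlinarith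
  · exact g3 n
  · rw [g4 n c]
    ring
  · filter_upwards [eventually_gt_atTop ((r + 1) * (0 + 2))] with n hn
    have e1 := k1 n 0 hn
    have e2 := g1 n 0 (Nat.zero_le _)
    unfold sg
    rw [le_div_iff₀ e2]
    simpa using e1

end Pool.Agent.H53.ATPR
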