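import Pool.Agent.H53.ATPR.Spec

/-!
Asymptotic total positivity of the r-th order Eulerian triangles: solid minors near the left edge.
-/

set_option autoImplicit false

open Filter Topology Finset

namespace Pool.Agent.H53.ATPR

private theorem lfr_prod {ι : Type*} (s : Finset ι) (a b : ι → ℝ) (R δ : ℝ) (hR : 1 ≤ R)
    (ha : ∀ i ∈ s, |a i| ≤ R) (hb : ∀ i ∈ s, |b i| ≤ R) (hab : ∀ i ∈ s, |a i - b i| ≤ δ) :
    |∏ i ∈ s, a i - ∏ i ∈ s, b i| ≤ s.card * R ^ s.card * δ := by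
  classical
  induction s using Finset.induction_on with
  | empty => simp
  | insert i s hi ih =>
    have hai := ha i (mem_insert_self i s)
    have hδi := hab i (mem_insert_self i s)
    have hδ : 0 ≤ δ := (abs_nonneg _).trans hδi
    have ih' := ih (fun j hj => ha j (mem_insert_of_mem hj))
      (fun j hj => hb j (mem_insert_of_mem hj)) (fun j hj => hab j (mem_insert_of_mem hj))
    have hPb : |∏ j ∈ s, b j| ≤ R ^ s.card := by
      rw [abs_prod]
      have h := prod_le_prod (s := s) (f := fun j => |b j|) (g := fun _ => R)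
        (fun j _ => abs_nonneg _) (fun j hj => hb j (mem_insert_of_mem hj))
      rwa [prod_const] at h
    have hR0 : 0 ≤ R := by linarith
    have hRc : 0 ≤ R ^ s.card := pow_nonneg hR0 _
    rw [prod_insert hi, prod_insert hi, card_insert_of_notMem hi]
    have e : a i * ∏ j ∈ s, a j - b i * ∏ j ∈ s, b j =
        a i * (∏ j ∈ s, a j - ∏ j ∈ s, b j) + (a i - b i) * ∏ j ∈ s, b j := by ring
    rw [e]
    have h1 : |a i * (∏ j ∈ s, a j - ∏ j ∈ s, b j)| ≤ R * (s.card * R ^ s.card * δ) := by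
      rw [abs_mul]
      exact mul_le_mul hai ih' (abs_nonneg _) hR0
    have h2 : |(a i - b i) * ∏ j ∈ s, b j| ≤ δ * R ^ s.card := by
      rw [abs_mul]
      exact mul_le_mul hδi hPb (abs_nonneg _) hδ
    have h3 : δ * R ^ s.card ≤ R * (R ^ s.card * δ) := by
      have h4 : 0 ≤ R ^ s.card * δ := mul_nonneg hRc hδ
      nlinarith
    calc |a i * (∏ j ∈ s, a j - ∏ j ∈ s, b j) + (a i - b i) * ∏ j ∈ s, b j|
        ≤ R * (s.card * R ^ s.card * δ) + δ * R ^ s.card := (abs_add_le _ _).trans (by linarith)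
      _ ≤ R * (s.card * R ^ s.card * δ) + R * (R ^ s.card * δ) := by linarith
      _ = ((s.card + 1 : ℕ) : ℝ) * R ^ (s.card + 1) * δ := by push_cast; ring

private theorem lfr_det {m : ℕ} (B V : Matrix (Fin m) (Fin m) ℝ) (R δ : ℝ) (hR : 1 ≤ R)
    (hB : ∀ i j, |B i j| ≤ R) (hV : ∀ i j, |V i j| ≤ R) (hBV : ∀ i j, |B i j - V i j| ≤ δ) :
    |B.det - V.det| ≤ m.factorial * (m * R ^ m * δ) := by
  rw [Matrix.det_apply', Matrix.det_apply', ← sum_sub_distrib]
  refine (abs_sum_le_sum_abs _ _).trans ?_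
  have hterm : ∀ σ ∈ (univ : Finset (Equiv.Perm (Fin m))),
      |((Equiv.Perm.sign σ : ℤ) : ℝ) * ∏ i, B (σ i) i -
        ((Equiv.Perm.sign σ : ℤ) : ℝ) * ∏ i, V (σ i) i| ≤ m * R ^ m * δ := by
    intro σ _
    rw [← mul_sub, abs_mul]
    have hs : |((Equiv.Perm.sign σ : ℤ) : ℝ)| = 1 := by
      rcases Int.units_eq_one_or (Equiv.Perm.sign σ) with h | h <;> rw [h] <;> simp
    rw [hs, one_mul]
    have h := lfr_prod (univ : Finset (Fin m)) (fun i => B (σ i) i) (fun i => V (σ i) i) R δ hR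
      (fun i _ => hB _ _) (fun i _ => hV _ _) (fun i _ => hBV _ _)
    simpa using h
  refine (sum_le_sum hterm).trans ?_
  rw [sum_const, card_univ, Fintype.card_perm, Fintype.card_fin, nsmul_eq_mul]

private theorem lfr_vdm (m : ℕ) (x : ℝ) :
    1 ≤ Matrix.det (Matrix.of fun i j : Fin m => (x + (j : ℕ)) ^ (i : ℕ)) := by
  have e : (Matrix.of fun i j : Fin m => (x + ((j : ℕ) : ℝ)) ^ (i : ℕ)) =
      (Matrix.vandermonde fun j : Fin m => x + ((j : ℕ) : ℝ)).transpose := by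
    ext i j
    simp [Matrix.vandermonde]
  rw [e, Matrix.det_transpose, Matrix.det_vandermonde]
  have h : ∀ i ∈ (univ : Finset (Fin m)), (1 : ℝ) ≤ ∏ j ∈ Ioi i,
      ((x + ((j : ℕ) : ℝ)) - (x + ((i : ℕ) : ℝ))) := by
    intro i _
    have h1 : ∏ _j ∈ Ioi i, (1 : ℝ) ≤ ∏ j ∈ Ioi i,
        ((x + ((j : ℕ) : ℝ)) - (x + ((i : ℕ) : ℝ))) := by
      refine prod_le_prod (fun _ _ => zero_le_one) fun j hj => ?_
      have hij : (i : ℕ) + 1 ≤ (j : ℕ) := Fin.lt_def.mp (mem_Ioi.mp hj)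
      have hij' : ((i : ℕ) : ℝ) + 1 ≤ ((j : ℕ) : ℝ) := by exact_mod_cast hij
      linarith
    simpa using h1
  have h2 : ∏ _i : Fin m, (1 : ℝ) ≤ ∏ i : Fin m, ∏ j ∈ Ioi i,
      ((x + ((j : ℕ) : ℝ)) - (x + ((i : ℕ) : ℝ))) :=
    prod_le_prod (fun _ _ => zero_le_one) h
  simpa using h2

private theorem lfr_step {r : ℕ} {c : ℝ} (hc : 0 < c)
    (e0 : ∀ n, ev r n 0 = 1)
    (e2 : ∀ n k, k ≤ n → 1 ≤ ev r n k)
    (e3 : ∀ n k : ℕ, ev r (n + 1) (k + 1) =
      ((k : ℝ) + 2) * ev r n (k + 1) + ((r : ℝ) * (n + 1) - k) * ev r n k)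
    (hlow : ∀ n k : ℕ, (r + 1) * (k + 3) ≤ r * n →
      c * (ev r n k * ((k : ℝ) + 2) ^ (n + 1)) ≤ ev r n (k + 1) * ((k : ℝ) + 1) ^ (n + 1))
    (p K : ℕ) (hKp : K ≤ p) (h : (r + 1) * (K + 2) ≤ r * p) :
    ∃ d : ℝ, 0 ≤ d ∧ d ≤ (r : ℝ) * (p + 1) / c * Real.exp (-(((p : ℝ) + 1) / ((K : ℝ) + 1))) ∧
      ev r (p + 1) K = ((K : ℝ) + 1) * ev r p K * (1 + d) := by
  rcases K with _ | k
  · refine ⟨0, le_refl _, by positivity, ?_⟩
    rw [e0, e0]
    norm_num
  · have hE1 : 1 ≤ ev r p (k + 1) := e2 p (k + 1) hKp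
    have hE0 : 1 ≤ ev r p k := e2 p k (by omega)
    have hlow' := hlow p k (by linarith)
    have hk2 : (0 : ℝ) < (k : ℝ) + 2 := by positivity
    have hk1 : (0 : ℝ) < (k : ℝ) + 1 := by positivity
    have hkr : (k : ℝ) ≤ (r : ℝ) * (p + 1) := by
      have h1 : k ≤ r * (p + 1) := by nlinarith
      have h2 : ((k : ℕ) : ℝ) ≤ ((r * (p + 1) : ℕ) : ℝ) := by exact_mod_cast h1
      push_cast at h2
      linarith
    have hq : ev r p k * c ≤ ev r p (k + 1) * Real.exp (-(((p : ℝ) + 1) / ((k : ℝ) + 2))) := by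
      have h1 : ((k : ℝ) + 1) ≤ ((k : ℝ) + 2) * Real.exp (-(1 / ((k : ℝ) + 2))) := by
        have h3 := Real.add_one_le_exp (-(1 / ((k : ℝ) + 2)))
        have h5 := mul_le_mul_of_nonneg_left h3 hk2.le
        have h6 : ((k : ℝ) + 2) * (-(1 / ((k : ℝ) + 2)) + 1) = (k : ℝ) + 1 := by
          rw [mul_add, mul_neg, mul_one_div_cancel hk2.ne']
          ring
        linarith
      have h7 := pow_le_pow_left₀ hk1.le h1 (p + 1)
      rw [mul_pow, ← Real.exp_nat_mul] at h7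
      have e : ((p + 1 : ℕ) : ℝ) * -(1 / ((k : ℝ) + 2)) = -(((p : ℝ) + 1) / ((k : ℝ) + 2)) := by
        push_cast; ring
      rw [e] at h7
      have hpow : (0 : ℝ) < ((k : ℝ) + 2) ^ (p + 1) := by positivity
      have h8 : ev r p (k + 1) * ((k : ℝ) + 1) ^ (p + 1) ≤ ev r p (k + 1) *
          (((k : ℝ) + 2) ^ (p + 1) * Real.exp (-(((p : ℝ) + 1) / ((k : ℝ) + 2)))) :=
        mul_le_mul_of_nonneg_left h7 (by linarith)
      have h9 : (ev r p k * c) * ((k : ℝ) + 2) ^ (p + 1) ≤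
          (ev r p (k + 1) * Real.exp (-(((p : ℝ) + 1) / ((k : ℝ) + 2)))) *
            ((k : ℝ) + 2) ^ (p + 1) := by
        calc (ev r p k * c) * ((k : ℝ) + 2) ^ (p + 1)
            = c * (ev r p k * ((k : ℝ) + 2) ^ (p + 1)) := by ring
          _ ≤ _ := hlow'
          _ ≤ _ := h8
          _ = _ := by ring
      exact le_of_mul_le_mul_right h9 hpow
    have hE1' : (0 : ℝ) < ev r p (k + 1) := by linarith
    have hden : (0 : ℝ) < ((k : ℝ) + 2) * ev r p (k + 1) := by positivity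
    have hnum : 0 ≤ ((r : ℝ) * (p + 1) - k) * ev r p k :=
      mul_nonneg (by linarith) (by linarith)
    refine ⟨((r : ℝ) * (p + 1) - k) * ev r p k / (((k : ℝ) + 2) * ev r p (k + 1)),
      div_nonneg hnum hden.le, ?_, ?_⟩
    · have ek : ((k + 1 : ℕ) : ℝ) + 1 = (k : ℝ) + 2 := by push_cast; ring
      rw [ek, div_le_iff₀ hden]
      set X := Real.exp (-(((p : ℝ) + 1) / ((k : ℝ) + 2))) with hX
      have hX0 : 0 < X := Real.exp_pos _
      have h1 : ((r : ℝ) * (p + 1) - k) * ev r p k ≤ (r : ℝ) * (p + 1) * ev r p k :=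
        mul_le_mul_of_nonneg_right (by
          have : (0 : ℝ) ≤ k := Nat.cast_nonneg k
          linarith) (by linarith)
      have h2 : (r : ℝ) * (p + 1) * ev r p k ≤
          (r : ℝ) * (p + 1) / c * (ev r p (k + 1) * X) := by
        have h3 : (r : ℝ) * (p + 1) * ev r p k = (r : ℝ) * (p + 1) / c * (ev r p k * c) := by
          field_simp
        rw [h3]
        exact mul_le_mul_of_nonneg_left hq (by positivity)
      have h4 : (r : ℝ) * (p + 1) / c * (ev r p (k + 1) * X) ≤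
          (r : ℝ) * (p + 1) / c * X * (((k : ℝ) + 2) * ev r p (k + 1)) := by
        have h5 : (0 : ℝ) ≤ (r : ℝ) * (p + 1) / c * (ev r p (k + 1) * X) := by positivity
        have h6 : (1 : ℝ) ≤ (k : ℝ) + 2 := by
          have : (0 : ℝ) ≤ k := Nat.cast_nonneg k
          linarith
        calc (r : ℝ) * (p + 1) / c * (ev r p (k + 1) * X)
            ≤ ((k : ℝ) + 2) * ((r : ℝ) * (p + 1) / c * (ev r p (k + 1) * X)) :=
              le_mul_of_one_le_left h5 h6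
          _ = _ := by ring
      linarith
    · have ek : ((k + 1 : ℕ) : ℝ) + 1 = (k : ℝ) + 2 := by push_cast; ring
      rw [ek, e3]
      field_simp

private theorem lfr_pow {D : ℝ} (h0 : 0 ≤ D) (h1 : D ≤ 1) (i : ℕ) :
    (1 + D) ^ i ≤ 1 + (2 ^ i - 1) * D := by
  induction i with
  | zero => simp
  | succ i ih =>
    have h2 : (1 : ℝ) ≤ 2 ^ i := one_le_pow₀ (by norm_num)
    have h3 : (1 + D) ^ (i + 1) ≤ (1 + (2 ^ i - 1) * D) * (1 + D) := by
      rw [pow_succ]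
      exact mul_le_mul_of_nonneg_right ih (by linarith)
    have h4 : (2 ^ i - 1) * D * D ≤ (2 ^ i - 1) * D * 1 :=
      mul_le_mul_of_nonneg_left h1 (mul_nonneg (by linarith) h0)
    rw [pow_succ (2 : ℝ)]
    nlinarith

private theorem lfr_key {r : ℕ} {c : ℝ} (hc : 0 < c)
    (e0 : ∀ n, ev r n 0 = 1)
    (e2 : ∀ n k, k ≤ n → 1 ≤ ev r n k)
    (e3 : ∀ n k : ℕ, ev r (n + 1) (k + 1) =
      ((k : ℝ) + 2) * ev r n (k + 1) + ((r : ℝ) * (n + 1) - k) * ev r n k)
    (hlow : ∀ n k : ℕ, (r + 1) * (k + 3) ≤ r * n →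
      c * (ev r n k * ((k : ℝ) + 2) ^ (n + 1)) ≤ ev r n (k + 1) * ((k : ℝ) + 1) ^ (n + 1))
    (m n k : ℕ) (hm : 1 ≤ m) (hkn : k + m ≤ n) (hrk : (r + 1) * (k + m + 1) ≤ r * n)
    (D : ℝ) (hD : D = (r : ℝ) * (n + m) / c * Real.exp (-((n : ℝ) / ((k : ℝ) + m))))
    (hlt : (m.factorial : ℝ) * (m * ((1 + 2 ^ m) * ((k : ℝ) + m) ^ m) ^ m *
      (((k : ℝ) + m) ^ m * 2 ^ m * D)) < 1) :
    0 < solr r m n k := by
  have hm' : (1 : ℝ) ≤ m := by exact_mod_cast hm
  have hk0 : (0 : ℝ) ≤ k := Nat.cast_nonneg k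
  have hkm : (1 : ℝ) ≤ (k : ℝ) + m := by linarith
  have hkm0 : (0 : ℝ) < (k : ℝ) + m := by linarith
  have hr0 : (0 : ℝ) ≤ r := Nat.cast_nonneg r
  have hD0 : 0 ≤ D := by rw [hD]; positivity
  have h2m : (1 : ℝ) ≤ 2 ^ m := one_le_pow₀ (by norm_num)
  have hR1 : (1 : ℝ) ≤ (1 + 2 ^ m) * ((k : ℝ) + m) ^ m :=
    one_le_mul_of_one_le_of_one_le (by linarith) (one_le_pow₀ hkm)
  have hD1 : D ≤ 1 := by
    have h1 : (1 : ℝ) ≤ (m.factorial : ℝ) := by exact_mod_cast Nat.succ_le_of_lt m.factorial_pos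
    have h2 : (1 : ℝ) ≤ (m : ℝ) * ((1 + 2 ^ m) * ((k : ℝ) + m) ^ m) ^ m :=
      one_le_mul_of_one_le_of_one_le hm' (one_le_pow₀ hR1)
    have h3 : (1 : ℝ) ≤ ((k : ℝ) + m) ^ m * 2 ^ m :=
      one_le_mul_of_one_le_of_one_le (one_le_pow₀ hkm) h2m
    have h4 : D ≤ ((k : ℝ) + m) ^ m * 2 ^ m * D := le_mul_of_one_le_left hD0 h3
    have h40 : 0 ≤ ((k : ℝ) + m) ^ m * 2 ^ m * D := hD0.trans h4
    have h5 : ((k : ℝ) + m) ^ m * 2 ^ m * D ≤ m * ((1 + 2 ^ m) * ((k : ℝ) + m) ^ m) ^ m *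
      (((k : ℝ) + m) ^ m * 2 ^ m * D) := le_mul_of_one_le_left h40 h2
    have h6 := le_mul_of_one_le_left (h40.trans h5) h1
    linarith
  set x : ℝ := (k : ℝ) + 1 with hx
  have hxj : ∀ j : Fin m, (0 : ℝ) < x + ((j : ℕ) : ℝ) := fun j => by positivity
  have hxjle : ∀ j : Fin m, x + ((j : ℕ) : ℝ) ≤ (k : ℝ) + m := by
    intro j
    have h1 : (j : ℕ) + 1 ≤ m := j.2
    have h2 : ((j : ℕ) : ℝ) + 1 ≤ m := by exact_mod_cast h1
    rw [hx]
    linarith
  have hiter : ∀ j : Fin m, ∀ i : ℕ, i ≤ m → ∃ q : ℝ, 1 ≤ q ∧ q ≤ (1 + D) ^ i ∧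
      ev r (n + i) (k + j) = (x + ((j : ℕ) : ℝ)) ^ i * ev r n (k + j) * q := by
    intro j i
    induction i with
    | zero => intro _; exact ⟨1, le_refl _, by simp, by simp⟩
    | succ i ih =>
      intro hi
      obtain ⟨q, q1, q2, q3⟩ := ih (by omega)
      have hj : (j : ℕ) + 1 ≤ m := j.2
      obtain ⟨d, d0, d1, d2⟩ := lfr_step hc e0 e2 e3 hlow (n + i) (k + j) (by omega) (by
        have h1 : (r + 1) * (k + j + 2) ≤ (r + 1) * (k + m + 1) :=
          Nat.mul_le_mul_left _ (by omega)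
        have h2 : r * n ≤ r * (n + i) := Nat.mul_le_mul_left _ (by omega)
        omega)
      have hdD : d ≤ D := by
        refine d1.trans ?_
        rw [hD]
        have hi' : ((i : ℕ) : ℝ) + 1 ≤ m := by exact_mod_cast hi
        have hj' : ((j : ℕ) : ℝ) + 1 ≤ m := by exact_mod_cast hj
        have hj0 : (0 : ℝ) ≤ ((j : ℕ) : ℝ) := Nat.cast_nonneg _
        have hi0 : (0 : ℝ) ≤ (i : ℝ) := Nat.cast_nonneg _
        have hn0 : (0 : ℝ) ≤ (n : ℝ) := Nat.cast_nonneg _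
        refine mul_le_mul ?_ ?_ (Real.exp_nonneg _) (by positivity)
        · refine div_le_div_of_nonneg_right ?_ hc.le
          refine mul_le_mul_of_nonneg_left ?_ hr0
          push_cast
          linarith
        · apply Real.exp_le_exp.mpr
          apply neg_le_neg
          push_cast
          have hden : (0 : ℝ) < (k : ℝ) + ((j : ℕ) : ℝ) + 1 := by positivity
          rw [div_le_div_iff₀ hkm0 hden]
          have h1 : (k : ℝ) + ((j : ℕ) : ℝ) + 1 ≤ (k : ℝ) + m := by linarith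
          have h2 : (n : ℝ) * ((k : ℝ) + ((j : ℕ) : ℝ) + 1) ≤ n * ((k : ℝ) + m) :=
            mul_le_mul_of_nonneg_left h1 hn0
          have h3 : (n : ℝ) * ((k : ℝ) + m) ≤ ((n : ℝ) + i + 1) * ((k : ℝ) + m) :=
            mul_le_mul_of_nonneg_right (by linarith) hkm0.le
          linarith
      refine ⟨q * (1 + d), one_le_mul_of_one_le_of_one_le q1 (by linarith), ?_, ?_⟩
      · rw [pow_succ]
        exact mul_le_mul q2 (by linarith) (by linarith) (by positivity)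
      · have e : n + (i + 1) = n + i + 1 := by ring
        rw [e, d2, q3, hx]
        push_cast
        ring
  have hevp : ∀ j : Fin m, 0 < ev r n (k + j) := fun j => by
    have hj : (j : ℕ) + 1 ≤ m := j.2
    exact lt_of_lt_of_le one_pos (e2 n (k + j) (by omega))
  set B : Matrix (Fin m) (Fin m) ℝ :=
    Matrix.of fun i j => ev r (n + i) (k + j) / ev r n (k + j) with hB
  set V : Matrix (Fin m) (Fin m) ℝ := Matrix.of fun i j => (x + ((j : ℕ) : ℝ)) ^ (i : ℕ) with hV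
  have hsol : solr r m n k = (∏ j : Fin m, ev r n (k + j)) * B.det := by
    rw [← Matrix.det_mul_row]
    unfold solr
    congr 1
    ext i j
    simp only [Matrix.of_apply, hB]
    rw [mul_div_cancel₀]
    exact (hevp j).ne'
  have hprod : 0 < ∏ j : Fin m, ev r n (k + j) := prod_pos fun j _ => hevp j
  rw [hsol]
  refine mul_pos hprod ?_
  have hVle : ∀ i j, V i j ≤ ((k : ℝ) + m) ^ m := by
    intro i j
    simp only [hV, Matrix.of_apply]
    exact (pow_le_pow_left₀ (hxj j).le (hxjle j) _).trans (pow_le_pow_right₀ hkm i.2.le)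
  have hV0 : ∀ i j, 0 ≤ V i j := fun i j => by
    simp only [hV, Matrix.of_apply]
    exact pow_nonneg (hxj j).le _
  have hBV : ∀ i j, V i j ≤ B i j ∧ B i j - V i j ≤ ((k : ℝ) + m) ^ m * 2 ^ m * D := by
    intro i j
    obtain ⟨q, q1, q2, q3⟩ := hiter j i i.2.le
    have hb : B i j = V i j * q := by
      simp only [hB, hV, Matrix.of_apply]
      rw [q3]
      have := (hevp j).ne'
      field_simp
    have hq : q - 1 ≤ 2 ^ m * D := by
      have h1 := lfr_pow hD0 hD1 (i : ℕ)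
      have h2 : (2 : ℝ) ^ (i : ℕ) ≤ 2 ^ m := pow_le_pow_right₀ (by norm_num) i.2.le
      have h3 : ((2 : ℝ) ^ (i : ℕ) - 1) * D ≤ 2 ^ m * D :=
        mul_le_mul_of_nonneg_right (by linarith) hD0
      linarith
    rw [hb]
    constructor
    · exact le_mul_of_one_le_right (hV0 i j) q1
    · have h1 : V i j * q - V i j = V i j * (q - 1) := by ring
      rw [h1, mul_assoc]
      exact mul_le_mul (hVle i j) hq (by linarith) (by positivity)
  have hmain := lfr_det B V ((1 + 2 ^ m) * ((k : ℝ) + m) ^ m) (((k : ℝ) + m) ^ m * 2 ^ m * D) hR1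
    (fun i j => by
      have h0 := hV0 i j
      obtain ⟨h1, h2⟩ := hBV i j
      rw [abs_of_nonneg (h0.trans h1)]
      have h3 : ((k : ℝ) + m) ^ m * 2 ^ m * D ≤ ((k : ℝ) + m) ^ m * 2 ^ m * 1 :=
        mul_le_mul_of_nonneg_left hD1 (by positivity)
      have h4 := hVle i j
      nlinarith)
    (fun i j => by
      rw [abs_of_nonneg (hV0 i j)]
      have h4 := hVle i j
      have h5 : (0 : ℝ) ≤ ((k : ℝ) + m) ^ m := by positivity
      nlinarith)
    (fun i j => by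
      obtain ⟨h1, h2⟩ := hBV i j
      rw [abs_of_nonneg (sub_nonneg.mpr h1)]
      exact h2)
  have hv := lfr_vdm m x
  have h1 : |B.det - V.det| < 1 := lt_of_le_of_lt hmain hlt
  have h2 := (abs_lt.mp h1).1
  have h3 : 1 ≤ V.det := hv
  linarith

theorem left : EvSt → LowSt → LeftRSt := by
  intro hE hL r hr m
  rcases Nat.eq_zero_or_pos m with rfl | hm
  · exact ⟨1, 0, one_pos, fun n _ k _ => by simp [solr]⟩
  obtain ⟨c, hc, hlow⟩ := hL r hr
  obtain ⟨e0, -, e2, e3, -⟩ := hE r hr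
  have hm' : (1 : ℝ) ≤ m := by exact_mod_cast hm
  have hr' : (1 : ℝ) ≤ r := by exact_mod_cast hr
  set K0 : ℝ := (m.factorial : ℝ) * (m * (1 + 2 ^ m) ^ m * (2 ^ m * ((r : ℝ) * (m + 1) / c)))
    with hK0
  have hK00 : 0 ≤ K0 := by rw [hK0]; positivity
  set Cn : ℕ := m * m + m + 4 with hCn
  obtain ⟨N1, hN1⟩ := exists_nat_gt K0
  refine ⟨(Cn : ℝ), max N1 4, by rw [hCn]; positivity, fun n hn k hk => ?_⟩
  have hnN : N1 ≤ n := (le_max_left _ _).trans hn
  have hn4 : 4 ≤ n := (le_max_right _ _).trans hn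
  have hn4' : (4 : ℝ) ≤ n := by exact_mod_cast hn4
  have hnK : K0 < n := hN1.trans_le (by exact_mod_cast hnN)
  have hn0 : (0 : ℝ) < n := by linarith
  have hk0 : (0 : ℝ) ≤ k := Nat.cast_nonneg k
  have hkm1 : (1 : ℝ) ≤ (k : ℝ) + m := by linarith
  have hkm0 : (0 : ℝ) < (k : ℝ) + m := by linarith
  have hlog : 1 ≤ Real.log n := by
    rw [Real.le_log_iff_exp_le hn0]
    have := Real.exp_one_lt_d9
    linarith
  have hCn4 : (4 : ℝ) ≤ (Cn : ℝ) := by
    have : 4 ≤ Cn := by omega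
    exact_mod_cast this
  have hkm4 : 4 * ((k : ℝ) + m) ≤ n := by
    have h1 : 4 * ((k : ℝ) + m) ≤ Cn * ((k : ℝ) + m) := mul_le_mul_of_nonneg_right hCn4 hkm0.le
    have h2 : (Cn : ℝ) * ((k : ℝ) + m) ≤ Cn * ((k : ℝ) + m) * Real.log n :=
      le_mul_of_one_le_right (by positivity) hlog
    linarith
  have hkm4' : 4 * (k + m) ≤ n := by
    have h : ((4 * (k + m) : ℕ) : ℝ) ≤ (n : ℝ) := by push_cast; linarith
    exact_mod_cast h
  refine lfr_key hc e0 e2 e3 hlow m n k hm (by omega) ?_ _ rfl ?_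
  · have h1 : (r + 1) * (k + m + 1) ≤ (r + r) * (k + m + 1) :=
      Nat.mul_le_mul_right _ (by omega)
    have h2 : (r + r) * (k + m + 1) = r * (2 * (k + m + 1)) := by ring
    have h3 : r * (2 * (k + m + 1)) ≤ r * n := Nat.mul_le_mul_left _ (by omega)
    omega
  · -- the final estimate
    have hexp : Real.exp (-((n : ℝ) / ((k : ℝ) + m))) ≤ 1 / (n : ℝ) ^ Cn := by
      have h1 : (Cn : ℝ) * Real.log n ≤ (n : ℝ) / ((k : ℝ) + m) := by
        rw [le_div_iff₀ hkm0]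
        calc (Cn : ℝ) * Real.log n * ((k : ℝ) + m) = Cn * ((k : ℝ) + m) * Real.log n := by ring
          _ ≤ n := hk
      have h2 : Real.exp (-((n : ℝ) / ((k : ℝ) + m))) ≤ Real.exp (-((Cn : ℝ) * Real.log n)) :=
        Real.exp_le_exp.mpr (neg_le_neg h1)
      have h3 : Real.exp (-((Cn : ℝ) * Real.log n)) = 1 / (n : ℝ) ^ Cn := by
        rw [Real.exp_neg, Real.exp_nat_mul, Real.exp_log hn0, one_div]
      rw [h3] at h2
      exact h2
    have hkn : (k : ℝ) + m ≤ n := by linarith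
    have hD : (r : ℝ) * (n + m) / c * Real.exp (-((n : ℝ) / ((k : ℝ) + m))) ≤
        (r : ℝ) * (m + 1) / c * n * (1 / (n : ℝ) ^ Cn) := by
      refine mul_le_mul ?_ hexp (Real.exp_nonneg _) (by positivity)
      have h1 : (r : ℝ) * (n + m) ≤ (r : ℝ) * (m + 1) * n := by
        have h2 : (n : ℝ) + m ≤ (m + 1) * n := by nlinarith
        calc (r : ℝ) * (n + m) ≤ r * ((m + 1) * n) := mul_le_mul_of_nonneg_left h2 (by linarith)
          _ = _ := by ring
      calc (r : ℝ) * (n + m) / c ≤ (r : ℝ) * (m + 1) * n / c := div_le_div_of_nonneg_right h1 hc.le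
        _ = _ := by ring
    set D : ℝ := (r : ℝ) * (n + m) / c * Real.exp (-((n : ℝ) / ((k : ℝ) + m))) with hDdef
    have hD0 : 0 ≤ D := by rw [hDdef]; positivity
    have hf0 : (0 : ℝ) ≤ m.factorial := Nat.cast_nonneg _
    have hm0 : (0 : ℝ) ≤ m := by linarith
    have hA : ((1 + 2 ^ m) * ((k : ℝ) + m) ^ m) ^ m ≤ ((1 + 2 ^ m) * (n : ℝ) ^ m) ^ m := by
      refine pow_le_pow_left₀ (by positivity) ?_ _
      exact mul_le_mul_of_nonneg_left (pow_le_pow_left₀ hkm0.le hkn _) (by positivity)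
    have hB : ((k : ℝ) + m) ^ m * 2 ^ m * D ≤
        (n : ℝ) ^ m * 2 ^ m * ((r : ℝ) * (m + 1) / c * n * (1 / (n : ℝ) ^ Cn)) := by
      refine mul_le_mul ?_ hD hD0 (by positivity)
      exact mul_le_mul_of_nonneg_right (pow_le_pow_left₀ hkm0.le hkn _) (by positivity)
    have hAB : (m.factorial : ℝ) * (m * ((1 + 2 ^ m) * ((k : ℝ) + m) ^ m) ^ m *
        (((k : ℝ) + m) ^ m * 2 ^ m * D)) ≤
        (m.factorial : ℝ) * (m * ((1 + 2 ^ m) * (n : ℝ) ^ m) ^ m *
        ((n : ℝ) ^ m * 2 ^ m * ((r : ℝ) * (m + 1) / c * n * (1 / (n : ℝ) ^ Cn)))) := by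
      refine mul_le_mul_of_nonneg_left ?_ hf0
      exact mul_le_mul (mul_le_mul_of_nonneg_left hA hm0) hB (by positivity) (by positivity)
    have hpow : (n : ℝ) ^ Cn = ((n : ℝ) ^ m) ^ m * (n : ℝ) ^ m * n * n * n ^ 2 := by
      rw [hCn, ← pow_mul]
      ring
    have heq : (m.factorial : ℝ) * (m * ((1 + 2 ^ m) * (n : ℝ) ^ m) ^ m *
        ((n : ℝ) ^ m * 2 ^ m * ((r : ℝ) * (m + 1) / c * n * (1 / (n : ℝ) ^ Cn)))) =
        K0 / (n * n ^ 2) := by
      rw [hpow, hK0, mul_pow]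
      field_simp
    refine lt_of_le_of_lt (hAB.trans heq.le) ?_
    rw [div_lt_one (by positivity)]
    have h1 : (1 : ℝ) ≤ (n : ℝ) ^ 2 := one_le_pow₀ (by linarith)
    have h2 : (n : ℝ) ≤ n * n ^ 2 := le_mul_of_one_le_right hn0.le h1
    linarith

end Pool.Agent.H53.ATPR
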