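import Pool.Agent.H53.ATPR.Spec

/-!
# LIMM: the main parts of the normalised integrals tend to Gaussian moments
-/

set_option autoImplicit false

open MeasureTheory Filter Complex
open scoped Topology Real

namespace Pool.Agent.H53.ATPR

/-- the rescaled integrand -/
private noncomputable def limm_f (r n : ℕ) (x : ℝ) (k i j : ℕ) (s m v : ℝ) : ℂ :=
  ((s / m : ℝ) : ℂ) ^ i * Gi r n x k i (v / s) *
    ((s : ℂ) * (cexp (-(((v / s : ℝ) : ℂ) * I)) - 1)) ^ j

private theorem limm_scale (r n : ℕ) (x : ℝ) (k i j : ℕ) (s m t0 : ℝ) (hs : 0 < s) :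
    (((s / m) ^ i * s ^ (j + 1) : ℝ) : ℂ) *
      ∫ t in (-t0)..t0, Gi r n x k i t * (cexp (-(t * I)) - 1) ^ j =
    ∫ v in (-(s * t0))..(s * t0), limm_f r n x k i j s m v := by
  have h1 : ∀ v : ℝ, limm_f r n x k i j s m v = (((s / m) ^ i * s ^ j : ℝ) : ℂ) *
      ((fun t : ℝ => Gi r n x k i t * (cexp (-(t * I)) - 1) ^ j) (v / s)) := by
    intro v
    simp only [limm_f]
    rw [mul_pow]
    push_cast
    ring
  simp_rw [h1]
  have h2 := intervalIntegral.integral_comp_div (a := -(s * t0)) (b := s * t0)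
    (fun t : ℝ => Gi r n x k i t * (cexp (-(t * I)) - 1) ^ j) hs.ne'
  rw [intervalIntegral.integral_const_mul, h2, neg_div, mul_div_cancel_left₀ _ hs.ne',
    real_smul]
  push_cast
  ring

private theorem limm_Gi_cont (r n : ℕ) (x : ℝ) (k i : ℕ) : Continuous (Gi r n x k i) := by
  unfold Gi Fr
  fun_prop

private theorem limm_f_cont (r n : ℕ) (x : ℝ) (k i j : ℕ) (s m : ℝ) :
    Continuous (limm_f r n x k i j s m) := by
  have h1 : Continuous fun v : ℝ => v / s := by fun_prop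
  have h2 := (limm_Gi_cont r n x k i).comp h1
  have h3 : Continuous fun v : ℝ => ((s : ℂ) * (cexp (-(((v / s : ℝ) : ℂ) * I)) - 1)) ^ j := by
    fun_prop
  exact (continuous_const.mul h2).mul h3

private theorem limm_cos {t : ℝ} (ht : |t| ≤ 1) : t ^ 2 / 4 ≤ 1 - Real.cos t := by
  have h1 := (abs_le.1 (Real.cos_bound ht)).2
  have h2 : |t| ^ 4 ≤ t ^ 2 := by
    have h3 : |t| ^ 2 = t ^ 2 := sq_abs t
    have h4 : t ^ 2 ≤ 1 := by
      rw [← h3]; exact pow_le_one₀ (abs_nonneg _) ht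
    calc |t| ^ 4 = t ^ 2 * t ^ 2 := by rw [← h3]; ring
      _ ≤ t ^ 2 * 1 := mul_le_mul_of_nonneg_left h4 (sq_nonneg _)
      _ = t ^ 2 := mul_one _
  nlinarith [sq_nonneg t]

/-- elementary facts on the increment of the mean -/
private theorem limm_mu (hB : BasSt) {r : ℕ} (hr : 2 ≤ r) {y : ℕ → ℕ → ℝ} (hy : IsY r y)
    {n : ℕ} {x : ℝ} (hx : 0 < x) : 0 < mu r y n x ∧ mu r y n x ≤ 1 := by
  obtain ⟨-, -, -, -, -, h1, -, h2, h3, -⟩ := hB r hr y hy n x hx
  have h4 : 0 < B0 r y n x := lt_of_lt_of_le (by positivity) h1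
  have h5 : 0 < R0 r y n x := h4.trans_le h2
  exact ⟨div_pos h4 h5, (div_le_one h5).2 h2⟩

/-- the factor `chi` -/
private theorem limm_chi (hC : ChiSt) {r : ℕ} (hr : 1 ≤ r) {y : ℕ → ℕ → ℝ} (hy : IsY r y)
    {n k : ℕ} {x : ℝ} (hx : 0 < x) (hms : ms y n x = k) {s : ℝ} (hs : 0 < s)
    (hsV : s ^ 2 = vs y n x) {v : ℝ} (hv : |v / s| ≤ 1) :
    ‖Fr r n (x * cexp ((v / s : ℝ) * I)) / Fr r n x * cexp (-(k * (v / s : ℝ) * I))‖ ≤
      Real.exp (-(v ^ 2 / 4)) ∧
    ‖Fr r n (x * cexp ((v / s : ℝ) * I)) / Fr r n x * cexp (-(k * (v / s : ℝ) * I)) -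
      (Real.exp (-(v ^ 2 / 2)) : ℂ)‖ ≤ |v| ^ 3 / s + v ^ 4 / s ^ 2 := by
  obtain ⟨-, h2, h3⟩ := hC r hr y hy n x hx
  have hV2 : vs y n x * (v / s) ^ 2 = v ^ 2 := by
    rw [← hsV, div_pow]; field_simp
  constructor
  · have hn : ‖cexp (-(k * (v / s : ℝ) * I))‖ = 1 := by
      have : (-((k : ℂ) * ((v / s : ℝ) : ℂ) * I)) = ((-(k * (v / s)) : ℝ) : ℂ) * I := by
        push_cast; ring
      rw [this, norm_exp_ofReal_mul_I]
    rw [norm_mul, hn, mul_one]
    refine (h2 (v / s)).trans ?_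
    apply Real.exp_le_exp.2
    have h4 := limm_cos hv
    have h5 : 0 ≤ vs y n x := by rw [← hsV]; positivity
    have h6 := mul_le_mul_of_nonneg_left h4 h5
    have h7 : vs y n x * ((v / s) ^ 2 / 4) = v ^ 2 / 4 := by rw [← hV2]; ring
    linarith
  · have h4 := h3 (v / s)
    rw [hms, mul_div_assoc] at h4
    have e1 : vs y n x * ((v / s) ^ 2 / 2) = v ^ 2 / 2 := by rw [← hV2]; ring
    rw [e1] at h4
    refine (le_of_eq ?_).trans (h4.trans (le_of_eq ?_))
    · rw [Complex.ofReal_natCast]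
    · rw [← hsV, abs_div, abs_of_pos hs]
      field_simp

/-- the factor `pl` -/
private theorem limm_pl {r n i : ℕ} {x s m C0 C1 V : ℝ} (hm : 0 < m) (hm1 : m ≤ 1) (hC0 : 0 < C0)
    (hC1 : 0 < C1) (hs : 1 ≤ s) (hsV : s ^ 2 = V) {t : ℝ} (ht : |t| ≤ 1)
    (hE : ∀ a j : ℕ, a + j ≤ i →
      ‖dl (eta r n x t) j a‖ ≤ C0 * m * |t| * (C0 * m / V) ^ j)
    (hP : ∀ (X Y : ℝ) (η : ℕ → ℂ), 0 ≤ X → X ≤ C0 → 0 ≤ Y → Y ≤ C0 →
      (∀ a j : ℕ, a + j ≤ i → ‖dl η j a‖ ≤ X * Y ^ j) →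
      ‖pl η i 0‖ ≤ C1 * (X + Y) ^ i ∧
      ‖pl η i 0 - η 0 ^ i‖ * (X + Y) ≤ C1 * (X + Y) ^ i * Y) :
    ‖((s / m : ℝ) : ℂ) ^ i * pl (eta r n x t) i 0‖ ≤ C1 * (C0 * (s * |t| + 1)) ^ i ∧
    ‖((s / m : ℝ) : ℂ) ^ i * pl (eta r n x t) i 0 -
      (((s / m : ℝ) : ℂ) * eta r n x t 0) ^ i‖ ≤
        C1 * (C0 * (s * |t| + 1)) ^ i / (s ^ 2 * |t| + 1) := by
  have hs0 : 0 < s := by linarith
  have hV : 0 < V := by rw [← hsV]; positivity
  have hV1 : 1 ≤ V := by rw [← hsV]; exact one_le_pow₀ hs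
  set X := C0 * m * |t| with hX
  set Y := C0 * m / V with hY
  have hX0 : 0 ≤ X := by positivity
  have hY0 : 0 < Y := by positivity
  have hXC : X ≤ C0 := by
    have h1 : m * |t| ≤ 1 := mul_le_one₀ hm1 (abs_nonneg _) ht
    calc X = C0 * (m * |t|) := by rw [hX]; ring
      _ ≤ C0 * 1 := mul_le_mul_of_nonneg_left h1 hC0.le
      _ = C0 := mul_one _
  have hYC : Y ≤ C0 := by
    rw [hY, div_le_iff₀ hV]
    have h1 : m ≤ V := hm1.trans hV1
    exact mul_le_mul_of_nonneg_left h1 hC0.le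
  obtain ⟨h1, h2⟩ := hP X Y (eta r n x t) hX0 hXC hY0.le hYC hE
  have hsm : 0 < s / m := div_pos hs0 hm
  have hsum : (s / m) * (X + Y) = C0 * (s * |t| + 1 / s) := by
    rw [hX, hY, ← hsV]; field_simp
  have hle : (s / m) * (X + Y) ≤ C0 * (s * |t| + 1) := by
    rw [hsum]
    have h3 : 1 / s ≤ 1 := by rw [div_le_one hs0]; exact hs
    exact mul_le_mul_of_nonneg_left (by linarith) hC0.le
  have hnn : 0 ≤ (s / m) * (X + Y) := by positivity
  have hpow : ((s / m) * (X + Y)) ^ i ≤ (C0 * (s * |t| + 1)) ^ i := pow_le_pow_left₀ hnn hle i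
  have hnorm : ‖((s / m : ℝ) : ℂ) ^ i‖ = (s / m) ^ i := by
    rw [norm_pow, norm_real, Real.norm_eq_abs, abs_of_pos hsm]
  constructor
  · rw [norm_mul, hnorm]
    calc (s / m) ^ i * ‖pl (eta r n x t) i 0‖ ≤ (s / m) ^ i * (C1 * (X + Y) ^ i) :=
          mul_le_mul_of_nonneg_left h1 (by positivity)
      _ = C1 * ((s / m) * (X + Y)) ^ i := by rw [mul_pow]; ring
      _ ≤ C1 * (C0 * (s * |t| + 1)) ^ i := mul_le_mul_of_nonneg_left hpow hC1.le
  · have e1 : ((s / m : ℝ) : ℂ) ^ i * pl (eta r n x t) i 0 -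
        (((s / m : ℝ) : ℂ) * eta r n x t 0) ^ i =
        ((s / m : ℝ) : ℂ) ^ i * (pl (eta r n x t) i 0 - eta r n x t 0 ^ i) := by
      rw [mul_pow]; ring
    rw [e1, norm_mul, hnorm, le_div_iff₀ (by positivity)]
    set A := ‖pl (eta r n x t) i 0 - eta r n x t 0 ^ i‖ with hA
    have h3 : s ^ 2 * |t| + 1 = (X + Y) * (V / (C0 * m)) := by
      rw [hX, hY, hsV]; field_simp
    have h4 : Y * (V / (C0 * m)) = 1 := by
      rw [hY]; field_simp
    rw [h3]
    calc (s / m) ^ i * A * ((X + Y) * (V / (C0 * m)))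
        = (s / m) ^ i * (V / (C0 * m)) * (A * (X + Y)) := by ring
      _ ≤ (s / m) ^ i * (V / (C0 * m)) * (C1 * (X + Y) ^ i * Y) :=
          mul_le_mul_of_nonneg_left h2 (by positivity)
      _ = C1 * ((s / m) * (X + Y)) ^ i * (Y * (V / (C0 * m))) := by rw [mul_pow]; ring
      _ = C1 * ((s / m) * (X + Y)) ^ i := by rw [h4, mul_one]
      _ ≤ C1 * (C0 * (s * |t| + 1)) ^ i := mul_le_mul_of_nonneg_left hpow hC1.le

private theorem limm_eta {s m C0 : ℝ} {e : ℂ} (hm : 0 < m) (hs : 0 < s) {v : ℝ}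
    (he : ‖e - I * (v / s : ℝ) * m‖ ≤ C0 * m * (v / s) ^ 2) :
    ‖((s / m : ℝ) : ℂ) * e - I * v‖ ≤ C0 * v ^ 2 / s := by
  have hsm : 0 < s / m := div_pos hs hm
  have hs' : (s : ℂ) ≠ 0 := by exact_mod_cast hs.ne'
  have hm' : (m : ℂ) ≠ 0 := by exact_mod_cast hm.ne'
  have e1 : ((s / m : ℝ) : ℂ) * e - I * v = ((s / m : ℝ) : ℂ) * (e - I * (v / s : ℝ) * m) := by
    push_cast
    field_simp
  rw [e1, norm_mul, norm_real, Real.norm_eq_abs, abs_of_pos hsm]
  calc (s / m) * ‖e - I * (v / s : ℝ) * m‖ ≤ (s / m) * (C0 * m * (v / s) ^ 2) :=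
        mul_le_mul_of_nonneg_left he hsm.le
    _ = C0 * v ^ 2 / s := by rw [div_pow]; field_simp

private theorem limm_exp1 {s v : ℝ} (hs : 0 < s) :
    ‖(s : ℂ) * (cexp (-(((v / s : ℝ) : ℂ) * I)) - 1)‖ ≤ |v| := by
  have e : (-(((v / s : ℝ) : ℂ) * I)) = I * ((-(v / s) : ℝ) : ℂ) := by push_cast; ring
  rw [norm_mul, norm_real, Real.norm_eq_abs, abs_of_pos hs, e]
  calc s * ‖cexp (I * ((-(v / s) : ℝ) : ℂ)) - 1‖ ≤ s * |-(v / s)| := by
        gcongr
        exact Real.norm_exp_I_mul_ofReal_sub_one_le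
    _ = |v| := by
        rw [abs_neg, abs_div, abs_of_pos hs]
        field_simp

private theorem limm_exp2 {s v : ℝ} (hs : 0 < s) (hv : |v / s| ≤ 1) :
    ‖(s : ℂ) * (cexp (-(((v / s : ℝ) : ℂ) * I)) - 1) - -(I * v)‖ ≤ v ^ 2 / s := by
  have hs' : (s : ℂ) ≠ 0 := by exact_mod_cast hs.ne'
  set z : ℂ := -(((v / s : ℝ) : ℂ) * I) with hz
  have hzn : ‖z‖ = |v / s| := by
    rw [hz, norm_neg, norm_mul, norm_I, mul_one, norm_real, Real.norm_eq_abs]
  have e1 : (s : ℂ) * (cexp z - 1) - -(I * v) = (s : ℂ) * (cexp z - 1 - z) := by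
    rw [hz]
    push_cast
    field_simp
  rw [e1, norm_mul, norm_real, Real.norm_eq_abs, abs_of_pos hs]
  have h1 := norm_exp_sub_one_sub_id_le (x := z) (by rw [hzn]; exact hv)
  calc s * ‖cexp z - 1 - z‖ ≤ s * ‖z‖ ^ 2 := mul_le_mul_of_nonneg_left h1 hs.le
    _ = v ^ 2 / s := by
        rw [hzn, sq_abs, div_pow]; field_simp

/-- the dominating function -/
private noncomputable def limm_b (K : ℝ) (p : ℕ) (v : ℝ) : ℝ :=
  K * (|v| ^ p * Real.exp (-(1 / 4) * v ^ 2) + Real.exp (-(1 / 4) * v ^ 2))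

private theorem limm_b_integrable (K : ℝ) (p : ℕ) : Integrable (limm_b K p) := by
  unfold limm_b
  refine Integrable.const_mul (Integrable.add ?_ ?_) K
  · have h1 := (integrable_rpow_mul_exp_neg_mul_sq (b := 1 / 4) (by positivity) (s := p)
      (by have : (0 : ℝ) ≤ p := p.cast_nonneg
          linarith)).norm
    refine h1.congr (Eventually.of_forall fun v => ?_)
    simp only [Real.rpow_natCast, norm_mul, norm_pow, Real.norm_eq_abs, Real.abs_exp]
  · exact integrable_exp_neg_mul_sq (by norm_num)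

private theorem limm_b_le {C0 C1 : ℝ} (hC0 : 0 < C0) (hC1 : 0 < C1) (i j : ℕ) (v : ℝ) :
    C1 * (C0 * (|v| + 1)) ^ i * Real.exp (-(v ^ 2 / 4)) * |v| ^ j ≤
      limm_b (C1 * C0 ^ i * 2 ^ (i + j - 1)) (i + j) v := by
  have h0 : 0 ≤ |v| := abs_nonneg v
  have h1 : (|v| + 1) ^ i * |v| ^ j ≤ 2 ^ (i + j - 1) * (|v| ^ (i + j) + 1) := by
    calc (|v| + 1) ^ i * |v| ^ j ≤ (|v| + 1) ^ i * (|v| + 1) ^ j := by
          gcongr
          linarith
      _ = (|v| + 1) ^ (i + j) := by rw [pow_add]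
      _ ≤ 2 ^ (i + j - 1) * (|v| ^ (i + j) + 1 ^ (i + j)) := add_pow_le h0 zero_le_one _
      _ = 2 ^ (i + j - 1) * (|v| ^ (i + j) + 1) := by rw [one_pow]
  have e1 : -(v ^ 2 / 4) = -(1 / 4) * v ^ 2 := by ring
  unfold limm_b
  rw [e1, mul_pow]
  have hE := Real.exp_pos (-(1 / 4) * v ^ 2)
  calc C1 * (C0 ^ i * (|v| + 1) ^ i) * Real.exp (-(1 / 4) * v ^ 2) * |v| ^ j
      = (C1 * C0 ^ i * Real.exp (-(1 / 4) * v ^ 2)) * ((|v| + 1) ^ i * |v| ^ j) := by ring
    _ ≤ (C1 * C0 ^ i * Real.exp (-(1 / 4) * v ^ 2)) * (2 ^ (i + j - 1) * (|v| ^ (i + j) + 1)) :=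
        mul_le_mul_of_nonneg_left h1 (by positivity)
    _ = _ := by ring

/-- the value of the limit -/
private theorem limm_value (i j : ℕ) :
    (∫ v : ℝ, (Real.exp (-(v ^ 2 / 2)) : ℂ) * (I * v) ^ i * (-(I * v)) ^ j) =
      I ^ i * (-I) ^ j * ((∫ v : ℝ, v ^ (i + j) * Real.exp (-(v ^ 2 / 2)) : ℝ) : ℂ) := by
  rw [← integral_complex_ofReal, ← integral_const_mul]
  congr 1
  funext v
  push_cast
  rw [show (-(I * (v : ℂ))) = (-I) * v by ring, mul_pow, mul_pow, pow_add]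
  ring

theorem limm : BasSt → EtaSt → PilSt → ChiSt → GpSt → LimMSt := by
  intro hB hE hP hC hG r hr y hy i j
  obtain ⟨C0, t0, hC0, ht0, ht1, hE'⟩ := hE r hr i
  obtain ⟨C1, hC1, hP'⟩ := hP.2 i C0
  refine ⟨t0, ht0, ht1, ?_⟩
  intro n k x hS
  obtain ⟨hx, hms, hn, hV, -⟩ := hS
  have hr1 : 1 ≤ r := by omega
  have hs : Tendsto (fun l => √(vs y (n l) (x l))) atTop atTop :=
    Real.tendsto_sqrt_atTop.comp hV
  set s : ℕ → ℝ := fun l => √(vs y (n l) (x l)) with hsdef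
  have hm : ∀ l, 0 < mu r y (n l) (x l) ∧ mu r y (n l) (x l) ≤ 1 := fun l =>
    limm_mu hB hr hy (hx l)
  set m : ℕ → ℝ := fun l => mu r y (n l) (x l) with hmdef
  have hsV : ∀ l, s l ^ 2 = vs y (n l) (x l) := fun l =>
    Real.sq_sqrt (hB r hr y hy (n l) (x l) (hx l)).1
  -- representation of the integrand
  have hrep : ∀ l (v : ℝ), |v / s l| ≤ 1 → limm_f r (n l) (x l) (k l) i j (s l) (m l) v =
      (Fr r (n l) (x l * cexp ((v / s l : ℝ) * I)) / Fr r (n l) (x l) *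
        cexp (-(k l * (v / s l : ℝ) * I))) *
      (((s l / m l : ℝ) : ℂ) ^ i * pl (eta r (n l) (x l) (v / s l)) i 0) *
      ((s l : ℂ) * (cexp (-(((v / s l : ℝ) : ℂ) * I)) - 1)) ^ j := by
    intro l v hv
    have h1 : |v / s l| < π := lt_of_le_of_lt hv (by linarith [Real.pi_gt_three])
    rw [limm_f, hG r hr1 y hy (n l) (k l) i (x l) (v / s l) (hx l) h1]
    ring
  have key : Tendsto (fun l => ∫ v : ℝ, (Set.Ioc (-(s l * t0)) (s l * t0)).indicator
      (limm_f r (n l) (x l) (k l) i j (s l) (m l)) v) atTop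
      (𝓝 (∫ v : ℝ, (Real.exp (-(v ^ 2 / 2)) : ℂ) * (I * v) ^ i * (-(I * v)) ^ j)) := by
    refine tendsto_integral_filter_of_dominated_convergence
      (limm_b (C1 * C0 ^ i * 2 ^ (i + j - 1)) (i + j)) ?_ ?_ (limm_b_integrable _ _) ?_
    · exact Eventually.of_forall fun l =>
        ((limm_f_cont _ _ _ _ _ _ _ _).aestronglyMeasurable).indicator measurableSet_Ioc
    · filter_upwards [hs.eventually_ge_atTop 1, hn.eventually_ge_atTop 1] with l hl1 hl2
      refine Eventually.of_forall fun v => ?_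
      have hl0 : 0 < s l := by linarith
      by_cases hv : v ∈ Set.Ioc (-(s l * t0)) (s l * t0)
      · rw [Set.indicator_of_mem hv]
        have hvt : |v / s l| ≤ t0 := by
          rw [abs_div, abs_of_pos hl0, div_le_iff₀ hl0, abs_le]
          constructor
          · have := hv.1; linarith
          · have := hv.2; linarith
        have hv1 : |v / s l| ≤ 1 := hvt.trans ht1
        rw [hrep l v hv1, norm_mul, norm_mul, norm_pow]
        obtain ⟨c1, -⟩ := limm_chi hC hr1 hy (hx l) (hms l) hl0 (hsV l) hv1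
        obtain ⟨p1, -⟩ := limm_pl (x := x l) (hm l).1 (hm l).2 hC0 hC1 hl1 (hsV l) hv1
          (hE' y hy (n l) (x l) hl2 (hx l) (v / s l) hvt).1 hP'
        have hsv : s l * |v / s l| = |v| := by
          rw [abs_div, abs_of_pos hl0]; field_simp
        rw [hsv] at p1
        have q1 := limm_exp1 (v := v) hl0
        refine le_trans ?_ (limm_b_le hC0 hC1 i j v)
        calc _ ≤ Real.exp (-(v ^ 2 / 4)) * (C1 * (C0 * (|v| + 1)) ^ i) * |v| ^ j := by
              gcongr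
          _ = _ := by ring
      · rw [Set.indicator_of_notMem hv, norm_zero]
        refine le_trans ?_ (limm_b_le hC0 hC1 i j v)
        positivity
    · have hae : ∀ᵐ v : ℝ, v ≠ 0 := by
        have : ∀ᵐ v : ℝ, v ∉ ({0} : Set ℝ) := measure_eq_zero_iff_ae_notMem.1 (by simp)
        simpa using this
      filter_upwards [hae] with v hv0
      have hvpos : 0 < |v| := abs_pos.2 hv0
      have hinv : Tendsto (fun l => (s l)⁻¹) atTop (𝓝 0) := tendsto_inv_atTop_zero.comp hs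
      have hinv2 : Tendsto (fun l => (s l ^ 2)⁻¹) atTop (𝓝 0) := by
        have := hinv.pow 2
        simpa [inv_pow] using this
      -- eventually v is in the range
      have hin : ∀ᶠ l in atTop, |v / s l| < t0 := by
        filter_upwards [hs.eventually_gt_atTop (|v| / t0), hs.eventually_gt_atTop 0] with l h1 h2
        rw [abs_div, abs_of_pos h2, div_lt_iff₀ h2]
        rw [div_lt_iff₀ ht0] at h1
        linarith
      have hchi : Tendsto (fun l => Fr r (n l) (x l * cexp ((v / s l : ℝ) * I)) / Fr r (n l) (x l) *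
        cexp (-(k l * (v / s l : ℝ) * I))) atTop (𝓝 (Real.exp (-(v ^ 2 / 2)) : ℂ)) := by
        rw [tendsto_iff_norm_sub_tendsto_zero]
        have hz : Tendsto (fun l => |v| ^ 3 * (s l)⁻¹ + v ^ 4 * (s l ^ 2)⁻¹) atTop (𝓝 0) := by
          simpa using (hinv.const_mul (|v| ^ 3)).add (hinv2.const_mul (v ^ 4))
        refine squeeze_zero' (Eventually.of_forall fun l => norm_nonneg _) ?_ hz
        filter_upwards [hin, hs.eventually_gt_atTop 0] with l h1 h2
        obtain ⟨-, c2⟩ := limm_chi hC hr1 hy (hx l) (hms l) h2 (hsV l) (h1.le.trans ht1)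
        refine c2.trans (le_of_eq ?_)
        rw [div_eq_mul_inv, div_eq_mul_inv]
      have heta : Tendsto (fun l => ((s l / m l : ℝ) : ℂ) * eta r (n l) (x l) (v / s l) 0) atTop
          (𝓝 (I * v)) := by
        rw [tendsto_iff_norm_sub_tendsto_zero]
        have hz : Tendsto (fun l => C0 * v ^ 2 * (s l)⁻¹) atTop (𝓝 0) := by
          simpa using hinv.const_mul (C0 * v ^ 2)
        refine squeeze_zero' (Eventually.of_forall fun l => norm_nonneg _) ?_ hz
        filter_upwards [hin, hs.eventually_gt_atTop 0, hn.eventually_ge_atTop 1] with l h1 h2 h3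
        have h4 := (hE' y hy (n l) (x l) h3 (hx l) (v / s l) h1.le).2
        have h5 := limm_eta (hm l).1 h2 (v := v) (C0 := C0) h4
        refine h5.trans (le_of_eq ?_)
        rw [div_eq_mul_inv]
      have hpl : Tendsto (fun l => ((s l / m l : ℝ) : ℂ) ^ i * pl (eta r (n l) (x l) (v / s l)) i 0)
          atTop (𝓝 ((I * v) ^ i)) := by
        have hd : Tendsto (fun l => ((s l / m l : ℝ) : ℂ) ^ i *
            pl (eta r (n l) (x l) (v / s l)) i 0 -
            (((s l / m l : ℝ) : ℂ) * eta r (n l) (x l) (v / s l) 0) ^ i) atTop (𝓝 0) := by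
          have hz : Tendsto (fun l => C1 * (C0 * (|v| + 1)) ^ i * (|v|⁻¹ * (s l)⁻¹)) atTop
              (𝓝 0) := by
            simpa using (hinv.const_mul (|v|⁻¹)).const_mul (C1 * (C0 * (|v| + 1)) ^ i)
          refine squeeze_zero_norm' ?_ hz
          filter_upwards [hin, hs.eventually_ge_atTop 1, hn.eventually_ge_atTop 1] with l h1 h2 h3
          have hl0 : 0 < s l := by linarith
          obtain ⟨-, p2⟩ := limm_pl (x := x l) (hm l).1 (hm l).2 hC0 hC1 h2 (hsV l)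
            (h1.le.trans ht1) (hE' y hy (n l) (x l) h3 (hx l) (v / s l) h1.le).1 hP'
          have hsv : s l * |v / s l| = |v| := by
            rw [abs_div, abs_of_pos hl0]; field_simp
          have hsv2 : s l ^ 2 * |v / s l| = s l * |v| := by
            rw [pow_two, mul_assoc, hsv]
          rw [hsv, hsv2] at p2
          refine p2.trans ?_
          rw [div_eq_mul_inv]
          refine mul_le_mul_of_nonneg_left ?_ (by positivity)
          rw [← mul_inv, mul_comm |v|]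
          exact inv_anti₀ (by positivity) (by linarith)
        have := hd.add (heta.pow i)
        simpa using this
      have hexp : Tendsto (fun l => (s l : ℂ) * (cexp (-(((v / s l : ℝ) : ℂ) * I)) - 1)) atTop
          (𝓝 (-(I * v))) := by
        rw [tendsto_iff_norm_sub_tendsto_zero]
        have hz : Tendsto (fun l => v ^ 2 * (s l)⁻¹) atTop (𝓝 0) := by
          simpa using hinv.const_mul (v ^ 2)
        refine squeeze_zero' (Eventually.of_forall fun l => norm_nonneg _) ?_ hz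
        filter_upwards [hin, hs.eventually_gt_atTop 0] with l h1 h2
        refine (limm_exp2 h2 (h1.le.trans ht1)).trans (le_of_eq ?_)
        rw [div_eq_mul_inv]
      have hall := (hchi.mul hpl).mul (hexp.pow j)
      refine hall.congr' ?_
      filter_upwards [hin, hs.eventually_gt_atTop 0] with l h1 h2
      have hmem : v ∈ Set.Ioc (-(s l * t0)) (s l * t0) := by
        rw [abs_div, abs_of_pos h2, div_lt_iff₀ h2, abs_lt] at h1
        constructor
        · linarith [h1.1]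
        · linarith [h1.2]
      rw [Set.indicator_of_mem hmem, hrep l v (h1.le.trans ht1)]
  rw [limm_value] at key
  refine key.congr' ?_
  filter_upwards [hs.eventually_gt_atTop 0] with l hl
  rw [integral_indicator measurableSet_Ioc]
  have hle : -(s l * t0) ≤ s l * t0 := by
    have : 0 < s l * t0 := mul_pos hl ht0
    linarith
  rw [← intervalIntegral.integral_of_le hle]
  exact (limm_scale r (n l) (x l) (k l) i j (s l) (m l) t0 hl).symm

end Pool.Agent.H53.ATPR
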