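import Pool.Agent.H53.ATPR.Spec

/-!
# LIMT: the tail of the reduced integrals
-/

set_option autoImplicit false

open MeasureTheory Filter Complex
open scoped Topology Real

namespace Pool.Agent.H53.ATPR

private theorem limt_vs (hB : BasSt) {r : ℕ} (hr : 2 ≤ r) {y : ℕ → ℕ → ℝ} (hy : IsY r y)
    (n : ℕ) {x : ℝ} (hx : 0 < x) (a : ℕ) : vs y n x - 5 * a ≤ vs y (n + a) x := by
  induction a with
  | zero => simp
  | succ a ih =>
    have h := (hB r hr y hy (n + a) x hx).2.2.2.2.2.2.2.2.2.2.2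
    rw [← Nat.add_assoc]
    push_cast
    linarith

private theorem limt_gi (hB : BasSt) (hC : ChiSt) {r : ℕ} (hr : 2 ≤ r) {y : ℕ → ℕ → ℝ}
    (hy : IsY r y) (n : ℕ) {x : ℝ} (hx : 0 < x) (k i : ℕ) (t : ℝ) :
    ‖Gi r n x k i t‖ ≤ 2 ^ i * Real.exp (-((vs y n x - 5 * i) * (1 - Real.cos t))) := by
  unfold Gi
  have hcos : 0 ≤ 1 - Real.cos t := by linarith [Real.cos_le_one t]
  refine le_trans (b := ∑ a ∈ Finset.range (i + 1), (i.choose a : ℝ) *
    Real.exp (-((vs y n x - 5 * i) * (1 - Real.cos t)))) ?_ (le_of_eq ?_)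
  · refine norm_sum_le_of_le _ fun a ha => ?_
    rw [norm_mul, norm_mul, norm_mul, norm_pow, norm_neg, norm_one, one_pow, one_mul,
      Complex.norm_natCast]
    have h1 := (hC r (by omega) y hy (n + a) x hx).2.1 t
    have h2 : ‖cexp (-((k : ℂ) * t * I))‖ = 1 := by
      rw [Complex.norm_exp]
      simp
    rw [h2, mul_one]
    refine mul_le_mul_of_nonneg_left (h1.trans (Real.exp_le_exp.mpr ?_)) (Nat.cast_nonneg _)
    have h3 := limt_vs hB hr hy n hx a
    have h4 : (a : ℝ) ≤ i := by exact_mod_cast Nat.lt_succ_iff.mp (Finset.mem_range.mp ha)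
    have h5 : vs y n x - 5 * i ≤ vs y (n + a) x := by linarith
    linarith [mul_le_mul_of_nonneg_right h5 hcos]
  · rw [← Finset.sum_mul]
    congr 1
    exact_mod_cast Nat.sum_range_choose i

private theorem limt_scl (hB : BasSt) {r : ℕ} (hr : 2 ≤ r) {y : ℕ → ℕ → ℝ} (hy : IsY r y)
    (n : ℕ) {x : ℝ} (hx : 0 < x) (hV : 1 ≤ vs y n x)
    (h : 1 / 2 ≤ x ∨ (n : ℝ) ≤ vs y n x ^ 4) (i j : ℕ) :
    0 ≤ scl r y n x i j ∧
      scl r y n x i j ≤ (6 * r) ^ i * vs y n x ^ (4 * i + j + 1) := by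
  obtain ⟨-, -, -, -, -, hB1, hB2, -, hR1, hR2, -, -⟩ := hB r hr y hy n x hx
  have hr0 : (2 : ℝ) ≤ r := by exact_mod_cast hr
  have hn0 : (0 : ℝ) ≤ n := Nat.cast_nonneg n
  have hR0 : 0 < R0 r y n x := by linarith
  have hB0 : 0 < B0 r y n x := lt_of_lt_of_le (by positivity) hB1
  have hmu : 0 < mu r y n x := div_pos hB0 hR0
  set V : ℝ := vs y n x with hVd
  have hV0 : 0 < V := by linarith
  have hs : √V ≤ V := by
    rw [Real.sqrt_le_iff]
    exact ⟨hV0.le, by nlinarith⟩
  have hs0 : 0 ≤ √V := Real.sqrt_nonneg V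
  have hV3 : 1 ≤ V ^ 3 := one_le_pow₀ hV
  have hV4 : 1 ≤ V ^ 4 := one_le_pow₀ hV
  have hkey : R0 r y n x ≤ 6 * r * V ^ 3 * B0 r y n x := by
    by_cases hx2 : 1 / 2 ≤ x
    · calc R0 r y n x ≤ (r : ℝ) * (n + 1) * (1 + x) := hR2
        _ ≤ (r : ℝ) * (n + 1) * (3 * x) := by
            apply mul_le_mul_of_nonneg_left _ (by positivity)
            linarith
        _ = 3 * r * 1 * (((n : ℝ) + 1) * x) := by ring
        _ ≤ 6 * r * V ^ 3 * B0 r y n x := by
            apply mul_le_mul _ hB1 (by positivity) (by positivity)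
            apply mul_le_mul _ hV3 zero_le_one (by positivity)
            linarith
    · have hn4 : (n : ℝ) ≤ V ^ 4 := h.resolve_left hx2
      push Not at hx2
      have hab : |1 - x| = 1 - x := abs_of_pos (by linarith)
      rw [hab] at hB2
      have hB3 : V / 2 ≤ B0 r y n x := by nlinarith
      calc R0 r y n x ≤ (r : ℝ) * (n + 1) * (1 + x) := hR2
        _ ≤ (r : ℝ) * (2 * V ^ 4) * (3 / 2) := by
            apply mul_le_mul _ (by linarith) (by positivity) (by positivity)
            apply mul_le_mul_of_nonneg_left _ (by positivity)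
            linarith
        _ = 6 * r * V ^ 3 * (V / 2) := by ring
        _ ≤ 6 * r * V ^ 3 * B0 r y n x := by
            apply mul_le_mul_of_nonneg_left hB3 (by positivity)
  have hdiv : √V / mu r y n x ≤ 6 * r * V ^ 4 := by
    rw [div_le_iff₀ hmu]
    have h1 : 1 ≤ 6 * r * V ^ 3 * mu r y n x := by
      unfold mu
      rw [← mul_div_assoc, le_div_iff₀ hR0, one_mul]
      exact hkey
    calc √V ≤ V * 1 := by rw [mul_one]; exact hs
      _ ≤ V * (6 * r * V ^ 3 * mu r y n x) := mul_le_mul_of_nonneg_left h1 hV0.le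
      _ = 6 * r * V ^ 4 * mu r y n x := by ring
  have hdiv0 : 0 ≤ √V / mu r y n x := div_nonneg hs0 hmu.le
  unfold scl
  rw [← hVd]
  refine ⟨by positivity, ?_⟩
  calc (√V / mu r y n x) ^ i * √V ^ (j + 1) ≤ (6 * r * V ^ 4) ^ i * V ^ (j + 1) := by
        apply mul_le_mul (pow_le_pow_left₀ hdiv0 hdiv i) (pow_le_pow_left₀ hs0 hs _)
          (by positivity) (by positivity)
    _ = (6 * r) ^ i * V ^ (4 * i + j + 1) := by
        rw [mul_pow, ← pow_mul, mul_assoc, ← pow_add, ← add_assoc]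

/-- LIMT -/
theorem limt : BasSt → ChiSt → LimTSt := by
  intro hB hC r hr y hy i j t0 ht0 ht1 n k x hs
  obtain ⟨hx, hk, hn, hV, hor⟩ := hs
  have hπ : t0 < π := lt_of_le_of_lt ht1 (by linarith [Real.pi_gt_three])
  set δ : ℝ := 1 - Real.cos t0 with hδ
  have hδ0 : 0 < δ := by
    have := Real.cos_lt_cos_of_nonneg_of_le_pi le_rfl hπ.le ht0
    rw [Real.cos_zero] at this
    linarith
  set p : ℕ := 4 * i + j + 1 with hp
  set C : ℝ := (6 * r) ^ i * (2 ^ i * 2 ^ j * Real.exp (5 * i * δ) * (2 * π)) with hCd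
  have hlim : Tendsto (fun l => C * (vs y (n l) (x l) ^ p *
      Real.exp (-(δ * vs y (n l) (x l))))) atTop (𝓝 0) := by
    have h1 : Tendsto (fun v : ℝ => C * (v ^ p * Real.exp (-(δ * v)))) atTop (𝓝 0) := by
      have h2 := (Real.tendsto_pow_mul_exp_neg_atTop_nhds_zero p).comp
        (tendsto_id.const_mul_atTop hδ0)
      have h3 := (h2.const_mul (C / δ ^ p))
      rw [mul_zero] at h3
      refine h3.congr fun v => ?_
      simp only [Function.comp, id]
      rw [mul_pow]
      field_simp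
    exact h1.comp hV
  refine squeeze_zero_norm' ?_ hlim
  filter_upwards [hV.eventually_ge_atTop 1, hV.eventually_ge_atTop (5 * (i : ℝ))] with l hl1 hl2
  obtain ⟨hs0, hs1⟩ := limt_scl hB hr hy (n l) (hx l) hl1 (hor l) i j
  set V : ℝ := vs y (n l) (x l) with hVd
  set K : ℝ := 2 ^ i * Real.exp (-((V - 5 * i) * δ)) * 2 ^ j with hK
  have hK0 : 0 ≤ K := by positivity
  have hint : ∀ t : ℝ, Real.cos t ≤ Real.cos t0 →
      ‖Gi r (n l) (x l) (k l) i t * (cexp (-(t * I)) - 1) ^ j‖ ≤ K := by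
    intro t ht
    rw [norm_mul, norm_pow]
    have h1 := limt_gi hB hC hr hy (n l) (hx l) (k l) i t
    have h2 : ‖cexp (-((t : ℂ) * I)) - 1‖ ≤ 2 := by
      refine (norm_sub_le _ _).trans ?_
      have h3 : ‖cexp (-((t : ℂ) * I))‖ = 1 := by
        rw [Complex.norm_exp]
        simp
      rw [h3, norm_one]
      norm_num
    refine mul_le_mul (h1.trans ?_) (pow_le_pow_left₀ (norm_nonneg _) h2 j) (by positivity)
      (by positivity)
    apply mul_le_mul_of_nonneg_left _ (by positivity)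
    apply Real.exp_le_exp.mpr
    have h4 : δ ≤ 1 - Real.cos t := by linarith
    have h5 := mul_le_mul_of_nonneg_left h4 (sub_nonneg.mpr hl2)
    linarith
  have hI1 : ‖∫ t in (-π)..(-t0), Gi r (n l) (x l) (k l) i t * (cexp (-(t * I)) - 1) ^ j‖ ≤
      K * π := by
    refine (intervalIntegral.norm_integral_le_of_norm_le_const (C := K) fun t ht => ?_).trans ?_
    · rw [Set.uIoc_of_le (by linarith)] at ht
      apply hint
      rw [← Real.cos_neg t]
      exact Real.cos_le_cos_of_nonneg_of_le_pi ht0.le (by linarith [ht.1]) (by linarith [ht.2])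
    · apply mul_le_mul_of_nonneg_left _ hK0
      rw [abs_of_nonneg (by linarith)]
      linarith
  have hI2 : ‖∫ t in t0..π, Gi r (n l) (x l) (k l) i t * (cexp (-(t * I)) - 1) ^ j‖ ≤
      K * π := by
    refine (intervalIntegral.norm_integral_le_of_norm_le_const (C := K) fun t ht => ?_).trans ?_
    · rw [Set.uIoc_of_le hπ.le] at ht
      apply hint
      exact Real.cos_le_cos_of_nonneg_of_le_pi ht0.le ht.2 ht.1.le
    · apply mul_le_mul_of_nonneg_left _ hK0
      rw [abs_of_nonneg (by linarith)]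
      linarith
  rw [norm_mul, Complex.norm_real, Real.norm_of_nonneg hs0]
  calc scl r y (n l) (x l) i j * ‖(∫ t in (-π)..(-t0), Gi r (n l) (x l) (k l) i t *
        (cexp (-(t * I)) - 1) ^ j) + ∫ t in t0..π, Gi r (n l) (x l) (k l) i t *
        (cexp (-(t * I)) - 1) ^ j‖
      ≤ ((6 * r) ^ i * V ^ p) * (K * π + K * π) := by
        apply mul_le_mul hs1 ((norm_add_le _ _).trans (add_le_add hI1 hI2)) (norm_nonneg _)
        have : 0 ≤ V := by linarith
        positivity
    _ = C * (V ^ p * Real.exp (-(δ * V))) := by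
        have h6 : Real.exp (-((V - 5 * i) * δ)) =
            Real.exp (5 * i * δ) * Real.exp (-(δ * V)) := by
          rw [← Real.exp_add]
          congr 1
          ring
        rw [hK, hCd, h6]
        ring

end Pool.Agent.H53.ATPR
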