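import Pool.Agent.H53.ATPR.Spec

/-!
LOGC: log-concavity of the rows bounds the mean.
-/

set_option autoImplicit false

namespace Pool.Agent.H53.ATPR

private theorem lg_down {w : ℕ → ℝ} {K : ℕ} {N : ℕ} (hpos : ∀ k, k ≤ N → 0 < w k)
    (hzero : ∀ k, N < k → w k = 0) (hlc : ∀ k, w k * w (k + 2) ≤ w (k + 1) ^ 2)
    (h : 2 * w (K + 1) ≤ w K) : ∀ j, 2 * w (K + j + 1) ≤ w (K + j) := by
  intro j
  induction j with
  | zero => exact h
  | succ j ih =>
    rcases Nat.lt_or_ge N (K + j + 2) with hN | hN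
    · have h0 : w (K + (j + 1) + 1) = 0 := hzero _ (by omega)
      rw [h0, mul_zero]
      rcases Nat.lt_or_ge N (K + (j + 1)) with h1 | h1
      · rw [hzero _ h1]
      · exact (hpos _ h1).le
    · have h1 := hlc (K + j)
      have h2 : 0 < w (K + j) := hpos _ (by omega)
      have h3 : 0 < w (K + j + 1) := hpos _ (by omega)
      have h4 : w (K + j) * (2 * w (K + j + 2)) ≤ w (K + j) * w (K + j + 1) := by
        nlinarith
      exact le_of_mul_le_mul_left h4 h2

private theorem lg_up {w : ℕ → ℝ} {K : ℕ} (hpos : ∀ k, k ≤ K + 1 → 0 < w k)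
    (hlc : ∀ k, w k * w (k + 2) ≤ w (k + 1) ^ 2)
    (h : 2 * w K ≤ w (K + 1)) : ∀ j, j ≤ K → 2 * w (K - j) ≤ w (K - j + 1) := by
  intro j
  induction j with
  | zero => intro _; exact h
  | succ j ih =>
    intro hj
    have h0 := ih (by omega)
    have e1 : K - j = K - (j + 1) + 1 := by omega
    rw [e1] at h0
    have h1 := hlc (K - (j + 1))
    have h2 : 0 < w (K - (j + 1)) := hpos _ (by omega)
    have h3 : 0 < w (K - (j + 1) + 1) := hpos _ (by omega)
    have h4 : w (K - (j + 1) + 1) * (2 * w (K - (j + 1))) ≤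
        w (K - (j + 1) + 1) * w (K - (j + 1) + 1) := by
      nlinarith
    exact le_of_mul_le_mul_left h4 h3

private theorem lg_sum_down {w : ℕ → ℝ} {K : ℕ} (hnn : ∀ k, 0 ≤ w k)
    (h : ∀ j, 2 * w (K + j + 1) ≤ w (K + j)) : ∀ j,
    ∑ k ∈ Finset.range (K + j + 1), ((k : ℝ) - K - 2) * w k ≤ -((j : ℝ) * w (K + j)) := by
  intro j
  induction j with
  | zero =>
    rw [Nat.cast_zero, zero_mul, neg_zero]
    apply Finset.sum_nonpos
    intro k hk
    rw [Finset.mem_range] at hk
    have h1 : (k : ℝ) ≤ K := by exact_mod_cast (by omega : k ≤ K)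
    exact mul_nonpos_of_nonpos_of_nonneg (by linarith) (hnn k)
  | succ j ih =>
    have e : K + (j + 1) + 1 = (K + j + 1) + 1 := by ring
    rw [e, Finset.sum_range_succ]
    have h1 := h j
    have h2 := hnn (K + j + 1)
    have h3 : (0 : ℝ) ≤ j := Nat.cast_nonneg j
    have e2 : K + (j + 1) = K + j + 1 := by ring
    rw [e2]
    push_cast
    nlinarith [mul_le_mul_of_nonneg_left h1 h3]

private theorem lg_sum_up {w : ℕ → ℝ} {K : ℕ} (hnn : ∀ k, 0 ≤ w k)
    (h : ∀ j, j ≤ K → 2 * w j ≤ w (j + 1)) : ∀ M, M ≤ K →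
    -(2 * ((K : ℝ) - M) * w M) ≤ ∑ k ∈ Finset.range (M + 1), ((k : ℝ) - K + 1) * w k := by
  intro M
  induction M with
  | zero =>
    intro _
    rw [Finset.sum_range_one, Nat.cast_zero]
    have h1 := hnn 0
    have h2 : (0 : ℝ) ≤ K := Nat.cast_nonneg K
    nlinarith [mul_nonneg h2 h1]
  | succ M ih =>
    intro hM
    have h0 := ih (by omega)
    rw [Finset.sum_range_succ]
    have h1 := h M (by omega)
    have h2 := hnn (M + 1)
    have h3 : (0 : ℝ) ≤ (K : ℝ) - M := by
      have : (M : ℝ) ≤ K := by exact_mod_cast (by omega : M ≤ K)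
      linarith
    push_cast
    nlinarith [mul_le_mul_of_nonneg_left h1 h3]

private theorem lg_sum_up' {w : ℕ → ℝ} {K : ℕ} (hnn : ∀ k, 0 ≤ w k)
    (h : ∀ j, j ≤ K → 2 * w j ≤ w (j + 1)) : ∀ j,
    0 ≤ ∑ k ∈ Finset.range (K + j + 1), ((k : ℝ) - K + 1) * w k := by
  intro j
  induction j with
  | zero =>
    have h1 := lg_sum_up hnn h K le_rfl
    rw [sub_self, mul_zero, zero_mul, neg_zero] at h1
    exact h1
  | succ j ih =>
    have e : K + (j + 1) + 1 = (K + j + 1) + 1 := by ring
    rw [e, Finset.sum_range_succ]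
    have h2 := hnn (K + j + 1)
    have h3 : (0 : ℝ) ≤ ((K + j + 1 : ℕ) : ℝ) - K + 1 := by
      push_cast
      have : (0 : ℝ) ≤ j := Nat.cast_nonneg j
      linarith
    have h4 := mul_nonneg h3 h2
    linarith

/-- LOGC. -/
theorem logc : EvSt → MeanSt → LogcSt := by
  intro hev hmean r hr y hy n K x hx hK
  obtain ⟨-, hz, hp, -, hlc⟩ := hev r hr
  obtain ⟨-, -, -, -, hm⟩ := hmean r hr y hy
  have hmn := hm n x hx
  set w : ℕ → ℝ := fun k => ev r n k * x ^ k with hw
  have hpos : ∀ k, k ≤ n → 0 < w k := fun k hk =>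
    mul_pos (lt_of_lt_of_le one_pos (hp n k hk)) (pow_pos hx k)
  have hzero : ∀ k, n < k → w k = 0 := fun k hk => by
    rw [hw]
    show ev r n k * x ^ k = 0
    rw [hz n k hk, zero_mul]
  have hnn : ∀ k, 0 ≤ w k := fun k => by
    rcases Nat.lt_or_ge n k with h | h
    · exact (hzero k h).ge
    · exact (hpos k h).le
  have hlw : ∀ k, w k * w (k + 2) ≤ w (k + 1) ^ 2 := fun k => by
    have h1 := mul_le_mul_of_nonneg_right (hlc n k) (pow_nonneg hx.le (2 * k + 2))
    have e1 : w k * w (k + 2) = ev r n k * ev r n (k + 2) * x ^ (2 * k + 2) := by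
      rw [hw]
      show ev r n k * x ^ k * (ev r n (k + 2) * x ^ (k + 2)) = _
      ring
    have e2 : w (k + 1) ^ 2 = ev r n (k + 1) ^ 2 * x ^ (2 * k + 2) := by
      rw [hw]
      show (ev r n (k + 1) * x ^ (k + 1)) ^ 2 = _
      ring
    rw [e1, e2]
    exact h1
  have hsum : 0 < ∑ k ∈ Finset.range (n + 1), w k := by
    apply Finset.sum_pos
    · intro k hk
      rw [Finset.mem_range] at hk
      exact hpos k (by omega)
    · exact ⟨0, Finset.mem_range.2 (Nat.succ_pos n)⟩
  have hmn2 : ms y n x * (∑ k ∈ Finset.range (n + 1), w k) =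
      ∑ k ∈ Finset.range (n + 1), (k : ℝ) * w k := by
    rw [hw]
    rw [hmn]
    apply Finset.sum_congr rfl
    intro k _
    ring
  obtain ⟨j, rfl⟩ : ∃ j, n = K + j := ⟨n - K, by omega⟩
  constructor
  · intro h
    have h1 : 2 * w (K + 1) ≤ w K := by
      have := mul_le_mul_of_nonneg_right h (pow_nonneg hx.le K)
      calc 2 * w (K + 1) = 2 * (ev r (K + j) (K + 1) * x) * x ^ K := by
            rw [hw]
            show 2 * (ev r (K + j) (K + 1) * x ^ (K + 1)) = _
            ring
        _ ≤ w K := this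
    have h2 := lg_sum_down hnn (lg_down hpos hzero hlw h1) j
    have h3 : ∑ k ∈ Finset.range (K + j + 1), ((k : ℝ) - K - 2) * w k ≤ 0 := by
      refine h2.trans ?_
      have := mul_nonneg (Nat.cast_nonneg (α := ℝ) j) (hnn (K + j))
      linarith
    have h4 : ∑ k ∈ Finset.range (K + j + 1), ((k : ℝ) - K - 2) * w k =
        (ms y (K + j) x - (K + 2)) * ∑ k ∈ Finset.range (K + j + 1), w k := by
      rw [sub_mul, hmn2, Finset.mul_sum, ← Finset.sum_sub_distrib]
      apply Finset.sum_congr rfl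
      intro k _
      ring
    rw [h4] at h3
    by_contra hcon
    push Not at hcon
    have := mul_pos (sub_pos.2 hcon) hsum
    linarith
  · intro h
    have h1 : 2 * w K ≤ w (K + 1) := by
      have := mul_le_mul_of_nonneg_right h (pow_nonneg hx.le K)
      calc 2 * w K = 2 * ev r (K + j) K * x ^ K := by
            rw [hw]
            show 2 * (ev r (K + j) K * x ^ K) = _
            ring
        _ ≤ ev r (K + j) (K + 1) * x * x ^ K := this
        _ = w (K + 1) := by
            rw [hw]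
            show _ = ev r (K + j) (K + 1) * x ^ (K + 1)
            ring
    have h2 := lg_up (fun k hk => hpos k (by omega)) hlw h1
    have h2' : ∀ i, i ≤ K → 2 * w i ≤ w (i + 1) := fun i hi => by
      have := h2 (K - i) (by omega)
      have e : K - (K - i) = i := by omega
      rw [e] at this
      exact this
    have h3 := lg_sum_up' hnn h2' j
    have h4 : ∑ k ∈ Finset.range (K + j + 1), ((k : ℝ) - K + 1) * w k =
        (ms y (K + j) x - (K - 1)) * ∑ k ∈ Finset.range (K + j + 1), w k := by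
      rw [sub_mul, hmn2, Finset.mul_sum, ← Finset.sum_sub_distrib]
      apply Finset.sum_congr rfl
      intro k _
      ring
    rw [h4] at h3
    by_contra hcon
    push Not at hcon
    have := mul_neg_of_neg_of_pos (sub_neg.2 hcon) hsum
    linarith

end Pool.Agent.H53.ATPR
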