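import Mathlib
import Pool.Agent.H53.ATPR.Spec

set_option autoImplicit false

namespace Pool.Agent.H53.ATPR

private lemma low_bern (x : ℝ) (hx : 0 ≤ x) (n : ℕ) :
    x ^ n * (x + (n + 1)) ≤ (x + 1) ^ (n + 1) := by
  induction n with
  | zero => simp
  | succ n ih =>
    have h1 : (x + 1) ^ (n + 1 + 1) = (x + 1) * (x + 1) ^ (n + 1) := by ring
    have h2 : (x + 1) * (x ^ n * (x + (n + 1))) ≤ (x + 1) * (x + 1) ^ (n + 1) :=
      mul_le_mul_of_nonneg_left ih (by linarith)
    have h3 : 0 ≤ x ^ n * ((n : ℝ) + 1) := by positivity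
    rw [h1]
    push_cast
    have h4 : (x + 1) * (x ^ n * (x + (n + 1))) = x ^ (n + 1) * (x + (n + 1 + 1)) +
        x ^ n * ((n : ℝ) + 1) := by ring
    linarith

/-- coefficients of the recursion for `u` -/
private noncomputable def lowb (r n k : ℕ) : ℝ :=
  ((r : ℝ) * (n + 1) - k) * ((k : ℝ) + 1) ^ (n + 1) / ((k : ℝ) + 2) ^ (n + 2)

private noncomputable def lowu (r n k : ℕ) : ℝ := ev r n k / ((k : ℝ) + 1) ^ (n + 1)

private lemma lowb_mono (r n k : ℕ) (hr : 1 ≤ r) (h : (r + 1) * (k + 3) ≤ r * (n + 1)) :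
    lowb r n k ≤ lowb r n (k + 1) := by
  have hr' : (1 : ℝ) ≤ r := by exact_mod_cast hr
  have hh : ((r : ℝ) + 1) * (k + 3) ≤ r * (n + 1) := by exact_mod_cast h
  have hk : (0 : ℝ) ≤ k := Nat.cast_nonneg k
  obtain ⟨j, hj⟩ : ∃ j : ℝ, j = k + 2 := ⟨_, rfl⟩
  have hj2 : 2 ≤ j := by linarith
  obtain ⟨q, hq⟩ : ∃ q : ℝ, q = r * (n + 1) - j + 1 := ⟨_, rfl⟩
  have hh' : ((r : ℝ) + 1) * (j + 1) ≤ r * (n + 1) := by rw [hj]; linarith
  have hq1 : (r : ℝ) * (j + 1) ≤ q := by rw [hq]; nlinarith
  have hnj : j + 1 ≤ r * ((n : ℝ) - j) := by nlinarith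
  have hq0 : 0 ≤ q := le_trans (by positivity) hq1
  have hnj0 : 0 < (n : ℝ) - j := by
    by_contra hcon
    push Not at hcon
    have : (r : ℝ) * ((n : ℝ) - j) ≤ 0 := mul_nonpos_of_nonneg_of_nonpos (by linarith) hcon
    linarith
  have key : (q + 1) * (j + 1) * (j ^ 2 - 1) ≤ q * j * (j ^ 2 - 1 + (n + 1)) := by
    have h1 : (r : ℝ) * (j + 1) * (j * ((n : ℝ) - j)) ≤ q * (j * ((n : ℝ) - j)) :=
      mul_le_mul_of_nonneg_right hq1 (by positivity)
    have h2 : (j + 1) * j * (j + 1) ≤ (j + 1) * j * (r * ((n : ℝ) - j)) :=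
      mul_le_mul_of_nonneg_left hnj (by positivity)
    have h3 : 0 ≤ q * (j + 1) := by positivity
    nlinarith
  have hb := low_bern (j ^ 2 - 1) (by nlinarith) n
  have hpos : 0 ≤ (j ^ 2 - 1) ^ n := pow_nonneg (by nlinarith) n
  have main : (q + 1) * (j - 1) ^ (n + 1) * (j + 1) ^ (n + 2) ≤
      q * j ^ (n + 1) * j ^ (n + 2) := by
    have e1 : (q + 1) * (j - 1) ^ (n + 1) * (j + 1) ^ (n + 2) =
        (q + 1) * (j + 1) * (j ^ 2 - 1) * (j ^ 2 - 1) ^ n := by
      have : (j ^ 2 - 1) = (j - 1) * (j + 1) := by ring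
      rw [this, mul_pow]
      ring
    have e2 : q * j ^ (n + 1) * j ^ (n + 2) = q * j * (j ^ 2 - 1 + 1) ^ (n + 1) := by
      have : j ^ 2 - 1 + 1 = j ^ 2 := by ring
      rw [this]
      ring
    rw [e1, e2]
    calc (q + 1) * (j + 1) * (j ^ 2 - 1) * (j ^ 2 - 1) ^ n
        ≤ q * j * (j ^ 2 - 1 + (n + 1)) * (j ^ 2 - 1) ^ n :=
          mul_le_mul_of_nonneg_right key hpos
      _ = q * j * ((j ^ 2 - 1) ^ n * (j ^ 2 - 1 + (n + 1))) := by ring
      _ ≤ q * j * (j ^ 2 - 1 + 1) ^ (n + 1) :=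
          mul_le_mul_of_nonneg_left hb (by positivity)
  unfold lowb
  rw [div_le_div_iff₀ (by positivity) (by positivity)]
  have e3 : (r : ℝ) * (n + 1) - k = q + 1 := by rw [hq, hj]; ring
  have e4 : (r : ℝ) * (n + 1) - ((k + 1 : ℕ) : ℝ) = q := by rw [hq, hj]; push_cast; ring
  have e5 : (k : ℝ) + 1 = j - 1 := by rw [hj]; ring
  have e6 : ((k + 1 : ℕ) : ℝ) + 2 = j + 1 := by rw [hj]; push_cast; ring
  have e7 : ((k + 1 : ℕ) : ℝ) + 1 = j := by rw [hj]; push_cast; ring
  have e8 : (k : ℝ) + 2 = j := by rw [hj]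
  rw [e3, e4, e5, e6, e7, e8]
  exact main

theorem low (h0 : RootSt) (h1 : EvSt) (h2 : MeanSt) (h3 : LogcSt) : LowSt := by
  intro r hr
  obtain ⟨e1, e2, e3, e4, -⟩ := h1 r hr
  obtain ⟨y, hy⟩ := h0 r hr
  obtain ⟨m1, -⟩ := h2 r hr y hy
  have hl := h3 r hr y hy
  have hr' : (1 : ℝ) ≤ r := by exact_mod_cast hr
  obtain ⟨c, hc⟩ : ∃ c : ℝ, c = Real.exp (-8) / 2 := ⟨_, rfl⟩
  have hc0 : 0 < c := by rw [hc]; positivity
  have hev0 : ∀ n k, 0 ≤ ev r n k := by
    intro n k
    by_cases hk : k ≤ n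
    · linarith [e3 n k hk]
    · rw [e2 n k (by omega)]
  have hu0 : ∀ n k, 0 ≤ lowu r n k := fun n k => by
    unfold lowu
    exact div_nonneg (hev0 n k) (by positivity)
  have hb0 : ∀ n k : ℕ, k ≤ r * (n + 1) → 0 ≤ lowb r n k := by
    intro n k hk
    have : (k : ℝ) ≤ r * (n + 1) := by exact_mod_cast hk
    unfold lowb
    apply div_nonneg _ (by positivity)
    exact mul_nonneg (by linarith) (by positivity)
  have hrec : ∀ n k : ℕ, lowu r (n + 1) (k + 1) = lowu r n (k + 1) + lowb r n k * lowu r n k := by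
    intro n k
    unfold lowu lowb
    rw [e4 n k]
    have hk1 : ((k : ℝ) + 1) ≠ 0 := by positivity
    have hk2 : ((k : ℝ) + 2) ≠ 0 := by positivity
    have hk3 : (((k + 1 : ℕ) : ℝ) + 1) = (k : ℝ) + 2 := by push_cast; ring
    rw [hk3]
    field_simp
    ring
  have hrec0 : ∀ n : ℕ, lowu r n 0 = 1 := by
    intro n
    unfold lowu
    rw [e1 n]
    simp
  have main : ∀ n k : ℕ, (r + 1) * (k + 3) ≤ r * n → c * lowu r n k ≤ lowu r n (k + 1) := by
    intro n
    induction n with
    | zero =>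
      intro k hk
      exfalso
      have : 0 < (r + 1) * (k + 3) := by positivity
      omega
    | succ n ih =>
      intro k hk
      by_cases hk2 : (r + 1) * (k + 3) ≤ r * n
      · have ih1 := ih k hk2
        rcases k with _ | k
        · rw [hrec n 0, hrec0]
          rw [hrec0] at ih1
          have := mul_nonneg (hb0 n 0 (Nat.zero_le _)) (hu0 n 0)
          simp only [zero_add] at ih1 ⊢
          linarith
        · have hk3 : (r + 1) * (k + 3) ≤ r * n :=
            le_trans (Nat.mul_le_mul_left _ (by omega)) hk2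
          have ih2 := ih k hk3
          rw [hrec n (k + 1), hrec n k]
          have hmono := lowb_mono r n k hr (le_trans hk3 (Nat.mul_le_mul_left _ (by omega)))
          have hbk : 0 ≤ lowb r n k := hb0 n k (by nlinarith)
          have s1 : lowb r n k * (c * lowu r n k) ≤ lowb r n k * lowu r n (k + 1) :=
            mul_le_mul_of_nonneg_left ih2 hbk
          have s2 : lowb r n k * lowu r n (k + 1) ≤ lowb r n (k + 1) * lowu r n (k + 1) :=
            mul_le_mul_of_nonneg_right hmono (hu0 _ _)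
          nlinarith
      · -- entering
        push Not at hk2
        have hkn : k + 2 < n + 1 := by
          by_contra hcon
          push Not at hcon
          have : r * (n + 1) ≤ r * (k + 2) := Nat.mul_le_mul_left _ hcon
          nlinarith
        have hhalf : ev r (n + 1) k < 2 * ev r (n + 1) (k + 1) := by
          by_contra hcon
          push Not at hcon
          have h := (hl (n + 1) k 1 one_pos (by omega)).1 (by rw [mul_one]; exact hcon)
          rw [m1 (n + 1)] at h
          have hk' : ((r : ℝ) + 1) * (k + 3) ≤ r * ((n + 1 : ℕ) : ℝ) := by exact_mod_cast hk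
          have : (k : ℝ) + 3 ≤ (r : ℝ) * ((n + 1 : ℕ) : ℝ) / (r + 1) := by
            rw [le_div_iff₀ (by linarith)]
            linarith
          linarith
        have hn8 : n + 2 ≤ 8 * (k + 1) := by
          have : n < 2 * (k + 3) := by
            by_contra hcon
            push Not at hcon
            have h5 : r * (2 * (k + 3)) ≤ r * n := Nat.mul_le_mul_left _ hcon
            nlinarith
          omega
        -- power estimate
        have hpow : Real.exp (-8) * ((k : ℝ) + 2) ^ (n + 2) ≤ ((k : ℝ) + 1) ^ (n + 2) := by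
          have hk1 : (0 : ℝ) < (k : ℝ) + 1 := by positivity
          have a1 : ((k : ℝ) + 2) ≤ ((k : ℝ) + 1) * Real.exp (1 / ((k : ℝ) + 1)) := by
            have := Real.add_one_le_exp (1 / ((k : ℝ) + 1))
            have a2 : ((k : ℝ) + 1) * (1 / ((k : ℝ) + 1) + 1) = (k : ℝ) + 2 := by
              field_simp
              ring
            rw [← a2]
            exact mul_le_mul_of_nonneg_left this hk1.le
          have a3 : ((k : ℝ) + 2) ^ (n + 2) ≤
              ((k : ℝ) + 1) ^ (n + 2) * Real.exp (8) := by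
            calc ((k : ℝ) + 2) ^ (n + 2)
                ≤ (((k : ℝ) + 1) * Real.exp (1 / ((k : ℝ) + 1))) ^ (n + 2) :=
                  pow_le_pow_left₀ (by positivity) a1 _
              _ = ((k : ℝ) + 1) ^ (n + 2) * Real.exp (((n + 2 : ℕ) : ℝ) * (1 / ((k : ℝ) + 1))) := by
                  rw [mul_pow, ← Real.exp_nat_mul]
              _ ≤ ((k : ℝ) + 1) ^ (n + 2) * Real.exp (8) := by
                  apply mul_le_mul_of_nonneg_left _ (by positivity)
                  apply Real.exp_le_exp.mpr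
                  rw [mul_one_div, div_le_iff₀ hk1]
                  exact_mod_cast hn8
          calc Real.exp (-8) * ((k : ℝ) + 2) ^ (n + 2)
              ≤ Real.exp (-8) * (((k : ℝ) + 1) ^ (n + 2) * Real.exp (8)) :=
                mul_le_mul_of_nonneg_left a3 (Real.exp_pos _).le
            _ = ((k : ℝ) + 1) ^ (n + 2) * (Real.exp (-8) * Real.exp 8) := by ring
            _ = ((k : ℝ) + 1) ^ (n + 2) := by
                rw [← Real.exp_add]; norm_num
        unfold lowu
        have hk3 : (((k + 1 : ℕ) : ℝ) + 1) = (k : ℝ) + 2 := by push_cast; ring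
        rw [hk3, ← mul_div_assoc, div_le_div_iff₀ (by positivity) (by positivity)]
        have e5 : n + 1 + 1 = n + 2 := rfl
        rw [e5]
        have hnn : 0 ≤ ev r (n + 1) k := hev0 _ _
        calc c * ev r (n + 1) k * ((k : ℝ) + 2) ^ (n + 2)
            = (ev r (n + 1) k / 2) * (Real.exp (-8) * ((k : ℝ) + 2) ^ (n + 2)) := by
              rw [hc]; ring
          _ ≤ (ev r (n + 1) k / 2) * ((k : ℝ) + 1) ^ (n + 2) :=
              mul_le_mul_of_nonneg_left hpow (by linarith)
          _ ≤ ev r (n + 1) (k + 1) * ((k : ℝ) + 1) ^ (n + 2) :=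
              mul_le_mul_of_nonneg_right (by linarith) (by positivity)
  refine ⟨c, hc0, fun n k hk => ?_⟩
  have h := main n k hk
  unfold lowu at h
  have hk3 : (((k + 1 : ℕ) : ℝ) + 1) = (k : ℝ) + 2 := by push_cast; ring
  rw [hk3, ← mul_div_assoc, div_le_div_iff₀ (by positivity) (by positivity)] at h
  linarith

end Pool.Agent.H53.ATPR
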