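import Pool.Agent.H53.ATPR.Spec

/-!
# ATPR MEAN: the mean `ms` of the rows of the r-th order Eulerian triangle
-/

set_option autoImplicit false

open Filter Complex
open scoped Topology Real

namespace Pool.Agent.H53.ATPR

namespace MeanAux

/-- The real row polynomial. -/
noncomputable def fR (r n : ℕ) (x : ℝ) : ℝ := ∑ k ∈ Finset.range (n + 1), ev r n k * x ^ k

theorem fR_prod {r : ℕ} {y : ℕ → ℕ → ℝ} (hy : IsY r y) (n : ℕ) (x : ℝ) :
    fR r n x = ∏ i ∈ Finset.range n, (1 + y n i * x) := by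
  have h := hy.2 n (x : ℂ)
  have h2 : ((fR r n x : ℝ) : ℂ) = ((∏ i ∈ Finset.range n, (1 + y n i * x) : ℝ) : ℂ) := by
    rw [fR]
    push_cast
    rw [← h, Fr]
  exact_mod_cast h2

theorem one_add_pos {r : ℕ} {y : ℕ → ℕ → ℝ} (hy : IsY r y) (n i : ℕ) {x : ℝ} (hx : 0 ≤ x) :
    0 < 1 + y n i * x := by
  have := mul_nonneg (hy.1 n i).le hx
  linarith

theorem fR_pos {r : ℕ} {y : ℕ → ℕ → ℝ} (hy : IsY r y) (n : ℕ) {x : ℝ} (hx : 0 ≤ x) :
    0 < fR r n x := by
  rw [fR_prod hy]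
  exact Finset.prod_pos fun i _ => one_add_pos hy n i hx

theorem hasDerivAt_fR (r n : ℕ) (x : ℝ) :
    HasDerivAt (fR r n) (∑ k ∈ Finset.range (n + 1), ev r n k * ((k : ℝ) * x ^ (k - 1))) x := by
  have h : HasDerivAt (fun x : ℝ => ∑ k ∈ Finset.range (n + 1), ev r n k * x ^ k)
      (∑ k ∈ Finset.range (n + 1), ev r n k * ((k : ℝ) * x ^ (k - 1))) x :=
    HasDerivAt.fun_sum fun k _ => (hasDerivAt_pow k x).const_mul (ev r n k)
  exact h

theorem hasDerivAt_prod' {r : ℕ} {y : ℕ → ℕ → ℝ} (hy : IsY r y) (n : ℕ) {x : ℝ} (hx : 0 < x) :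
    HasDerivAt (fR r n) (ms y n x * fR r n x / x) x := by
  have h1 : fR r n = fun x : ℝ => ∏ i ∈ Finset.range n, (1 + y n i * x) := by
    funext t
    exact fR_prod hy n t
  have h2 : HasDerivAt (fun x : ℝ => ∏ i ∈ Finset.range n, (1 + y n i * x))
      (∑ i ∈ Finset.range n, (∏ j ∈ (Finset.range n).erase i, (1 + y n j * x)) • y n i) x := by
    refine HasDerivAt.fun_finsetProd fun i _ => ?_
    have := ((hasDerivAt_id x).const_mul (y n i)).const_add 1
    simpa using this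
  have h3 : (∑ i ∈ Finset.range n, (∏ j ∈ (Finset.range n).erase i, (1 + y n j * x)) • y n i)
      = ms y n x * fR r n x / x := by
    rw [eq_div_iff hx.ne', ms, Finset.sum_mul, Finset.sum_mul]
    refine Finset.sum_congr rfl fun i hi => ?_
    rw [fR_prod hy, ← Finset.mul_prod_erase (Finset.range n) _ hi]
    have hp := one_add_pos hy n i hx.le
    rw [smul_eq_mul, div_mul_eq_mul_div, eq_div_iff hp.ne']
    ring
  rw [h1, ← h1, ← h3, h1]
  exact h2

theorem ms_mul_fR {r : ℕ} {y : ℕ → ℕ → ℝ} (hy : IsY r y) (n : ℕ) {x : ℝ} (hx : 0 < x) :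
    ms y n x * fR r n x = ∑ k ∈ Finset.range (n + 1), (k : ℝ) * ev r n k * x ^ k := by
  have h := (hasDerivAt_prod' hy n hx).unique (hasDerivAt_fR r n x)
  rw [div_eq_iff hx.ne'] at h
  rw [h, Finset.sum_mul]
  refine Finset.sum_congr rfl fun k _ => ?_
  cases k with
  | zero => simp
  | succ k =>
    simp only [Nat.add_sub_cancel]
    ring

theorem fR_succ {r : ℕ} (hr : 1 ≤ r) (hev : EvSt) {y : ℕ → ℕ → ℝ} (hy : IsY r y) (n : ℕ) {x : ℝ}
    (hx : 0 < x) : fR r (n + 1) x = fR r n x * R0 r y n x := by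
  obtain ⟨h0, hz, -, hrec, -⟩ := hev r hr
  have hG := ms_mul_fR hy n hx
  have e1 : fR r (n + 1) x = (∑ k ∈ Finset.range (n + 1), ev r (n + 1) (k + 1) * x ^ (k + 1))
      + 1 := by
    rw [fR, Finset.sum_range_succ' _ (n + 1), h0]
    simp
  have e2 : (∑ k ∈ Finset.range (n + 1), ((k : ℝ) + 2) * ev r n (k + 1) * x ^ (k + 1)) + 1
      = ∑ k ∈ Finset.range (n + 1), ((k : ℝ) + 1) * ev r n k * x ^ k := by
    have a1 := Finset.sum_range_succ' (fun k : ℕ => ((k : ℝ) + 1) * ev r n k * x ^ k) (n + 1)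
    have a2 := Finset.sum_range_succ (fun k : ℕ => ((k : ℝ) + 1) * ev r n k * x ^ k) (n + 1)
    have a3 : ev r n (n + 1) = 0 := hz n (n + 1) (Nat.lt_succ_self n)
    rw [a3] at a2
    simp only [mul_zero, zero_mul, add_zero] at a2
    rw [← a2, a1]
    have a4 : ((0 : ℕ) : ℝ) + 1 = 1 := by norm_num
    rw [h0, a4]
    simp only [pow_zero, mul_one]
    congr 1
    refine Finset.sum_congr rfl fun k _ => ?_
    push_cast
    ring
  have e3 : fR r (n + 1) x = (∑ k ∈ Finset.range (n + 1), ((k : ℝ) + 1) * ev r n k * x ^ k)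
      + ∑ k ∈ Finset.range (n + 1), ((r : ℝ) * (n + 1) - k) * ev r n k * x ^ (k + 1) := by
    rw [e1, ← e2, add_right_comm, ← Finset.sum_add_distrib]
    congr 1
    refine Finset.sum_congr rfl fun k _ => ?_
    rw [hrec]
    ring
  have e4 : (∑ k ∈ Finset.range (n + 1), ((k : ℝ) + 1) * ev r n k * x ^ k)
      = ms y n x * fR r n x + fR r n x := by
    rw [hG, fR, ← Finset.sum_add_distrib]
    refine Finset.sum_congr rfl fun k _ => ?_
    ring
  have e5 : (∑ k ∈ Finset.range (n + 1), ((r : ℝ) * (n + 1) - k) * ev r n k * x ^ (k + 1))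
      = x * ((r : ℝ) * (n + 1) * fR r n x - ms y n x * fR r n x) := by
    rw [hG, fR, Finset.mul_sum, ← Finset.sum_sub_distrib, Finset.mul_sum]
    refine Finset.sum_congr rfl fun k _ => ?_
    ring
  rw [e3, e4, e5, R0]
  ring

theorem R0_pos {r : ℕ} (hr : 1 ≤ r) (hev : EvSt) {y : ℕ → ℕ → ℝ} (hy : IsY r y) (n : ℕ) {x : ℝ}
    (hx : 0 < x) : 0 < R0 r y n x := by
  have h1 := fR_pos hy n hx.le
  have h2 := fR_pos hy (n + 1) hx.le
  rw [fR_succ hr hev hy n hx] at h2
  exact (mul_pos_iff_of_pos_left h1).1 h2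

theorem hasDerivAt_ms {r : ℕ} {y : ℕ → ℕ → ℝ} (hy : IsY r y) (n : ℕ) {x : ℝ} (hx : 0 < x) :
    HasDerivAt (ms y n) (vs y n x / x) x := by
  have h : HasDerivAt (fun x : ℝ => ∑ i ∈ Finset.range n, y n i * x / (1 + y n i * x))
      (∑ i ∈ Finset.range n, (y n i * (1 + y n i * x) - y n i * x * y n i) / (1 + y n i * x) ^ 2)
      x := by
    refine HasDerivAt.fun_sum fun i _ => ?_
    have hp := one_add_pos hy n i hx.le
    have h1 : HasDerivAt (fun x : ℝ => y n i * x) (y n i) x := by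
      simpa using (hasDerivAt_id x).const_mul (y n i)
    exact h1.div (h1.const_add 1) hp.ne'
  have h2 : (∑ i ∈ Finset.range n,
      (y n i * (1 + y n i * x) - y n i * x * y n i) / (1 + y n i * x) ^ 2) = vs y n x / x := by
    rw [vs, Finset.sum_div]
    refine Finset.sum_congr rfl fun i _ => ?_
    have hp := one_add_pos hy n i hx.le
    field_simp
    ring
  rw [← h2]
  exact h

theorem hasDerivAt_R0 {r : ℕ} {y : ℕ → ℕ → ℝ} (hy : IsY r y) (n : ℕ) {x : ℝ} (hx : 0 < x) :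
    HasDerivAt (R0 r y n) (B0 r y n x / x) x := by
  have h1 := hasDerivAt_ms hy n hx
  have h2 : HasDerivAt (fun x : ℝ => 1 + ms y n x + ((r : ℝ) * (n + 1) - ms y n x) * x)
      (vs y n x / x + ((-(vs y n x / x)) * x + ((r : ℝ) * (n + 1) - ms y n x) * 1)) x :=
    (h1.const_add 1).add ((h1.const_sub ((r : ℝ) * (n + 1))).mul (hasDerivAt_id x))
  have h3 : vs y n x / x + ((-(vs y n x / x)) * x + ((r : ℝ) * (n + 1) - ms y n x) * 1)
      = B0 r y n x / x := by
    rw [B0]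
    field_simp
    ring
  rw [← h3]
  exact h2

theorem ms_succ {r : ℕ} (hr : 1 ≤ r) (hev : EvSt) {y : ℕ → ℕ → ℝ} (hy : IsY r y) (n : ℕ) {x : ℝ}
    (hx : 0 < x) : ms y (n + 1) x = ms y n x + mu r y n x := by
  have h1 := hasDerivAt_prod' hy (n + 1) hx
  have h2 : HasDerivAt (fR r (n + 1))
      (ms y n x * fR r n x / x * R0 r y n x + fR r n x * (B0 r y n x / x)) x := by
    have h3 := (hasDerivAt_prod' hy n hx).mul (hasDerivAt_R0 hy n hx)
    refine h3.congr_of_eventuallyEq ?_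
    filter_upwards [lt_mem_nhds hx] with t ht
    rw [fR_succ hr hev hy n ht]
    rfl
  have h4 := h1.unique h2
  have hf := fR_pos hy n hx.le
  have hR := R0_pos hr hev hy n hx
  rw [fR_succ hr hev hy n hx] at h4
  rw [mu]
  field_simp at h4 ⊢
  linarith

theorem ms_mono {r : ℕ} {y : ℕ → ℕ → ℝ} (hy : IsY r y) (n : ℕ) {x x' : ℝ} (hx : 0 ≤ x)
    (hxx : x ≤ x') : ms y n x ≤ ms y n x' := by
  rw [ms, ms]
  refine Finset.sum_le_sum fun i _ => ?_
  have h1 := one_add_pos hy n i hx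
  have h2 := one_add_pos hy n i (hx.trans hxx)
  rw [div_le_div_iff₀ h1 h2]
  have h3 := mul_le_mul_of_nonneg_left hxx (hy.1 n i).le
  nlinarith

theorem ms_exists {r : ℕ} {y : ℕ → ℕ → ℝ} (hy : IsY r y) (n k : ℕ) (hk : 0 < k) (hkn : k < n) :
    ∃ x : ℝ, 0 < x ∧ ms y n x = k := by
  set X : ℝ := ∑ i ∈ Finset.range n, (n : ℝ) / y n i with hX
  have hX0 : 0 ≤ X := Finset.sum_nonneg fun i _ => div_nonneg (Nat.cast_nonneg n) (hy.1 n i).le
  have hc : ContinuousOn (ms y n) (Set.Icc 0 X) := by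
    have : ContinuousOn (fun x : ℝ => ∑ i ∈ Finset.range n, y n i * x / (1 + y n i * x))
        (Set.Icc 0 X) := by
      refine continuousOn_finsetSum _ fun i _ => ?_
      refine ContinuousOn.div (by fun_prop) (by fun_prop) fun x hx => ?_
      exact (one_add_pos hy n i hx.1).ne'
    exact this
  have hn : (0 : ℝ) < (n : ℝ) + 1 := by positivity
  have hkn' : (k : ℝ) + 1 ≤ n := by exact_mod_cast hkn
  have hk' : (0 : ℝ) < k := by exact_mod_cast hk
  have h0 : ms y n 0 = 0 := by simp [ms]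
  have hbig : (k : ℝ) ≤ ms y n X := by
    have h1 : ∀ i ∈ Finset.range n, (n : ℝ) / (n + 1) ≤ y n i * X / (1 + y n i * X) := by
      intro i hi
      have h2 : (n : ℝ) / y n i ≤ X :=
        Finset.single_le_sum (f := fun i => (n : ℝ) / y n i)
          (fun j _ => div_nonneg (Nat.cast_nonneg n) (hy.1 n j).le) hi
      have h3 : (n : ℝ) ≤ y n i * X := by
        rw [div_le_iff₀ (hy.1 n i)] at h2
        linarith
      rw [div_le_div_iff₀ hn (one_add_pos hy n i hX0)]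
      nlinarith
    have h4 : (n : ℝ) * ((n : ℝ) / (n + 1)) ≤ ms y n X := by
      have := Finset.sum_le_sum h1
      rw [Finset.sum_const, Finset.card_range, nsmul_eq_mul] at this
      exact this
    have h5 : (n : ℝ) - 1 ≤ (n : ℝ) * ((n : ℝ) / (n + 1)) := by
      rw [← mul_div_assoc, le_div_iff₀ hn]
      nlinarith
    linarith
  have hmem : (k : ℝ) ∈ Set.Icc (ms y n 0) (ms y n X) := ⟨by rw [h0]; exact hk'.le, hbig⟩
  obtain ⟨x, hx, hxk⟩ := intermediate_value_Icc hX0 hc hmem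
  refine ⟨x, lt_of_le_of_ne hx.1 ?_, hxk⟩
  rintro rfl
  rw [h0] at hxk
  exact hk'.ne hxk

end MeanAux

open MeanAux in
/-- MEAN -/
theorem mean : EvSt → MeanSt := by
  intro hev r hr y hy
  have hsucc : ∀ (n : ℕ) (x : ℝ), 0 < x → ms y (n + 1) x = ms y n x + mu r y n x :=
    fun n x hx => ms_succ hr hev hy n hx
  refine ⟨?_, hsucc, fun n x x' hx hxx => ms_mono hy n hx.le hxx,
    fun n k hk hkn => ms_exists hy n k hk hkn, fun n x hx => ms_mul_fR hy n hx⟩
  intro n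
  have hr0 : (0 : ℝ) < (r : ℝ) + 1 := by positivity
  induction n with
  | zero => simp [ms]
  | succ n ih =>
    have hr1 : (0 : ℝ) < 1 + (r : ℝ) * ((n : ℝ) + 1) := by positivity
    rw [hsucc n 1 one_pos, mu, B0, R0, ih]
    have e : 1 + (r : ℝ) * n / (r + 1) + ((r : ℝ) * (n + 1) - (r : ℝ) * n / (r + 1)) * 1
        = 1 + (r : ℝ) * ((n : ℝ) + 1) := by ring
    rw [e]
    push_cast
    field_simp
    ring

end Pool.Agent.H53.ATPR
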