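import Pool.Agent.H53.ATPR.Spec

/-!
# Part PIL: the row operations
-/

set_option autoImplicit false

namespace Pool.Agent.H53.ATPR

private theorem pil_sum (η : ℕ → ℂ) (i : ℕ) : ∀ s : ℕ, pl η i s =
    ∑ a ∈ Finset.range (i + 1),
      (-1 : ℂ) ^ (i - a) * (i.choose a : ℂ) * ∏ c ∈ Finset.range a, (1 + η (s + c)) := by
  induction i with
  | zero => intro s; simp [pl]
  | succ i ih =>
    intro s
    have hW : ∀ a : ℕ, (1 + η s) * ∏ c ∈ Finset.range a, (1 + η (s + 1 + c)) =
        ∏ c ∈ Finset.range (a + 1), (1 + η (s + c)) := by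
      intro a
      rw [Finset.prod_range_succ', Nat.add_zero, mul_comm]
      congr 1
      refine Finset.prod_congr rfl fun c _ => ?_
      rw [Nat.add_assoc, Nat.add_comm 1 c]
    show (1 + η s) * pl η i (s + 1) - pl η i s = _
    rw [ih (s + 1), ih s, Finset.mul_sum]
    have h1 : ∑ a ∈ Finset.range (i + 1), (1 + η s) * ((-1 : ℂ) ^ (i - a) * (i.choose a : ℂ) *
        ∏ c ∈ Finset.range a, (1 + η (s + 1 + c))) =
        ∑ a ∈ Finset.range (i + 1), (-1 : ℂ) ^ (i - a) * (i.choose a : ℂ) *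
          ∏ c ∈ Finset.range (a + 1), (1 + η (s + c)) := by
      refine Finset.sum_congr rfl fun a _ => ?_
      rw [← hW a]
      ring
    rw [h1]
    have h2 : ∑ a ∈ Finset.range (i + 1 + 1), (-1 : ℂ) ^ (i + 1 - a) * ((i + 1).choose a : ℂ) *
        ∏ c ∈ Finset.range a, (1 + η (s + c)) =
        ∑ a ∈ Finset.range (i + 1), (-1 : ℂ) ^ (i - a) * (((i.choose a : ℂ) +
          (i.choose (a + 1) : ℂ)) * ∏ c ∈ Finset.range (a + 1), (1 + η (s + c))) +
          (-1 : ℂ) ^ (i + 1) := by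
      rw [Finset.sum_range_succ']
      congr 1
      · refine Finset.sum_congr rfl fun a _ => ?_
        rw [Nat.add_sub_add_right, Nat.choose_succ_succ]
        push_cast
        ring
      · simp
    rw [h2]
    have h3 : ∑ a ∈ Finset.range (i + 1), (-1 : ℂ) ^ (i - a) * (i.choose a : ℂ) *
        ∏ c ∈ Finset.range a, (1 + η (s + c)) =
        - ∑ a ∈ Finset.range (i + 1), (-1 : ℂ) ^ (i - a) * ((i.choose (a + 1) : ℂ) *
          ∏ c ∈ Finset.range (a + 1), (1 + η (s + c))) + (-1 : ℂ) ^ i := by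
      rw [Finset.sum_range_succ', Finset.sum_range_succ (fun a => (-1 : ℂ) ^ (i - a) *
        ((i.choose (a + 1) : ℂ) * ∏ c ∈ Finset.range (a + 1), (1 + η (s + c)))) i,
        Nat.choose_succ_self]
      simp only [Nat.sub_zero, Nat.choose_zero_right, Nat.cast_one, mul_one,
        Finset.range_zero, Finset.prod_empty, Nat.cast_zero, zero_mul, mul_zero, add_zero]
      congr 1
      rw [← Finset.sum_neg_distrib]
      refine Finset.sum_congr rfl fun a ha => ?_
      have ha' := Finset.mem_range.1 ha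
      have h4 : i - a = (i - (a + 1)) + 1 := by omega
      rw [h4, pow_succ]
      ring
    rw [h3, pow_succ]
    have h5 : ∑ a ∈ Finset.range (i + 1), (-1 : ℂ) ^ (i - a) * (((i.choose a : ℂ) +
          (i.choose (a + 1) : ℂ)) * ∏ c ∈ Finset.range (a + 1), (1 + η (s + c))) =
        ∑ a ∈ Finset.range (i + 1), (-1 : ℂ) ^ (i - a) * (i.choose a : ℂ) *
          ∏ c ∈ Finset.range (a + 1), (1 + η (s + c)) +
        ∑ a ∈ Finset.range (i + 1), (-1 : ℂ) ^ (i - a) * ((i.choose (a + 1) : ℂ) *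
          ∏ c ∈ Finset.range (a + 1), (1 + η (s + c))) := by
      rw [← Finset.sum_add_distrib]
      refine Finset.sum_congr rfl fun a _ => ?_
      ring
    rw [h5]
    ring

private theorem pil_dl_add (f g : ℕ → ℂ) (j : ℕ) : ∀ a,
    dl (fun s => f s + g s) j a = dl f j a + dl g j a := by
  induction j with
  | zero => intro a; rfl
  | succ j ih =>
    intro a
    show dl (fun s => f s + g s) j (a + 1) - dl (fun s => f s + g s) j a = _
    rw [ih, ih]
    show _ = dl f j (a + 1) - dl f j a + (dl g j (a + 1) - dl g j a)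
    ring

private theorem pil_dl_shift (f : ℕ → ℂ) (j : ℕ) : ∀ a,
    dl (fun s => f (s + 1)) j a = dl f j (a + 1) := by
  induction j with
  | zero => intro a; rfl
  | succ j ih =>
    intro a
    show dl (fun s => f (s + 1)) j (a + 1) - dl (fun s => f (s + 1)) j a = _
    rw [ih, ih]
    rfl

private theorem pil_dl_succ (f : ℕ → ℂ) (j : ℕ) : ∀ a,
    dl (fun s => f (s + 1) - f s) j a = dl f (j + 1) a := by
  induction j with
  | zero => intro a; rfl
  | succ j ih =>
    intro a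
    show dl (fun s => f (s + 1) - f s) j (a + 1) - dl (fun s => f (s + 1) - f s) j a = _
    rw [ih, ih]
    rfl

private theorem pil_dl_one (j : ℕ) : ∀ a, dl (fun _ => (1 : ℂ)) (j + 1) a = 0 := by
  induction j with
  | zero =>
    intro a
    show (1 : ℂ) - 1 = 0
    ring
  | succ j ih =>
    intro a
    show dl (fun _ => (1 : ℂ)) (j + 1) (a + 1) - dl (fun _ => (1 : ℂ)) (j + 1) a = 0
    rw [ih, ih]
    ring

private theorem pil_mul {Y : ℝ} (hY : 0 ≤ Y) (j : ℕ) : ∀ (f g : ℕ → ℂ) (A B : ℝ) (L : ℕ),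
    0 ≤ A → 0 ≤ B →
    (∀ l a : ℕ, a + l ≤ L → ‖dl f l a‖ ≤ A * Y ^ l) →
    (∀ l a : ℕ, a + l ≤ L → ‖dl g l a‖ ≤ B * Y ^ l) →
    ∀ a : ℕ, a + j ≤ L → ‖dl (fun s => f s * g s) j a‖ ≤ 2 ^ j * (A * B * Y ^ j) := by
  induction j with
  | zero =>
    intro f g A B L hA hB hf hg a ha
    show ‖f a * g a‖ ≤ _
    rw [norm_mul]
    have h1 := hf 0 a (by omega)
    have h2 := hg 0 a (by omega)
    simp only [pow_zero, mul_one] at h1 h2
    have h1' : ‖f a‖ ≤ A := h1
    have h2' : ‖g a‖ ≤ B := h2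
    simp only [pow_zero, mul_one, one_mul]
    exact mul_le_mul h1' h2' (norm_nonneg _) hA
  | succ j ih =>
    intro f g A B L hA hB hf hg a ha
    have hL : 1 ≤ L := by omega
    have e : dl (fun s => f s * g s) (j + 1) a =
        dl (fun s => (f (s + 1) - f s) * g (s + 1)) j a +
          dl (fun s => f s * (g (s + 1) - g s)) j a := by
      rw [← pil_dl_succ, ← pil_dl_add]
      congr 1
      funext s
      ring
    rw [e]
    have h1 : ‖dl (fun s => (f (s + 1) - f s) * g (s + 1)) j a‖ ≤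
        2 ^ j * ((A * Y) * B * Y ^ j) := by
      refine ih (fun s => f (s + 1) - f s) (fun s => g (s + 1)) (A * Y) B (L - 1)
        (mul_nonneg hA hY) hB ?_ ?_ a (by omega)
      · intro l b hb
        rw [pil_dl_succ]
        refine (hf (l + 1) b (by omega)).trans (le_of_eq ?_)
        rw [pow_succ]
        ring
      · intro l b hb
        rw [pil_dl_shift]
        exact hg l (b + 1) (by omega)
    have h2 : ‖dl (fun s => f s * (g (s + 1) - g s)) j a‖ ≤
        2 ^ j * (A * (B * Y) * Y ^ j) := by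
      refine ih f (fun s => g (s + 1) - g s) A (B * Y) (L - 1) hA (mul_nonneg hB hY) ?_ ?_ a
        (by omega)
      · intro l b hb
        exact hf l b (by omega)
      · intro l b hb
        rw [pil_dl_succ]
        refine (hg (l + 1) b (by omega)).trans (le_of_eq ?_)
        rw [pow_succ]
        ring
    refine (norm_add_le _ _).trans ((add_le_add h1 h2).trans (le_of_eq ?_))
    rw [pow_succ, pow_succ]
    ring

private theorem pil_step (η : ℕ → ℂ) (i s : ℕ) : pl η (i + 1) s =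
    (pl η i (s + 1) - pl η i s) + η s * pl η i (s + 1) := by
  show (1 + η s) * pl η i (s + 1) - pl η i s = _
  ring

private theorem pil_A {X Y : ℝ} (hX : 0 ≤ X) (hY : 0 ≤ Y) {η : ℕ → ℂ} {I : ℕ}
    (h : ∀ a j : ℕ, a + j ≤ I → ‖dl η j a‖ ≤ X * Y ^ j) (i : ℕ) : ∀ s j : ℕ, s + j + i ≤ I →
    ‖dl (pl η i) j s‖ ≤ (2 ^ I) ^ i * (X + Y) ^ i * Y ^ j := by
  induction i with
  | zero =>
    intro s j _
    have e : pl η 0 = fun _ => (1 : ℂ) := by
      funext s
      rfl
    rw [e]
    cases j with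
    | zero =>
      show ‖(1 : ℂ)‖ ≤ _
      simp
    | succ j =>
      rw [pil_dl_one, norm_zero]
      positivity
  | succ i ih =>
    intro s j hs
    have e : dl (pl η (i + 1)) j s =
        dl (pl η i) (j + 1) s + dl (fun s => η s * pl η i (s + 1)) j s := by
      rw [← pil_dl_succ, ← pil_dl_add]
      congr 1
      funext s
      exact pil_step η i s
    rw [e]
    set K : ℝ := (2 ^ I) ^ i * (X + Y) ^ i with hK
    have hK0 : 0 ≤ K := by positivity
    have h1 : ‖dl (pl η i) (j + 1) s‖ ≤ K * Y ^ (j + 1) := ih s (j + 1) (by omega)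
    have h2 : ‖dl (fun s => η s * pl η i (s + 1)) j s‖ ≤ 2 ^ j * (X * K * Y ^ j) := by
      refine pil_mul hY j η (fun s => pl η i (s + 1)) X K (I - 1 - i) hX hK0 ?_ ?_ s (by omega)
      · intro l a hl
        exact h a l (by omega)
      · intro l a hl
        rw [pil_dl_shift]
        exact ih (a + 1) l (by omega)
    refine (norm_add_le _ _).trans ((add_le_add h1 h2).trans ?_)
    have h3 : (2 : ℝ) ^ j ≤ 2 ^ I := pow_le_pow_right₀ (by norm_num) (by omega)
    have h4 : (1 : ℝ) ≤ 2 ^ I := one_le_pow₀ (by norm_num)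
    have h5 : (0 : ℝ) ≤ K * Y ^ j := mul_nonneg hK0 (pow_nonneg hY j)
    calc K * Y ^ (j + 1) + 2 ^ j * (X * K * Y ^ j)
        = (K * Y ^ j) * (1 * Y) + (K * Y ^ j) * (2 ^ j * X) := by rw [pow_succ]; ring
      _ ≤ (K * Y ^ j) * (2 ^ I * Y) + (K * Y ^ j) * (2 ^ I * X) := by
          refine add_le_add (mul_le_mul_of_nonneg_left ?_ h5) (mul_le_mul_of_nonneg_left ?_ h5)
          · exact mul_le_mul_of_nonneg_right h4 hY
          · exact mul_le_mul_of_nonneg_right h3 hX
      _ = (2 ^ I) ^ (i + 1) * (X + Y) ^ (i + 1) * Y ^ j := by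
          rw [hK, pow_succ, pow_succ]
          ring

private theorem pil_B {X Y D : ℝ} (hX : 0 ≤ X) (hXD : X ≤ D) (hY : 0 ≤ Y) {η : ℕ → ℂ} {I : ℕ}
    (h : ∀ a j : ℕ, a + j ≤ I → ‖dl η j a‖ ≤ X * Y ^ j) (i : ℕ) : ∀ s : ℕ, s + i ≤ I →
    ‖pl η i s - η s ^ i‖ * (X + Y) ≤
      (i : ℝ) * (1 + D) * (2 ^ I) ^ i * (X + Y) ^ i * Y := by
  have hD : 0 ≤ D := hX.trans hXD
  induction i with
  | zero =>
    intro s _
    simp [pl]
  | succ i ih =>
    intro s hs
    have e : pl η (i + 1) s - η s ^ (i + 1) =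
        (1 + η s) * dl (pl η i) 1 s + η s * (pl η i s - η s ^ i) := by
      show (1 + η s) * pl η i (s + 1) - pl η i s - η s ^ (i + 1) =
        (1 + η s) * (pl η i (s + 1) - pl η i s) + η s * (pl η i s - η s ^ i)
      rw [pow_succ]
      ring
    have hη : ‖η s‖ ≤ X := by
      have := h s 0 (by omega)
      simpa [dl] using this
    have h1 : ‖dl (pl η i) 1 s‖ ≤ (2 ^ I) ^ i * (X + Y) ^ i * Y ^ 1 :=
      pil_A hX hY h i s 1 (by omega)
    have h2 := ih s (by omega)
    have h3 : ‖(1 + η s)‖ ≤ 1 + D := by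
      refine (norm_add_le _ _).trans ?_
      rw [norm_one]
      linarith
    set K : ℝ := (2 ^ I) ^ i * (X + Y) ^ i with hK
    have hK0 : 0 ≤ K := by positivity
    have hXY : 0 ≤ X + Y := by linarith
    have h4 : (1 : ℝ) ≤ 2 ^ I := one_le_pow₀ (by norm_num)
    rw [e]
    have h5 : ‖(1 + η s) * dl (pl η i) 1 s + η s * (pl η i s - η s ^ i)‖ ≤
        (1 + D) * (K * Y) + X * ‖pl η i s - η s ^ i‖ := by
      refine (norm_add_le _ _).trans (add_le_add ?_ ?_)
      · rw [norm_mul]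
        rw [pow_one] at h1
        exact mul_le_mul h3 h1 (norm_nonneg _) (by linarith)
      · rw [norm_mul]
        exact mul_le_mul_of_nonneg_right hη (norm_nonneg _)
    calc ‖(1 + η s) * dl (pl η i) 1 s + η s * (pl η i s - η s ^ i)‖ * (X + Y)
        ≤ ((1 + D) * (K * Y) + X * ‖pl η i s - η s ^ i‖) * (X + Y) :=
          mul_le_mul_of_nonneg_right h5 hXY
      _ = (1 + D) * (K * Y) * (X + Y) + X * (‖pl η i s - η s ^ i‖ * (X + Y)) := by ring
      _ ≤ (1 + D) * (K * Y) * (X + Y) + X * ((i : ℝ) * (1 + D) * (2 ^ I) ^ i * (X + Y) ^ i * Y) :=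
          add_le_add le_rfl (mul_le_mul_of_nonneg_left h2 hX)
      _ = (1 + D) * (K * Y) * (X + Y) + X * ((i : ℝ) * (1 + D) * (K * Y)) := by
          rw [hK]; ring
      _ ≤ (1 + D) * (K * Y) * (X + Y) + (X + Y) * ((i : ℝ) * (1 + D) * (K * Y)) := by
          refine add_le_add le_rfl (mul_le_mul_of_nonneg_right (by linarith) ?_)
          have : 0 ≤ 1 + D := by linarith
          positivity
      _ = 1 * (((i : ℝ) + 1) * (1 + D) * K * (X + Y) * Y) := by ring
      _ ≤ 2 ^ I * (((i : ℝ) + 1) * (1 + D) * K * (X + Y) * Y) := by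
          refine mul_le_mul_of_nonneg_right h4 ?_
          have : 0 ≤ 1 + D := by linarith
          positivity
      _ = ((i + 1 : ℕ) : ℝ) * (1 + D) * (2 ^ I) ^ (i + 1) * (X + Y) ^ (i + 1) * Y := by
          rw [hK, pow_succ, pow_succ]
          push_cast
          ring

/-- PIL. -/
theorem pil : PilSt := by
  refine ⟨fun η i s => pil_sum η i s, fun i D => ?_⟩
  refine ⟨(2 ^ i) ^ i + (i : ℝ) * (1 + |D|) * (2 ^ i) ^ i, by positivity, ?_⟩
  intro X Y η hX hXD hY hYD h
  have hXY : 0 ≤ X + Y := by linarith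
  have hA := pil_A hX hY h i 0 0 (by omega)
  have hB := pil_B hX (hXD.trans (le_abs_self D)) hY h i 0 (by omega)
  constructor
  · have h1 : ‖pl η i 0‖ ≤ (2 ^ i) ^ i * (X + Y) ^ i := by
      have h2 : dl (pl η i) 0 0 = pl η i 0 := rfl
      rw [h2, pow_zero, mul_one] at hA
      exact hA
    refine h1.trans (mul_le_mul_of_nonneg_right ?_ (pow_nonneg hXY i))
    have : (0 : ℝ) ≤ (i : ℝ) * (1 + |D|) * (2 ^ i) ^ i := by positivity
    linarith
  · refine hB.trans (mul_le_mul_of_nonneg_right (mul_le_mul_of_nonneg_right ?_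
      (pow_nonneg hXY i)) hY)
    have : (0 : ℝ) ≤ (2 ^ i) ^ i := by positivity
    linarith

end Pool.Agent.H53.ATPR
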