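import Pool.Agent.H53.ATPR.Spec

/-!
# The right edge: finitely many columns from the end
-/

set_option autoImplicit false

open Filter
open scoped Topology

namespace Pool.Agent.H53.ATPR

private theorem er_zero (r : ℕ) : ∀ n k : ℕ, n < k → er r (n + 1) k = 0 := by
  intro n
  induction n with
  | zero =>
    intro k hk
    obtain ⟨k, rfl⟩ : ∃ l, k = l + 1 := ⟨k - 1, by omega⟩
    rw [er]
    rcases k with _ | k
    · simp [er]
    · simp [er]
  | succ n ih =>
    intro k hk
    obtain ⟨k, rfl⟩ : ∃ l, k = l + 1 := ⟨k - 1, by omega⟩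
    rw [er, ih (k + 1) (by omega), ih k (by omega)]
    simp

private theorem ev_zero (r : ℕ) {n k : ℕ} (h : n < k) : ev r n k = 0 := by
  rw [ev, er_zero r n k h]
  simp

/-- The scaled entries. -/
private noncomputable def Mn (r c m n : ℕ) : Matrix (Fin m) (Fin m) ℝ :=
  Matrix.of fun i j : Fin m => if (j : ℕ) ≤ c + i then
    (sg r (n + i) / sg r n) ^ (c + i - j) *
      (gr r (n + i) (c + i - j) / (gr r (n + i) 0 * sg r (n + i) ^ (c + i - j : ℕ))) else 0

private theorem entry (r : ℕ) {c n i j : ℕ} (hc : c ≤ n) (hs : 0 < sg r n)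
    (hs' : 0 < sg r (n + i)) (hg : 0 < gr r (n + i) 0) :
    ev r (n + i) (n - c + j) = (gr r (n + i) 0 * sg r n ^ (c + i)) * ((sg r n ^ j)⁻¹ *
      (if j ≤ c + i then (sg r (n + i) / sg r n) ^ (c + i - j) *
        (gr r (n + i) (c + i - j) / (gr r (n + i) 0 * sg r (n + i) ^ (c + i - j : ℕ)))
        else 0)) := by
  split_ifs with h
  · have e1 : gr r (n + i) (c + i - j) = ev r (n + i) (n - c + j) := by
      rw [gr, if_pos (by omega)]
      congr 1
      omega
    have e2 : sg r n ^ (c + i) = sg r n ^ (c + i - j) * sg r n ^ j := by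
      rw [← pow_add]
      congr 1
      omega
    rw [e1, e2, div_pow]
    field_simp
  · rw [ev_zero r (by omega)]
    simp

private theorem solr_eq (r m : ℕ) {c n : ℕ} (hc : c ≤ n) (hs : ∀ n : ℕ, 1 ≤ n → 0 < sg r n)
    (hn : 1 ≤ n) (hg : ∀ n : ℕ, 0 < gr r n 0) :
    solr r m n (n - c) = (∏ i : Fin m, gr r (n + i) 0 * sg r n ^ (c + (i : ℕ))) *
      ((∏ j : Fin m, (sg r n ^ (j : ℕ))⁻¹) * (Mn r c m n).det) := by
  rw [solr, ← Matrix.det_mul_row, ← Matrix.det_mul_column]
  congr 1
  ext i j
  rw [Matrix.of_apply, Matrix.of_apply, Matrix.of_apply, Mn, Matrix.of_apply]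
  exact entry r hc (hs n hn) (hs _ (by omega)) (hg _)

private theorem ratio (r : ℕ) (hs : ∀ n : ℕ, 1 ≤ n → 0 < sg r n)
    (h1 : Tendsto (fun n => sg r (n + 1) / sg r n) atTop (𝓝 1)) (i : ℕ) :
    Tendsto (fun n => sg r (n + i) / sg r n) atTop (𝓝 1) := by
  induction i with
  | zero =>
    refine tendsto_const_nhds.congr' ?_
    filter_upwards [eventually_ge_atTop 1] with n hn
    rw [add_zero, div_self (hs n hn).ne']
  | succ i ih =>
    have h2 : Tendsto (fun n => sg r (n + i + 1) / sg r (n + i)) atTop (𝓝 1) :=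
      h1.comp (tendsto_add_atTop_nat i)
    have h3 := h2.mul ih
    rw [mul_one] at h3
    refine h3.congr' ?_
    filter_upwards [eventually_ge_atTop 1] with n hn
    have := (hs (n + i) (by omega)).ne'
    rw [div_mul_div_cancel₀ this, add_assoc]

theorem right : GrSt → GamSt → FacSt → RightRSt := by
  intro hG hGam hF r hr m c0
  obtain ⟨hg, -, -, -⟩ := hG r (by omega)
  obtain ⟨hs, h1, hc⟩ := hGam r hr
  have hg0 : ∀ n : ℕ, 0 < gr r n 0 := fun n => hg n 0 (Nat.zero_le _)
  have key : ∀ c : ℕ, ∀ᶠ n in atTop, 0 < solr r m n (n - c) := by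
    intro c
    have hlim : Tendsto (fun n => (Mn r c m n).det) atTop
        (𝓝 (Matrix.det (Matrix.of fun i j : Fin m =>
          if (j : ℕ) ≤ c + i then 1 / ((c + i - j).factorial : ℝ) else 0))) := by
      refine (Continuous.matrix_det continuous_id).continuousAt.tendsto.comp ?_
      refine tendsto_pi_nhds.2 fun i => tendsto_pi_nhds.2 fun j => ?_
      simp only [Matrix.of_apply]
      split_ifs with h
      · have h2 := (ratio r hs h1 i).pow (c + i - j)
        have h3 := (hc (c + i - j)).comp (tendsto_add_atTop_nat (i : ℕ))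
        have h4 := h2.mul h3
        rw [one_pow, one_mul] at h4
        exact h4
      · exact tendsto_const_nhds
    have hpos : ∀ᶠ n in atTop, 0 < (Mn r c m n).det := hlim.eventually_const_lt (hF m c)
    filter_upwards [hpos, eventually_ge_atTop 1, eventually_ge_atTop c] with n hn h1n hcn
    rw [solr_eq r m hcn hs h1n hg0]
    refine mul_pos (Finset.prod_pos fun i _ => ?_) (mul_pos (Finset.prod_pos fun j _ => ?_) hn)
    · exact mul_pos (hg0 _) (pow_pos (hs n h1n) _)
    · exact inv_pos.2 (pow_pos (hs n h1n) _)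
  have hall : ∀ᶠ n in atTop, ∀ c ∈ Finset.range (c0 + 1), 0 < solr r m n (n - c) :=
    (Filter.eventually_all_finset _).2 fun c _ => key c
  obtain ⟨N, hN⟩ := eventually_atTop.1 hall
  refine ⟨N, fun n hn k hk hkc => ?_⟩
  have := hN n hn (n - k) (Finset.mem_range.2 (by omega))
  rwa [Nat.sub_sub_self hk] at this

end Pool.Agent.H53.ATPR
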