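import Pool.Agent.H53.ATPR.Spec

/-!
# Upper bound for the ratio of consecutive entries
-/

set_option autoImplicit false

namespace Pool.Agent.H53.ATPR

private lemma upp_partial (q : ℝ) (hq0 : 0 ≤ q) (hq1 : q < 1) (n : ℕ) :
    ∑ p ∈ Finset.range n, ((p : ℝ) + 1) * q ^ (p + 1) ≤ q / (1 - q) ^ 2 := by
  have h1 : HasSum (fun p : ℕ => (p : ℝ) * q ^ p) (q / (1 - q) ^ 2) :=
    hasSum_coe_mul_geometric_of_norm_lt_one (by rwa [Real.norm_of_nonneg hq0])
  have h2 := sum_le_hasSum (Finset.range (n + 1)) (fun p _ => by positivity) h1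
  rw [Finset.sum_range_succ'] at h2
  simpa using h2

theorem upp : EvSt → UppSt := by
  intro hev r hr n k
  obtain ⟨e0, ez, ep, er1, -⟩ := hev r hr
  have hr1 : (1 : ℝ) ≤ r := by exact_mod_cast hr
  have hpos : ∀ n k, 0 ≤ ev r n k := by
    intro n k
    rcases le_or_gt k n with h | h
    · linarith [ep n k h]
    · rw [ez n k h]
  have hk0 : (0 : ℝ) ≤ k := Nat.cast_nonneg k
  -- growth of the right side
  have hB : ∀ n, ((k : ℝ) + 1) * ((k : ℝ) + 2) * (ev r n k * ((k : ℝ) + 2) ^ (n + 1)) ≤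
      ev r (n + 1) k * ((k : ℝ) + 2) ^ (n + 1 + 1) := by
    intro n
    have h1 : ((k : ℝ) + 1) * ev r n k ≤ ev r (n + 1) k := by
      rcases k with _ | k'
      · rw [e0, e0]
        simp
      · rw [er1]
        have h2 : 0 ≤ ((r : ℝ) * (n + 1) - k') * ev r n k' := by
          rcases le_or_gt k' n with h | h
          · apply mul_nonneg _ (hpos n k')
            have h3 : (k' : ℝ) ≤ n := by exact_mod_cast h
            have h4 : (n : ℝ) + 1 ≤ (r : ℝ) * (n + 1) := by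
              have : (0 : ℝ) ≤ (n : ℝ) + 1 := by positivity
              nlinarith
            linarith
          · rw [ez n k' h, mul_zero]
        push_cast
        linarith
    have h3 : (0 : ℝ) ≤ ((k : ℝ) + 2) ^ (n + 1 + 1) := by positivity
    calc ((k : ℝ) + 1) * ((k : ℝ) + 2) * (ev r n k * ((k : ℝ) + 2) ^ (n + 1))
        = (((k : ℝ) + 1) * ev r n k) * ((k : ℝ) + 2) ^ (n + 1 + 1) := by ring
      _ ≤ _ := mul_le_mul_of_nonneg_right h1 h3
  set q : ℝ := ((k : ℝ) + 1) / ((k : ℝ) + 2) with hq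
  have hk2 : (0 : ℝ) < (k : ℝ) + 2 := by positivity
  have hq0 : 0 ≤ q := by positivity
  have hq1 : q < 1 := by
    rw [hq, div_lt_one hk2]
    linarith
  have key : ∀ n, ev r n (k + 1) * ((k : ℝ) + 1) ^ (n + 1) ≤
      ((r : ℝ) / ((k : ℝ) + 2) * ∑ p ∈ Finset.range n, ((p : ℝ) + 1) * q ^ (p + 1)) *
        (ev r n k * ((k : ℝ) + 2) ^ (n + 1)) := by
    intro n
    induction n with
    | zero =>
      rw [ez 0 (k + 1) (Nat.succ_pos k)]
      simp
    | succ n ih =>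
      set S : ℝ := ∑ p ∈ Finset.range n, ((p : ℝ) + 1) * q ^ (p + 1) with hS
      have hS0 : 0 ≤ S := Finset.sum_nonneg fun p _ => by positivity
      rw [Finset.sum_range_succ, ← hS, er1]
      have hqp : q ^ (n + 1) * ((k : ℝ) + 2) ^ (n + 1) = ((k : ℝ) + 1) ^ (n + 1) := by
        rw [← mul_pow, hq, div_mul_cancel₀ _ hk2.ne']
      have h1 : ((r : ℝ) * (n + 1) - k) * ev r n k ≤ (r : ℝ) * (n + 1) * ev r n k := by
        have := mul_nonneg hk0 (hpos n k)
        linarith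
      have hp : (0 : ℝ) ≤ ((k : ℝ) + 1) ^ (n + 1 + 1) := by positivity
      have h2 : (((k : ℝ) + 2) * ev r n (k + 1) + ((r : ℝ) * (n + 1) - k) * ev r n k) *
          ((k : ℝ) + 1) ^ (n + 1 + 1) ≤
          (((k : ℝ) + 1) * ((k : ℝ) + 2)) * (ev r n (k + 1) * ((k : ℝ) + 1) ^ (n + 1)) +
          ((r : ℝ) * (n + 1) * ev r n k) * ((k : ℝ) + 1) ^ (n + 1 + 1) := by
        have := mul_le_mul_of_nonneg_right h1 hp
        calc (((k : ℝ) + 2) * ev r n (k + 1) + ((r : ℝ) * (n + 1) - k) * ev r n k) *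
            ((k : ℝ) + 1) ^ (n + 1 + 1)
            = (((k : ℝ) + 1) * ((k : ℝ) + 2)) * (ev r n (k + 1) * ((k : ℝ) + 1) ^ (n + 1)) +
              (((r : ℝ) * (n + 1) - k) * ev r n k) * ((k : ℝ) + 1) ^ (n + 1 + 1) := by ring
          _ ≤ _ := by linarith
      have hc : (0 : ℝ) ≤ ((k : ℝ) + 1) * ((k : ℝ) + 2) := by positivity
      have h3 := mul_le_mul_of_nonneg_left ih hc
      have h4 : ((r : ℝ) * (n + 1) * ev r n k) * ((k : ℝ) + 1) ^ (n + 1 + 1) =
          ((r : ℝ) / ((k : ℝ) + 2) * (((n : ℝ) + 1) * q ^ (n + 1))) *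
            (((k : ℝ) + 1) * ((k : ℝ) + 2) * (ev r n k * ((k : ℝ) + 2) ^ (n + 1))) := by
        rw [pow_succ ((k : ℝ) + 1) (n + 1), ← hqp]
        field_simp
      have h5 : (0 : ℝ) ≤ (r : ℝ) / ((k : ℝ) + 2) * (S + ((n : ℝ) + 1) * q ^ (n + 1)) := by
        positivity
      have h6 := mul_le_mul_of_nonneg_left (hB n) h5
      refine h2.trans (le_trans ?_ h6)
      rw [h4]
      have h7 : (r : ℝ) / ((k : ℝ) + 2) * (S + ((n : ℝ) + 1) * q ^ (n + 1)) *
          (((k : ℝ) + 1) * ((k : ℝ) + 2) * (ev r n k * ((k : ℝ) + 2) ^ (n + 1))) =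
          ((k : ℝ) + 1) * ((k : ℝ) + 2) * ((r : ℝ) / ((k : ℝ) + 2) * S *
            (ev r n k * ((k : ℝ) + 2) ^ (n + 1))) +
          ((r : ℝ) / ((k : ℝ) + 2) * (((n : ℝ) + 1) * q ^ (n + 1))) *
            (((k : ℝ) + 1) * ((k : ℝ) + 2) * (ev r n k * ((k : ℝ) + 2) ^ (n + 1))) := by
        ring
      rw [h7]
      linarith
  refine (key n).trans ?_
  apply mul_le_mul_of_nonneg_right _ (mul_nonneg (hpos n k) (by positivity))
  have h1 := upp_partial q hq0 hq1 n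
  have h2 : q / (1 - q) ^ 2 = ((k : ℝ) + 1) * ((k : ℝ) + 2) := by
    have h3 : 1 - q = 1 / ((k : ℝ) + 2) := by
      rw [hq]
      field_simp
      ring
    rw [h3, hq]
    field_simp
  rw [h2] at h1
  have h4 : (0 : ℝ) ≤ (r : ℝ) / ((k : ℝ) + 2) := by positivity
  calc (r : ℝ) / ((k : ℝ) + 2) * ∑ p ∈ Finset.range n, ((p : ℝ) + 1) * q ^ (p + 1)
      ≤ (r : ℝ) / ((k : ℝ) + 2) * (((k : ℝ) + 1) * ((k : ℝ) + 2)) :=
        mul_le_mul_of_nonneg_left h1 h4
    _ = (r : ℝ) * (k + 1) := by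
        field_simp

end Pool.Agent.H53.ATPR
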