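import Pool.Agent.H53.ATPR.Spec

set_option autoImplicit false

open MeasureTheory Filter Complex
open scoped Topology Real

namespace Pool.Agent.H53.ATPR

/-- upper bound of the ratio -/
private lemma v1_up (hU : UppSt) (r : ℕ) (hr : 1 ≤ r) (hE : ∀ n k : ℕ, k ≤ n → 1 ≤ ev r n k)
    (n K : ℕ) (hK : K < n) :
    ev r n (K + 1) ≤ (r : ℝ) * n * Real.exp (((n : ℝ) + 1) / (K + 1)) * ev r n K := by
  have h := hU r hr n K
  have hK1 : (0 : ℝ) < (K : ℝ) + 1 := by positivity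
  have hev : 1 ≤ ev r n K := hE n K hK.le
  have hpow : ((K : ℝ) + 2) ^ (n + 1) ≤
      ((K : ℝ) + 1) ^ (n + 1) * Real.exp (((n : ℝ) + 1) / (K + 1)) := by
    have h1 : (K : ℝ) + 2 ≤ ((K : ℝ) + 1) * Real.exp (1 / ((K : ℝ) + 1)) := by
      have := Real.add_one_le_exp (1 / ((K : ℝ) + 1))
      calc (K : ℝ) + 2 = ((K : ℝ) + 1) * (1 / ((K : ℝ) + 1) + 1) := by field_simp; ring
        _ ≤ _ := by gcongr
    calc ((K : ℝ) + 2) ^ (n + 1) ≤ (((K : ℝ) + 1) * Real.exp (1 / ((K : ℝ) + 1))) ^ (n + 1) := by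
          gcongr
      _ = ((K : ℝ) + 1) ^ (n + 1) * Real.exp (((n : ℝ) + 1) / (K + 1)) := by
          rw [mul_pow, ← Real.exp_nat_mul]
          congr 2
          push_cast
          ring
  have hKn : (K : ℝ) + 1 ≤ n := by exact_mod_cast hK
  have hP : (0 : ℝ) < ((K : ℝ) + 1) ^ (n + 1) := by positivity
  have h2 : ev r n (K + 1) * ((K : ℝ) + 1) ^ (n + 1) ≤
      ((r : ℝ) * n * Real.exp (((n : ℝ) + 1) / (K + 1)) * ev r n K) * ((K : ℝ) + 1) ^ (n + 1) := by
    calc ev r n (K + 1) * ((K : ℝ) + 1) ^ (n + 1) ≤ _ := h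
      _ ≤ (r : ℝ) * n * (ev r n K *
          (((K : ℝ) + 1) ^ (n + 1) * Real.exp (((n : ℝ) + 1) / (K + 1)))) := by
          gcongr
      _ = _ := by ring
  exact le_of_mul_le_mul_right h2 hP

/-- lower bound of the ratio -/
private lemma v1_low (hL : LowSt) (hD : Edge1St) (r : ℕ) (hr : 2 ≤ r)
    (hE : ∀ n k : ℕ, k ≤ n → 1 ≤ ev r n k) :
    ∃ c : ℝ, 0 < c ∧ ∀ n K : ℕ, 3 ≤ n → 4 * (r + 1) * (K + 1) ≤ (4 * r + 3) * n →
      c * Real.exp (((n : ℝ) + 1) / (K + 2)) * ev r n K ≤ Real.log n * ev r n (K + 1) := by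
  obtain ⟨c0, hc0, hc⟩ := hL r (by omega)
  obtain ⟨-, h2, h3⟩ := hD r hr
  refine ⟨min c0 (Real.exp (-4) / (24 * (r + 1))), lt_min hc0 (by positivity), ?_⟩
  intro n K hn hK
  have hn3 : (3 : ℝ) ≤ n := by exact_mod_cast hn
  have hlog : 1 ≤ Real.log n := by
    rw [Real.le_log_iff_exp_le (by linarith)]
    have := Real.exp_one_lt_d9
    linarith
  have hKn : K < n := by
    by_contra hcon
    push Not at hcon
    have h1 : 4 * (r + 1) * (n + 1) ≤ 4 * (r + 1) * (K + 1) := by gcongr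
    nlinarith
  have hevK : 1 ≤ ev r n K := hE n K hKn.le
  have hevK1 : 1 ≤ ev r n (K + 1) := hE n (K + 1) hKn
  by_cases hcase : (r + 1) * (K + 3) ≤ r * n
  · have h := hc n K hcase
    have hpow : ((K : ℝ) + 1) ^ (n + 1) * Real.exp (((n : ℝ) + 1) / (K + 2)) ≤
        ((K : ℝ) + 2) ^ (n + 1) := by
      have h1 : ((K : ℝ) + 1) * Real.exp (1 / ((K : ℝ) + 2)) ≤ (K : ℝ) + 2 := by
        have h4 := Real.add_one_le_exp (-(1 / ((K : ℝ) + 2)))
        rw [Real.exp_neg] at h4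
        have h5 : (0 : ℝ) < Real.exp (1 / ((K : ℝ) + 2)) := Real.exp_pos _
        have h6 : ((K : ℝ) + 1) = ((K : ℝ) + 2) * (-(1 / ((K : ℝ) + 2)) + 1) := by
          field_simp; ring
        calc ((K : ℝ) + 1) * Real.exp (1 / ((K : ℝ) + 2))
            = (((K : ℝ) + 2) * (-(1 / ((K : ℝ) + 2)) + 1)) * Real.exp (1 / ((K : ℝ) + 2)) := by
              rw [← h6]
          _ ≤ (((K : ℝ) + 2) * (Real.exp (1 / ((K : ℝ) + 2)))⁻¹) *
              Real.exp (1 / ((K : ℝ) + 2)) := by gcongr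
          _ = _ := by field_simp
      calc ((K : ℝ) + 1) ^ (n + 1) * Real.exp (((n : ℝ) + 1) / (K + 2))
          = (((K : ℝ) + 1) * Real.exp (1 / ((K : ℝ) + 2))) ^ (n + 1) := by
            rw [mul_pow, ← Real.exp_nat_mul]
            congr 2
            push_cast
            ring
        _ ≤ _ := by gcongr
    have hP : (0 : ℝ) < ((K : ℝ) + 1) ^ (n + 1) := by positivity
    have h7 : (c0 * Real.exp (((n : ℝ) + 1) / (K + 2)) * ev r n K) * ((K : ℝ) + 1) ^ (n + 1) ≤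
        ev r n (K + 1) * ((K : ℝ) + 1) ^ (n + 1) := by
      calc (c0 * Real.exp (((n : ℝ) + 1) / (K + 2)) * ev r n K) * ((K : ℝ) + 1) ^ (n + 1)
          = c0 * (ev r n K * (((K : ℝ) + 1) ^ (n + 1) * Real.exp (((n : ℝ) + 1) / (K + 2)))) := by
            ring
        _ ≤ c0 * (ev r n K * ((K : ℝ) + 2) ^ (n + 1)) := by gcongr
        _ ≤ _ := h
    have h8 := le_of_mul_le_mul_right h7 hP
    calc min c0 (Real.exp (-4) / (24 * (r + 1))) * Real.exp (((n : ℝ) + 1) / (K + 2)) * ev r n K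
        ≤ c0 * Real.exp (((n : ℝ) + 1) / (K + 2)) * ev r n K := by
          gcongr
          exact min_le_left _ _
      _ ≤ ev r n (K + 1) := h8
      _ = 1 * ev r n (K + 1) := by ring
      _ ≤ Real.log n * ev r n (K + 1) := by gcongr
  · push Not at hcase
    have h := h2 n (n - K - 1)
    have e1 : n - K - 1 + 1 = n - K := by omega
    have e2 : n - (n - K) = K := by omega
    have e3 : n - (n - K - 1) = K + 1 := by omega
    have g1 : gr r n (n - K - 1 + 1) = ev r n K := by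
      unfold gr
      rw [e1, if_pos (by omega), e2]
    have g2 : gr r n (n - K - 1) = ev r n (K + 1) := by
      unfold gr
      rw [if_pos (by omega), e3]
    rw [g1, g2] at h
    have e4 : ((n - K - 1 : ℕ) : ℝ) + 1 = (n : ℝ) - K := by
      have : ((n - K - 1 : ℕ) : ℝ) + 1 = ((n - K - 1 + 1 : ℕ) : ℝ) := by push_cast; ring
      rw [this, e1, Nat.cast_sub hKn.le]
    rw [e4] at h
    have hsg : sg r n ≤ 6 * (n * Real.log n) := by
      have h4 := h3 n
      have h5 : Real.log ((n : ℝ) + 1) ≤ 2 * Real.log n := by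
        have : Real.log ((n : ℝ) + 1) ≤ Real.log ((n : ℝ) ^ 2) := by
          apply Real.log_le_log (by linarith)
          nlinarith
        rw [Real.log_pow] at this
        push_cast at this
        exact this
      calc sg r n ≤ ((n : ℝ) + 1) * (1 + Real.log ((n : ℝ) + 1)) := h4
        _ ≤ (2 * n) * (3 * Real.log n) := by
            apply mul_le_mul (by linarith) (by linarith) _ (by linarith)
            have : 0 ≤ Real.log ((n : ℝ) + 1) := Real.log_nonneg (by linarith)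
            linarith
        _ = _ := by ring
    have hKR : 4 * ((r : ℝ) + 1) * (K + 1) ≤ (4 * r + 3) * n := by exact_mod_cast hK
    have hr1 : (0 : ℝ) < (r : ℝ) + 1 := by positivity
    have hlow : (n : ℝ) / (4 * (r + 1)) ≤ (n : ℝ) - K := by
      rw [div_le_iff₀ (by positivity)]
      nlinarith
    have hcR : (r : ℝ) * n < (r + 1) * (K + 3) := by exact_mod_cast hcase
    have hr2 : (2 : ℝ) ≤ r := by exact_mod_cast hr
    have hKlow : (n : ℝ) + 1 ≤ 4 * (K + 2) := by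
      -- K + 3 > r n / (r+1) ≥ 2 n / 3
      have h9 : 2 * (n : ℝ) * (r + 1) ≤ 3 * (r * n) := by nlinarith
      have h10 : 2 * (n : ℝ) * (r + 1) < 3 * (K + 3) * (r + 1) := by nlinarith
      have h11 : 2 * (n : ℝ) < 3 * (K + 3) := lt_of_mul_lt_mul_right h10 hr1.le
      have h12 : 2 * n < 3 * (K + 3) := by exact_mod_cast h11
      have h13 : n + 1 ≤ 4 * (K + 2) := by omega
      exact_mod_cast h13
    have hexp : Real.exp (((n : ℝ) + 1) / (K + 2)) ≤ Real.exp 4 := by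
      apply Real.exp_le_exp.mpr
      rw [div_le_iff₀ (by positivity)]
      linarith
    have h14 : (n : ℝ) / (4 * (r + 1)) * ev r n K ≤ 6 * (n * Real.log n) * ev r n (K + 1) := by
      calc (n : ℝ) / (4 * (r + 1)) * ev r n K ≤ ((n : ℝ) - K) * ev r n K := by gcongr
        _ ≤ sg r n * ev r n (K + 1) := h
        _ ≤ _ := by gcongr
    have hn0 : (0 : ℝ) < n := by linarith
    have h15 : 1 / (24 * ((r : ℝ) + 1)) * ev r n K ≤ Real.log n * ev r n (K + 1) := by
      have h16 : (6 * (n : ℝ)) * (1 / (24 * ((r : ℝ) + 1)) * ev r n K) ≤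
          (6 * (n : ℝ)) * (Real.log n * ev r n (K + 1)) := by
        calc (6 * (n : ℝ)) * (1 / (24 * ((r : ℝ) + 1)) * ev r n K)
            = (n : ℝ) / (4 * (r + 1)) * ev r n K := by field_simp; ring
          _ ≤ _ := h14
          _ = _ := by ring
      exact le_of_mul_le_mul_left h16 (by positivity)
    calc min c0 (Real.exp (-4) / (24 * (r + 1))) * Real.exp (((n : ℝ) + 1) / (K + 2)) * ev r n K
        ≤ Real.exp (-4) / (24 * (r + 1)) * Real.exp 4 * ev r n K := by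
          gcongr
          exact min_le_right _ _
      _ = 1 / (24 * ((r : ℝ) + 1)) * ev r n K := by
          rw [Real.exp_neg]
          field_simp
      _ ≤ _ := h15

/-- the eventual inequalities -/
private lemma v1_evt (K1 : ℝ) : ∀ᶠ n : ℕ in atTop, K1 * Real.log n ^ 10 ≤ n := by
  have h1 : (fun x : ℝ => Real.log x ^ 10) =o[atTop] (fun x : ℝ => x) := by
    exact Real.isLittleO_pow_log_id_atTop (n := 10)
  have h2 := h1.comp_tendsto (tendsto_natCast_atTop_atTop (R := ℝ))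
  have h3 : 0 < (1 : ℝ) / (|K1| + 1) := by positivity
  have h4 := h2.def h3
  filter_upwards [h4] with n hn
  simp only [Function.comp_apply, Real.norm_eq_abs] at hn
  rw [abs_of_nonneg (by positivity : (0 : ℝ) ≤ (n : ℝ)),
    abs_of_nonneg (by positivity : (0 : ℝ) ≤ Real.log n ^ 10)] at hn
  calc K1 * Real.log n ^ 10 ≤ (|K1| + 1) * Real.log n ^ 10 := by
        gcongr
        linarith [le_abs_self K1]
    _ ≤ (|K1| + 1) * (1 / (|K1| + 1) * n) := by gcongr
    _ = n := by field_simp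

theorem var1 : EvSt → GrSt → LowSt → UppSt → Edge1St → WinSt → Var1St := by
  intro hEv hGr hL hU hD hW r hr y hy C m
  obtain ⟨-, -, hE, -, -⟩ := hEv r (by omega)
  obtain ⟨c1, hc1, hlow⟩ := v1_low hL hD r hr hE
  have hr2 : (2 : ℝ) ≤ r := by exact_mod_cast hr
  set C' : ℝ := max C 1 with hC'
  have hC1 : 1 ≤ C' := le_max_right _ _
  have hCC : C ≤ C' := le_max_left _ _
  set D : ℝ := (r : ℝ) / c1 * Real.exp 25 with hDdef
  have hD0 : 0 < D := by positivity
  set K1 : ℝ := (256 * r * C' ^ 2) ^ 4 * D ^ 2 + 256 * r * C' ^ 2 * (m + 1) + 64 + 20 * (r + 1)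
    with hK1
  have hK1pos : 0 < K1 := by positivity
  obtain ⟨N, hN⟩ := eventually_atTop.mp ((v1_evt K1).and (eventually_ge_atTop 3))
  refine ⟨N, ?_⟩
  intro n hn k x hx hms hnk hk2
  obtain ⟨hlogn, hn3⟩ := hN n hn
  have hn3R : (3 : ℝ) ≤ n := by exact_mod_cast hn3
  set L : ℝ := Real.log n with hLdef
  have hL1 : 1 ≤ L := by
    rw [hLdef, Real.le_log_iff_exp_le (by linarith)]
    have := Real.exp_one_lt_d9
    linarith
  have hL0 : 0 < L := by linarith
  have hLp : ∀ a : ℕ, a ≤ 10 → L ^ a ≤ L ^ 10 := fun a ha => pow_le_pow_right₀ hL1 ha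
  have hL10 : 1 ≤ L ^ 10 := one_le_pow₀ hL1
  have hm0 : (0 : ℝ) ≤ m := by positivity
  have hk0 : (0 : ℝ) ≤ k := by positivity
  have hn0 : (0 : ℝ) < n := by linarith
  -- consequences of the big inequality
  have b1 : (256 * r * C' ^ 2) ^ 4 * D ^ 2 * L ^ 10 ≤ n := by
    refine le_trans ?_ hlogn
    gcongr
    have : 0 ≤ 256 * r * C' ^ 2 * (m + 1) + 64 + 20 * ((r : ℝ) + 1) := by positivity
    rw [hK1]; linarith
  have b2 : 256 * r * C' ^ 2 * (m + 1) * L ^ 2 ≤ n := by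
    refine le_trans ?_ hlogn
    have : 0 ≤ (256 * r * C' ^ 2) ^ 4 * D ^ 2 + 64 + 20 * ((r : ℝ) + 1) := by positivity
    calc 256 * r * C' ^ 2 * (m + 1) * L ^ 2 ≤ 256 * r * C' ^ 2 * (m + 1) * L ^ 10 := by
          gcongr 256 * r * C' ^ 2 * (m + 1) * ?_
          exact hLp 2 (by norm_num)
      _ ≤ K1 * L ^ 10 := by
          gcongr
          rw [hK1]; linarith
  have b3 : (64 : ℝ) ≤ n := by
    refine le_trans ?_ hlogn
    have : 0 ≤ (256 * r * C' ^ 2) ^ 4 * D ^ 2 + 256 * r * C' ^ 2 * (m + 1) + 20 * ((r : ℝ) + 1) := by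
      positivity
    calc (64 : ℝ) ≤ K1 * 1 := by rw [hK1]; linarith
      _ ≤ K1 * L ^ 10 := by gcongr
  have b4 : 20 * ((r : ℝ) + 1) ≤ n := by
    refine le_trans ?_ hlogn
    have : 0 ≤ (256 * r * C' ^ 2) ^ 4 * D ^ 2 + 256 * r * C' ^ 2 * (m + 1) + 64 := by
      positivity
    calc 20 * ((r : ℝ) + 1) ≤ K1 * 1 := by rw [hK1]; linarith
      _ ≤ K1 * L ^ 10 := by gcongr
  -- k is large
  have k1 : (n : ℝ) < C' * ((k : ℝ) + m) * L := by
    refine lt_of_lt_of_le hnk ?_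
    gcongr
  have k2 : (n : ℝ) < 2 * C' * L * k := by
    have h1 : 2 * C' * m * L ≤ n := by
      refine le_trans ?_ b2
      have h2 : 2 * C' * m * L ≤ 2 * (C' * C') * (m + 1) * (L * L) := by
        have e1 : C' ≤ C' * C' := by nlinarith
        have e2 : L ≤ L * L := by nlinarith
        have e3 : (m : ℝ) ≤ m + 1 := by linarith
        gcongr
      refine le_trans h2 ?_
      have h3 : (2 : ℝ) ≤ 256 * r := by nlinarith
      calc 2 * (C' * C') * (m + 1) * (L * L) ≤ (256 * r) * (C' * C') * (m + 1) * (L * L) := by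
            gcongr
        _ = _ := by ring
    nlinarith
  have k3 : (n : ℝ) ≤ (k : ℝ) ^ 2 := by
    have h1 : (n : ℝ) ^ 2 ≤ (2 * C' * L * k) ^ 2 := by gcongr
    have h2 : 4 * C' ^ 2 * L ^ 2 ≤ n := by
      refine le_trans ?_ b2
      have h3 : (4 : ℝ) ≤ 256 * r * (m + 1) := by nlinarith
      calc 4 * C' ^ 2 * L ^ 2 ≤ (256 * r * (m + 1)) * C' ^ 2 * L ^ 2 := by gcongr
        _ = _ := by ring
    have h4 : (n : ℝ) * n ≤ n * k ^ 2 := by
      calc (n : ℝ) * n = n ^ 2 := by ring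
        _ ≤ (2 * C' * L * k) ^ 2 := h1
        _ = (4 * C' ^ 2 * L ^ 2) * k ^ 2 := by ring
        _ ≤ n * k ^ 2 := by gcongr
    exact le_of_mul_le_mul_left h4 hn0
  have k4 : (8 : ℝ) ≤ k := by
    nlinarith
  have hk2R : 2 * ((r : ℝ) + 1) * k ≤ (2 * r + 1) * n := by exact_mod_cast hk2
  have hkn : (k : ℝ) ≤ n := by
    have h1 : 2 * ((r : ℝ) + 1) * k ≤ 2 * ((r : ℝ) + 1) * n := by nlinarith
    exact le_of_mul_le_mul_left h1 (by positivity)
  -- J
  set J : ℕ := k ^ 2 / (16 * r * n) with hJ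
  have hden : 0 < 16 * r * n := by positivity
  have j1 : (J : ℝ) * (16 * r * n) ≤ (k : ℝ) ^ 2 := by
    have := Nat.div_mul_le_self (k ^ 2) (16 * r * n)
    exact_mod_cast this
  have j2 : (k : ℝ) ^ 2 < ((J : ℝ) + 1) * (16 * r * n) := by
    have h1 : k ^ 2 < (16 * r * n) * (k ^ 2 / (16 * r * n) + 1) := Nat.lt_mul_div_succ _ hden
    have h2 : k ^ 2 < (J + 1) * (16 * r * n) := by rw [hJ]; linarith
    exact_mod_cast h2
  clear_value J
  have hrn : 0 < (r : ℝ) * n := by positivity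
  -- J + 3 <= n / (4 (r+1))
  have j3 : (J : ℝ) * (16 * r) ≤ n := by
    have h1 : ((J : ℝ) * (16 * r)) * n ≤ n * n := by
      calc ((J : ℝ) * (16 * r)) * n = (J : ℝ) * (16 * r * n) := by ring
        _ ≤ (k : ℝ) ^ 2 := j1
        _ ≤ (n : ℝ) ^ 2 := by gcongr
        _ = n * n := by ring
    exact le_of_mul_le_mul_right h1 hn0
  have hJ0 : (0 : ℝ) ≤ J := by positivity
  have j4 : 4 * ((r : ℝ) + 1) * (J + 3) ≤ n := by
    -- 4(r+1) J <= 6 r J <= (3/8) n
    have h1 : 4 * ((r : ℝ) + 1) * J ≤ 6 * r * J := by nlinarith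
    have h2 : 6 * (r : ℝ) * J ≤ 3 / 8 * n := by nlinarith
    have h3 : 12 * ((r : ℝ) + 1) ≤ 12 / 20 * n := by linarith
    nlinarith
  have j5 : (J : ℝ) * 32 ≤ k := by
    have h1 : ((J : ℝ) * 32) * (r * n) ≤ k * (r * n) := by
      have : (k : ℝ) ^ 2 ≤ k * n := by nlinarith
      have h2 : (k : ℝ) * n * 2 ≤ k * n * r := by gcongr
      nlinarith
    exact le_of_mul_le_mul_right h1 hrn
  have n1 : J + 3 ≤ k := by
    have : (J : ℝ) + 3 ≤ k := by linarith
    exact_mod_cast this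
  have n2R : 4 * ((r : ℝ) + 1) * (k + J + 3) ≤ (4 * r + 3) * n := by nlinarith
  have n2 : 4 * (r + 1) * (k + J + 2 + 1) ≤ (4 * r + 3) * n := by
    have : 4 * ((r : ℝ) + 1) * (k + J + 2 + 1) ≤ (4 * r + 3) * n := by linarith
    exact_mod_cast this
  have n3 : k + J + 3 ≤ n := by
    by_contra hcon
    push Not at hcon
    have h1 : 4 * (r + 1) * (n + 1) ≤ 4 * (r + 1) * (k + J + 2 + 1) := by
      apply Nat.mul_le_mul_left
      omega
    nlinarith
  -- the two ratios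
  have u1 := v1_up hU r (by omega) hE n (k - J - 3) (by omega)
  have u2 := hlow n (k + J + 2) hn3 n2
  have e1 : k - J - 3 + 1 = k - J - 2 := by omega
  rw [e1] at u1
  have e2 : k + J + 2 + 1 = k + J + 3 := by omega
  rw [e2] at u2
  have e3 : ((k - J - 3 : ℕ) : ℝ) = (k : ℝ) - J - 3 := by
    rw [show k - J - 3 = k - (J + 3) by omega, Nat.cast_sub n1]
    push_cast
    ring
  have e4 : ((k + J + 2 : ℕ) : ℝ) = (k : ℝ) + J + 2 := by push_cast; ring
  rw [e3] at u1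
  rw [e4] at u2
  have p1 : 0 < (k : ℝ) - J - 3 + 1 := by linarith
  have p2 : 0 < (k : ℝ) + J + 2 + 2 := by linarith
  have hexpo : ((n : ℝ) + 1) / (k - J - 3 + 1) ≤ 25 + ((n : ℝ) + 1) / (k + J + 2 + 2) := by
    have h1 : ((n : ℝ) + 1) / (k - J - 3 + 1) - ((n : ℝ) + 1) / (k + J + 2 + 2) =
        ((n : ℝ) + 1) * (2 * J + 6) / ((k - J - 3 + 1) * (k + J + 2 + 2)) := by
      field_simp
      ring
    have h2 : ((n : ℝ) + 1) * (2 * J + 6) / ((k - J - 3 + 1) * (k + J + 2 + 2)) ≤ 25 := by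
      rw [div_le_iff₀ (by positivity)]
      have h3 : (k : ℝ) ^ 2 / 2 ≤ (k - J - 3 + 1) * (k + J + 2 + 2) := by nlinarith
      have h4 : ((n : ℝ) + 1) * (2 * J + 6) ≤ 2 * n * (2 * J + 6) := by
        gcongr
        linarith
      have h5 : (J : ℝ) * n * 32 ≤ (k : ℝ) ^ 2 := by
        have : (J : ℝ) * n * 32 ≤ (J : ℝ) * n * (16 * r) := by
          gcongr
          linarith
        nlinarith
      nlinarith
    linarith
  have hexp2 : Real.exp (((n : ℝ) + 1) / (k - J - 3 + 1)) ≤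
      Real.exp 25 * Real.exp (((n : ℝ) + 1) / (k + J + 2 + 2)) := by
    rw [← Real.exp_add]
    exact Real.exp_le_exp.mpr hexpo
  have hA : 1 ≤ ev r n (k - J - 3) := hE n _ (by omega)
  have hB : 1 ≤ ev r n (k + J + 2) := hE n _ (by omega)
  have hC2 : 1 ≤ ev r n (k + J + 3) := hE n _ (by omega)
  have hQ : ev r n (k - J - 2) * ev r n (k + J + 2) ≤
      (D * (n * L)) * (ev r n (k - J - 3) * ev r n (k + J + 3)) := by
    set E2 := Real.exp (((n : ℝ) + 1) / (k + J + 2 + 2)) with hE2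
    have hE2p : 0 < E2 := Real.exp_pos _
    calc ev r n (k - J - 2) * ev r n (k + J + 2)
        ≤ ((r : ℝ) * n * Real.exp (((n : ℝ) + 1) / (k - J - 3 + 1)) * ev r n (k - J - 3)) *
          ev r n (k + J + 2) := by gcongr
      _ ≤ ((r : ℝ) * n * (Real.exp 25 * E2) * ev r n (k - J - 3)) * ev r n (k + J + 2) := by
          gcongr
      _ = ((r : ℝ) * n * Real.exp 25 * ev r n (k - J - 3) / c1) *
          (c1 * E2 * ev r n (k + J + 2)) := by
          field_simp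
      _ ≤ ((r : ℝ) * n * Real.exp 25 * ev r n (k - J - 3) / c1) *
          (L * ev r n (k + J + 3)) := by
          gcongr
      _ = _ := by
          rw [hDdef]
          ring
  have w := hW r (by omega) y hy n k J x (D * (n * L)) hx hms n1 n3 hQ
  -- final computation
  set V : ℝ := vs y n x with hV
  set S : ℝ := √(D * (n * L)) with hS
  have hS2 : S ^ 2 = D * (n * L) := Real.sq_sqrt (by positivity)
  have hS0 : 0 < S := Real.sqrt_pos.mpr (by positivity)
  have f1 : (n : ℝ) ≤ 128 * r * C' ^ 2 * L ^ 2 * J := by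
    -- n^2 < 4 C'^2 L^2 k^2 < 4 C'^2 L^2 (J+1) 16 r n
    have h1 : (n : ℝ) ^ 2 ≤ (2 * C' * L * k) ^ 2 := by gcongr
    have h2 : (n : ℝ) * n ≤ (64 * r * C' ^ 2 * L ^ 2 * (J + 1)) * n := by
      calc (n : ℝ) * n = n ^ 2 := by ring
        _ ≤ (2 * C' * L * k) ^ 2 := h1
        _ = 4 * C' ^ 2 * L ^ 2 * k ^ 2 := by ring
        _ ≤ 4 * C' ^ 2 * L ^ 2 * (((J : ℝ) + 1) * (16 * r * n)) := by gcongr
        _ = _ := by ring
    have h3 := le_of_mul_le_mul_right h2 hn0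
    have h4 : 128 * r * C' ^ 2 * L ^ 2 ≤ n := by
      refine le_trans ?_ b2
      have : 0 ≤ (r : ℝ) * C' ^ 2 * L ^ 2 := by positivity
      have h6 : 0 ≤ (r : ℝ) * C' ^ 2 * L ^ 2 * m := by positivity
      nlinarith
    nlinarith
  have f2 : (n : ℝ) ≤ 256 * r * C' ^ 2 * L ^ 2 * (S * V) := by
    calc (n : ℝ) ≤ 128 * r * C' ^ 2 * L ^ 2 * J := f1
      _ ≤ 128 * r * C' ^ 2 * L ^ 2 * (2 * S * V) := by gcongr
      _ = _ := by ring
  have f3 : (n : ℝ) ^ 4 ≤ (256 * r * C' ^ 2 * L ^ 2 * (S * V)) ^ 4 := by gcongr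
  have f4 : (256 * r * C' ^ 2 * L ^ 2 * (S * V)) ^ 4 =
      ((256 * r * C' ^ 2) ^ 4 * D ^ 2 * L ^ 10) * n ^ 2 * V ^ 4 := by
    have : S ^ 4 = (D * (n * L)) ^ 2 := by
      rw [← hS2]; ring
    calc (256 * r * C' ^ 2 * L ^ 2 * (S * V)) ^ 4 =
        (256 * r * C' ^ 2) ^ 4 * L ^ 8 * S ^ 4 * V ^ 4 := by ring
      _ = (256 * r * C' ^ 2) ^ 4 * L ^ 8 * (D * (n * L)) ^ 2 * V ^ 4 := by rw [this]
      _ = _ := by ring
  have hV4 : 0 ≤ V ^ 4 := by positivity
  have f5 : (n : ℝ) ^ 3 * n ≤ n ^ 3 * V ^ 4 := by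
    calc (n : ℝ) ^ 3 * n = n ^ 4 := by ring
      _ ≤ _ := f3
      _ = ((256 * r * C' ^ 2) ^ 4 * D ^ 2 * L ^ 10) * n ^ 2 * V ^ 4 := f4
      _ ≤ n * n ^ 2 * V ^ 4 := by gcongr
      _ = _ := by ring
  exact le_of_mul_le_mul_left f5 (by positivity)

end Pool.Agent.H53.ATPR
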