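import Pool.Agent.H53.ATPR.Spec

/-!
# Lower bounds for the variance near the right edge
-/

set_option autoImplicit false

open MeasureTheory Filter Complex
open scoped Topology Real

namespace Pool.Agent.H53.ATPR

/-- `n` beats a multiple of `1 + log (n + 1)` -/
theorem var2_log (A : ℝ) : ∃ N : ℕ, ∀ n : ℕ, N ≤ n → A * (1 + Real.log ((n : ℝ) + 1)) < n := by
  have h1 : Tendsto (fun n : ℕ => (n : ℝ) + 1) atTop atTop :=
    tendsto_atTop_add_const_right _ _ tendsto_natCast_atTop_atTop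
  have h2 := (Real.isLittleO_log_id_atTop.comp_tendsto h1)
  have hA : (0 : ℝ) < 1 / (4 * (|A| + 1)) := by positivity
  have h3 := h2.def hA
  obtain ⟨N, hN⟩ := eventually_atTop.1 h3
  refine ⟨max N (⌈8 * (|A| + 1)⌉₊ + 1), fun n hn => ?_⟩
  have hn1 : N ≤ n := le_trans (le_max_left _ _) hn
  have hn2 : 8 * (|A| + 1) < (n : ℝ) := by
    have h4 : ⌈8 * (|A| + 1)⌉₊ + 1 ≤ n := le_trans (le_max_right _ _) hn
    have h5 : (((⌈8 * (|A| + 1)⌉₊ + 1 : ℕ)) : ℝ) ≤ n := by exact_mod_cast h4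
    push_cast at h5
    have h6 := Nat.le_ceil (8 * (|A| + 1))
    linarith
  have h4 := hN n hn1
  simp only [Function.comp_apply, id_eq, Real.norm_eq_abs] at h4
  have h5 : (0 : ℝ) ≤ Real.log ((n : ℝ) + 1) := Real.log_nonneg (by
    have : (0 : ℝ) ≤ n := Nat.cast_nonneg n
    linarith)
  rw [abs_of_nonneg h5, abs_of_nonneg (by positivity : (0 : ℝ) ≤ (n : ℝ) + 1)] at h4
  have h6 : (0 : ℝ) < |A| + 1 := by positivity
  have h7 : (|A| + 1) * Real.log ((n : ℝ) + 1) ≤ ((n : ℝ) + 1) / 4 := by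
    calc (|A| + 1) * Real.log ((n : ℝ) + 1) ≤ (|A| + 1) * (1 / (4 * (|A| + 1)) * ((n : ℝ) + 1)) :=
          mul_le_mul_of_nonneg_left h4 h6.le
      _ = ((n : ℝ) + 1) / 4 := by
          field_simp
  have h8 : A * (1 + Real.log ((n : ℝ) + 1)) ≤ (|A| + 1) * (1 + Real.log ((n : ℝ) + 1)) :=
    mul_le_mul_of_nonneg_right (by linarith [le_abs_self A]) (by linarith)
  have h9 : 0 ≤ |A| := abs_nonneg A
  nlinarith

theorem var2 : EvSt → GrSt → MeanSt → Edge1St → Edge2St → WinSt → Var2St := by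
  intro _ hGr hMean hE1 hE2 hWin r hr y hy W
  have hr1 : 1 ≤ r := by omega
  obtain ⟨hgpos, -, -, -⟩ := hGr r hr1
  obtain ⟨hm1, -, hmono, -, -⟩ := hMean r hr1 y hy
  obtain ⟨⟨κ, hκ, hlow⟩, hup, hsg⟩ := hE1 r hr
  obtain ⟨G, n0, hG, hE⟩ := hE2 r hr
  obtain ⟨N1, hN1⟩ := var2_log (4096 * (max W 1) ^ 2 / κ)
  set W' : ℝ := max W 1 with hW'
  have hW1 : 1 ≤ W' := le_max_right _ _
  have hWW : W ≤ W' := le_max_left _ _
  refine ⟨⌈2048 * G * W' ^ 2⌉₊ + 16, max (max n0 N1) (11 * (r + 1)), ?_⟩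
  intro n hn k x hkn hx hms hk hc0
  have hn0 : n0 ≤ n := le_trans (le_trans (le_max_left _ _) (le_max_left _ _)) hn
  have hnN1 : N1 ≤ n := le_trans (le_trans (le_max_right _ _) (le_max_left _ _)) hn
  have hnr : 11 * (r + 1) ≤ n := le_trans (le_max_right _ _) hn
  have hlog := hN1 n hnN1
  have hnpos : (0 : ℝ) < n := by
    have : 0 < n := by omega
    exact_mod_cast this
  -- x is at least one
  have hx1 : 1 ≤ x := by
    by_contra hlt
    push Not at hlt
    have h1 := hmono n x 1 hx hlt.le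
    rw [hms, hm1 n] at h1
    have h2 : ((2 * r + 1 : ℕ) : ℝ) * n < ((2 * (r + 1) : ℕ) : ℝ) * k := by exact_mod_cast hk
    push_cast at h2
    have hr0 : (0 : ℝ) < (r : ℝ) + 1 := by positivity
    rw [le_div_iff₀ hr0] at h1
    nlinarith
  -- the distance to the right edge
  obtain ⟨q, hq⟩ : ∃ q, n = k + q := ⟨n - k, by omega⟩
  have hqn : n - k = q := by omega
  rw [hqn] at hc0
  have hq16 : 16 ≤ q := by omega
  have hqG : 2048 * G * W' ^ 2 ≤ (q : ℝ) := by
    have h1 : ⌈2048 * G * W' ^ 2⌉₊ ≤ q := by omega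
    exact (Nat.le_ceil _).trans (by exact_mod_cast h1)
  have h2q : 2 * (r + 1) * q < n := by
    have h1 : 2 * (r + 1) * n = 2 * (r + 1) * k + 2 * (r + 1) * q := by
      rw [hq]; ring
    have h2 : 2 * (r + 1) * n = (2 * r + 1) * n + n := by ring
    omega
  obtain ⟨J, hJ⟩ : ∃ J, J = q / 4 := ⟨_, rfl⟩
  have hJ4 : 4 * J ≤ q := by omega
  have hJ8 : q ≤ 8 * J := by omega
  have h5q : 5 * q ≤ k := by
    have h1 : 6 * q ≤ 2 * (r + 1) * q := Nat.mul_le_mul_right q (by omega)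
    omega
  have hJk : J + 3 ≤ k := by omega
  have hkJ : k + J + 3 ≤ n := by omega
  obtain ⟨a, ha⟩ : ∃ a, q = a + (J + 3) := ⟨q - (J + 3), by omega⟩
  -- a + 1 = q - J - 2, b = q + J + 2, b + 1 = q + J + 3
  obtain ⟨b, hb⟩ : ∃ b, b = q + J + 2 := ⟨_, rfl⟩
  have e1 : ev r n (k - J - 2) = gr r n b := by
    rw [gr, if_pos (by omega)]
    congr 1
    omega
  have e2 : ev r n (k + J + 2) = gr r n (a + 1) := by
    rw [gr, if_pos (by omega)]
    congr 1
    omega
  have e3 : ev r n (k - J - 3) = gr r n (b + 1) := by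
    rw [gr, if_pos (by omega)]
    congr 1
    omega
  have e4 : ev r n (k + J + 3) = gr r n a := by
    rw [gr, if_pos (by omega)]
    congr 1
    omega
  have p1 : 0 < gr r n b := hgpos n b (by omega)
  have p2 : 0 < gr r n (a + 1) := hgpos n (a + 1) (by omega)
  have p3 : 0 < gr r n (b + 1) := hgpos n (b + 1) (by omega)
  have p4 : 0 < gr r n a := hgpos n a (by omega)
  have haq : (q : ℝ) ≤ 2 * ((a : ℝ) + 1) := by
    have : q ≤ 2 * (a + 1) := by omega
    exact_mod_cast this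
  have hbq : (b : ℝ) + 1 ≤ 2 * q := by
    have : b + 1 ≤ 2 * q := by omega
    exact_mod_cast this
  have hqpos : (16 : ℝ) ≤ q := by exact_mod_cast hq16
  have hJR : (q : ℝ) ≤ 8 * J := by exact_mod_cast hJ8
  have hapos : (0 : ℝ) < (a : ℝ) + 1 := by positivity
  have hbpos : (0 : ℝ) < (b : ℝ) + 1 := by positivity
  have hupa := hup n a
  -- from a bound for Q to the variance
  have fin : ∀ Q : ℝ, 0 ≤ Q → gr r n b * gr r n (a + 1) ≤ Q * (gr r n (b + 1) * gr r n a) →
      256 * (Q * W' ^ 2) ≤ (q : ℝ) ^ 2 → W' ≤ vs y n x := by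
    intro Q hQ h1 h2
    have h3 := hWin r hr1 y hy n k J x Q hx hms hJk hkJ (by rw [e1, e2, e3, e4]; exact h1)
    by_contra hlt
    push Not at hlt
    have h4 : 0 < J := by omega
    have hJpos : (0 : ℝ) < J := by exact_mod_cast h4
    have hsq : 0 ≤ √Q := Real.sqrt_nonneg Q
    have hQ0 : 0 < √Q := by
      rcases hsq.lt_or_eq with h | h
      · exact h
      · rw [← h] at h3
        linarith
    have h5 : (J : ℝ) < 2 * √Q * W' :=
      h3.trans_lt (mul_lt_mul_of_pos_left hlt (by positivity))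
    have h6 : (J : ℝ) ^ 2 < (2 * √Q * W') ^ 2 := by
      apply pow_lt_pow_left₀ h5 hJpos.le
      norm_num
    have h7 : (2 * √Q * W') ^ 2 = 4 * (Q * W' ^ 2) := by
      rw [mul_pow, mul_pow, Real.sq_sqrt hQ]
      ring
    rw [h7] at h6
    have h8 : (q : ℝ) ^ 2 ≤ 64 * (J : ℝ) ^ 2 := by
      have : (q : ℝ) ^ 2 ≤ (8 * (J : ℝ)) ^ 2 := pow_le_pow_left₀ (by positivity) hJR 2
      nlinarith
    linarith
  refine ⟨hWW.trans ?_, Or.inl (by linarith)⟩
  by_cases hbn : (b + 1) ^ 2 ≤ n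
  · -- near the edge
    have h1 := hE n hn0 b hbn
    apply fin (8 * G * q) (by positivity)
    · have h2 : ((a : ℝ) + 1) * (gr r n b * gr r n (a + 1)) ≤
          G * ((b : ℝ) + 1) ^ 2 * (gr r n (b + 1) * gr r n a) := by
        calc ((a : ℝ) + 1) * (gr r n b * gr r n (a + 1)) =
              gr r n b * (((a : ℝ) + 1) * gr r n (a + 1)) := by ring
          _ ≤ gr r n b * (sg r n * gr r n a) := mul_le_mul_of_nonneg_left hupa p1.le
          _ = gr r n a * (sg r n * gr r n b) := by ring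
          _ ≤ gr r n a * (G * ((b : ℝ) + 1) ^ 2 * gr r n (b + 1)) :=
              mul_le_mul_of_nonneg_left h1 p4.le
          _ = _ := by ring
      have h3 : G * ((b : ℝ) + 1) ^ 2 ≤ ((a : ℝ) + 1) * (8 * G * q) := by
        have h4 : ((b : ℝ) + 1) ^ 2 ≤ (2 * q) ^ 2 := pow_le_pow_left₀ hbpos.le hbq 2
        have h5 : ((b : ℝ) + 1) ^ 2 ≤ ((a : ℝ) + 1) * (8 * q) := by nlinarith
        calc G * ((b : ℝ) + 1) ^ 2 ≤ G * (((a : ℝ) + 1) * (8 * q)) :=
              mul_le_mul_of_nonneg_left h5 hG.le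
          _ = _ := by ring
      have h4 : 0 ≤ gr r n (b + 1) * gr r n a := by positivity
      have h5 := h2.trans (mul_le_mul_of_nonneg_right h3 h4)
      have h6 : ((a : ℝ) + 1) * (gr r n b * gr r n (a + 1)) ≤
          ((a : ℝ) + 1) * (8 * G * q * (gr r n (b + 1) * gr r n a)) := by
        linarith
      exact le_of_mul_le_mul_left h6 hapos
    · have h2 : 256 * (8 * G * q * W' ^ 2) = (2048 * G * W' ^ 2) * q := by ring
      rw [h2, sq (q : ℝ)]
      exact mul_le_mul_of_nonneg_right hqG (by linarith)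
  · -- far from the edge
    push Not at hbn
    have hbnR : (n : ℝ) < ((b : ℝ) + 1) ^ 2 := by exact_mod_cast hbn
    have hcond : (r + 1) * (b + 2) < n := by
      have h1 : 8 * ((r + 1) * (b + 2)) ≤ 5 * (2 * (r + 1) * q) + 32 * (r + 1) := by
        have h2 : 8 * (b + 2) ≤ 10 * q + 32 := by omega
        calc 8 * ((r + 1) * (b + 2)) = (r + 1) * (8 * (b + 2)) := by ring
          _ ≤ (r + 1) * (10 * q + 32) := Nat.mul_le_mul_left _ h2
          _ = _ := by ring
      omega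
    have h1 := hlow n b hcond
    have hs := hsg n
    set L : ℝ := 1 + Real.log ((n : ℝ) + 1) with hL
    have hL1 : 1 ≤ L := by
      have : 0 ≤ Real.log ((n : ℝ) + 1) := Real.log_nonneg (by linarith)
      linarith
    have hn1 : (0 : ℝ) < (n : ℝ) + 1 := by linarith
    apply fin (4 * L / κ) (by positivity)
    · have h2 : (κ * ((n : ℝ) + 1)) * (((a : ℝ) + 1) * (gr r n b * gr r n (a + 1))) ≤
          ((b : ℝ) + 1) * (((n : ℝ) + 1) * L) * (gr r n (b + 1) * gr r n a) := by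
        calc (κ * ((n : ℝ) + 1)) * (((a : ℝ) + 1) * (gr r n b * gr r n (a + 1))) =
              (κ * ((n : ℝ) + 1) * gr r n b) * (((a : ℝ) + 1) * gr r n (a + 1)) := by ring
          _ ≤ (((b : ℝ) + 1) * gr r n (b + 1)) * (sg r n * gr r n a) :=
              mul_le_mul h1 hupa (by positivity) (by positivity)
          _ = (((b : ℝ) + 1) * (gr r n (b + 1) * gr r n a)) * sg r n := by ring
          _ ≤ (((b : ℝ) + 1) * (gr r n (b + 1) * gr r n a)) * (((n : ℝ) + 1) * L) :=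
              mul_le_mul_of_nonneg_left hs (by positivity)
          _ = _ := by ring
      have h3 : ((b : ℝ) + 1) ≤ 4 * ((a : ℝ) + 1) := by linarith
      have hP : 0 ≤ gr r n (b + 1) * gr r n a := by positivity
      have h4 : ((b : ℝ) + 1) * (((n : ℝ) + 1) * L) * (gr r n (b + 1) * gr r n a) ≤
          (4 * ((a : ℝ) + 1)) * (((n : ℝ) + 1) * L) * (gr r n (b + 1) * gr r n a) := by
        apply mul_le_mul_of_nonneg_right _ hP
        exact mul_le_mul_of_nonneg_right h3 (by positivity)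
      have h5 : (κ * ((n : ℝ) + 1) * ((a : ℝ) + 1)) * (gr r n b * gr r n (a + 1)) ≤
          (κ * ((n : ℝ) + 1) * ((a : ℝ) + 1)) * (4 * L / κ * (gr r n (b + 1) * gr r n a)) := by
        have e : (κ * ((n : ℝ) + 1) * ((a : ℝ) + 1)) * (4 * L / κ * (gr r n (b + 1) * gr r n a)) =
            (4 * ((a : ℝ) + 1)) * (((n : ℝ) + 1) * L) * (gr r n (b + 1) * gr r n a) := by
          field_simp
        rw [e]
        linarith [h2.trans h4]
      exact le_of_mul_le_mul_left h5 (by positivity)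
    · have h2 : (n : ℝ) ≤ 4 * (q : ℝ) ^ 2 := by
        have h4 : ((b : ℝ) + 1) ^ 2 ≤ (2 * q) ^ 2 := pow_le_pow_left₀ hbpos.le hbq 2
        nlinarith
      have h3 : 256 * (4 * L / κ * W' ^ 2) = 4096 * W' ^ 2 / κ * L / 4 := by
        field_simp
        ring
      rw [h3]
      linarith

end Pool.Agent.H53.ATPR
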