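import Pool.Agent.H53.ATPR.Spec

/-!
# WIN: a lower bound for the variance from a window of ratios
-/

set_option autoImplicit false

namespace Pool.Agent.H53.ATPR

private lemma win_vs_nonneg (y : ℕ → ℕ → ℝ) (hy : ∀ n i, 0 < y n i) (n : ℕ) (x : ℝ)
    (hx : 0 < x) : 0 ≤ vs y n x := by
  unfold vs
  refine Finset.sum_nonneg fun i _ => ?_
  have := hy n i
  positivity

private lemma win_up (y : ℕ → ℕ → ℝ) (hy : ∀ n i, 0 < y n i) (n : ℕ) (x x' : ℝ)
    (hx : 0 < x) (h : x ≤ x') :
    ms y n x' - ms y n x ≤ (x' / x - 1) * vs y n x := by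
  unfold ms vs
  rw [← Finset.sum_sub_distrib, Finset.mul_sum]
  refine Finset.sum_le_sum fun i _ => ?_
  have ha := hy n i
  generalize y n i = a at ha
  have hx' : 0 < x' := lt_of_lt_of_le hx h
  have h1 : 0 < 1 + a * x := by positivity
  have h2 : 0 < 1 + a * x' := by positivity
  have e : a * x' / (1 + a * x') - a * x / (1 + a * x) =
      a * (x' - x) / ((1 + a * x') * (1 + a * x)) := by
    field_simp
    ring
  have e2 : (x' / x - 1) * (a * x / (1 + a * x) ^ 2) =
      a * (x' - x) / ((1 + a * x) * (1 + a * x)) := by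
    field_simp
  rw [e, e2]
  have h3 : 0 ≤ a * (x' - x) := mul_nonneg ha.le (sub_nonneg.2 h)
  refine div_le_div_of_nonneg_left h3 (by positivity) ?_
  refine mul_le_mul_of_nonneg_right ?_ h1.le
  have := mul_le_mul_of_nonneg_left h ha.le
  linarith

private lemma win_down (y : ℕ → ℕ → ℝ) (hy : ∀ n i, 0 < y n i) (n : ℕ) (x x' : ℝ)
    (hx : 0 < x') (h : x' ≤ x) :
    ms y n x - ms y n x' ≤ (x / x' - 1) * vs y n x := by
  unfold ms vs
  rw [← Finset.sum_sub_distrib, Finset.mul_sum]
  refine Finset.sum_le_sum fun i _ => ?_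
  have ha := hy n i
  generalize y n i = a at ha
  have hx' : 0 < x := lt_of_lt_of_le hx h
  have h1 : 0 < 1 + a * x := by positivity
  have h2 : 0 < 1 + a * x' := by positivity
  have e : a * x / (1 + a * x) - a * x' / (1 + a * x') =
      a * (x - x') / ((1 + a * x) * (1 + a * x')) := by
    field_simp
    ring
  have e2 : (x / x' - 1) * (a * x / (1 + a * x) ^ 2) =
      a * (x - x') / ((1 + a * x) * (x' / x + a * x')) := by
    field_simp
  rw [e, e2]
  have h3 : 0 ≤ a * (x - x') := mul_nonneg ha.le (sub_nonneg.2 h)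
  refine div_le_div_of_nonneg_left h3 (by positivity) ?_
  refine mul_le_mul_of_nonneg_left ?_ h1.le
  have : x' / x ≤ 1 := (div_le_one hx').2 h
  linarith

/-- WIN -/
theorem win : EvSt → MeanSt → LogcSt → WinSt := by
  intro hE hM hL r hr y hY n k J x Q hx hk hJ hn hQ
  obtain ⟨-, -, hE1, -, -⟩ := hE r hr
  obtain ⟨-, -, hmono, -, -⟩ := hM r hr y hY
  have hlc := hL r hr y hY
  have hy : ∀ n i, 0 < y n i := hY.1
  have hv := win_vs_nonneg y hy n x hx
  obtain ⟨p, rfl⟩ : ∃ p, k = p + (J + 3) := ⟨k - (J + 3), by omega⟩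
  have i1 : p + (J + 3) - J - 2 = p + 1 := by omega
  have i2 : p + (J + 3) - J - 3 = p := by omega
  have i3 : p + (J + 3) + J + 2 = p + 2 * J + 5 := by omega
  have i4 : p + (J + 3) + J + 3 = p + 2 * J + 5 + 1 := by omega
  rw [i1, i2, i3, i4] at hQ
  have e0 : 0 < ev r n p := lt_of_lt_of_le one_pos (hE1 n p (by omega))
  have e1 : 0 < ev r n (p + 1) := lt_of_lt_of_le one_pos (hE1 n (p + 1) (by omega))
  have e2 : 0 < ev r n (p + 2 * J + 5) :=
    lt_of_lt_of_le one_pos (hE1 n (p + 2 * J + 5) (by omega))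
  have e3 : 0 < ev r n (p + 2 * J + 5 + 1) :=
    lt_of_lt_of_le one_pos (hE1 n (p + 2 * J + 5 + 1) (by omega))
  have l1 := hlc n p
  have l2 := hlc n (p + 2 * J + 5)
  generalize ev r n p = A at *
  generalize ev r n (p + 1) = B at *
  generalize ev r n (p + 2 * J + 5) = C at *
  generalize ev r n (p + 2 * J + 5 + 1) = D at *
  have x1p : 0 < A / (2 * B) := by positivity
  have x2p : 0 < 2 * C / D := by positivity
  have m1 : ms y n (A / (2 * B)) ≤ (p : ℝ) + 2 := by
    refine (l1 _ x1p (by omega)).1 (le_of_eq ?_)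
    field_simp
  have m2 : ((p + 2 * J + 5 : ℕ) : ℝ) - 1 ≤ ms y n (2 * C / D) := by
    refine (l2 _ x2p (by omega)).2 (le_of_eq ?_)
    field_simp
  push_cast at m2 hk
  have hJ0 : (0 : ℝ) ≤ J := Nat.cast_nonneg J
  have hx1 : A / (2 * B) < x := by
    by_contra hc
    have := hmono n x _ hx (not_lt.1 hc)
    linarith
  have hx2 : x < 2 * C / D := by
    by_contra hc
    have := hmono n _ x x2p (not_lt.1 hc)
    linarith
  have hprod : (2 * C / D / x) * (x / (A / (2 * B))) ≤ 4 * Q := by
    have e : (2 * C / D / x) * (x / (A / (2 * B))) = 4 * (B * C) / (A * D) := by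
      field_simp
      ring
    rw [e, div_le_iff₀ (by positivity)]
    linarith
  have hQ0 : 0 ≤ Q := by
    by_contra hc
    have h1 : 0 < B * C := by positivity
    have h2 : 0 < A * D := by positivity
    have h3 : Q * (A * D) < 0 := mul_neg_of_neg_of_pos (not_le.1 hc) h2
    linarith
  have hs : √Q * √Q = Q := Real.mul_self_sqrt hQ0
  have hs0 : 0 ≤ √Q := Real.sqrt_nonneg Q
  rcases le_or_gt (2 * C / D / x) (2 * √Q) with h | h
  · have h4 := win_up y hy n x (2 * C / D) hx hx2.le
    have h5 : (2 * C / D / x - 1) * vs y n x ≤ 2 * √Q * vs y n x :=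
      mul_le_mul_of_nonneg_right (by linarith) hv
    linarith
  · have h6 : x / (A / (2 * B)) ≤ 2 * √Q := by
      by_contra hc
      have h7 := mul_lt_mul'' h (not_le.1 hc) (by positivity) (by positivity)
      have h8 : 2 * √Q * (2 * √Q) = 4 * (√Q * √Q) := by ring
      rw [h8, hs] at h7
      linarith
    have h4 := win_down y hy n x (A / (2 * B)) x1p hx1.le
    have h5 : (x / (A / (2 * B)) - 1) * vs y n x ≤ 2 * √Q * vs y n x :=
      mul_le_mul_of_nonneg_right (by linarith) hv
    linarith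

end Pool.Agent.H53.ATPR
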